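import Pool.Agent.Lib.MP_266831_co.Order

/-!
# Paths ending at a corner versus ends of the tree (MP_266831_co)
-/

namespace Pool.Agent.Lib.MP_266831_co

open W

variable {p : ℕ} [NeZero p]

namespace W

omit [NeZero p] in
theorem head_mul_gen (x : W p) (s : Fin p) :
    (x * gen s).val.head? = some s ↔ x.val.head? ≠ some s := by
  obtain ⟨l, hl⟩ := x
  rw [mul_gen_val]
  simp only
  cases l with
  | nil => simp [crossL]
  | cons t l =>
    by_cases h : s = t
    · subst h
      rw [crossL_self]
      simp only [List.head?_cons, ne_eq, not_true_eq_false, iff_false]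
      cases l with
      | nil => simp
      | cons u l =>
        have := (List.isChain_cons_cons.1 hl).1
        simpa using this.symm
    · rw [crossL_ne h]
      simp only [List.head?_cons, ne_eq, Option.some.injEq, true_iff]
      exact fun h' => h h'.symm

omit [NeZero p] in
theorem head_gen_mul (x : W p) (s : Fin p) (h1 : x ≠ 1) (h2 : x ≠ gen s) :
    (gen s * x).val.head? = x.val.head? := by
  rcases List.eq_nil_or_concat' x.val with hnil | ⟨l, t, hl⟩
  · exact absurd (W.ext hnil) h1
  · have hlr : (l ++ [t]).IsChain (· ≠ ·) := hl ▸ x.red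
    have hl' : l.IsChain (· ≠ ·) := hlr.left_of_append
    have hx2 : x = gen t * ⟨l, hl'⟩ := by
      rw [← append_val l t hlr hl']; exact W.ext hl
    by_cases hts : s = t
    · subst hts
      have hx3 : gen s * x = ⟨l, hl'⟩ := by rw [hx2, ← mul_assoc, gen_mul_gen, one_mul]
      rw [hx3, hl]
      simp only
      rcases l with _ | ⟨u, l⟩
      · exact absurd (W.ext (by rw [hl, gen_val]; rfl)) h2
      · rfl
    · have hred : ((l ++ [t]) ++ [s]).IsChain (· ≠ ·) := by
        rw [List.isChain_append]
        refine ⟨hlr, List.isChain_singleton s, ?_⟩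
        intro y hy z hz
        simp at hy hz
        subst hy; subst hz
        exact fun h => hts h.symm
      have hx3 : gen s * x = ⟨(l ++ [t]) ++ [s], hred⟩ := by
        rw [append_val _ s hred hlr]
        congr 1
        exact W.ext hl
      rw [hx3, hl]
      simp only
      rcases l with _ | ⟨u, l⟩ <;> rfl

/-- `0` for `h = c`, otherwise whether the direction from `h` to `c` is smaller than `s` -/
noncomputable def Phi (h c : W p) (s : Fin p) : ZMod 2 :=
  ((c⁻¹ * h).val.head?).elim 0 (fun d => ind (d < s))

omit [NeZero p] in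
theorem Phi_self (h : W p) (s : Fin p) : Phi h h s = 0 := by simp [Phi]

omit [NeZero p] in
theorem ne_mul_gen (c : W p) (s : Fin p) : c ≠ c * gen s := by
  intro h
  have h1 := congrArg par h
  rw [par_mul_gen] at h1
  generalize par c = x at h1
  revert x; decide

omit [NeZero p] in
theorem Phi_step (h c : W p) (σ s : Fin p) :
    Phi h (c * gen σ) s + Phi h c s = (ind (h = c) + ind (h = c * gen σ)) * ind (σ < s) := by
  have hne := ne_mul_gen c σ
  by_cases h1 : h = c
  · subst h1
    rw [Phi_self, ind_true rfl, ind_false hne]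
    have : ((h * gen σ)⁻¹ * h).val.head? = some σ := by
      rw [mul_inv_rev, gen_inv, mul_assoc, inv_mul_cancel, mul_one, gen_val]; rfl
    unfold Phi
    rw [this]
    simp
  · by_cases h2 : h = c * gen σ
    · subst h2
      rw [Phi_self, ind_true rfl, ind_false (fun h => hne h.symm)]
      have : (c⁻¹ * (c * gen σ)).val.head? = some σ := by
        rw [inv_mul_cancel_left, gen_val]; rfl
      unfold Phi
      rw [this]
      simp
    · rw [ind_false h1, ind_false h2]
      have h3 : c⁻¹ * h ≠ 1 := fun h3 => h1 (inv_mul_eq_one.1 h3).symm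
      have h4 : c⁻¹ * h ≠ gen σ := fun h4 => h2 (by rw [← h4]; group)
      have h5 : ((c * gen σ)⁻¹ * h).val.head? = (c⁻¹ * h).val.head? := by
        rw [mul_inv_rev, gen_inv, mul_assoc]
        exact head_gen_mul _ σ h3 h4
      have h6 : Phi h (c * gen σ) s = Phi h c s := by unfold Phi; rw [h5]
      rw [h6, zmod2_add_self]; simp

/-- the misalignment of a path ending at the corner `r` of the copy `c` and its end, seen from `h` -/
noncomputable def qq (c : W p) (r : Fin p) (h : W p) : ZMod 2 :=
  ind (cusp c r h = r) + ind ((c⁻¹ * h).val.head? = some r)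

theorem qq_cross (hp : 2 ≤ p) (c : W p) (r : Fin p) (h : W p) :
    qq c r (h * gen r) = qq c r h := by
  have h1 := isEnd_cusp hp c r h r
  have h2 := head_mul_gen (c⁻¹ * h) r
  unfold qq
  rw [← mul_assoc]
  by_cases h3 : cusp c r h = r <;> by_cases h4 : (c⁻¹ * h).val.head? = some r
  · rw [ind_true h3, ind_true h4, ind_false (fun h => h1.1 h h3), ind_false (fun h => h2.1 h h4)]
    decide
  · rw [ind_true h3, ind_false h4, ind_false (fun h => h1.1 h h3), ind_true (h2.2 h4)]
    decide
  · rw [ind_false h3, ind_true h4, ind_true (h1.2 h3), ind_false (fun h => h2.1 h h4)]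
    decide
  · rw [ind_false h3, ind_false h4, ind_true (h1.2 h3), ind_true (h2.2 h4)]
    decide

theorem ar_val (hp : 2 ≤ p) (r : Fin p) : (r - 1).val = if r.val = 0 then p - 1 else r.val - 1 := by
  by_cases h : r.val = 0
  · have h0 : r = 0 := Fin.ext (by rw [h, Fin.val_zero])
    rw [if_pos h, h0]
    have hlt : p - 1 < p := by omega
    have : (0 : Fin p) - 1 = ⟨p - 1, hlt⟩ := by
      rw [sub_eq_iff_eq_add]
      apply Fin.ext
      rw [Fin.val_add, Fin.val_one' p, Fin.val_zero]
      show 0 = (p - 1 + 1 % p) % p
      rw [Nat.add_mod, Nat.mod_mod, ← Nat.add_mod, Nat.sub_add_cancel (by omega)]; simp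
    rw [this]
  · rw [if_neg h]
    have hlt : r.val - 1 < p := by omega
    have : r - 1 = ⟨r.val - 1, hlt⟩ := by
      rw [sub_eq_iff_eq_add]
      apply Fin.ext
      rw [Fin.val_add, Fin.val_one' p]
      show r.val = (r.val - 1 + 1 % p) % p
      rw [Nat.add_mod, Nat.mod_mod, ← Nat.add_mod, Nat.sub_add_cancel (by omega),
        Nat.mod_eq_of_lt r.isLt]
    rw [this]

theorem ar1 (hp : 2 ≤ p) (r s : Fin p) : ind (r ≤ s) + ind (r - 1 < s) = ind (r = 0) := by
  have h1 := ar_val hp r
  have h2 : r = 0 ↔ r.val = 0 := by rw [Fin.ext_iff, Fin.val_zero]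
  have h3 := s.isLt
  simp only [Fin.le_def, Fin.lt_def, h2, ind]
  by_cases hr : r.val = 0
  · rw [if_pos hr] at h1
    rw [if_pos (by omega), if_neg (by omega), if_pos hr]; rfl
  · rw [if_neg hr] at h1
    rw [if_neg hr]
    by_cases h4 : r.val ≤ s.val
    · rw [if_pos h4, if_pos (by omega)]; rfl
    · rw [if_neg h4, if_neg (by omega)]; rfl

omit [NeZero p] in
theorem ar2 (r s : Fin p) : ind (r ≤ s) + ind (r < s) = ind (s = r) := by
  rcases lt_trichotomy r s with h | h | h
  · rw [ind_true h.le, ind_true h, ind_false h.ne']; rfl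
  · rw [ind_true h.le, ind_false (fun h' => h'.ne h), ind_true h.symm]; rfl
  · rw [ind_false h.not_ge, ind_false h.not_gt, ind_false h.ne]; rfl

theorem ar3 (hp : 2 ≤ p) (r a : Fin p) (h : a ≠ r) : ind (r - 1 < a) = ind (r < a) + ind (r = 0) := by
  have h1 := ar1 hp r a
  have h2 := ar2 r a
  rw [ind_false h] at h2
  have e1 := zmod2_add_self (ind (r ≤ a))
  have e2 := zmod2_add_self (ind (r < a))
  linear_combination h1 - h2

theorem not_around (c : W p) (r : Fin p) (h : W p)
    (hall : ¬ ∀ u ∈ (c⁻¹ * h).val, u = r ∨ u = r - 1) :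
    (c⁻¹ * h).val.head? = some (cusp c r h) := by
  unfold cusp
  rw [if_neg hall]
  rcases hv : (c⁻¹ * h).val with _ | ⟨t, l⟩
  · rw [hv] at hall; simp at hall
  · simp

theorem ind_comm_or {r d : Fin p} (hp : 2 ≤ p) (hd : d = r ∨ d = r - 1) (s : Fin p) :
    ind (d < s) = ind (r < s) + (1 + ind (d = r)) * (ind (s = r) + ind (r = 0)) := by
  have hA := sub_one_ne hp r
  rcases hd with rfl | rfl
  · rw [ind_true (rfl : d = d)]
    have : (1 : ZMod 2) + 1 = 0 := by decide
    rw [this]; ring
  · rw [ind_false hA]
    have h1 := ar1 hp r s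
    have h2 := ar2 r s
    have e1 := zmod2_add_self (ind (r ≤ s))
    have e2 := zmod2_add_self (ind (r < s))
    linear_combination h1 + h2 - e1 - e2

/-- comparison of a path ending at the corner `r` of `c` and its end, at walls -/
theorem E_wall (hp : 2 ≤ p) (c : W p) (r : Fin p) (h : W p) (s : Fin p) :
    Phi h c s + ind (h = c) * ind (r ≤ s) =
      ind (cusp c r h < s) + qq c r h * ind (s = r) + (qq c r h + ind (h = c)) * ind (r = 0) := by
  by_cases hall : ∀ u ∈ (c⁻¹ * h).val, u = r ∨ u = r - 1
  · have hf := cusp_mem c r h hall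
    have hcl := ind_comm_or hp hf s
    rcases hv : (c⁻¹ * h).val with _ | ⟨t, l⟩
    · have hx : c⁻¹ * h = 1 := W.ext hv
      have hh : h = c := (inv_mul_eq_one.1 hx).symm
      have h1 : (c⁻¹ * h).val.head? = none := by rw [hv]; rfl
      have h2 := ar2 r s
      unfold Phi qq
      rw [h1, ind_true hh, hcl, ind_false (by simp : ¬ (none = some r))]
      simp only [Option.elim_none, one_mul, zero_add, add_zero]
      clear hcl
      generalize ind (cusp c r h = r) = x
      generalize ind (r ≤ s) = a at *
      generalize ind (r < s) = b at *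
      generalize ind (s = r) = d at *
      generalize ind (r = 0) = e at *
      revert x a b d e
      decide
    · have ht : t = r ∨ t = r - 1 := hall t (by rw [hv]; exact List.mem_cons_self)
      have h1 : (c⁻¹ * h).val.head? = some t := by rw [hv]; rfl
      have hne : h ≠ c := by
        intro h3; rw [h3] at hv; simp at hv
      have h2 := ind_comm_or hp ht s
      have h4 : ind (some t = some r) = ind (t = r) := by simp [ind]
      unfold Phi qq
      rw [h1, ind_false hne, hcl, h4]
      simp only [Option.elim_some]
      rw [h2]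
      clear h2 hcl
      generalize ind (cusp c r h = r) = x
      generalize ind (t = r) = y
      generalize ind (r < s) = b
      generalize ind (s = r) = d
      generalize ind (r = 0) = e
      generalize ind (r ≤ s) = a
      revert x y b d e a
      decide
  · have h1 := not_around c r h hall
    have hne : h ≠ c := by
      intro h3; rw [h3] at h1; simp at h1
    have h4 : ind (some (cusp c r h) = some r) = ind (cusp c r h = r) := by simp [ind]
    unfold Phi qq
    rw [h1, ind_false hne, h4]
    simp only [Option.elim_some]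
    generalize ind (cusp c r h = r) = x
    generalize ind (cusp c r h < s) = b
    generalize ind (s = r) = d
    generalize ind (r = 0) = e
    generalize ind (r ≤ s) = a
    revert x b d e a
    decide

/-- comparison of a path ending at the corner `r` of `c` and its end, at corners -/
theorem E_corner (hp : 2 ≤ p) (c : W p) (r : Fin p) (h : W p) (a : Fin p)
    (ha : (∀ u ∈ (c⁻¹ * h).val, u = r ∨ u = r - 1) → a ≠ r) :
    Phi h c a + ind (h = c) * ind (r < a) =
      ind (cusp c r h < a) + (qq c r h + ind (h = c)) * ind (r = 0) := by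
  have h1 := E_wall hp c r h a
  have h2 := ar2 r a
  by_cases hall : ∀ u ∈ (c⁻¹ * h).val, u = r ∨ u = r - 1
  · rw [ind_false (ha hall)] at h1 h2
    have h3 : ind (r ≤ a) = ind (r < a) := by
      clear h1
      generalize ind (r ≤ a) = x at *
      generalize ind (r < a) = y at *
      revert x y; decide
    rw [h3] at h1
    rw [h1]; ring
  · have h3 := not_around c r h hall
    have hne : h ≠ c := by
      intro h3; rw [h3] at h1; simp_all
    have h4 : ind (some (cusp c r h) = some r) = ind (cusp c r h = r) := by simp [ind]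
    have h5 : qq c r h = 0 := by
      unfold qq
      rw [h3, h4, zmod2_add_self]
    rw [ind_false hne, h5] at h1 ⊢
    simpa using h1

end W

end Pool.Agent.Lib.MP_266831_co
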