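import Pool.Agent.Lib.MP_266831_co.Defs

/-!
# Interleaving chords of a half plane meet
-/

namespace Pool.Agent.Lib.MP_266831_co

open Set

/-- a continuous function with `0 ≤ sin (θ t)` stays in the component `[2πk, 2πk+π]` -/
theorem sin_comp {θ : ℝ → ℝ} {p q : ℝ} (hpq : p ≤ q) (hθ : ContinuousOn θ (Icc p q))
    (hs : ∀ t ∈ Icc p q, 0 ≤ Real.sin (θ t)) (k : ℤ)
    (h0 : θ p ∈ Icc (2 * Real.pi * k) (2 * Real.pi * k + Real.pi)) :
    θ q ∈ Icc (2 * Real.pi * k) (2 * Real.pi * k + Real.pi) := by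
  have hpi := Real.pi_pos
  constructor
  · by_contra hlt
    push Not at hlt
    set w := max (θ q) (2 * Real.pi * k - Real.pi / 2) with hw
    have hw1 : w < 2 * Real.pi * k := max_lt hlt (by linarith)
    have hw2 : 2 * Real.pi * k - Real.pi / 2 ≤ w := le_max_right _ _
    have hmem : w ∈ Icc (θ q) (θ p) := ⟨le_max_left _ _, by linarith [h0.1]⟩
    obtain ⟨t, ht, htw⟩ := intermediate_value_Icc' hpq hθ hmem
    have h1 := hs t ht
    rw [htw] at h1
    have h2 : Real.sin w = Real.sin (w - k * (2 * Real.pi)) := by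
      rw [Real.sin_sub_int_mul_two_pi]
    have h3 : Real.sin (w - k * (2 * Real.pi)) < 0 :=
      Real.sin_neg_of_neg_of_neg_pi_lt (by linarith) (by linarith)
    linarith
  · by_contra hlt
    push Not at hlt
    set w := min (θ q) (2 * Real.pi * k + 3 * Real.pi / 2) with hw
    have hw1 : 2 * Real.pi * k + Real.pi < w := lt_min hlt (by linarith)
    have hw2 : w ≤ 2 * Real.pi * k + 3 * Real.pi / 2 := min_le_right _ _
    have hmem : w ∈ Icc (θ p) (θ q) := ⟨by linarith [h0.2], min_le_left _ _⟩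
    obtain ⟨t, ht, htw⟩ := intermediate_value_Icc hpq hθ hmem
    have h1 := hs t ht
    rw [htw] at h1
    have h2 : Real.sin w = Real.sin (w - (k + 1 : ℤ) * (2 * Real.pi)) := by
      rw [Real.sin_sub_int_mul_two_pi]
    have h3 : Real.sin (w - (k + 1 : ℤ) * (2 * Real.pi)) < 0 := by
      apply Real.sin_neg_of_neg_of_neg_pi_lt
      · push_cast; linarith
      · push_cast; linarith
    linarith

/-- same for `sin (θ t) ≤ 0` and `[2πk-π, 2πk]` -/
theorem sin_comp' {θ : ℝ → ℝ} {p q : ℝ} (hpq : p ≤ q) (hθ : ContinuousOn θ (Icc p q))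
    (hs : ∀ t ∈ Icc p q, Real.sin (θ t) ≤ 0) (k : ℤ)
    (h0 : θ p ∈ Icc (2 * Real.pi * k - Real.pi) (2 * Real.pi * k)) :
    θ q ∈ Icc (2 * Real.pi * k - Real.pi) (2 * Real.pi * k) := by
  have h := sin_comp (θ := fun t => θ t + Real.pi) hpq (hθ.add continuousOn_const)
    (fun t ht => by rw [Real.sin_add_pi]; linarith [hs t ht]) k
    ⟨by linarith [h0.1], by linarith [h0.2]⟩
  exact ⟨by linarith [h.1], by linarith [h.2]⟩

/-- the angle of a positive real -/
theorem angle_pos {θ : ℝ} (hc : 0 < Real.cos θ) (hs : Real.sin θ = 0) :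
    ∃ k : ℤ, θ = 2 * Real.pi * k := by
  obtain ⟨n, hn⟩ := Real.sin_eq_zero_iff.1 hs
  obtain ⟨k, hk⟩ := Int.even_or_odd' n
  rcases hk with hk | hk
  · exact ⟨k, by rw [← hn, hk]; push_cast; ring⟩
  · exfalso
    rw [← hn, hk] at hc
    have : Real.cos (((2 * k + 1 : ℤ) : ℝ) * Real.pi) = -1 := by
      have := Real.cos_int_mul_two_pi_add_pi k
      rw [← this]; congr 1; push_cast; ring
    linarith

/-- the angle of a negative real -/
theorem angle_neg {θ : ℝ} (hc : Real.cos θ < 0) (hs : Real.sin θ = 0) :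
    ∃ k : ℤ, θ = 2 * Real.pi * k + Real.pi := by
  obtain ⟨n, hn⟩ := Real.sin_eq_zero_iff.1 hs
  obtain ⟨k, hk⟩ := Int.even_or_odd' n
  rcases hk with hk | hk
  · exfalso
    rw [← hn, hk] at hc
    have : Real.cos (((2 * k : ℤ) : ℝ) * Real.pi) = 1 := by
      have := Real.cos_int_mul_two_pi k
      rw [← this]; congr 1; push_cast; ring
    linarith
  · exact ⟨k, by rw [← hn, hk]; push_cast; ring⟩

theorem int_le_of_pi {m n : ℤ} (h : (m : ℝ) * Real.pi ≤ n * Real.pi) : m ≤ n := by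
  exact_mod_cast le_of_mul_le_mul_right h Real.pi_pos

/-- Interleaving chords of the upper half plane meet. -/
theorem chords_meet_aux {a b c d : ℝ} (h1 : a < c) (h2 : c < b) (h3 : b < d) {α β : ℝ → ℝ × ℝ}
    {p q r s : ℝ} (hpq : p ≤ q) (hrs : r ≤ s) (hα : ContinuousOn α (Icc p q))
    (hβ : ContinuousOn β (Icc r s)) (hα2 : ∀ t ∈ Icc p q, 0 ≤ (α t).2)
    (hβ2 : ∀ t ∈ Icc r s, 0 ≤ (β t).2) (ha : α p = (a, 0)) (hb : α q = (b, 0)) (hc : β r = (c, 0))
    (hd : β s = (d, 0)) : ∃ t ∈ Icc p q, ∃ u ∈ Icc r s, α t = β u := by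
  have hpi := Real.pi_pos
  by_contra hne
  push Not at hne
  -- the difference map
  let toC : ℝ × ℝ → ℂ := fun x => ⟨x.1, x.2⟩
  have htoC : Continuous toC := by
    have : toC = fun x => (x.1 : ℂ) + (x.2 : ℂ) * Complex.I := by
      funext x
      apply Complex.ext <;> simp [toC]
    rw [this]; fun_prop
  have hα' : Continuous (fun t : ℝ => α (projIcc p q hpq t)) :=
    (continuousOn_iff_continuous_domRestrict.1 hα).comp continuous_projIcc
  have hβ' : Continuous (fun t : ℝ => β (projIcc r s hrs t)) :=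
    (continuousOn_iff_continuous_domRestrict.1 hβ).comp continuous_projIcc
  let F : C(ℝ × ℝ, ℂ) := ⟨fun x => toC (α (projIcc p q hpq x.1)) - toC (β (projIcc r s hrs x.2)), by
    exact (htoC.comp (hα'.comp continuous_fst)).sub (htoC.comp (hβ'.comp continuous_snd))⟩
  have hF0 : ∀ x, F x ∈ ({0}ᶜ : Set ℂ) := by
    intro x hx
    have hx' : toC (α (projIcc p q hpq x.1)) - toC (β (projIcc r s hrs x.2)) = 0 := hx
    rw [sub_eq_zero] at hx'
    have e1 := congrArg Complex.re hx'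
    have e2 := congrArg Complex.im hx'
    exact hne _ (projIcc p q hpq x.1).2 _ (projIcc r s hrs x.2).2 (Prod.ext e1 e2)
  obtain ⟨L, ⟨-, hL⟩, -⟩ := Complex.isCoveringMapOn_exp.existsUnique_continuousMap_lifts F
    (a₀ := ((p, r) : ℝ × ℝ)) (e₀ := Complex.log (F (p, r))) (Complex.exp_log (hF0 _)) hF0
  have hL' : ∀ x, Complex.exp (L x) = F x := fun x => congrFun hL x
  -- values
  have hre : ∀ t ∈ Icc p q, ∀ u ∈ Icc r s, (F (t, u)).re = (α t).1 - (β u).1 := by
    intro t ht u hu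
    change (toC (α (projIcc p q hpq t)) - toC (β (projIcc r s hrs u))).re = _
    rw [projIcc_of_mem hpq ht, projIcc_of_mem hrs hu]; rfl
  have him : ∀ t ∈ Icc p q, ∀ u ∈ Icc r s, (F (t, u)).im = (α t).2 - (β u).2 := by
    intro t ht u hu
    change (toC (α (projIcc p q hpq t)) - toC (β (projIcc r s hrs u))).im = _
    rw [projIcc_of_mem hpq ht, projIcc_of_mem hrs hu]; rfl
  have hpm : p ∈ Icc p q := ⟨le_refl _, hpq⟩
  have hqm : q ∈ Icc p q := ⟨hpq, le_refl _⟩
  have hrm : r ∈ Icc r s := ⟨le_refl _, hrs⟩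
  have hsm : s ∈ Icc r s := ⟨hrs, le_refl _⟩
  have hsin : ∀ x, 0 ≤ (F x).im → 0 ≤ Real.sin (L x).im := by
    intro x hx
    rw [← hL' x, Complex.exp_im] at hx
    exact nonneg_of_mul_nonneg_right hx (Real.exp_pos _)
  have hsin' : ∀ x, (F x).im ≤ 0 → Real.sin (L x).im ≤ 0 := by
    intro x hx
    rw [← hL' x, Complex.exp_im] at hx
    by_contra h
    push Not at h
    have := mul_pos (Real.exp_pos (L x).re) h
    linarith
  have hcos : ∀ x, 0 < (F x).re → 0 < Real.cos (L x).im := by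
    intro x hx
    rw [← hL' x, Complex.exp_re] at hx
    exact (pos_iff_pos_of_mul_pos hx).1 (Real.exp_pos _)
  have hcos' : ∀ x, (F x).re < 0 → Real.cos (L x).im < 0 := by
    intro x hx
    rw [← hL' x, Complex.exp_re] at hx
    by_contra h
    push Not at h
    have := mul_nonneg (Real.exp_pos (L x).re).le h
    linarith
  have hLc : Continuous fun x => (L x).im := Complex.continuous_im.comp L.continuous
  have hsin0 : ∀ x, (F x).im = 0 → Real.sin (L x).im = 0 := fun x hx =>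
    le_antisymm (hsin' x hx.le) (hsin x hx.ge)
  -- the corners
  obtain ⟨k, hk⟩ : ∃ k : ℤ, (L (p, r)).im = 2 * Real.pi * k + Real.pi := by
    apply angle_neg
    · apply hcos'; rw [hre p hpm r hrm, ha, hc]; simpa using h1
    · apply hsin0; rw [him p hpm r hrm, ha, hc]; simp
  obtain ⟨k2, hk2⟩ : ∃ k : ℤ, (L (q, r)).im = 2 * Real.pi * k := by
    apply angle_pos
    · apply hcos; rw [hre q hqm r hrm, hb, hc]; simpa using h2
    · apply hsin0; rw [him q hqm r hrm, hb, hc]; simp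
  obtain ⟨k3, hk3⟩ : ∃ k : ℤ, (L (q, s)).im = 2 * Real.pi * k + Real.pi := by
    apply angle_neg
    · apply hcos'; rw [hre q hqm s hsm, hb, hd]; simpa using h3
    · apply hsin0; rw [him q hqm s hsm, hb, hd]; simp
  obtain ⟨k4, hk4⟩ : ∃ k : ℤ, (L (p, s)).im = 2 * Real.pi * k + Real.pi := by
    apply angle_neg
    · apply hcos'; rw [hre p hpm s hsm, ha, hd]; simp only; linarith
    · apply hsin0; rw [him p hpm s hsm, ha, hd]; simp
  -- the sides
  have s1 := sin_comp (θ := fun t => (L (t, r)).im) hpq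
    (hLc.comp (continuous_id.prodMk continuous_const)).continuousOn
    (fun t ht => hsin _ (by rw [him t ht r hrm, hc]; simpa using hα2 t ht)) k
    (by rw [hk]; constructor <;> linarith)
  have s2 := sin_comp' (θ := fun u => (L (q, u)).im) hrs
    (hLc.comp (continuous_const.prodMk continuous_id)).continuousOn
    (fun u hu => hsin' _ (by rw [him q hqm u hu, hb]; simpa using hβ2 u hu)) k2
    (by rw [hk2]; constructor <;> linarith)
  have s3 := sin_comp (θ := fun t => (L (t, s)).im) hpq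
    (hLc.comp (continuous_id.prodMk continuous_const)).continuousOn
    (fun t ht => hsin _ (by rw [him t ht s hsm, hd]; simpa using hα2 t ht)) k4
    (by rw [hk4]; constructor <;> linarith)
  have s4 := sin_comp' (θ := fun u => (L (p, u)).im) hrs
    (hLc.comp (continuous_const.prodMk continuous_id)).continuousOn
    (fun u hu => hsin' _ (by rw [him p hpm u hu, ha]; simpa using hβ2 u hu)) (k + 1)
    (by rw [hk]; push_cast; constructor <;> linarith)
  rw [hk2] at s1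
  rw [hk3] at s2 s3
  rw [hk4] at s4
  have a1 : (2 * k : ℤ) ≤ 2 * k2 := int_le_of_pi (by push_cast; linarith [s1.1])
  have a2 : (2 * k2 : ℤ) ≤ 2 * k + 1 := int_le_of_pi (by push_cast; linarith [s1.2])
  have a3 : (2 * k2 - 1 : ℤ) ≤ 2 * k3 + 1 := int_le_of_pi (by push_cast; linarith [s2.1])
  have a4 : (2 * k3 + 1 : ℤ) ≤ 2 * k2 := int_le_of_pi (by push_cast; linarith [s2.2])
  have a5 : (2 * k4 : ℤ) ≤ 2 * k3 + 1 := int_le_of_pi (by push_cast; linarith [s3.1])
  have a6 : (2 * k3 + 1 : ℤ) ≤ 2 * k4 + 1 := int_le_of_pi (by push_cast; linarith [s3.2])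
  have a7 : (2 * (k + 1) - 1 : ℤ) ≤ 2 * k4 + 1 := int_le_of_pi (by
    have := s4.1; push_cast at this ⊢; linarith)
  omega

/-- Interleaving chords of the upper half plane meet: version with arbitrary orientations. -/
theorem chords_meet_up {a b c d : ℝ} (h : Inter a b c d) {α β : ℝ → ℝ × ℝ}
    {p q r s : ℝ} (hpq : p ≤ q) (hrs : r ≤ s) (hα : ContinuousOn α (Icc p q))
    (hβ : ContinuousOn β (Icc r s)) (hα2 : ∀ t ∈ Icc p q, 0 ≤ (α t).2)
    (hβ2 : ∀ t ∈ Icc r s, 0 ≤ (β t).2) (ha : α p = (a, 0)) (hb : α q = (b, 0)) (hc : β r = (c, 0))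
    (hd : β s = (d, 0)) : ∃ t ∈ Icc p q, ∃ u ∈ Icc r s, α t = β u := by
  -- reversing a path
  have key : ∀ (a b : ℝ) (α : ℝ → ℝ × ℝ), ContinuousOn α (Icc p q) → (∀ t ∈ Icc p q, 0 ≤ (α t).2) →
      α p = (a, 0) → α q = (b, 0) → ∃ α' : ℝ → ℝ × ℝ, ContinuousOn α' (Icc p q) ∧
      (∀ t ∈ Icc p q, 0 ≤ (α' t).2) ∧ α' p = (min a b, 0) ∧ α' q = (max a b, 0) ∧
      ∀ t ∈ Icc p q, ∃ t' ∈ Icc p q, α' t = α t' := by
    intro a b α hα hα2 ha hb
    rcases le_total a b with hab | hab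
    · exact ⟨α, hα, hα2, by rw [min_eq_left hab, ha], by rw [max_eq_right hab, hb],
        fun t ht => ⟨t, ht, rfl⟩⟩
    · have hm : ∀ t ∈ Icc p q, p + q - t ∈ Icc p q := fun t ht =>
        ⟨by linarith [ht.2], by linarith [ht.1]⟩
      refine ⟨fun t => α (p + q - t), ?_, fun t ht => hα2 _ (hm t ht), ?_, ?_, fun t ht =>
        ⟨_, hm t ht, rfl⟩⟩
      · exact hα.comp (by fun_prop) (fun t ht => hm t ht)
      · simp only [add_sub_cancel_left]; rw [min_eq_right hab, hb]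
      · simp only [add_sub_cancel_right]; rw [max_eq_left hab, ha]
  have key2 : ∀ (a b : ℝ) (α : ℝ → ℝ × ℝ), ContinuousOn α (Icc r s) → (∀ t ∈ Icc r s, 0 ≤ (α t).2) →
      α r = (a, 0) → α s = (b, 0) → ∃ α' : ℝ → ℝ × ℝ, ContinuousOn α' (Icc r s) ∧
      (∀ t ∈ Icc r s, 0 ≤ (α' t).2) ∧ α' r = (min a b, 0) ∧ α' s = (max a b, 0) ∧
      ∀ t ∈ Icc r s, ∃ t' ∈ Icc r s, α' t = α t' := by
    intro a b α hα hα2 ha hb
    rcases le_total a b with hab | hab
    · exact ⟨α, hα, hα2, by rw [min_eq_left hab, ha], by rw [max_eq_right hab, hb],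
        fun t ht => ⟨t, ht, rfl⟩⟩
    · have hm : ∀ t ∈ Icc r s, r + s - t ∈ Icc r s := fun t ht =>
        ⟨by linarith [ht.2], by linarith [ht.1]⟩
      refine ⟨fun t => α (r + s - t), ?_, fun t ht => hα2 _ (hm t ht), ?_, ?_, fun t ht =>
        ⟨_, hm t ht, rfl⟩⟩
      · exact hα.comp (by fun_prop) (fun t ht => hm t ht)
      · simp only [add_sub_cancel_left]; rw [min_eq_right hab, hb]
      · simp only [add_sub_cancel_right]; rw [max_eq_left hab, ha]
  obtain ⟨α', h1, h2, h3, h4, h5⟩ := key a b α hα hα2 ha hb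
  obtain ⟨β', k1, k2, k3, k4, k5⟩ := key2 c d β hβ hβ2 hc hd
  rcases h with ⟨i1, i2, i3⟩ | ⟨i1, i2, i3⟩
  · obtain ⟨t, ht, u, hu, e⟩ := chords_meet_aux i1 i2 i3 hpq hrs h1 k1 h2 k2 h3 h4 k3 k4
    obtain ⟨t', ht', e1⟩ := h5 t ht
    obtain ⟨u', hu', e2⟩ := k5 u hu
    exact ⟨t', ht', u', hu', by rw [← e1, ← e2, e]⟩
  · obtain ⟨u, hu, t, ht, e⟩ := chords_meet_aux i1 i2 i3 hrs hpq k1 h1 k2 h2 k3 k4 h3 h4
    obtain ⟨t', ht', e1⟩ := h5 t ht
    obtain ⟨u', hu', e2⟩ := k5 u hu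
    exact ⟨t', ht', u', hu', by rw [← e1, ← e2, e]⟩

/-- Interleaving chords of the same (upper: `ε = 1`, lower: `ε = -1`) half plane meet. -/
theorem chords_meet {a b c d : ℝ} (h : Inter a b c d) (ε : ℝ) (hε : ε ≠ 0) {α β : ℝ → ℝ × ℝ}
    {p q r s : ℝ} (hpq : p ≤ q) (hrs : r ≤ s) (hα : ContinuousOn α (Icc p q))
    (hβ : ContinuousOn β (Icc r s)) (hα2 : ∀ t ∈ Icc p q, 0 ≤ ε * (α t).2)
    (hβ2 : ∀ t ∈ Icc r s, 0 ≤ ε * (β t).2) (ha : α p = (a, 0)) (hb : α q = (b, 0))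
    (hc : β r = (c, 0)) (hd : β s = (d, 0)) : ∃ t ∈ Icc p q, ∃ u ∈ Icc r s, α t = β u := by
  obtain ⟨t, ht, u, hu, e⟩ := chords_meet_up (α := fun t => ((α t).1, ε * (α t).2))
    (β := fun t => ((β t).1, ε * (β t).2)) h hpq hrs
    ((continuous_fst.comp_continuousOn hα).prodMk
      (continuousOn_const.mul (continuous_snd.comp_continuousOn hα)))
    ((continuous_fst.comp_continuousOn hβ).prodMk
      (continuousOn_const.mul (continuous_snd.comp_continuousOn hβ)))
    hα2 hβ2 (by simp [ha]) (by simp [hb]) (by simp [hc]) (by simp [hd])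
  refine ⟨t, ht, u, hu, ?_⟩
  simp only [Prod.mk.injEq] at e
  exact Prod.ext e.1 (mul_left_cancel₀ hε e.2)

end Pool.Agent.Lib.MP_266831_co
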