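import Pool.Agent.Lib.MP_266831_co.Ends

/-!
# The potential of a pair of ends and the hexagon identity (MP_266831_co)
-/

namespace Pool.Agent.Lib.MP_266831_co

namespace W

variable {p : ℕ}

/-- indicator in `ZMod 2` -/
def ind (P : Prop) [Decidable P] : ZMod 2 := if P then 1 else 0

theorem ind_true {P : Prop} [Decidable P] (h : P) : ind P = 1 := if_pos h
theorem ind_false {P : Prop} [Decidable P] (h : ¬ P) : ind P = 0 := if_neg h

/-- the offset of the potential -/
def offL (f : W p → Fin p) : List (Fin p) → ZMod 2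
  | [] => 0
  | s :: l => offL f l + ind (f (ev 1 l) < s) + ind (f (step s (ev 1 l)) < s)

/-- the offset of the potential -/
def off (f : W p → Fin p) (k : W p) : ZMod 2 := offL f k.val

theorem off_one (f : W p → Fin p) : off f 1 = 0 := rfl

theorem off_mul_gen (f : W p → Fin p) (k : W p) (s : Fin p) :
    off f (k * gen s) = off f k + ind (f k < s) + ind (f (k * gen s) < s) := by
  obtain ⟨l, hl⟩ := k
  have hev : ∀ (m : List (Fin p)) (hm : m.IsChain (· ≠ ·)), ev (1 : W p) m = ⟨m, hm⟩ :=
    fun m hm => ev_one ⟨m, hm⟩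
  rcases l with _ | ⟨t, l⟩
  · have h1 : (⟨[], hl⟩ : W p) = 1 := rfl
    rw [h1]
    show offL f (1 * gen s : W p).val = _
    rw [one_mul, gen_val]
    simp only [offL, off_one]
    rfl
  · by_cases hst : s = t
    · subst hst
      have h1 : (⟨s :: l, hl⟩ : W p) * gen s = ⟨l, hl.tail⟩ := by
        apply W.ext; rw [mul_gen_val]; exact crossL_self s l
      rw [h1]
      have h2 : off f (⟨s :: l, hl⟩ : W p) = offL f l + ind (f (ev 1 l) < s) +
          ind (f (step s (ev 1 l)) < s) := rfl
      have h3 : off f (⟨l, hl.tail⟩ : W p) = offL f l := rfl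
      have h4 : step s (⟨l, hl.tail⟩ : W p) = ⟨s :: l, hl⟩ := mul_gen_of_red l s hl
      rw [h2, h3, hev l hl.tail, h4]
      generalize offL f l = a
      generalize ind (f (⟨l, hl.tail⟩ : W p) < s) = b
      generalize ind (f (⟨s :: l, hl⟩ : W p) < s) = c
      revert a b c; decide
    · have h1 : ((⟨t :: l, hl⟩ : W p) * gen s).val = s :: t :: l := by
        rw [mul_gen_val]; exact crossL_ne hst l
      have h2 : off f ((⟨t :: l, hl⟩ : W p) * gen s) = offL f (s :: t :: l) := by
        rw [off, h1]
      rw [h2]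
      have h3 : offL f (s :: t :: l) = offL f (t :: l) + ind (f (ev 1 (t :: l)) < s) +
          ind (f (step s (ev 1 (t :: l))) < s) := rfl
      rw [h3, hev (t :: l) hl]
      rfl

/-- the potential of one end (only sums over two ends are meaningful) -/
def spot (f : W p → Fin p) (k : W p) (r : Fin p) : ZMod 2 := off f k + ind (f k < r)

/-- corner `s` of the wall `s` -/
theorem spot_cross (f : W p → Fin p) (k : W p) (s : Fin p) :
    spot f (k * gen s) s = spot f k s := by
  unfold spot
  rw [off_mul_gen]
  generalize off f k = a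
  generalize ind (f k < s) = b
  generalize ind (f (k * gen s) < s) = c
  revert a b c; decide

section

variable [NeZero p]

theorem lt_add_one_iff (u s : Fin p) (hs : s + 1 ≠ 0) : u < s + 1 ↔ u < s ∨ u = s := by
  have hs' : ((s + 1 : Fin p) : ℕ) = s.val + 1 := by
    rcases Nat.lt_or_ge (s.val + 1) p with h | h
    · rw [Fin.val_add, Fin.val_one' p]
      rw [Nat.add_mod, Nat.mod_mod, ← Nat.add_mod, Nat.mod_eq_of_lt h]
    · exfalso
      apply hs
      apply Fin.ext
      have hp : s.val + 1 = p := by have := s.isLt; omega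
      rw [Fin.val_add, Fin.val_one' p, Nat.add_mod, Nat.mod_mod, ← Nat.add_mod, hp]
      simp
  rw [Fin.lt_def, Fin.lt_def, hs', Fin.ext_iff]
  omega

theorem eq_of_add_one_eq_zero (s : Fin p) (hs : s + 1 = 0) : s.val + 1 = p := by
  rcases Nat.lt_or_ge (s.val + 1) p with h | h
  · have h1 : ((s + 1 : Fin p) : ℕ) = s.val + 1 := by
      rw [Fin.val_add, Fin.val_one' p]
      rw [Nat.add_mod, Nat.mod_mod, ← Nat.add_mod, Nat.mod_eq_of_lt h]
    rw [hs, Fin.val_zero] at h1
    omega
  · have := s.isLt; omega

/-- along a copy -/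
theorem ind_succ (u s : Fin p) : ind (u < s + 1) = ind (u < s) + ind (u = s) + ind (s + 1 = 0) := by
  by_cases hs : s + 1 = 0
  · have h1 := eq_of_add_one_eq_zero s hs
    rw [ind_true hs, hs]
    have h2 : ¬ u < (0 : Fin p) := by simp
    rw [ind_false h2]
    rcases lt_trichotomy u s with h | h | h
    · rw [ind_true h, ind_false h.ne]; rfl
    · rw [ind_false (by rw [h]; exact lt_irrefl s), ind_true h]; rfl
    · exfalso
      rw [Fin.lt_def] at h
      have := u.isLt
      omega
  · rw [ind_false hs, add_zero]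
    have h1 := lt_add_one_iff u s hs
    by_cases h2 : u < s
    · rw [ind_true (h1.2 (Or.inl h2)), ind_true h2, ind_false h2.ne]; rfl
    · by_cases h3 : u = s
      · rw [ind_true (h1.2 (Or.inr h3)), ind_false h2, ind_true h3]; rfl
      · rw [ind_false (fun h => (h1.1 h).elim h2 h3), ind_false h2, ind_false h3]; rfl

theorem spot_succ (f : W p → Fin p) (k : W p) (s : Fin p) :
    spot f k (s + 1) = spot f k s + ind (f k = s) + ind (s + 1 = 0) := by
  unfold spot
  rw [ind_succ]; ring

/-- corner `s + 1` of the wall `s` -/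
theorem spot_cross' {f : W p → Fin p} (hf : IsEnd f) (k : W p) (s : Fin p) :
    spot f (k * gen s) (s + 1) = spot f k (s + 1) + 1 := by
  rw [spot_succ, spot_succ, spot_cross]
  have h1 : ind (f (k * gen s) = s) = ind (f k = s) + 1 := by
    by_cases h : f k = s
    · rw [ind_true h, ind_false (fun h' => (hf k s).1 h' h)]; rfl
    · rw [ind_false h, ind_true ((hf k s).2 h)]; rfl
  rw [h1]; ring

/-- the potential of a pair of ends -/
def Spot (f f' : W p → Fin p) (k : W p) (r : Fin p) : ZMod 2 := spot f k r + spot f' k r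

theorem add_self (a : ZMod 2) : a + a = 0 := zmod2_add_self a

theorem Spot_cross {f f' : W p → Fin p} (hf : IsEnd f) (hf' : IsEnd f') (k : W p) (a s : Fin p)
    (hs : s = a ∨ s = a - 1) : Spot f f' (k * gen s) a = Spot f f' k a := by
  unfold Spot
  rcases hs with rfl | rfl
  · rw [spot_cross, spot_cross]
  · have h1 := spot_cross' hf k (a - 1)
    have h2 := spot_cross' hf' k (a - 1)
    rw [sub_add_cancel] at h1 h2
    rw [h1, h2]
    have : (1 : ZMod 2) + 1 = 0 := by decide
    linear_combination this

theorem Spot_succ (f f' : W p → Fin p) (k : W p) (s : Fin p) :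
    Spot f f' k (s + 1) = Spot f f' k s + ind (f k = s) + ind (f' k = s) := by
  unfold Spot
  rw [spot_succ, spot_succ]
  have := add_self (ind (s + 1 = (0 : Fin p)))
  linear_combination this

theorem Spot_around {f f' : W p → Fin p} (hf : IsEnd f) (hf' : IsEnd f') (k : W p) (a : Fin p)
    (x : W p) (hall : ∀ c ∈ x.val, c = a ∨ c = a - 1) : Spot f f' (k * x) a = Spot f f' k a := by
  obtain ⟨l, hl⟩ := x
  induction l with
  | nil => exact congrArg (fun z => Spot f f' z a) (mul_one k)
  | cons s l ih =>
    rw [← mul_gen_of_red l s hl, ← mul_assoc, Spot_cross hf hf' _ a s (hall s List.mem_cons_self)]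
    exact ih hl.tail (fun c hc => hall c (List.mem_cons_of_mem _ hc))

omit [NeZero p] in
/-- constancy on the far side of a wall not used by the ends -/
theorem Spot_const {f f' : W p → Fin p} (h : W p) (d : Fin p) (h1 : f h = d) (h2 : f' h = d)
    (r r' : Fin p) : Spot f f' h r = Spot f f' h r' := by
  unfold Spot spot
  rw [h1, h2]
  have e1 := add_self (ind (d < r))
  have e2 := add_self (ind (d < r'))
  linear_combination e1 - e2

theorem Spot_far (hp : 2 ≤ p) {f f' : W p → Fin p} (hf : IsEnd f) (hf' : IsEnd f') (k : W p)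
    (a : Fin p) : ∀ (n : ℕ) (h : W p), (k⁻¹ * h).val.length = n →
    f h ≠ cusp k a h → f' h ≠ cusp k a h → Spot f f' k a = Spot f f' h (cusp k a h) := by
  have hC := isEnd_cusp hp k a
  intro n
  induction n with
  | zero =>
    intro h hn h1 h2
    have hx : k⁻¹ * h = 1 := W.ext (List.eq_nil_of_length_eq_zero hn)
    have hh : k = h := inv_mul_eq_one.1 hx
    subst hh
    have hall : ∀ c ∈ (k⁻¹ * k).val, c = a ∨ c = a - 1 := by rw [hx]; simp
    rcases cusp_mem k a k hall with h3 | h3
    · rw [h3]
    · rw [h3] at h1 h2 ⊢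
      have := Spot_succ f f' k (a - 1)
      rw [sub_add_cancel, ind_false h1, ind_false h2, add_zero, add_zero] at this
      exact this
  | succ n ih =>
    intro h hn h1 h2
    by_cases hall : ∀ c ∈ (k⁻¹ * h).val, c = a ∨ c = a - 1
    · have h4 := Spot_around hf hf' k a (k⁻¹ * h) hall
      rw [mul_inv_cancel_left] at h4
      rw [← h4]
      rcases cusp_mem k a h hall with h3 | h3
      · rw [h3]
      · rw [h3] at h1 h2 ⊢
        have := Spot_succ f f' h (a - 1)
        rw [sub_add_cancel, ind_false h1, ind_false h2, add_zero, add_zero] at this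
        exact this
    · set d := cusp k a h with hd
      have hd' : d = (k⁻¹ * h).val.headD a := by
        rw [hd]; unfold cusp; rw [if_neg hall]
      have e1 : f (h * gen d) = d := (hf h d).2 h1
      have e2 : f' (h * gen d) = d := (hf' h d).2 h2
      have e3 : cusp k a (h * gen d) ≠ d := fun h' => (hC h d).1 h' hd.symm
      have hlen : (k⁻¹ * (h * gen d)).val.length = n := by
        rw [← mul_assoc, mul_gen_val]
        rcases hv : (k⁻¹ * h).val with _ | ⟨t, l⟩
        · rw [hv] at hn; simp at hn
        · rw [hv] at hd' hn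
          rw [List.headD_cons] at hd'
          rw [hd', crossL_self]
          simpa using hn
      have e4 := ih (h * gen d) hlen (by rw [e1]; exact e3.symm) (by rw [e2]; exact e3.symm)
      rw [e4, Spot_const (h * gen d) d e1 e2 _ d, Spot_cross hf hf' h d d (Or.inl rfl)]

/-- hexagon identity -/
theorem hexagon (hp : 2 ≤ p) (b : W p × Fin p) (k : Fin 3 → W p) (a : Fin 3 → Fin p)
    (f : Fin 3 → W p → Fin p) (hf : ∀ j, IsEnd (f j))
    (hv : ∀ i, pos b (cusp (k i) (a i)) = i) (hy : ∀ j, pos b (f j) = j)
    (X : Fin 3 → Fin 3 → ZMod 2) (κ : Fin 3 → ZMod 2)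
    (hX : ∀ i j j', i ≠ j → i ≠ j' → j ≠ j' →
      X i j + X i j' = κ j + κ j' + Spot (f j) (f j') (k i) (a i)) :
    hex X = 1 := by
  obtain ⟨h, r⟩ := b
  set d : Fin 3 → Fin p := fun i => cusp (k i) (a i) h with hd
  have hne : ∀ i j, i ≠ j → f j h ≠ d i := by
    intro i j hij heq
    apply hij
    rw [← hv i, ← hy j]
    simp only [pos]
    rw [heq]
  have hS : ∀ i j j', i ≠ j → i ≠ j' → Spot (f j) (f j') (k i) (a i) =
      off (f j) h + off (f j') h + ind (f j h < d i) + ind (f j' h < d i) := by
    intro i j j' hij hij'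
    rw [Spot_far hp (hf j) (hf j') (k i) (a i) _ h rfl (hne i j hij) (hne i j' hij')]
    simp only [Spot, spot, hd]
    ring
  have hpos : ∀ x : Fin p, (cmp3 x r = 0 → x < r) ∧ (cmp3 x r = 1 → x = r) ∧
      (cmp3 x r = 2 → r < x) := by
    intro x
    unfold cmp3
    refine ⟨?_, ?_, ?_⟩
    · split_ifs with h1 h2
      · intro _; exact h1
      · intro h; exact absurd h (by decide)
      · intro h; exact absurd h (by decide)
    · split_ifs with h1 h2
      · intro h; exact absurd h (by decide)
      · intro _; exact h2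
      · intro h; exact absurd h (by decide)
    · split_ifs with h1 h2
      · intro h; exact absurd h (by decide)
      · intro h; exact absurd h (by decide)
      · intro _; exact lt_of_le_of_ne (not_lt.1 h1) (fun h => h2 h.symm)
  have d0 : d 0 < r := (hpos _).1 (hv 0)
  have d1 : d 1 = r := (hpos _).2.1 (hv 1)
  have d2 : r < d 2 := (hpos _).2.2 (hv 2)
  have f0 : f 0 h < r := (hpos _).1 (hy 0)
  have f1 : f 1 h = r := (hpos _).2.1 (hy 1)
  have f2 : r < f 2 h := (hpos _).2.2 (hy 2)
  have x0 := hX 0 1 2 (by decide) (by decide) (by decide)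
  have x1 := hX 1 0 2 (by decide) (by decide) (by decide)
  have x2 := hX 2 0 1 (by decide) (by decide) (by decide)
  rw [hS 0 1 2 (by decide) (by decide)] at x0
  rw [hS 1 0 2 (by decide) (by decide)] at x1
  rw [hS 2 0 1 (by decide) (by decide)] at x2
  rw [ind_false (by rw [f1]; exact d0.not_gt), ind_false ((d0.trans f2).not_gt)] at x0
  rw [ind_true (by rw [d1]; exact f0), ind_false (by rw [d1]; exact f2.not_gt)] at x1
  rw [ind_true (f0.trans d2), ind_true (by rw [f1]; exact d2)] at x2
  have hex' : hex X = (X 0 1 + X 0 2) + (X 1 0 + X 1 2) + (X 2 0 + X 2 1) := by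
    unfold hex; ring
  rw [hex', x0, x1, x2]
  generalize κ 0 = a0
  generalize κ 1 = a1
  generalize κ 2 = a2
  generalize off (f 0) h = b0
  generalize off (f 1) h = b1
  generalize off (f 2) h = b2
  revert a0 a1 a2 b0 b1 b2
  decide

end

end W

end Pool.Agent.Lib.MP_266831_co
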