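import Pool.Agent.Lib.MP_266831_co.Defs
import Pool.Agent.Lib.MP_266831_co.Potential

/-!
# Copies of half planes along an axis path (MP_266831_co)

`P : Fin p → ℝ` are the punctures on the axis. The axis minus the punctures consists of `p` walls (the
two unbounded gaps form one wall, number `p - 1`).
-/

namespace Pool.Agent.Lib.MP_266831_co

open W

variable {p : ℕ} [NeZero p]

/-- the number of punctures to the left of `ζ` -/
noncomputable def leftCount (P : Fin p → ℝ) (ζ : ℝ) : ℕ :=
  (Finset.univ.filter (fun a => P a < ζ)).card

/-- the wall which contains `ζ` -/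
noncomputable def wall (P : Fin p → ℝ) (ζ : ℝ) : Fin p := Fin.ofNat p (leftCount P ζ) - 1

/-- the corner (rank) of the puncture `a`; it is between the walls `corner - 1` and `corner` -/
noncomputable def corner (P : Fin p → ℝ) (a : Fin p) : Fin p := Fin.ofNat p (leftCount P (P a))

/-- the copy of the half plane in which the piece `t` of the path `A` runs -/
noncomputable def copy (P : Fin p → ℝ) (A : AxisPath) : ℕ → W p
  | 0 => if A.up then 1 else gen (wall P (A.z 0))
  | t + 1 => copy P A t * gen (wall P (A.z (t + 1)))

open Classical in
/-- the number of interleaving pairs of pieces of `A` and of `g * B` which are in the same copy -/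
noncomputable def xg (P : Fin p → ℝ) (g : W p) (A B : AxisPath) : ℕ :=
  (((Finset.range (A.n + 1)) ×ˢ (Finset.range (B.n + 1))).filter
    (fun k => copy P A k.1 = g * copy P B k.2 ∧
      Inter (A.z k.1) (A.z (k.1 + 1)) (B.z k.2) (B.z (k.2 + 1)))).card

/-- the end of the tree to which the path `A` ending in the puncture `a` runs -/
noncomputable def cuspOf (P : Fin p → ℝ) (A : AxisPath) (a : Fin p) : W p → Fin p :=
  cusp (copy P A A.n) (corner P a)

theorem par_copy (P : Fin p → ℝ) (A : AxisPath) (t : ℕ) :
    par (copy P A t) = if A.side t then 0 else 1 := by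
  induction t with
  | zero =>
    cases h : A.up
    · simp [copy, AxisPath.side, h, par_gen]
    · simp [copy, AxisPath.side, h]
  | succ t ih =>
    have h1 : A.side (t + 1) = !A.side t := by
      simp [AxisPath.side, Nat.bodd_succ]
    rw [copy, par_mul_gen, ih, h1]
    cases A.side t <;> simp
    decide

end Pool.Agent.Lib.MP_266831_co
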