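import Pool.Agent.Lib.MP_266831_co.Sum
import Pool.Agent.Lib.MP_266831_co.Copies

/-!
# From the hexagon identity to the counting inequality in the axis model (MP_266831_co)
-/

namespace Pool.Agent.Lib.MP_266831_co

open W

theorem inter_symm {a b c d : ℝ} (h : Inter a b c d) : Inter c d a b := h.symm

theorem X_comm (A B : AxisPath) : A.X B = B.X A := by
  classical
  unfold AxisPath.X AxisPath.pairs
  apply Finset.card_bij (fun k _ => (k.2, k.1))
  · intro k hk
    rw [Finset.mem_filter, Finset.mem_product] at hk ⊢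
    exact ⟨⟨hk.1.2, hk.1.1⟩, hk.2.1.symm, inter_symm hk.2.2⟩
  · intro k _ k' _ h
    rw [Prod.mk.injEq] at h
    exact Prod.ext h.2 h.1
  · intro k hk
    rw [Finset.mem_filter, Finset.mem_product] at hk
    refine ⟨(k.2, k.1), ?_, rfl⟩
    rw [Finset.mem_filter, Finset.mem_product]
    exact ⟨⟨hk.1.2, hk.1.1⟩, hk.2.1.symm, inter_symm hk.2.2⟩

variable {p : ℕ} [NeZero p]

omit [NeZero p] in
theorem leftCount_lt (P : Fin p → ℝ) (a : Fin p) : leftCount P (P a) < p := by
  classical
  have h : (Finset.univ.filter (fun b => P b < P a)).card < (Finset.univ : Finset (Fin p)).card := by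
    apply Finset.card_lt_card
    rw [Finset.ssubset_univ_iff]
    intro h
    have := h ▸ Finset.mem_univ a
    rw [Finset.mem_filter] at this
    exact lt_irrefl _ this.2
  rw [Finset.card_univ, Fintype.card_fin] at h
  unfold leftCount
  convert h

omit [NeZero p] in
theorem leftCount_lt_of_lt (P : Fin p → ℝ) {a b : Fin p} (h : P a < P b) :
    leftCount P (P a) < leftCount P (P b) := by
  classical
  unfold leftCount
  apply Finset.card_lt_card
  rw [Finset.ssubset_iff_of_subset]
  · refine ⟨a, ?_, ?_⟩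
    · rw [Finset.mem_filter]; exact ⟨Finset.mem_univ _, h⟩
    · rw [Finset.mem_filter]; exact fun h' => lt_irrefl _ h'.2
  · intro c hc
    rw [Finset.mem_filter] at hc ⊢
    exact ⟨hc.1, hc.2.trans h⟩

theorem corner_injective (P : Fin p → ℝ) (hP : Function.Injective P) :
    Function.Injective (corner P) := by
  intro a b h
  have h1 : leftCount P (P a) = leftCount P (P b) := by
    have h2 := congrArg Fin.val h
    unfold corner at h2
    simp only [Fin.ofNat_eq_cast, Fin.val_natCast] at h2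
    rwa [Nat.mod_eq_of_lt (leftCount_lt P a), Nat.mod_eq_of_lt (leftCount_lt P b)] at h2
  apply hP
  rcases lt_trichotomy (P a) (P b) with h3 | h3 | h3
  · exact absurd (leftCount_lt_of_lt P h3) (by omega)
  · exact h3
  · exact absurd (leftCount_lt_of_lt P h3) (by omega)

theorem two_choose (n : ℕ) : 2 * n.choose 2 + n = n * n := by
  induction n with
  | zero => rfl
  | succ n ih =>
    rw [Nat.choose_succ_succ' n 1, Nat.choose_one_right]
    nlinarith

/-- the legs of the hub `i` -/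
noncomputable def legs {q : ℕ} (G : SimpleGraph (Fin p ⊕ Fin q)) (i : Fin q) : Finset (Fin p) := by
  classical exact Finset.univ.filter (fun a => G.Adj (Sum.inr i) (Sum.inl a))

omit [NeZero p] in
theorem mem_legs {q : ℕ} {G : SimpleGraph (Fin p ⊕ Fin q)} {i : Fin q} {a : Fin p} :
    a ∈ legs G i ↔ G.Adj (Sum.inr i) (Sum.inl a) := by
  classical
  simp [legs]

/-- the statement of the hexagon identity in the axis model -/
def HexAxis {q : ℕ} {G : SimpleGraph (Fin p ⊕ Fin q)} (M : AxisModel G) : Prop :=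
  ∀ (i j : Fin q) (g : W p), par g = 0 → (i ≠ j ∨ g ≠ 1) → ∀ (b : W p × Fin p) (a a' : Fin 3 → Fin p),
    (∀ k, G.Adj (Sum.inr i) (Sum.inl (a k))) → (∀ k, G.Adj (Sum.inr j) (Sum.inl (a' k))) →
    (∀ k, pos b (cuspOf (fun a => M.x (Sum.inl a)) (M.A (Sum.inr i) (Sum.inl (a k))) (a k)) = k) →
    (∀ k, pos b (cusp (g * copy (fun a => M.x (Sum.inl a)) (M.A (Sum.inr j) (Sum.inl (a' k)))
      (M.A (Sum.inr j) (Sum.inl (a' k))).n) (corner (fun a => M.x (Sum.inl a)) (a' k))) = k) →
    hex (fun k l => (xg (fun a => M.x (Sum.inl a)) g (M.A (Sum.inr i) (Sum.inl (a k)))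
      (M.A (Sum.inr j) (Sum.inl (a' l))) : ZMod 2)) = 1

theorem core_of_hex (hp : 3 ≤ p) {q : ℕ} {G : SimpleGraph (Fin p ⊕ Fin q)} (M : AxisModel G)
    (hM : HexAxis M) :
    ∃ N : ZMod 2 × Fin p → ℕ, (∀ τ, N τ ≠ 0 → 0 < τ.2.val ∧ τ.2.val + 1 < p) ∧
      ∑ τ, N τ = ∑ i, ((legs G i).card - 2) ∧
      ∀ T : Finset ((Fin q × Fin p) × (Fin q × Fin p)),
        (∀ x, x ∈ T ↔ (G.Adj (Sum.inr x.1.1) (Sum.inl x.1.2) ∧ G.Adj (Sum.inr x.2.1) (Sum.inl x.2.2)) ∧
          toLex x.1 < toLex x.2) →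
        ∑ τ, (N τ).choose 2 ≤ ∑ x ∈ T,
          (M.A (Sum.inr x.1.1) (Sum.inl x.1.2)).X (M.A (Sum.inr x.2.1) (Sum.inl x.2.2)) := by
  classical
  set P : Fin p → ℝ := fun a => M.x (Sum.inl a) with hP
  have hPinj : Function.Injective P := fun a b h => Sum.inl_injective (M.x_injective h)
  -- the data for the counting theorem
  obtain ⟨N, hN1, hN2, hN3⟩ := count_all (p := p) (ι := Fin q) (κ := Fin p) (γ := ℕ × ℕ)
    (legs G) (fun i v => cuspOf P (M.A (Sum.inr i) (Sum.inl v)) v)
    (fun i v => isEnd_cusp (by omega) _ _)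
    (fun i v _ v' _ hvv => cusp_ne hp (fun h => hvv (corner_injective P hPinj h)) _ _)
    (fun x y => (M.A (Sum.inr x.1) (Sum.inl x.2)).pairs (M.A (Sum.inr y.1) (Sum.inl y.2)))
    (fun x y k => copy P (M.A (Sum.inr x.1) (Sum.inl x.2)) k.1 *
      (copy P (M.A (Sum.inr y.1) (Sum.inl y.2)) k.2)⁻¹)
    (by
      intro i j g hg hij b v y hv hy
      have h1 := hM i j g hg (by
        by_cases h : i = j
        · exact Or.inr (hij h)
        · exact Or.inl h) b v y (fun k => mem_legs.1 (hv k).1) (fun k => mem_legs.1 (hy k).1)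
        (fun k => (hv k).2) (fun k => by
          refine Eq.trans ?_ (hy k).2
          rw [pos_shift]
          have h2 : cusp (g * copy P (M.A (Sum.inr j) (Sum.inl (y k)))
              (M.A (Sum.inr j) (Sum.inl (y k))).n) (corner P (y k)) b.1 =
              cuspOf P (M.A (Sum.inr j) (Sum.inl (y k))) (y k) (g⁻¹ * b.1) := by
            have h3 := cusp_gmul g (copy P (M.A (Sum.inr j) (Sum.inl (y k)))
              (M.A (Sum.inr j) (Sum.inl (y k))).n) hg (corner P (y k)) (g⁻¹ * b.1)
            rw [mul_inv_cancel_left] at h3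
            exact h3
          exact congrArg (fun z => cmp3 z b.2) h2)
      rw [← h1]
      congr 1
      funext k l
      congr 1
      unfold xg AxisPath.pairs
      rw [Finset.filter_filter]
      congr 1
      apply Finset.filter_congr
      intro x _
      constructor
      · rintro ⟨⟨-, h3⟩, h4⟩
        exact ⟨by rw [← h4]; exact (inv_mul_cancel_right _ _).symm, h3⟩
      · rintro ⟨h3, h4⟩
        refine ⟨⟨?_, h4⟩, by rw [mul_inv_eq_iff_eq_mul]; exact h3⟩
        have h5 := congrArg par h3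
        rw [par_mul, hg, zero_add, par_copy, par_copy] at h5
        revert h5
        cases (M.A (Sum.inr i) (Sum.inl (v k))).side x.1 <;>
          cases (M.A (Sum.inr j) (Sum.inl (y l))).side x.2 <;> simp)
  -- the set of legs and the pairs
  set Λ : Finset (Fin q × Fin p) := Finset.univ.filter (fun x => G.Adj (Sum.inr x.1) (Sum.inl x.2))
    with hΛ
  set f : Fin q × Fin p → Fin q × Fin p → ℕ := fun x y =>
    (M.A (Sum.inr x.1) (Sum.inl x.2)).X (M.A (Sum.inr y.1) (Sum.inl y.2)) with hf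
  have hfs : ∀ x y, f x y = f y x := fun x y => X_comm _ _
  have hf0 : ∀ x ∈ Λ, f x x = 0 := fun x hx => M.X_self _ _ (Finset.mem_filter.1 hx).2
  have hsum : ∑ i, ∑ j, ∑ q' ∈ legs G i ×ˢ legs G j,
      ((M.A (Sum.inr i) (Sum.inl q'.1)).pairs (M.A (Sum.inr j) (Sum.inl q'.2))).card =
      ∑ x ∈ Λ ×ˢ Λ, f x.1 x.2 := by
    have h1 : ∀ F : Fin q × Fin p → ℕ, ∑ x ∈ Λ, F x = ∑ i, ∑ a ∈ legs G i, F (i, a) := by
      intro F
      rw [hΛ, Finset.sum_filter, ← Finset.univ_product_univ, Finset.sum_product]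
      apply Finset.sum_congr rfl
      intro i _
      rw [legs, Finset.sum_filter]
    rw [Finset.sum_product, h1]
    apply Finset.sum_congr rfl
    intro i _
    simp_rw [h1]
    rw [Finset.sum_comm]
    apply Finset.sum_congr rfl
    intro j _
    rw [Finset.sum_product]
    rfl
  set Tp : Finset ((Fin q × Fin p) × (Fin q × Fin p)) :=
    (Λ ×ˢ Λ).filter (fun x => toLex x.1 < toLex x.2) with hTp
  have hhalf : ∑ x ∈ Λ ×ˢ Λ, f x.1 x.2 = 2 * ∑ x ∈ Tp, f x.1 x.2 := by
    rw [← Finset.sum_filter_add_sum_filter_not (Λ ×ˢ Λ) (fun x => toLex x.1 < toLex x.2), two_mul]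
    congr 1
    rw [← Finset.sum_filter_add_sum_filter_not ((Λ ×ˢ Λ).filter
      (fun x => ¬ toLex x.1 < toLex x.2)) (fun x => x.1 = x.2)]
    have hz : ∑ x ∈ ((Λ ×ˢ Λ).filter (fun x => ¬ toLex x.1 < toLex x.2)).filter
        (fun x => x.1 = x.2), f x.1 x.2 = 0 := by
      apply Finset.sum_eq_zero
      intro x hx
      rw [Finset.mem_filter, Finset.mem_filter, Finset.mem_product] at hx
      rw [← hx.2]
      exact hf0 _ hx.1.1.1
    rw [hz, zero_add]
    symm
    apply Finset.sum_bij (fun x _ => (x.2, x.1))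
    · intro x hx
      rw [hTp, Finset.mem_filter, Finset.mem_product] at hx
      rw [Finset.mem_filter, Finset.mem_filter, Finset.mem_product]
      refine ⟨⟨⟨hx.1.2, hx.1.1⟩, not_lt.2 hx.2.le⟩, ?_⟩
      intro h
      simp only at h
      rw [h] at hx
      exact lt_irrefl _ hx.2
    · intro x _ y _ h
      rw [Prod.mk.injEq] at h
      exact Prod.ext h.2 h.1
    · intro x hx
      rw [Finset.mem_filter, Finset.mem_filter, Finset.mem_product] at hx
      refine ⟨(x.2, x.1), ?_, rfl⟩
      rw [hTp, Finset.mem_filter, Finset.mem_product]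
      refine ⟨⟨hx.1.1.2, hx.1.1.1⟩, ?_⟩
      rcases lt_or_eq_of_le (not_lt.1 hx.1.2) with h | h
      · exact h
      · exact absurd (toLex.injective h).symm hx.2
    · intro x _
      exact hfs _ _
  refine ⟨N, hN1, hN2, ?_⟩
  intro T hT
  have hTT : T = Tp := by
    ext x
    rw [hT, hTp, Finset.mem_filter, Finset.mem_product, hΛ, Finset.mem_filter, Finset.mem_filter]
    simp
  rw [hTT]
  show ∑ τ, (N τ).choose 2 ≤ ∑ x ∈ Tp, f x.1 x.2
  have h1 : ∑ τ, N τ * N τ = 2 * ∑ τ, (N τ).choose 2 + ∑ τ, N τ := by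
    rw [Finset.mul_sum, ← Finset.sum_add_distrib]
    exact Finset.sum_congr rfl (fun τ _ => (two_choose _).symm)
  rw [hsum, hhalf, h1] at hN3
  omega

end Pool.Agent.Lib.MP_266831_co
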