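import Pool.Agent.Lib.MP_266831_co.Geom

/-!
# From the one-plane core bound to the lower bound for the biplanar crossing number
-/

namespace Pool.Agent.Lib.MP_266831_co

open Finset

/-- vertices of `K_{p,q}` -/
abbrev PQ (p q : ℕ) : Type := Fin p ⊕ Fin q

open Classical in
/-- the neighbours of the hub `a` in a subgraph of `K_{p,q}` -/
noncomputable def nb {p q : ℕ} (G : SimpleGraph (PQ p q)) (a : Fin q) : Finset (Fin p) :=
  Finset.univ.filter (fun i => G.Adj (Sum.inr a) (Sum.inl i))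

open Classical in
/-- the edges of a subgraph of `K_{p,q}`, as pairs (hub, pole) -/
noncomputable def edg {p q : ℕ} (G : SimpleGraph (PQ p q)) : Finset (Fin q × Fin p) :=
  Finset.univ.filter (fun x => G.Adj (Sum.inr x.1) (Sum.inl x.2))

/-- the unordered pairs of edges of a subgraph of `K_{p,q}` -/
noncomputable def edgPairs {p q : ℕ} (G : SimpleGraph (PQ p q)) :
    Finset ((Fin q × Fin p) × (Fin q × Fin p)) :=
  (edg G ×ˢ edg G).filter (fun x => toLex x.1 < toLex x.2)

/-- The core bound in one plane (proved by helper9/helper40). -/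
def CoreBound (p q : ℕ) : Prop :=
  ∀ (G : SimpleGraph (PQ p q)), G ≤ completeBipartiteGraph (Fin p) (Fin q) → ∀ M : AxisModel G,
    ∃ N : Fin (2 * (p - 2)) → ℕ, ∑ a, ((nb G a).card - 2) ≤ ∑ τ, N τ ∧
      ∑ τ, (N τ).choose 2 ≤ ∑ x ∈ edgPairs G,
        (M.A (Sum.inr x.1.1) (Sum.inl x.1.2)).X (M.A (Sum.inr x.2.1) (Sum.inl x.2.2))

/-- one plane -/
theorem one_plane {p q : ℕ} (hcore : CoreBound p q) (G : SimpleGraph (PQ p q))
    (hG : G ≤ completeBipartiteGraph (Fin p) (Fin q)) (D : Drawing G) :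
    ∃ N : Fin (2 * (p - 2)) → ℕ, ∑ a, ((nb G a).card - 2) ≤ ∑ τ, N τ ∧
      ((∑ τ, (N τ).choose 2 : ℕ) : ℕ∞) ≤ D.crossings.encard := by
  classical
  by_cases hfin : D.crossings.Finite
  · obtain ⟨M, hM⟩ := exists_axisModel D hfin
    obtain ⟨N, hN1, hN2⟩ := hcore G hG M
    refine ⟨N, hN1, ?_⟩
    rw [← hfin.cast_ncard_eq]
    refine Nat.cast_le.2 (hN2.trans ?_)
    set φ : (Fin q × Fin p) × (Fin q × Fin p) → (PQ p q × PQ p q) × (PQ p q × PQ p q) :=
      fun x => ((Sum.inr x.1.1, Sum.inl x.1.2), (Sum.inr x.2.1, Sum.inl x.2.2)) with hφ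
    have hφi : Function.Injective φ := by
      rintro ⟨⟨a, b⟩, ⟨c, d⟩⟩ ⟨⟨a', b'⟩, ⟨c', d'⟩⟩ h
      simp only [hφ, Prod.mk.injEq, Sum.inr.injEq, Sum.inl.injEq] at h
      obtain ⟨⟨h1, h2⟩, h3, h4⟩ := h
      rw [h1, h2, h3, h4]
    have hT := hM ((edgPairs G).map ⟨φ, hφi⟩) ?_ ?_
    · rw [Finset.sum_map] at hT
      exact hT
    · intro x hx
      obtain ⟨y, hy, rfl⟩ := Finset.mem_map.1 hx
      simp only [edgPairs, edg, Finset.mem_filter, Finset.mem_product, Finset.mem_univ,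
        true_and] at hy
      obtain ⟨⟨h1, h2⟩, h3⟩ := hy
      refine ⟨h1, h2, ?_⟩
      intro h
      have h' : s((Sum.inr y.1.1 : PQ p q), Sum.inl y.1.2) = s(Sum.inr y.2.1, Sum.inl y.2.2) := h
      rw [Sym2.eq_iff] at h'
      rcases h' with ⟨h4, h5⟩ | ⟨h4, h5⟩
      · have : y.1 = y.2 := Prod.ext (Sum.inr_injective h4) (Sum.inl_injective h5)
        rw [this] at h3
        exact lt_irrefl _ h3
      · exact absurd h4 (by simp)
    · intro x' hx' y' hy' hxy
      obtain ⟨x, hx, rfl⟩ := Finset.mem_map.1 hx'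
      obtain ⟨y, hy, rfl⟩ := Finset.mem_map.1 hy'
      simp only [edgPairs, Finset.mem_filter] at hx hy
      have hxy' : s(s((Sum.inr x.1.1 : PQ p q), Sum.inl x.1.2), s(Sum.inr x.2.1, Sum.inl x.2.2)) =
        s(s(Sum.inr y.1.1, Sum.inl y.1.2), s(Sum.inr y.2.1, Sum.inl y.2.2)) := hxy
      have key : ∀ u v : Fin q × Fin p, s((Sum.inr u.1 : PQ p q), Sum.inl u.2) =
          s(Sum.inr v.1, Sum.inl v.2) → u = v := by
        intro u v h
        rw [Sym2.eq_iff] at h
        rcases h with ⟨h4, h5⟩ | ⟨h4, h5⟩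
        · exact Prod.ext (Sum.inr_injective h4) (Sum.inl_injective h5)
        · exact absurd h4 (by simp)
      rw [Sym2.eq_iff] at hxy'
      rcases hxy' with ⟨h1, h2⟩ | ⟨h1, h2⟩
      · have e1 := key _ _ h1
        have e2 := key _ _ h2
        rw [show x = y from Prod.ext e1 e2]
      · have e1 := key _ _ h1
        have e2 := key _ _ h2
        have h3 := hx.2
        rw [e1, e2] at h3
        exact absurd hy.2 (not_lt.2 h3.le)
  · -- infinitely many crossings: the core bound is not needed, but we need some `N`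
    refine ⟨fun _ => ∑ a, ((nb G a).card - 2), ?_, ?_⟩
    · by_cases hp : 3 ≤ p
      · have h0 : 0 < 2 * (p - 2) := by omega
        exact Finset.single_le_sum (f := fun _ : Fin (2 * (p - 2)) => ∑ a, ((nb G a).card - 2))
          (fun _ _ => Nat.zero_le _) (Finset.mem_univ (⟨0, h0⟩ : Fin (2 * (p - 2))))
      · have : ∀ a, (nb G a).card - 2 = 0 := by
          intro a
          have := Finset.card_le_univ (nb G a)
          rw [Fintype.card_fin] at this
          omega
        simp [this]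
    · rw [Set.encard_eq_top_iff.2 hfin]; exact le_top

/-- discrete convexity -/
theorem choose_tangent (n k : ℕ) : (k.choose 2 : ℤ) + k * ((n : ℤ) - k) ≤ n.choose 2 := by
  have h1 : ∀ m : ℕ, (2 : ℤ) * (m.choose 2 : ℤ) = m * ((m : ℤ) - 1) := by
    intro m
    have := Nat.choose_two_right m
    have h2 : 2 ∣ m * (m - 1) := (Nat.even_mul_pred_self m).two_dvd
    have h3 : 2 * m.choose 2 = m * (m - 1) := by rw [this]; omega
    rcases m with _ | m
    · simp
    · have h4 : ((2 * (m + 1).choose 2 : ℕ) : ℤ) = (((m + 1) * (m + 1 - 1) : ℕ) : ℤ) := by rw [h3]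
      push_cast at h4 ⊢
      simpa using h4
  have h2 : (0 : ℤ) ≤ ((n : ℤ) - k) * ((n : ℤ) - k - 1) := by
    rcases lt_or_ge n (k + 1) with h | h
    · have h3 : (n : ℤ) - k ≤ 0 := by omega
      exact mul_nonneg_of_nonpos_of_nonpos h3 (by omega)
    · exact mul_nonneg (by omega) (by omega)
  have h3 := h1 n
  have h4 := h1 k
  nlinarith

theorem sum_choose_ge {ι : Type} [Fintype ι] (N : ι → ℕ) (k r : ℕ)
    (h : Fintype.card ι * k + r ≤ ∑ i, N i) :
    Fintype.card ι * k.choose 2 + r * k ≤ ∑ i, (N i).choose 2 := by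
  have h1 : ∑ i, ((k.choose 2 : ℤ) + k * ((N i : ℤ) - k)) ≤ ∑ i, ((N i).choose 2 : ℤ) :=
    Finset.sum_le_sum (fun i _ => choose_tangent _ _)
  rw [Finset.sum_add_distrib, Finset.sum_const, ← Finset.mul_sum, Finset.sum_sub_distrib,
    Finset.sum_const, Finset.card_univ] at h1
  have h2 : ((Fintype.card ι * k + r : ℕ) : ℤ) ≤ ((∑ i, N i : ℕ) : ℤ) := by exact_mod_cast h
  push_cast at h2
  have h3 : (k : ℤ) * (Fintype.card ι * k + r) ≤ k * ∑ i, (N i : ℤ) :=
    mul_le_mul_of_nonneg_left h2 (by positivity)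
  have h4 : ((Fintype.card ι * k.choose 2 + r * k : ℕ) : ℤ) ≤ ((∑ i, (N i).choose 2 : ℕ) : ℤ) := by
    push_cast
    simp only [nsmul_eq_mul] at h1
    nlinarith
  exact_mod_cast h4

theorem lower_bound {p q : ℕ} (hp : 4 ≤ p) (hcore : CoreBound p q) (k r : ℕ)
    (hkr : (4 * (p - 2)) * k + r ≤ (p - 4) * q) :
    (((4 * (p - 2)) * k.choose 2 + r * k : ℕ) : ℕ∞) ≤
      crTwo (completeBipartiteGraph (Fin p) (Fin q)) := by
  classical
  unfold crTwo
  refine le_iInf fun G₁ => le_iInf fun G₂ => le_iInf fun hdisj => le_iInf fun hsup => ?_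
  have hG1 : G₁ ≤ completeBipartiteGraph (Fin p) (Fin q) := by rw [← hsup]; exact le_sup_left
  have hG2 : G₂ ≤ completeBipartiteGraph (Fin p) (Fin q) := by rw [← hsup]; exact le_sup_right
  unfold cr
  rw [ENat.iInf_add]
  refine le_iInf fun D₁ => ?_
  rw [ENat.add_iInf]
  refine le_iInf fun D₂ => ?_
  obtain ⟨N₁, h1, h2⟩ := one_plane hcore G₁ hG1 D₁
  obtain ⟨N₂, h3, h4⟩ := one_plane hcore G₂ hG2 D₂
  refine le_trans ?_ (add_le_add h2 h4)
  rw [← Nat.cast_add]
  refine Nat.cast_le.2 ?_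
  have hcard : Fintype.card (Fin (2 * (p - 2)) ⊕ Fin (2 * (p - 2))) = 4 * (p - 2) := by
    rw [Fintype.card_sum, Fintype.card_fin]; ring
  have key := sum_choose_ge (Sum.elim N₁ N₂) k r (by
    rw [hcard, Fintype.sum_sum_type]
    simp only [Sum.elim_inl, Sum.elim_inr]
    refine hkr.trans (le_trans ?_ (add_le_add h1 h3))
    rw [← Finset.sum_add_distrib]
    have h5 : ∀ a : Fin q, p - 4 ≤ ((nb G₁ a).card - 2) + ((nb G₂ a).card - 2) := by
      intro a
      have h6 : (Finset.univ : Finset (Fin p)) ⊆ nb G₁ a ∪ nb G₂ a := by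
        intro i _
        have h7 : (G₁ ⊔ G₂).Adj (Sum.inr a) (Sum.inl i) := by
          rw [hsup]; simp [completeBipartiteGraph]
        rw [SimpleGraph.sup_adj] at h7
        simpa [nb] using h7
      have h8 := (Finset.card_le_card h6).trans (Finset.card_union_le _ _)
      rw [Finset.card_univ, Fintype.card_fin] at h8
      omega
    calc (p - 4) * q = ∑ _a : Fin q, (p - 4) := by
          rw [Finset.sum_const, Finset.card_univ, Fintype.card_fin, smul_eq_mul, mul_comm]
      _ ≤ _ := Finset.sum_le_sum (fun a _ => h5 a))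
  rw [hcard, Fintype.sum_sum_type] at key
  simpa using key

end Pool.Agent.Lib.MP_266831_co
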