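import Pool.Agent.Lib.MP_266831_co.Core
import Pool.Agent.Lib.MP_266831_co.Lower

/-!
# The core bound from the hexagon identity (MP_266831_co)
-/

namespace Pool.Agent.Lib.MP_266831_co

open W

theorem card_interior (p : ℕ) :
    ((Finset.univ : Finset (Fin p)).filter (fun r => 0 < r.val ∧ r.val + 1 < p)).card = p - 2 := by
  have h : ((Finset.univ : Finset (Fin p)).filter (fun r => 0 < r.val ∧ r.val + 1 < p)).map
      Fin.valEmbedding = Finset.Ioo 0 (p - 1) := by
    ext n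
    simp only [Finset.mem_map, Finset.mem_filter, Finset.mem_univ, true_and, Fin.valEmbedding_apply,
      Finset.mem_Ioo]
    constructor
    · rintro ⟨r, ⟨h1, h2⟩, rfl⟩; omega
    · rintro ⟨h1, h2⟩
      exact ⟨⟨n, by omega⟩, ⟨h1, by simp only; omega⟩, rfl⟩
  rw [← Finset.card_map Fin.valEmbedding, h, Nat.card_Ioo]
  omega

theorem card_interior2 (p : ℕ) :
    Fintype.card {τ : ZMod 2 × Fin p // 0 < τ.2.val ∧ τ.2.val + 1 < p} = 2 * (p - 2) := by
  rw [Fintype.card_subtype]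
  have h : (Finset.univ : Finset (ZMod 2 × Fin p)).filter
      (fun τ => 0 < τ.2.val ∧ τ.2.val + 1 < p) =
      (Finset.univ : Finset (ZMod 2)) ×ˢ
        ((Finset.univ : Finset (Fin p)).filter (fun r => 0 < r.val ∧ r.val + 1 < p)) := by
    ext ⟨a, b⟩
    simp
  rw [h, Finset.card_product, card_interior, Finset.card_univ]
  rfl

theorem coreBound_of_hex {p : ℕ} [NeZero p] (hp : 3 ≤ p) (q : ℕ)
    (h : ∀ (G : SimpleGraph (PQ p q)), G ≤ completeBipartiteGraph (Fin p) (Fin q) →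
      ∀ M : AxisModel G, HexAxis M) : CoreBound p q := by
  classical
  intro G hG M
  have hM := h G hG M
  obtain ⟨N, hN1, hN2, hN3⟩ : ∃ N : ZMod 2 × Fin p → ℕ,
      (∀ τ, N τ ≠ 0 → 0 < τ.2.val ∧ τ.2.val + 1 < p) ∧
      ∑ τ, N τ = ∑ i, ((legs G i).card - 2) ∧
      ∑ τ, (N τ).choose 2 ≤ ∑ x ∈ edgPairs G,
        (M.A (Sum.inr x.1.1) (Sum.inl x.1.2)).X (M.A (Sum.inr x.2.1) (Sum.inl x.2.2)) := by
    obtain ⟨N, h1, h2, h3⟩ := core_of_hex hp M hM
    refine ⟨N, h1, h2, h3 _ ?_⟩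
    intro x
    simp only [edgPairs, edg, Finset.mem_filter, Finset.mem_product, Finset.mem_univ, true_and]
  have e := Fintype.equivFinOfCardEq (card_interior2 p)
  have key : ∀ f : ℕ → ℕ, f 0 = 0 → ∑ t, f (N (e.symm t).1) = ∑ τ, f (N τ) := by
    intro f hf
    rw [Equiv.sum_comp e.symm (fun τ => f (N τ.1))]
    rw [← Finset.sum_subtype (Finset.univ.filter
      (fun τ : ZMod 2 × Fin p => 0 < τ.2.val ∧ τ.2.val + 1 < p)) (by simp) (fun τ => f (N τ))]
    apply Finset.sum_subset (Finset.subset_univ _)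
    intro τ _ hτ
    have h0 : N τ = 0 := by
      by_contra hne
      exact hτ (Finset.mem_filter.2 ⟨Finset.mem_univ _, hN1 τ hne⟩)
    rw [h0, hf]
  refine ⟨fun t => N (e.symm t).1, ?_, ?_⟩
  · rw [key (fun n => n) rfl, hN2]
    apply le_of_eq
    rfl
  · rw [key (fun n => n.choose 2) rfl]
    exact hN3

end Pool.Agent.Lib.MP_266831_co
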