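import Mathlib

/-!
# Polygonal drawings, crossing number, biplanar crossing number (MP_266831_co)

The first half fixes the notions of the problem: polygonal drawings of a finite graph in the plane,
their crossings, the crossing number `cr` and the biplanar crossing number `crTwo`.
The second half is the combinatorial model (`AxisPath`) to which drawings are reduced.
-/

namespace Pool.Agent.Lib.MP_266831_co

/-- `γ`, restricted to `[0,1]`, is a *simple polygonal arc*: it is injective on `[0,1]`, and there are
finitely many parameters `0 = t 0 < t 1 < ... < t n = 1` such that `γ` is affine on every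
`[t i, t (i+1)]`. -/
def IsPolyArc (γ : ℝ → ℝ × ℝ) : Prop :=
  Set.InjOn γ (Set.Icc 0 1) ∧
  ∃ (n : ℕ) (t : ℕ → ℝ), t 0 = 0 ∧ t n = 1 ∧
    ∀ i < n, t i < t (i + 1) ∧ ∀ s ∈ Set.Icc (t i) (t (i + 1)),
      γ s = AffineMap.lineMap (γ (t i)) (γ (t (i + 1))) ((s - t i) / (t (i + 1) - t i))

/-- A (polygonal) *drawing* of the graph `G` in the plane `ℝ × ℝ`: the vertices are distinct points, each
edge `e` is a simple polygonal arc `arc e` (with parameter in `[0,1]`) joining its two end vertices
and passing through no other vertex. -/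
structure Drawing {V : Type} (G : SimpleGraph V) where
  /-- the position of a vertex -/
  pt : V → ℝ × ℝ
  pt_injective : Function.Injective pt
  /-- the arc of an edge (only the values at edges of `G` and at parameters in `[0,1]` matter) -/
  arc : Sym2 V → ℝ → ℝ × ℝ
  arc_poly : ∀ e ∈ G.edgeSet, IsPolyArc (arc e)
  arc_ends : ∀ e ∈ G.edgeSet, s(arc e 0, arc e 1) = e.map pt
  arc_avoid : ∀ e ∈ G.edgeSet, ∀ t ∈ Set.Ioo (0 : ℝ) 1, ∀ v, arc e t ≠ pt v

/-- The *crossings* of a drawing: all pairs of a point of the plane and an unordered pair of distinct edges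
such that the point lies in the interior of both arcs. (If `k` edges pass through one point, it counts
`k * (k - 1) / 2` times; a point where two arcs only touch counts, too.) -/
def Drawing.crossings {V : Type} {G : SimpleGraph V} (D : Drawing G) :
    Set ((ℝ × ℝ) × Sym2 (Sym2 V)) :=
  {x | ¬ x.2.IsDiag ∧ ∀ e ∈ x.2, e ∈ G.edgeSet ∧ x.1 ∈ D.arc e '' Set.Ioo 0 1}

/-- The *crossing number* of `G`: the minimum number of crossings over all drawings. -/
noncomputable def cr {V : Type} (G : SimpleGraph V) : ℕ∞ :=
  ⨅ D : Drawing G, D.crossings.encard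

/-- The *biplanar crossing number* of `G`: the minimum of `cr G₁ + cr G₂` over all partitions of the
edge set of `G` into the edge sets of two graphs `G₁`, `G₂` on the same vertices. -/
noncomputable def crTwo {V : Type} (G : SimpleGraph V) : ℕ∞ :=
  ⨅ (G₁ : SimpleGraph V) (G₂ : SimpleGraph V) (_ : Disjoint G₁ G₂) (_ : G₁ ⊔ G₂ = G), cr G₁ + cr G₂

/-! ### The combinatorial model -/

/-- The combinatorial data of an edge which meets the `x`-axis in the points `z 0, z 1, ..., z (n+1)` (in
this order along the edge, `z 0` and `z (n+1)` its ends); between them it runs alternately in the two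
half planes; `up` tells whether the first piece is in the upper half plane. -/
structure AxisPath where
  n : ℕ
  z : ℕ → ℝ
  up : Bool

/-- the side of the piece from `z k` to `z (k+1)` -/
def AxisPath.side (A : AxisPath) (k : ℕ) : Bool := xor A.up k.bodd

/-- The pairs `{a,b}` and `{c,d}` strictly interleave. -/
def Inter (a b c d : ℝ) : Prop :=
  (min a b < min c d ∧ min c d < max a b ∧ max a b < max c d) ∨
  (min c d < min a b ∧ min a b < max c d ∧ max c d < max a b)

open Classical in
/-- the pairs of pieces of `A` and `B` which are in the same half plane and interleave -/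
noncomputable def AxisPath.pairs (A B : AxisPath) : Finset (ℕ × ℕ) :=
  ((Finset.range (A.n + 1)) ×ˢ (Finset.range (B.n + 1))).filter
    (fun k => A.side k.1 = B.side k.2 ∧ Inter (A.z k.1) (A.z (k.1 + 1)) (B.z k.2) (B.z (k.2 + 1)))

/-- the number of interleaving pairs of pieces of `A` and `B` -/
noncomputable def AxisPath.X (A B : AxisPath) : ℕ := (A.pairs B).card

/-- Axis model of (part of) a drawing of `G`: positions `x v` of the vertices, for every ordered pair
`(a, b)` of adjacent vertices a path `A a b` from `x a` to `x b`. -/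
structure AxisModel {V : Type} (G : SimpleGraph V) where
  x : V → ℝ
  x_injective : Function.Injective x
  A : V → V → AxisPath
  z_zero : ∀ a b, G.Adj a b → (A a b).z 0 = x a
  z_last : ∀ a b, G.Adj a b → (A a b).z ((A a b).n + 1) = x b
  z_inj : ∀ a b, G.Adj a b → ∀ i ≤ (A a b).n + 1, ∀ j ≤ (A a b).n + 1, (A a b).z i = (A a b).z j → i = j
  z_ne : ∀ a b, G.Adj a b → ∀ i, 1 ≤ i → i ≤ (A a b).n → ∀ v, (A a b).z i ≠ x v
  z_ne_z : ∀ a b c d, G.Adj a b → G.Adj c d → s(a, b) ≠ s(c, d) →
    ∀ i, 1 ≤ i → i ≤ (A a b).n → ∀ j, 1 ≤ j → j ≤ (A c d).n → (A a b).z i ≠ (A c d).z j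
  X_self : ∀ a b, G.Adj a b → (A a b).X (A a b) = 0

end Pool.Agent.Lib.MP_266831_co
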