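import Mathlib

/-!
# Abstract counting with nested triples (MP_266831_co)

`β` is a type of `medians`, each of which cuts the ends into three classes, `pos b e : Fin 3`;
`pos2 b b'` is the class of `b` which contains `b'`.
-/

namespace Pool.Agent.Lib.MP_266831_co

variable {β ι κ : Type*}

/-- All three classes of `b` contain an element of `V`. -/
def Hit (pos : β → ι → Fin 3) (b : β) (V : Finset ι) : Prop := ∀ k : Fin 3, ∃ v ∈ V, pos b v = k

/-- nestedness -/
def Nested (pos : β → ι → Fin 3) (pos2 : β → β → Fin 3) : Prop :=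
  ∀ b b', b ≠ b' → ∀ e, pos b' e ≠ pos2 b' b → pos b e = pos2 b b'

theorem exists_third (a b : Fin 3) : ∃ c : Fin 3, c ≠ a ∧ c ≠ b := by
  revert a b; decide

/-- a leaf-most median -/
theorem exists_leaf [DecidableEq β] [DecidableEq ι] {pos : β → ι → Fin 3} {pos2 : β → β → Fin 3}
    (hN : Nested pos pos2) (V : Finset ι) (S : Set β) (hS : S.Nonempty)
    (hV : ∀ b ∈ S, Hit pos b V) (ρ : ι) :
    ∃ b ∈ S, ∀ b' ∈ S, b' ≠ b → pos2 b b' = pos b ρ := by
  classical
  let c : β → ℕ := fun b => (V.filter (fun v => pos b v ≠ pos b ρ)).card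
  obtain ⟨b, hb, hmin⟩ : ∃ b ∈ S, ∀ b' ∈ S, c b ≤ c b' := by
    obtain ⟨b, hb, h⟩ := (InvImage.wf c Nat.lt_wfRel.wf).has_min S hS
    exact ⟨b, hb, fun b' hb' => not_lt.1 (h b' hb')⟩
  refine ⟨b, hb, fun b' hb' hne => ?_⟩
  by_contra hcon
  have h1 : pos b' ρ = pos2 b' b := hN b' b hne ρ (fun h => hcon h.symm)
  have hsub : V.filter (fun v => pos b' v ≠ pos b' ρ) ⊂ V.filter (fun v => pos b v ≠ pos b ρ) := by
    rw [Finset.ssubset_iff_subset_ne]
    have hin : ∀ v, pos b' v ≠ pos b' ρ → pos b v = pos2 b b' := fun v hv =>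
      hN b b' hne.symm v (by rw [← h1]; exact hv)
    constructor
    · intro v hv
      rw [Finset.mem_filter] at hv ⊢
      exact ⟨hv.1, by rw [hin v hv.2]; exact hcon⟩
    · intro heq
      obtain ⟨k, hk1, hk2⟩ := exists_third (pos b ρ) (pos2 b b')
      obtain ⟨v, hv, hvk⟩ := hV b hb k
      have : v ∈ V.filter (fun v => pos b v ≠ pos b ρ) := by
        rw [Finset.mem_filter]; exact ⟨hv, by rw [hvk]; exact hk1⟩
      rw [← heq, Finset.mem_filter] at this
      exact hk2 (by rw [← hvk]; exact hin v this.2)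
  have := Finset.card_lt_card hsub
  have h3 := hmin b' hb'
  simp only [c] at h3
  omega

/-- existence of enough medians -/
theorem exists_medians [DecidableEq β] [DecidableEq ι] {pos : β → ι → Fin 3} {pos2 : β → β → Fin 3}
    (hN : Nested pos pos2) :
    ∀ (n : ℕ) (E : Finset ι), E.card = n →
    (∀ e₁ ∈ E, ∀ e₂ ∈ E, ∀ e₃ ∈ E, e₁ ≠ e₂ → e₁ ≠ e₃ → e₂ ≠ e₃ →
      ∃ b, pos b e₁ ≠ pos b e₂ ∧ pos b e₁ ≠ pos b e₃ ∧ pos b e₂ ≠ pos b e₃) →
    ∃ B : Finset β, (∀ b ∈ B, Hit pos b E) ∧ B.card = n - 2 := by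
  classical
  intro n
  induction n with
  | zero => intro E _ _; exact ⟨∅, by simp, by simp⟩
  | succ n ih =>
    intro E hE hM
    by_cases hn : n < 2
    · exact ⟨∅, by simp, by simp; omega⟩
    push Not at hn
    have hall : ∀ a b c : Fin 3, a ≠ b → a ≠ c → b ≠ c → ∀ k, k = a ∨ k = b ∨ k = c := by decide
    have hitOf : ∀ e₁ ∈ E, ∀ e₂ ∈ E, ∀ e₃ ∈ E, ∀ b, pos b e₁ ≠ pos b e₂ → pos b e₁ ≠ pos b e₃ →
        pos b e₂ ≠ pos b e₃ → Hit pos b E := by
      intro e₁ h1 e₂ h2 e₃ h3 b h12 h13 h23 k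
      rcases hall _ _ _ h12 h13 h23 k with h | h | h
      · exact ⟨e₁, h1, h.symm⟩
      · exact ⟨e₂, h2, h.symm⟩
      · exact ⟨e₃, h3, h.symm⟩
    have h2 : 2 < E.card := by omega
    obtain ⟨ρ, a, b, hρ, ha, hb, hρa, hρb, hab⟩ := Finset.two_lt_card_iff.1 h2
    set S : Set β := {b | Hit pos b E} with hSdef
    have hS : S.Nonempty := by
      obtain ⟨m, h12, h13, h23⟩ := hM ρ hρ a ha b hb hρa hρb hab
      exact ⟨m, hitOf ρ hρ a ha b hb m h12 h13 h23⟩
    obtain ⟨b0, hb0, hleaf⟩ := exists_leaf hN E S hS (fun b hb => hb) ρ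
    obtain ⟨k, hk, -⟩ := exists_third (pos b0 ρ) (pos b0 ρ)
    obtain ⟨e, he, hek⟩ := hb0 k
    -- `e` is the only element of its class at `b0`
    have huniq : ∀ e' ∈ E, pos b0 e' = k → e' = e := by
      intro e' he' hek'
      by_contra hne
      have hρe : ρ ≠ e := fun h => hk (by rw [h, hek])
      have hρe' : ρ ≠ e' := fun h => hk (by rw [h, hek'])
      obtain ⟨m, h12, h13, h23⟩ := hM ρ hρ e he e' he' hρe hρe' (fun h => hne h.symm)
      have hmb : m ≠ b0 := fun h => h23 (by rw [h, hek, hek'])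
      have hmS : m ∈ S := hitOf ρ hρ e he e' he' m h12 h13 h23
      have h4 := hleaf m hmS hmb
      -- one of e, e' is not on the side of `b0` at `m`
      by_cases h5 : pos m e = pos2 m b0
      · have h6 : pos m e' ≠ pos2 m b0 := fun h => h23 (by rw [h5, h])
        have h7 := hN b0 m hmb.symm e' h6
        exact hk (by rw [← hek', h7, h4])
      · have h7 := hN b0 m hmb.symm e h5
        exact hk (by rw [← hek, h7, h4])
    obtain ⟨B, hB, hBc⟩ := ih (E.erase e) (by rw [Finset.card_erase_of_mem he, hE]; rfl)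
      (fun e₁ h1 e₂ h2 e₃ h3 => hM e₁ (Finset.mem_of_mem_erase h1) e₂ (Finset.mem_of_mem_erase h2)
        e₃ (Finset.mem_of_mem_erase h3))
    have hb0B : b0 ∉ B := by
      intro h
      obtain ⟨v, hv, hvk⟩ := hB b0 h k
      exact (Finset.ne_of_mem_erase hv) (huniq v (Finset.mem_of_mem_erase hv) hvk)
    refine ⟨insert b0 B, ?_, ?_⟩
    · intro b hb k'
      rw [Finset.mem_insert] at hb
      rcases hb with rfl | hb
      · exact hb0 k'
      · obtain ⟨v, hv, hvk⟩ := hB b hb k'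
        exact ⟨v, Finset.mem_of_mem_erase hv, hvk⟩
    · rw [Finset.card_insert_of_notMem hb0B, hBc]; omega

/-- the hexagon sum -/
def hex (x : Fin 3 → Fin 3 → ZMod 2) : ZMod 2 :=
  x 0 1 + x 0 2 + x 1 0 + x 1 2 + x 2 0 + x 2 1

theorem hex_perm (x : Fin 3 → Fin 3 → ZMod 2) (σ : Equiv.Perm (Fin 3)) :
    hex (fun i j => x (σ i) (σ j)) = hex x := by
  have h : ∀ y : Fin 3 → Fin 3 → ZMod 2, hex y = ∑ i, ∑ j, if i = j then 0 else y i j := by
    intro y
    simp [hex, Fin.sum_univ_three]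
    ring
  rw [h, h]
  rw [← Equiv.sum_comp σ (fun i => ∑ j, if i = j then 0 else x i j)]
  refine Finset.sum_congr rfl fun i _ => ?_
  rw [← Equiv.sum_comp σ (fun j => if σ i = j then 0 else x (σ i) j)]
  refine Finset.sum_congr rfl fun j _ => ?_
  simp

/-- the weight lemma -/
theorem weight_lemma [DecidableEq β] [DecidableEq ι] [DecidableEq κ]
    {pos : β → ι → Fin 3} {pos' : β → κ → Fin 3} {pos2 : β → β → Fin 3}
    (hN : Nested pos pos2) (hN' : Nested pos' pos2) (X : ι → κ → ZMod 2) :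
    ∀ (n : ℕ) (V : Finset ι) (Y : Finset κ) (B : Finset β), V.card + Y.card = n →
    (∀ b ∈ B, Hit pos b V) → (∀ b ∈ B, Hit pos' b Y) →
    (∀ b ∈ B, ∀ (v : Fin 3 → ι) (y : Fin 3 → κ), (∀ k, v k ∈ V ∧ pos b (v k) = k) →
      (∀ k, y k ∈ Y ∧ pos' b (y k) = k) → hex (fun i j => X (v i) (y j)) = 1) →
    B.card ≤ ((V ×ˢ Y).filter (fun q => X q.1 q.2 ≠ 0)).card := by
  classical
  intro n
  induction n using Nat.strong_induction_on with
  | _ n ih =>
  intro V Y B hn hV hY hX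
  by_cases hB : B = ∅
  · simp [hB]
  have hBne : (B : Set β).Nonempty := by
    rw [Finset.coe_nonempty]; exact Finset.nonempty_of_ne_empty hB
  obtain ⟨b1, hb1⟩ := hBne
  obtain ⟨ρ, hρ, -⟩ := hV b1 hb1 0
  obtain ⟨b, hb, hleaf⟩ := exists_leaf hN V (B : Set β) ⟨b1, hb1⟩ (fun b hb => hV b hb) ρ
  have hb' : b ∈ B := hb
  set k0 := pos b ρ with hk0
  -- children have the same position at other medians
  have hch : ∀ b' ∈ B, b' ≠ b → ∀ e, pos b e ≠ k0 → pos b' e = pos2 b' b := fun b' hb' hne e he =>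
    hN b' b hne e (by rw [hleaf b' hb' hne]; exact he)
  have hch' : ∀ b' ∈ B, b' ≠ b → ∀ e, pos' b e ≠ k0 → pos' b' e = pos2 b' b :=
    fun b' hb' hne e he => hN' b' b hne e (by rw [hleaf b' hb' hne]; exact he)
  -- Case 1 : a child class contains two elements of V
  by_cases hc1 : ∃ v ∈ V, ∃ v' ∈ V, v ≠ v' ∧ pos b v = pos b v' ∧ pos b v ≠ k0
  · obtain ⟨v, hv, v', hv', hne, hpos, hk⟩ := hc1
    have hcard : (V.erase v).card + Y.card < n := by
      rw [Finset.card_erase_of_mem hv]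
      have := Finset.card_pos.2 ⟨v, hv⟩
      omega
    have hhit : ∀ b'' ∈ B, Hit pos b'' (V.erase v) := by
      intro b'' hb'' k
      obtain ⟨w, hw, hwk⟩ := hV b'' hb'' k
      by_cases hwv : w = v
      · refine ⟨v', Finset.mem_erase.2 ⟨hne.symm, hv'⟩, ?_⟩
        by_cases hbb : b'' = b
        · rw [hbb, ← hpos, ← hwv, ← hbb, hwk]
        · rw [hch b'' hb'' hbb v' (by rw [← hpos]; exact hk),
            ← hch b'' hb'' hbb v hk, ← hwv, hwk]
      · exact ⟨w, Finset.mem_erase.2 ⟨hwv, hw⟩, hwk⟩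
    refine le_trans (ih _ hcard (V.erase v) Y B rfl hhit hY ?_) ?_
    · intro b'' hb'' w y hw hy
      exact hX b'' hb'' w y (fun k => ⟨Finset.mem_of_mem_erase (hw k).1, (hw k).2⟩) hy
    · apply Finset.card_le_card
      apply Finset.filter_subset_filter
      exact Finset.product_subset_product (Finset.erase_subset _ _) (Finset.Subset.refl _)
  by_cases hc2 : ∃ v ∈ Y, ∃ v' ∈ Y, v ≠ v' ∧ pos' b v = pos' b v' ∧ pos' b v ≠ k0
  · obtain ⟨v, hv, v', hv', hne, hpos, hk⟩ := hc2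
    have hcard : V.card + (Y.erase v).card < n := by
      rw [Finset.card_erase_of_mem hv]
      have := Finset.card_pos.2 ⟨v, hv⟩
      omega
    have hhit : ∀ b'' ∈ B, Hit pos' b'' (Y.erase v) := by
      intro b'' hb'' k
      obtain ⟨w, hw, hwk⟩ := hY b'' hb'' k
      by_cases hwv : w = v
      · refine ⟨v', Finset.mem_erase.2 ⟨hne.symm, hv'⟩, ?_⟩
        by_cases hbb : b'' = b
        · rw [hbb, ← hpos, ← hwv, ← hbb, hwk]
        · rw [hch' b'' hb'' hbb v' (by rw [← hpos]; exact hk),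
            ← hch' b'' hb'' hbb v hk, ← hwv, hwk]
      · exact ⟨w, Finset.mem_erase.2 ⟨hwv, hw⟩, hwk⟩
    refine le_trans (ih _ hcard V (Y.erase v) B rfl hV hhit ?_) ?_
    · intro b'' hb'' w y hw hy
      exact hX b'' hb'' w y hw (fun k => ⟨Finset.mem_of_mem_erase (hy k).1, (hy k).2⟩)
    · apply Finset.card_le_card
      apply Finset.filter_subset_filter
      exact Finset.product_subset_product (Finset.Subset.refl _) (Finset.erase_subset _ _)
  push Not at hc1 hc2
  -- choose representatives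
  choose v hvV hvk using hV b hb'
  choose y hyY hyk using hY b hb'
  have hhex := hX b hb' v y (fun k => ⟨hvV k, hvk k⟩) (fun k => ⟨hyY k, hyk k⟩)
  -- some child index m has an odd pair in row v m or column y m
  obtain ⟨m, hm, q, hqV, hqY, hqX, hqm⟩ : ∃ m : Fin 3, m ≠ k0 ∧ ∃ q : ι × κ, q.1 ∈ V ∧ q.2 ∈ Y ∧
      X q.1 q.2 ≠ 0 ∧ (q.1 = v m ∨ q.2 = y m) := by
    obtain ⟨i, j, hij, hodd⟩ : ∃ i j : Fin 3, i ≠ j ∧ X (v i) (y j) ≠ 0 := by
      by_contra hcon
      push Not at hcon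
      simp only [hex] at hhex
      rw [hcon 0 1 (by decide), hcon 0 2 (by decide), hcon 1 0 (by decide), hcon 1 2 (by decide),
        hcon 2 0 (by decide), hcon 2 1 (by decide)] at hhex
      simp at hhex
    by_cases hi : i = k0
    · exact ⟨j, fun h => hij (by rw [hi, h]), (v i, y j), hvV i, hyY j, hodd, Or.inr rfl⟩
    · exact ⟨i, hi, (v i, y j), hvV i, hyY j, hodd, Or.inl rfl⟩
  obtain ⟨m', hm', hm'k⟩ := exists_third m k0
  -- remove v m, y m, b
  have hcard : (V.erase (v m)).card + (Y.erase (y m)).card < n := by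
    rw [Finset.card_erase_of_mem (hvV m), Finset.card_erase_of_mem (hyY m)]
    have := Finset.card_pos.2 ⟨_, hvV m⟩
    have := Finset.card_pos.2 ⟨_, hyY m⟩
    omega
  have hvne : v m' ≠ v m := fun h => hm' (by rw [← hvk m', h, hvk m])
  have hyne : y m' ≠ y m := fun h => hm' (by rw [← hyk m', h, hyk m])
  have hhit : ∀ b'' ∈ B.erase b, Hit pos b'' (V.erase (v m)) := by
    intro b'' hb'' k
    rw [Finset.mem_erase] at hb''
    obtain ⟨w, hw, hwk⟩ := hV b'' hb''.2 k
    by_cases hwv : w = v m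
    · refine ⟨v m', Finset.mem_erase.2 ⟨hvne, hvV m'⟩, ?_⟩
      rw [hch b'' hb''.2 hb''.1 (v m') (by rw [hvk]; exact hm'k),
        ← hch b'' hb''.2 hb''.1 (v m) (by rw [hvk]; exact hm), ← hwv, hwk]
    · exact ⟨w, Finset.mem_erase.2 ⟨hwv, hw⟩, hwk⟩
  have hhit' : ∀ b'' ∈ B.erase b, Hit pos' b'' (Y.erase (y m)) := by
    intro b'' hb'' k
    rw [Finset.mem_erase] at hb''
    obtain ⟨w, hw, hwk⟩ := hY b'' hb''.2 k
    by_cases hwv : w = y m
    · refine ⟨y m', Finset.mem_erase.2 ⟨hyne, hyY m'⟩, ?_⟩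
      rw [hch' b'' hb''.2 hb''.1 (y m') (by rw [hyk]; exact hm'k),
        ← hch' b'' hb''.2 hb''.1 (y m) (by rw [hyk]; exact hm), ← hwv, hwk]
    · exact ⟨w, Finset.mem_erase.2 ⟨hwv, hw⟩, hwk⟩
  have hrec := ih _ hcard (V.erase (v m)) (Y.erase (y m)) (B.erase b) rfl hhit hhit' (by
    intro b'' hb'' w z hw hz
    exact hX b'' (Finset.mem_of_mem_erase hb'') w z
      (fun k => ⟨Finset.mem_of_mem_erase (hw k).1, (hw k).2⟩)
      (fun k => ⟨Finset.mem_of_mem_erase (hz k).1, (hz k).2⟩))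
  have hlt : (((V.erase (v m)) ×ˢ (Y.erase (y m))).filter (fun q => X q.1 q.2 ≠ 0)).card <
      ((V ×ˢ Y).filter (fun q => X q.1 q.2 ≠ 0)).card := by
    apply Finset.card_lt_card
    rw [Finset.ssubset_iff_of_subset]
    · refine ⟨q, ?_, ?_⟩
      · rw [Finset.mem_filter, Finset.mem_product]; exact ⟨⟨hqV, hqY⟩, hqX⟩
      · rw [Finset.mem_filter, Finset.mem_product]
        rintro ⟨⟨h1, h2⟩, -⟩
        rcases hqm with h | h
        · exact Finset.ne_of_mem_erase h1 h
        · exact Finset.ne_of_mem_erase h2 h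
    · apply Finset.filter_subset_filter
      exact Finset.product_subset_product (Finset.erase_subset _ _) (Finset.erase_subset _ _)
  have hBc : (B.erase b).card + 1 = B.card := Finset.card_erase_add_one hb'
  omega

end Pool.Agent.Lib.MP_266831_co
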