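import Pool.Agent.Lib.MP_266831_co.Tree
import Pool.Agent.Lib.MP_266831_co.Weight

/-!
# Ends, cusps and medians of the tree `W p` (MP_266831_co)
-/

namespace Pool.Agent.Lib.MP_266831_co

namespace W

variable {p : ℕ}

/-- An end of the tree, given by its direction field. -/
def IsEnd (f : W p → Fin p) : Prop := ∀ h s, f (h * gen s) = s ↔ f h ≠ s

theorem append_val (l : List (Fin p)) (t : Fin p) (h : (l ++ [t]).IsChain (· ≠ ·))
    (h' : l.IsChain (· ≠ ·)) : (⟨l ++ [t], h⟩ : W p) = gen t * ⟨l, h'⟩ := by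
  have h1 : ev (1 : W p) (l ++ [t]) = ⟨l ++ [t], h⟩ := ev_one ⟨l ++ [t], h⟩
  have h2 : ev (1 : W p) (l ++ [t]) = ev (gen t) l := by
    simp [ev, List.foldr_append]; rfl
  rw [← h1, h2]; rfl

theorem inv_val (x : W p) : (x⁻¹).val = x.val.reverse := by
  obtain ⟨l, hl⟩ := x
  induction l with
  | nil => rfl
  | cons s l ih =>
    have hr : (l.reverse ++ [s]).IsChain (· ≠ ·) := by
      have := (List.isChain_reverse (R := (· ≠ ·)) (l := s :: l)).2
        (hl.imp (fun a b h => by simpa [flip] using h.symm))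
      simpa using this
    have h1 := append_val l.reverse s hr (by
      have := (List.isChain_reverse (R := (· ≠ ·)) (l := l)).2
        (hl.tail.imp (fun a b h => by simpa [flip] using h.symm))
      simpa using this)
    have h2 : (⟨s :: l, hl⟩ : W p)⁻¹ = gen s * (⟨l, hl.tail⟩ : W p)⁻¹ := by
      rw [← mul_gen_of_red l s hl, mul_inv_rev, gen_inv]
    have h3 : (⟨l, hl.tail⟩ : W p)⁻¹ = ⟨l.reverse, (by
      have := (List.isChain_reverse (R := (· ≠ ·)) (l := l)).2
        (hl.tail.imp (fun a b h => by simpa [flip] using h.symm))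
      simpa using this)⟩ := W.ext (ih hl.tail)
    rw [h2, h3, ← h1, List.reverse_cons]

theorem eq_one_or (x : W p) : x = 1 ∨ ∃ (s : Fin p) (l : List (Fin p)), x.val = s :: l := by
  obtain ⟨l, hl⟩ := x
  cases l with
  | nil => left; rfl
  | cons s l => right; exact ⟨s, l, rfl⟩

theorem IsEnd.far {f : W p → Fin p} (hf : IsEnd f) (x : W p) (hx1 : x ≠ 1) (h : W p)
    (hx : some (f (h * x)) ≠ x.val.head?) : some (f h) = x.val.getLast? := by
  obtain ⟨l, hl⟩ := x
  induction l with
  | nil => exact absurd rfl hx1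
  | cons s l ih =>
    have h1 : h * (⟨s :: l, hl⟩ : W p) = (h * ⟨l, hl.tail⟩) * gen s := by
      rw [mul_assoc, mul_gen_of_red]
    rw [h1] at hx
    have h2 : f ((h * ⟨l, hl.tail⟩) * gen s) ≠ s := fun h => hx (by simp [h])
    have h3 : f (h * ⟨l, hl.tail⟩) = s := by
      by_contra h4; exact h2 ((hf _ _).2 h4)
    cases l with
    | nil =>
      have : (h * (⟨[], hl.tail⟩ : W p)) = h := mul_one h
      rw [this] at h3
      simp [h3]
    | cons t l =>
      have hst : s ≠ t := (List.isChain_cons_cons.1 hl).1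
      have := ih hl.tail (by intro h; exact absurd (congrArg W.val h) (by simp)) (by
        rw [h3]; simp [hst])
      simpa using this

/-- direction from `h` to `h'` -/
def dirTo (d : Fin p) (h h' : W p) : Fin p := ((h⁻¹ * h').val.getLast?).getD d

/-- three-way comparison -/
def cmp3 (d r : Fin p) : Fin 3 := if d < r then 0 else if d = r then 1 else 2

/-- position of an end at the median `b` -/
def pos (b : W p × Fin p) (f : W p → Fin p) : Fin 3 := cmp3 (f b.1) b.2

/-- position of a median `b'` relative to the median `b` -/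
def pos2 (b b' : W p × Fin p) : Fin 3 :=
  if b.1 = b'.1 then cmp3 b'.2 b.2 else cmp3 (dirTo b.2 b.1 b'.1) b.2

theorem nested {ι : Type*} (F : ι → W p → Fin p) (hF : ∀ e, IsEnd (F e)) :
    Nested (fun b e => pos b (F e)) (pos2 (p := p)) := by
  rintro ⟨h, r⟩ ⟨h', r'⟩ hne e he
  by_cases hh : h = h'
  · subst hh
    have hr : r ≠ r' := fun h => hne (by rw [h])
    simp only [pos, pos2, cmp3, if_true, Fin.lt_def, Fin.ext_iff] at he ⊢
    have hr' : r.val ≠ r'.val := fun h => hr (Fin.ext h)
    split_ifs at he ⊢ <;> first | rfl | omega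
  · have hh' : ¬ h' = h := fun h => hh h.symm
    simp only [pos, pos2, hh, hh', if_false] at he ⊢
    have hx1 : h⁻¹ * h' ≠ 1 := fun h1 => hh (inv_mul_eq_one.1 h1)
    have hinv : h'⁻¹ * h = (h⁻¹ * h')⁻¹ := by group
    have h1 : (h'⁻¹ * h).val.getLast? = (h⁻¹ * h').val.head? := by
      rw [hinv, inv_val, List.getLast?_reverse]
    have h2 : some (F e (h * (h⁻¹ * h'))) ≠ (h⁻¹ * h').val.head? := by
      intro h3
      apply he
      have h4 : h * (h⁻¹ * h') = h' := by group
      rw [dirTo, h1, ← h3, h4]; rfl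
    have h5 := (hF e).far (h⁻¹ * h') hx1 h h2
    rw [dirTo, ← h5]; rfl

/-- three different ends have a branch vertex -/
theorem tripod_aux {f₁ f₂ f₃ : W p → Fin p} (h1 : IsEnd f₁) (h2 : IsEnd f₂) (h3 : IsEnd f₃)
    (h' : W p) (h13 : f₁ h' ≠ f₃ h') :
    ∀ (n : ℕ) (h : W p), (h⁻¹ * h').val.length = n → f₁ h ≠ f₂ h → f₃ h ≠ f₂ h →
    ∃ h'', f₁ h'' ≠ f₂ h'' ∧ f₁ h'' ≠ f₃ h'' ∧ f₂ h'' ≠ f₃ h'' := by
  intro n
  induction n with
  | zero =>
    intro h hn h12 h32
    have : h⁻¹ * h' = 1 := W.ext (List.eq_nil_of_length_eq_zero hn)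
    have hh : h = h' := (inv_mul_eq_one.1 this)
    subst hh
    exact ⟨h, h12, h13, h32.symm⟩
  | succ n ih =>
    intro h hn h12 h32
    by_cases hc : f₁ h = f₃ h
    · -- move in the common direction
      set x := h⁻¹ * h' with hx
      have hx1 : x ≠ 1 := by
        intro h1; rw [h1] at hn; simp at hn
      have hhx : h * x = h' := by rw [hx]; group
      have hdir : some (f₁ h) = x.val.getLast? := by
        by_cases hs : some (f₁ (h * x)) ≠ x.val.head?
        · exact h1.far x hx1 h hs
        · rw [hc]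
          apply h3.far x hx1 h
          intro hs'
          push Not at hs
          rw [hhx] at hs hs'
          rw [← hs] at hs'
          exact h13 (Option.some.inj hs').symm
      set t := f₁ h with ht
      have hlen : (((h * gen t)⁻¹) * h').val.length = n := by
        have h5 : (h * gen t)⁻¹ * h' = gen t * x := by
          rw [mul_inv_rev, gen_inv, hx, mul_assoc]
        rw [h5]
        obtain ⟨l, hl⟩ : ∃ l, x.val = l ++ [t] := by
          rw [eq_comm, List.getLast?_eq_some_iff] at hdir
          exact hdir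
        have hlr : (l ++ [t]).IsChain (· ≠ ·) := hl ▸ x.red
        have hl' : l.IsChain (· ≠ ·) := hlr.left_of_append
        have hx2 : x = gen t * ⟨l, hl'⟩ := by
          rw [← append_val l t hlr hl']; exact W.ext hl
        rw [hx2, ← mul_assoc, gen_mul_gen, one_mul]
        have : x.val.length = n + 1 := hn
        rw [hl] at this
        simpa using this
      apply ih (h * gen t) hlen
      · have e1 : f₁ (h * gen t) ≠ t := fun h6 => (h1 h t).1 h6 rfl
        have e2 : f₂ (h * gen t) = t := (h2 h t).2 (fun h6 => h12 h6.symm)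
        rw [e2]; exact e1
      · have e1 : f₃ (h * gen t) ≠ t := fun h6 => (h3 h t).1 h6 hc.symm
        have e2 : f₂ (h * gen t) = t := (h2 h t).2 (fun h6 => h12 h6.symm)
        rw [e2]; exact e1
    · exact ⟨h, h12, hc, h32.symm⟩

theorem tripod {f₁ f₂ f₃ : W p → Fin p} (h1 : IsEnd f₁) (h2 : IsEnd f₂) (h3 : IsEnd f₃)
    (h12 : f₁ ≠ f₂) (h13 : f₁ ≠ f₃) (h23 : f₂ ≠ f₃) :
    ∃ h, f₁ h ≠ f₂ h ∧ f₁ h ≠ f₃ h ∧ f₂ h ≠ f₃ h := by
  obtain ⟨h, hh⟩ := Function.ne_iff.1 h12
  obtain ⟨h', hh'⟩ := Function.ne_iff.1 h13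
  obtain ⟨h'', hh''⟩ := Function.ne_iff.1 h23
  by_cases hc : f₃ h = f₂ h
  · -- then f₁ ≠ f₂, f₃ ≠ f₁ : swap the roles of 1 and 2
    obtain ⟨k, e1, e2, e3⟩ := tripod_aux h2 h1 h3 h'' hh'' _ h rfl hh.symm (by rw [hc]; exact hh.symm)
    exact ⟨k, e1.symm, e3, e2⟩
  · exact tripod_aux h1 h2 h3 h' hh' _ h rfl hh hc

/-- medians of three ends -/
theorem exists_median {f₁ f₂ f₃ : W p → Fin p} (h1 : IsEnd f₁) (h2 : IsEnd f₂) (h3 : IsEnd f₃)
    (h12 : f₁ ≠ f₂) (h13 : f₁ ≠ f₃) (h23 : f₂ ≠ f₃) :
    ∃ b : W p × Fin p, pos b f₁ ≠ pos b f₂ ∧ pos b f₁ ≠ pos b f₃ ∧ pos b f₂ ≠ pos b f₃ := by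
  obtain ⟨h, e1, e2, e3⟩ := tripod h1 h2 h3 h12 h13 h23
  have key : ∀ x y z : Fin p, x ≠ y → x ≠ z → y ≠ z → ∃ r, cmp3 x r ≠ cmp3 y r ∧
      cmp3 x r ≠ cmp3 z r ∧ cmp3 y r ≠ cmp3 z r := by
    intro x y z hxy hxz hyz
    have k1 : ∀ u v w : Fin p, u < v → v < w → cmp3 u v = 0 ∧ cmp3 v v = 1 ∧ cmp3 w v = 2 := by
      intro u v w huv hvw
      simp only [cmp3]
      simp [huv, hvw.not_gt, hvw.ne']
    have n1 : (0 : Fin 3) ≠ 1 := by decide
    have n2 : (0 : Fin 3) ≠ 2 := by decide
    have n3 : (1 : Fin 3) ≠ 2 := by decide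
    rcases lt_or_gt_of_ne hxy with hxy | hxy <;> rcases lt_or_gt_of_ne hxz with hxz | hxz <;>
      rcases lt_or_gt_of_ne hyz with hyz | hyz
    · obtain ⟨a, b, c⟩ := k1 x y z hxy hyz; exact ⟨y, by rw [a, b, c]; exact ⟨n1, n2, n3⟩⟩
    · obtain ⟨a, b, c⟩ := k1 x z y hxz hyz; exact ⟨z, by rw [a, b, c]; exact ⟨n2, n1, n3.symm⟩⟩
    · exact absurd (hxy.trans hyz) hxz.not_gt
    · obtain ⟨a, b, c⟩ := k1 z x y hxz hxy; exact ⟨x, by rw [a, b, c]; exact ⟨n3, n1.symm, n2.symm⟩⟩
    · obtain ⟨a, b, c⟩ := k1 y x z hxy hxz; exact ⟨x, by rw [a, b, c]; exact ⟨n1.symm, n3, n2⟩⟩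
    · exact absurd (hxz.trans hyz) hxy.not_gt
    · obtain ⟨a, b, c⟩ := k1 y z x hyz hxz; exact ⟨z, by rw [a, b, c]; exact ⟨n2.symm, n3.symm, n1⟩⟩
    · obtain ⟨a, b, c⟩ := k1 z y x hyz hxy
      exact ⟨y, by rw [a, b, c]; exact ⟨n3.symm, n2.symm, n1.symm⟩⟩
  obtain ⟨r, hr⟩ := key _ _ _ e1 e2 e3
  exact ⟨(h, r), hr⟩

/-! ### Cusps -/

section cusp

variable [NeZero p]

open Classical in
/-- The direction at `h` of the cusp at the corner `a` (between the walls `a - 1` and `a`) of the copy `k`;
the path to a cusp turns around it clockwise. -/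
noncomputable def cusp (k : W p) (a : Fin p) (h : W p) : Fin p :=
  if ∀ c ∈ (k⁻¹ * h).val, c = a ∨ c = a - 1 then (if par h = 0 then a else a - 1)
  else (k⁻¹ * h).val.headD a

theorem sub_one_ne (hp : 2 ≤ p) (a : Fin p) : a - 1 ≠ a := by
  intro h
  have h1 : (1 : Fin p) = 0 := by
    have := congrArg (fun z => a - z) h
    simpa using this
  have := congrArg Fin.val h1
  have h3 : ((1 : Fin p) : ℕ) = 1 % p := Fin.val_one' p
  rw [Fin.val_zero, h3, Nat.mod_eq_of_lt (by omega)] at this
  omega

theorem par_ne (x : ZMod 2) : x + 1 = 0 ↔ x ≠ 0 := by revert x; decide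

theorem isEnd_cusp (hp : 2 ≤ p) (k : W p) (a : Fin p) : IsEnd (cusp k a) := by
  intro h s
  have hA := sub_one_ne hp a
  have hx : k⁻¹ * (h * gen s) = (k⁻¹ * h) * gen s := (mul_assoc _ _ _).symm
  unfold cusp
  rw [hx, mul_gen_val, par_mul_gen]
  set l := (k⁻¹ * h).val with hl
  have hlr : l.IsChain (· ≠ ·) := (k⁻¹ * h).red
  have hpar : par h + 1 = 0 ↔ ¬ par h = 0 := par_ne _
  rcases l with _ | ⟨t, l'⟩
  · rw [crossL_nil]
    simp only [List.mem_singleton, forall_eq, List.not_mem_nil, false_implies, implies_true, if_true,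
      List.headD_cons]
    by_cases hs : s = a ∨ s = a - 1
    · rw [if_pos hs]
      rcases hs with rfl | rfl
      · by_cases h0 : par h = 0 <;> simp [h0, hpar, hA]
      · by_cases h0 : par h = 0 <;> simp [h0, hpar, hA.symm]
    · rw [if_neg hs]
      push Not at hs
      by_cases h0 : par h = 0 <;> simp [h0, hs.1.symm, hs.2.symm]
  · by_cases hst : s = t
    · subst hst
      rw [crossL_self]
      by_cases hall : ∀ c ∈ s :: l', c = a ∨ c = a - 1
      · have hall' : ∀ c ∈ l', c = a ∨ c = a - 1 := fun c hc => hall c (List.mem_cons_of_mem _ hc)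
        rw [if_pos hall, if_pos hall']
        have hs := hall s List.mem_cons_self
        rcases hs with hs | hs
        · rw [hs]; by_cases h0 : par h = 0 <;> simp [h0, hpar, hA]
        · rw [hs]; by_cases h0 : par h = 0 <;> simp [h0, hpar, hA.symm]
      · rw [if_neg hall]
        simp only [List.headD_cons, ne_eq, not_true_eq_false, iff_false]
        by_cases hall' : ∀ c ∈ l', c = a ∨ c = a - 1
        · rw [if_pos hall']
          have hs : ¬ (s = a ∨ s = a - 1) := by
            intro hs
            apply hall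
            intro c hc
            rcases List.mem_cons.1 hc with rfl | hc
            · exact hs
            · exact hall' c hc
          push Not at hs
          split_ifs
          · exact hs.1.symm
          · exact hs.2.symm
        · rw [if_neg hall']
          rcases l' with _ | ⟨u, l''⟩
          · simp at hall'
          · rw [List.headD_cons]
            exact (List.isChain_cons_cons.1 hlr).1.symm
    · rw [crossL_ne hst]
      by_cases hall : ∀ c ∈ t :: l', c = a ∨ c = a - 1
      · rw [if_pos hall]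
        by_cases hs : s = a ∨ s = a - 1
        · have hall' : ∀ c ∈ s :: t :: l', c = a ∨ c = a - 1 := by
            intro c hc
            rcases List.mem_cons.1 hc with rfl | hc
            · exact hs
            · exact hall c hc
          rw [if_pos hall']
          rcases hs with hs | hs
          · rw [hs]; by_cases h0 : par h = 0 <;> simp [h0, hpar, hA]
          · rw [hs]; by_cases h0 : par h = 0 <;> simp [h0, hpar, hA.symm]
        · have hall' : ¬ ∀ c ∈ s :: t :: l', c = a ∨ c = a - 1 := fun h =>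
            hs (h s List.mem_cons_self)
          rw [if_neg hall', List.headD_cons]
          push Not at hs
          simp only [true_iff]
          split_ifs
          · exact hs.1.symm
          · exact hs.2.symm
      · have hall' : ¬ ∀ c ∈ s :: t :: l', c = a ∨ c = a - 1 := fun h =>
          hall (fun c hc => h c (List.mem_cons_of_mem _ hc))
        rw [if_neg hall, if_neg hall', List.headD_cons, List.headD_cons]
        simp only [true_iff]
        exact fun h => hst h.symm

theorem cusp_gmul (g k : W p) (hg : par g = 0) (a : Fin p) (h : W p) :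
    cusp (g * k) a (g * h) = cusp k a h := by
  unfold cusp
  have h1 : (g * k)⁻¹ * (g * h) = k⁻¹ * h := by group
  rw [h1, par_mul, hg, zero_add]

theorem cusp_rot (k : W p) (a s : Fin p) (hs : s = a ∨ s = a - 1) :
    cusp (k * gen s) a = cusp k a := by
  funext h
  unfold cusp
  have h1 : (k * gen s)⁻¹ * h = gen s * (k⁻¹ * h) := by
    rw [mul_inv_rev, gen_inv, mul_assoc]
  rw [h1]
  set x := k⁻¹ * h with hx
  -- write x as list ++ [t]
  rcases List.eq_nil_or_concat' x.val with hnil | ⟨l, t, hl⟩
  · have hx1 : x = 1 := W.ext hnil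
    rw [hx1, mul_one, gen_val, one_val]
    simp [hs]
  · have hlr : (l ++ [t]).IsChain (· ≠ ·) := hl ▸ x.red
    have hl' : l.IsChain (· ≠ ·) := hlr.left_of_append
    have hx2 : x = gen t * ⟨l, hl'⟩ := by
      rw [← append_val l t hlr hl']; exact W.ext hl
    by_cases hts : s = t
    · subst hts
      have hx3 : gen s * x = ⟨l, hl'⟩ := by rw [hx2, ← mul_assoc, gen_mul_gen, one_mul]
      rw [hx3, hl]
      simp only
      have hiff : (∀ c ∈ l ++ [s], c = a ∨ c = a - 1) ↔ (∀ c ∈ l, c = a ∨ c = a - 1) := by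
        simp only [List.mem_append, List.mem_singleton]
        constructor
        · intro h c hc; exact h c (Or.inl hc)
        · rintro h c (hc | rfl)
          · exact h c hc
          · exact hs
      by_cases hall : ∀ c ∈ l, c = a ∨ c = a - 1
      · rw [if_pos hall, if_pos (hiff.2 hall)]
      · rw [if_neg hall, if_neg (fun h => hall (hiff.1 h))]
        rcases l with _ | ⟨u, l⟩
        · simp at hall
        · rfl
    · have hred : ((l ++ [t]) ++ [s]).IsChain (· ≠ ·) := by
        rw [List.isChain_append]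
        refine ⟨hlr, List.isChain_singleton s, ?_⟩
        intro y hy z hz
        simp at hy hz
        subst hy; subst hz
        exact fun h => hts h.symm
      have hx3 : gen s * x = ⟨(l ++ [t]) ++ [s], hred⟩ := by
        rw [append_val _ s hred hlr]
        congr 1
        exact W.ext hl
      rw [hx3, hl]
      simp only
      have hiff : (∀ c ∈ (l ++ [t]) ++ [s], c = a ∨ c = a - 1) ↔
          (∀ c ∈ l ++ [t], c = a ∨ c = a - 1) := by
        constructor
        · intro h c hc; exact h c (List.mem_append_left _ hc)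
        · intro h c hc
          rcases List.mem_append.1 hc with hc | hc
          · exact h c hc
          · rw [List.mem_singleton.1 hc]; exact hs
      by_cases hall : ∀ c ∈ l ++ [t], c = a ∨ c = a - 1
      · rw [if_pos hall, if_pos (hiff.2 hall)]
      · rw [if_neg hall, if_neg (fun h => hall (hiff.1 h))]
        rcases l with _ | ⟨u, l⟩ <;> rfl

theorem cusp_mem (k : W p) (a : Fin p) (h : W p) (hall : ∀ c ∈ (k⁻¹ * h).val, c = a ∨ c = a - 1) :
    cusp k a h = a ∨ cusp k a h = a - 1 := by
  unfold cusp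
  rw [if_pos hall]
  split_ifs
  · exact Or.inl rfl
  · exact Or.inr rfl

omit [NeZero p] in
theorem mem_crossL {s c : Fin p} {l : List (Fin p)} (h : c ∈ crossL s l) : c = s ∨ c ∈ l := by
  cases l with
  | nil => left; simpa [crossL] using h
  | cons t l =>
    by_cases hst : s = t
    · subst hst; rw [crossL_self] at h; right; exact List.mem_cons_of_mem _ h
    · rw [crossL_ne hst] at h
      exact List.mem_cons.1 h

theorem two_of_three (hp : 3 ≤ p) {a a' s t : Fin p} (haa : a ≠ a') (h1 : s = a ∨ s = a - 1)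
    (h2 : s = a' ∨ s = a' - 1) (h3 : t = a ∨ t = a - 1) (h4 : t = a' ∨ t = a' - 1)
    (h5 : t ≠ s) : False := by
  have h2' : (2 : Fin p) ≠ 0 := by
    intro h
    have := congrArg Fin.val h
    rw [Fin.val_zero] at this
    have h3 : ((2 : Fin p) : ℕ) = 2 % p := rfl
    rw [h3, Nat.mod_eq_of_lt (by omega)] at this
    omega
  have key : ¬ (a = a' - 1 ∧ a - 1 = a') := by
    rintro ⟨e1, e2⟩
    apply h2'
    rw [← e2] at e1
    have : a - (a - 1 - 1) = 0 := sub_eq_zero.2 e1
    rw [← this]
    have h11 : (2 : Fin p) = 1 + 1 := by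
      apply Fin.ext
      rw [Fin.val_add]
      have h3 : ((2 : Fin p) : ℕ) = 2 % p := rfl
      rw [h3, Fin.val_one' p, Nat.mod_eq_of_lt (show 1 < p by omega),
        Nat.mod_eq_of_lt (show 2 < p by omega)]
    rw [h11]
    abel
  rcases h1 with rfl | rfl <;> rcases h3 with rfl | rfl
  · exact h5 rfl
  · rcases h2 with h2 | h2
    · exact haa h2
    · rcases h4 with h4 | h4
      · exact key ⟨h2, h4⟩
      · exact h5 (h4.trans h2.symm)
  · rcases h4 with h4 | h4
    · exact haa h4
    · rcases h2 with h2 | h2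
      · exact key ⟨h4, h2⟩
      · exact h5 (h4.trans h2.symm)
  · exact h5 rfl

theorem cusp_ne (hp : 3 ≤ p) {a a' : Fin p} (haa : a ≠ a') (k k' : W p) :
    cusp k a ≠ cusp k' a' := by
  intro heq
  have hE := isEnd_cusp (by omega) k a
  have key : ∀ (n : ℕ) (h : W p), (∀ c ∈ (k⁻¹ * h).val, c = a ∨ c = a - 1) →
      (k'⁻¹ * h).val.length = n → False := by
    intro n
    induction n with
    | zero =>
      intro h hall hn
      -- all letters in A'
      have hall' : ∀ c ∈ (k'⁻¹ * h).val, c = a' ∨ c = a' - 1 := by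
        rw [List.eq_nil_of_length_eq_zero hn]; simp
      have h1 := cusp_mem k a h hall
      have h2 := cusp_mem k' a' h hall'
      set s := cusp k a h with hs
      have hall2 : ∀ c ∈ (k⁻¹ * (h * gen s)).val, c = a ∨ c = a - 1 := by
        rw [← mul_assoc, mul_gen_val]
        intro c hc
        rcases mem_crossL hc with rfl | hc
        · exact h1
        · exact hall c hc
      rw [← heq, ← hs] at h2
      have hall2' : ∀ c ∈ (k'⁻¹ * (h * gen s)).val, c = a' ∨ c = a' - 1 := by
        rw [← mul_assoc, mul_gen_val]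
        intro c hc
        rcases mem_crossL hc with rfl | hc
        · exact h2
        · exact hall' c hc
      have h3 := cusp_mem k a _ hall2
      have h4 := cusp_mem k' a' _ hall2'
      rw [← heq] at h4
      have h5 : cusp k a (h * gen s) ≠ s := fun h => (hE _ s).1 h hs.symm
      exact two_of_three hp haa h1 h2 h3 h4 h5
    | succ n ih =>
      intro h hall hn
      by_cases hall' : ∀ c ∈ (k'⁻¹ * h).val, c = a' ∨ c = a' - 1
      · have h1 := cusp_mem k a h hall
        have h2 := cusp_mem k' a' h hall'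
        set s := cusp k a h with hs
        have hall2 : ∀ c ∈ (k⁻¹ * (h * gen s)).val, c = a ∨ c = a - 1 := by
          rw [← mul_assoc, mul_gen_val]
          intro c hc
          rcases mem_crossL hc with rfl | hc
          · exact h1
          · exact hall c hc
        rw [← heq, ← hs] at h2
        have hall2' : ∀ c ∈ (k'⁻¹ * (h * gen s)).val, c = a' ∨ c = a' - 1 := by
          rw [← mul_assoc, mul_gen_val]
          intro c hc
          rcases mem_crossL hc with rfl | hc
          · exact h2
          · exact hall' c hc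
        have h3 := cusp_mem k a _ hall2
        have h4 := cusp_mem k' a' _ hall2'
        rw [← heq] at h4
        have h5 : cusp k a (h * gen s) ≠ s := fun h => (hE _ s).1 h hs.symm
        exact two_of_three hp haa h1 h2 h3 h4 h5
      · have h1 := cusp_mem k a h hall
        have h2 : cusp k' a' h = (k'⁻¹ * h).val.headD a' := by
          unfold cusp; rw [if_neg hall']
        set s := cusp k a h with hs
        have hall2 : ∀ c ∈ (k⁻¹ * (h * gen s)).val, c = a ∨ c = a - 1 := by
          rw [← mul_assoc, mul_gen_val]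
          intro c hc
          rcases mem_crossL hc with rfl | hc
          · exact h1
          · exact hall c hc
        apply ih (h * gen s) hall2
        rw [← mul_assoc, mul_gen_val]
        rw [← heq, ← hs] at h2
        rcases hv : (k'⁻¹ * h).val with _ | ⟨t, l⟩
        · rw [hv] at hn; simp at hn
        · rw [hv] at h2 hn
          rw [List.headD_cons] at h2
          rw [h2, crossL_self]
          simpa using hn
  exact key _ k (by simp) rfl

end cusp

end W

end Pool.Agent.Lib.MP_266831_co
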