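import Pool.Agent.Lib.MP_266831_co.Hexagon
import Pool.Agent.Lib.MP_266831_co.CoreB

/-!
# The core bound (MP_266831_co)
-/

namespace Pool.Agent.Lib.MP_266831_co

open W

theorem hexAxis {p : ℕ} [NeZero p] (hp : 2 ≤ p) {q : ℕ} {G : SimpleGraph (Fin p ⊕ Fin q)}
    (M : AxisModel G) : HexAxis M := by
  intro i j g hg hne b a a' ha ha' hv hy
  exact hexagon_axis hp M i j g hg hne b a a' ha ha' hv hy

theorem coreBound {p : ℕ} (hp : 3 ≤ p) (q : ℕ) : CoreBound p q := by
  haveI : NeZero p := ⟨by omega⟩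
  exact coreBound_of_hex hp q (fun _ _ M => hexAxis (by omega) M)

/-- The lower bound for the biplanar crossing number of `K_{p,q}`. -/
theorem crTwo_lower {p q : ℕ} (hp : 4 ≤ p) (k r : ℕ) (hkr : (4 * (p - 2)) * k + r ≤ (p - 4) * q) :
    (((4 * (p - 2)) * k.choose 2 + r * k : ℕ) : ℕ∞) ≤
      crTwo (completeBipartiteGraph (Fin p) (Fin q)) :=
  lower_bound hp (coreBound (by omega) q) k r hkr

end Pool.Agent.Lib.MP_266831_co
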