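import Pool.Agent.Lib.MP_266831_co.Sign

/-!
# Polygonal arcs: continuity, finitely many common points with the graph of a polynomial
-/

namespace Pool.Agent.Lib.MP_266831_co

open Set Polynomial

/-- the first coordinate after a shear -/
def XX (c : ℝ) (P : ℝ × ℝ) : ℝ := P.1 + c * P.2

theorem XX_continuous (c : ℝ) : Continuous (XX c) := by unfold XX; fun_prop

/-- height of a point over the graph of `f` -/
noncomputable def hh (c : ℝ) (f : ℝ[X]) (P : ℝ × ℝ) : ℝ := P.2 - f.eval (XX c P)

theorem hh_continuous (c : ℝ) (f : ℝ[X]) : Continuous (hh c f) := by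
  unfold hh XX
  exact continuous_snd.sub (f.continuous.comp (by fun_prop))

theorem eq_of_XX_hh {c : ℝ} {f : ℝ[X]} {P Q : ℝ × ℝ} (h1 : XX c P = XX c Q)
    (h2 : hh c f P = hh c f Q) : P = Q := by
  unfold hh at h2
  rw [h1] at h2
  have h3 : P.2 = Q.2 := by linarith
  unfold XX at h1
  rw [h3] at h1
  exact Prod.ext (by linarith) h3

theorem seg_finite (c : ℝ) (f : ℝ[X]) (hf : 2 ≤ f.natDegree) (A B : ℝ × ℝ) (hAB : A ≠ B) :
    {s : ℝ | hh c f (AffineMap.lineMap A B s) = 0}.Finite := by
  set P : ℝ[X] := (C A.2 + X * C (B.2 - A.2)) - f.comp (C (XX c A) + X * C (XX c B - XX c A)) with hP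
  have hval : ∀ s : ℝ, hh c f (AffineMap.lineMap A B s) = P.eval s := by
    intro s
    have e1 : (AffineMap.lineMap A B s : ℝ × ℝ).1 = A.1 + s * (B.1 - A.1) := by
      simp [AffineMap.lineMap_apply]; ring
    have e2 : (AffineMap.lineMap A B s : ℝ × ℝ).2 = A.2 + s * (B.2 - A.2) := by
      simp [AffineMap.lineMap_apply]; ring
    unfold hh
    rw [hP]
    simp only [XX, e1, e2, eval_sub, eval_add, eval_mul, eval_C, eval_X, eval_comp]
    congr 2
    ring
  have hP0 : P ≠ 0 := by
    intro h0
    by_cases hx : XX c B - XX c A = 0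
    · have h1 : P.coeff 1 = B.2 - A.2 := by
        rw [hP, hx]
        simp [coeff_C]
      rw [h0, coeff_zero] at h1
      have h2 : B.2 = A.2 := by linarith
      have h3 : B.1 = A.1 := by
        unfold XX at hx
        rw [h2] at hx
        linarith
      exact hAB (Prod.ext h3.symm h2.symm)
    · have h1 : f.comp (C (XX c A) + X * C (XX c B - XX c A)) = C A.2 + X * C (B.2 - A.2) := by
        rw [hP, sub_eq_zero] at h0
        exact h0.symm
      have h2 : (C (XX c A) + X * C (XX c B - XX c A) : ℝ[X]).natDegree = 1 := by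
        rw [add_comm, mul_comm]
        exact natDegree_linear hx
      have h3 := natDegree_comp (p := f) (q := C (XX c A) + X * C (XX c B - XX c A))
      rw [h1, h2] at h3
      have h4 : (C A.2 + X * C (B.2 - A.2) : ℝ[X]).natDegree ≤ 1 := by
        rw [add_comm, mul_comm]
        exact natDegree_linear_le
      omega
  refine (P.roots.toFinset.finite_toSet).subset ?_
  intro s hs
  simp only [mem_ofPred_eq] at hs
  rw [hval] at hs
  simp only [Finset.mem_coe, Multiset.mem_toFinset]
  exact (mem_roots hP0).2 hs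

theorem cover_t {n : ℕ} {t : ℕ → ℝ} (h0 : t 0 = 0) (h1 : t n = 1)
    {s : ℝ} (hs : s ∈ Icc (0 : ℝ) 1) :
    ∃ i < n, s ∈ Icc (t i) (t (i + 1)) := by
  by_contra hcon
  push Not at hcon
  have key : ∀ i ≤ n, t i ≤ s := by
    intro i
    induction i with
    | zero => intro _; rw [h0]; exact hs.1
    | succ i ih =>
      intro hi
      have := hcon i (by omega)
      by_contra hlt
      push Not at hlt
      exact this ⟨ih (by omega), hlt.le⟩
  have h2 := key n le_rfl
  rw [h1] at h2
  have h3 : s = 1 := le_antisymm hs.2 h2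
  rcases n with _ | n
  · rw [h0] at h1; norm_num at h1
  · exact hcon n (by omega) ⟨key n (by omega), by rw [h1, h3]⟩

theorem mono_t {n : ℕ} {t : ℕ → ℝ} (h : ∀ i < n, t i < t (i + 1)) :
    ∀ i ≤ n, ∀ j ≤ i, t j ≤ t i := by
  intro i
  induction i with
  | zero => intro _ j hj; have : j = 0 := by omega
            rw [this]
  | succ i ih =>
    intro hi j hj
    rcases Nat.lt_or_ge i j with h' | h'
    · have : j = i + 1 := by omega
      rw [this]
    · exact (ih (by omega) j h').trans (h i (by omega)).le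

theorem IsPolyArc.continuousOn {γ : ℝ → ℝ × ℝ} (hγ : IsPolyArc γ) : ContinuousOn γ (Icc 0 1) := by
  obtain ⟨-, n, t, h0, h1, ht⟩ := hγ
  have hmono := mono_t (fun i hi => (ht i hi).1)
  have key : ∀ m ≤ n, ContinuousOn γ (Icc 0 (t m)) := by
    intro m
    induction m with
    | zero =>
      intro _
      rw [h0, Icc_self]
      exact continuousOn_singleton _ _
    | succ m ih =>
      intro hm
      have e : Icc 0 (t (m + 1)) = Icc 0 (t m) ∪ Icc (t m) (t (m + 1)) := by
        rw [Icc_union_Icc_eq_Icc]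
        · rw [← h0]; exact hmono m (by omega) 0 (by omega)
        · exact hmono (m + 1) hm m (by omega)
      rw [e]
      refine ContinuousOn.union_of_isClosed (ih (by omega)) ?_ isClosed_Icc isClosed_Icc
      have h2 : ContinuousOn (fun s : ℝ => (AffineMap.lineMap (γ (t m)) (γ (t (m + 1)))
          ((s - t m) / (t (m + 1) - t m)) : ℝ × ℝ)) (Icc (t m) (t (m + 1))) := by
        apply Continuous.continuousOn
        have : Continuous (fun s : ℝ => (s - t m) / (t (m + 1) - t m)) := by fun_prop
        exact (AffineMap.lineMap_continuous (p := γ (t m)) (q := γ (t (m + 1)))).comp this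
      exact h2.congr (ht m (by omega)).2
  have := key n le_rfl
  rwa [h1] at this

/-- the set of parameters where a polygonal arc meets the graph of a polynomial is finite -/
theorem IsPolyArc.finite_zeros {γ : ℝ → ℝ × ℝ} (hγ : IsPolyArc γ) (c : ℝ) (f : ℝ[X])
    (hf : 2 ≤ f.natDegree) : {s | s ∈ Icc (0 : ℝ) 1 ∧ hh c f (γ s) = 0}.Finite := by
  obtain ⟨hinj, n, t, h0, h1, ht⟩ := hγ
  have hmono := mono_t (fun i hi => (ht i hi).1)
  have hI : ∀ i ≤ n, t i ∈ Icc (0 : ℝ) 1 := fun i hi =>
    ⟨by rw [← h0]; exact hmono i hi 0 (by omega), by rw [← h1]; exact hmono n le_rfl i hi⟩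
  have hsub : {s | s ∈ Icc (0 : ℝ) 1 ∧ hh c f (γ s) = 0} ⊆
      ⋃ i ∈ Finset.range n, {s | s ∈ Icc (t i) (t (i + 1)) ∧ hh c f (γ s) = 0} := by
    rintro s ⟨hs, hs0⟩
    obtain ⟨i, hi, hsi⟩ := cover_t h0 h1 hs
    simp only [mem_iUnion, Finset.mem_range]
    exact ⟨i, hi, hsi, hs0⟩
  refine Set.Finite.subset ?_ hsub
  refine Set.Finite.biUnion (Finset.finite_toSet _) ?_
  intro i hi
  rw [Finset.mem_coe, Finset.mem_range] at hi
  have hlt := (ht i hi).1
  have hne : γ (t i) ≠ γ (t (i + 1)) := by
    intro h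
    have := hinj (hI i (by omega)) (hI (i + 1) (by omega)) h
    linarith
  have hfin := seg_finite c f hf _ _ hne
  have hinj2 : Function.Injective (fun s : ℝ => (s - t i) / (t (i + 1) - t i)) := by
    intro s s' h
    have hd : t (i + 1) - t i ≠ 0 := by linarith
    simp only [div_left_inj' hd] at h
    linarith
  refine (hfin.preimage hinj2.injOn).subset ?_
  rintro s ⟨hs, hs0⟩
  rw [(ht i hi).2 s hs] at hs0
  exact hs0

end Pool.Agent.Lib.MP_266831_co
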