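import Pool.Agent.Lib.MP_266831_co.Chord
import Pool.Agent.Lib.MP_266831_co.Poly

/-!
# From polygonal drawings to the axis model
-/

namespace Pool.Agent.Lib.MP_266831_co

open Set Polynomial

/-! ### General position -/

/-- a shear making the first coordinates of finitely many points distinct -/
theorem exists_shear {V : Type} [Finite V] (pt : V → ℝ × ℝ) (hpt : Function.Injective pt) :
    ∃ c : ℝ, Function.Injective (fun v => XX c (pt v)) := by
  have hfin : (⋃ x ∈ (Set.univ : Set (V × V)), {c : ℝ | x.1 ≠ x.2 ∧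
      XX c (pt x.1) = XX c (pt x.2)}).Finite := by
    refine Set.Finite.biUnion Set.finite_univ ?_
    rintro ⟨u, v⟩ -
    by_cases huv : u = v
    · convert Set.finite_empty
      ext c
      simp [huv]
    · apply Set.Subsingleton.finite
      rintro c ⟨-, hc⟩ c' ⟨-, hc'⟩
      simp only [XX] at hc hc'
      have h1 : (c - c') * ((pt u).2 - (pt v).2) = 0 := by linarith
      rcases mul_eq_zero.1 h1 with h1 | h1
      · linarith
      · exfalso
        apply huv
        apply hpt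
        have h2 : (pt u).2 = (pt v).2 := by linarith
        rw [h2] at hc
        exact Prod.ext (by linarith) h2
  obtain ⟨c, hc⟩ := hfin.exists_notMem
  refine ⟨c, fun u v huv => ?_⟩
  by_contra hne
  exact hc (mem_biUnion (Set.mem_univ (u, v)) ⟨hne, huv⟩)

/-- a polynomial curve through finitely many points, avoiding finitely many other points -/
theorem exists_poly {V : Type} [Fintype V] (pt : V → ℝ × ℝ) (c : ℝ)
    (hc : Function.Injective (fun v => XX c (pt v))) (S : Set (ℝ × ℝ)) (hS : S.Finite)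
    (hSV : ∀ P ∈ S, ∀ v, P ≠ pt v) :
    ∃ f : ℝ[X], 2 ≤ f.natDegree ∧ (∀ v, hh c f (pt v) = 0) ∧ ∀ P ∈ S, hh c f P ≠ 0 := by
  classical
  set x : V → ℝ := fun v => XX c (pt v) with hx
  set f0 : ℝ[X] := Lagrange.interpolate Finset.univ x (fun v => (pt v).2) with hf0
  have hf0v : ∀ v, f0.eval (x v) = (pt v).2 := fun v =>
    Lagrange.eval_interpolate_at_node _ (hc.injOn) (Finset.mem_univ v)
  set g : ℝ[X] := (X ^ 2 + C 1) * ∏ v, (X - C (x v)) with hg
  have hg1 : (X ^ 2 + C 1 : ℝ[X]).Monic := monic_X_pow_add_C _ (by norm_num)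
  have hg2 : (∏ v, (X - C (x v))).Monic := monic_prod_X_sub_C _ _
  have hgm : g.Monic := hg1.mul hg2
  have hgd : 2 ≤ g.natDegree := by
    rw [hg, hg1.natDegree_mul hg2, natDegree_X_pow_add_C]
    omega
  have hgv : ∀ y, g.eval y = 0 → ∃ v, y = x v := by
    intro y hy
    rw [hg] at hy
    simp only [eval_mul, eval_add, eval_pow, eval_X, eval_C, eval_prod, eval_sub] at hy
    rcases mul_eq_zero.1 hy with hy | hy
    · exfalso; nlinarith [sq_nonneg y]
    · obtain ⟨v, -, hv⟩ := Finset.prod_eq_zero_iff.1 hy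
      exact ⟨v, by linarith⟩
  have hgv' : ∀ v, g.eval (x v) = 0 := by
    intro v
    rw [hg]
    simp only [eval_mul, eval_add, eval_pow, eval_X, eval_C, eval_prod, eval_sub]
    rw [Finset.prod_eq_zero (Finset.mem_univ v) (by ring), mul_zero]
  have hbad : ({t : ℝ | f0.coeff g.natDegree + t = 0} ∪
      ⋃ P ∈ S, {t : ℝ | P.2 - (f0.eval (XX c P) + t * g.eval (XX c P)) = 0}).Finite := by
    refine Set.Finite.union ?_ (Set.Finite.biUnion hS ?_)
    · apply Set.Subsingleton.finite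
      intro t ht t' ht'
      simp only [mem_ofPred_eq] at ht ht'
      linarith
    · intro P hP
      by_cases h0 : g.eval (XX c P) = 0
      · convert Set.finite_empty
        ext t
        simp only [mem_ofPred_eq, mem_empty_iff_false, iff_false, h0, mul_zero, add_zero]
        intro h1
        obtain ⟨v, hv⟩ := hgv _ h0
        rw [hv, hf0v] at h1
        refine hSV P hP v ?_
        have h2 : P.2 = (pt v).2 := by linarith
        rw [hx] at hv
        simp only [XX, h2] at hv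
        exact Prod.ext (by linarith) h2
      · apply Set.Subsingleton.finite
        intro t ht t' ht'
        simp only [mem_ofPred_eq] at ht ht'
        have : (t - t') * g.eval (XX c P) = 0 := by linarith
        rcases mul_eq_zero.1 this with h | h
        · linarith
        · exact absurd h h0
  obtain ⟨t, ht⟩ := hbad.exists_notMem
  refine ⟨f0 + C t * g, ?_, ?_, ?_⟩
  · apply hgd.trans
    apply le_natDegree_of_ne_zero
    rw [coeff_add, coeff_C_mul, hgm.coeff_natDegree, mul_one]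
    exact fun h => ht (Or.inl h)
  · intro v
    simp only [hh, eval_add, eval_mul, eval_C]
    rw [hf0v, hgv']
    ring
  · intro P hP h
    apply ht
    refine Or.inr (mem_biUnion hP ?_)
    simp only [mem_ofPred_eq]
    simpa only [hh, eval_add, eval_mul, eval_C] using h

/-! ### Oriented arcs -/

/-- an oriented arc of the drawing -/
structure OArc {V : Type} {G : SimpleGraph V} (D : Drawing G) (a b : V) where
  γ : ℝ → ℝ × ℝ
  cont : ContinuousOn γ (Icc 0 1)
  inj : InjOn γ (Icc 0 1)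
  zero : γ 0 = D.pt a
  one : γ 1 = D.pt b
  image : γ '' Ioo 0 1 = D.arc s(a, b) '' Ioo 0 1
  fin : ∀ (c : ℝ) (f : ℝ[X]), 2 ≤ f.natDegree → {s | s ∈ Icc (0 : ℝ) 1 ∧ hh c f (γ s) = 0}.Finite

theorem exists_oArc {V : Type} {G : SimpleGraph V} (D : Drawing G) {a b : V} (hab : G.Adj a b) :
    Nonempty (OArc D a b) := by
  have he : s(a, b) ∈ G.edgeSet := hab
  have h1 := D.arc_poly _ he
  have h2 := D.arc_ends _ he
  rw [Sym2.map_mk, Sym2.eq_iff] at h2
  rcases h2 with ⟨h3, h4⟩ | ⟨h3, h4⟩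
  · exact ⟨⟨D.arc s(a, b), h1.continuousOn, h1.1, h3, h4, rfl, fun c f hf => h1.finite_zeros c f hf⟩⟩
  · have hm : ∀ s ∈ Icc (0 : ℝ) 1, 1 - s ∈ Icc (0 : ℝ) 1 := fun s hs =>
      ⟨by linarith [hs.2], by linarith [hs.1]⟩
    refine ⟨⟨fun s => D.arc s(a, b) (1 - s), h1.continuousOn.comp (by fun_prop) hm, ?_, ?_, ?_, ?_, ?_⟩⟩
    · intro s hs s' hs' h
      have := h1.1 (hm s hs) (hm s' hs') h
      linarith
    · simpa using h4
    · simpa using h3
    · ext P
      constructor
      · rintro ⟨s, hs, rfl⟩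
        exact ⟨1 - s, ⟨by linarith [hs.2], by linarith [hs.1]⟩, rfl⟩
      · rintro ⟨s, hs, rfl⟩
        exact ⟨1 - s, ⟨by linarith [hs.2], by linarith [hs.1]⟩, by simp⟩
    · intro c f hf
      have h5 := h1.finite_zeros c f hf
      refine (h5.preimage (f := fun s : ℝ => 1 - s) (by intro s _ s' _ h; simpa using h)).subset ?_
      rintro s ⟨hs, hs0⟩
      exact ⟨hm s hs, hs0⟩

/-! ### Representation of an arc by an axis path -/

/-- the path `A` with parameters `s` represents the curve `γ` -/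
structure Rep (c : ℝ) (f : ℝ[X]) (γ : ℝ → ℝ × ℝ) (A : AxisPath) (s : ℕ → ℝ) : Prop where
  zero : s 0 = 0
  last : s (A.n + 1) = 1
  lt : ∀ i ≤ A.n, s i < s (i + 1)
  root : ∀ i ≤ A.n + 1, hh c f (γ (s i)) = 0
  sign : ∀ i ≤ A.n, ∀ t ∈ Icc (s i) (s (i + 1)), 0 ≤ sgn (A.side i) * hh c f (γ t)
  zz : ∀ i, A.z i = XX c (γ (s i))

theorem exists_rep {V : Type} {G : SimpleGraph V} {D : Drawing G} {a b : V} (O : OArc D a b)
    (c : ℝ) (f : ℝ[X]) (hf : 2 ≤ f.natDegree) (hv : ∀ v, hh c f (D.pt v) = 0) :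
    ∃ (A : AxisPath) (s : ℕ → ℝ), Rep c f O.γ A s := by
  obtain ⟨n, s, up, h0, h1, h2, h3, h4⟩ := sign_dec (h := fun t => hh c f (O.γ t)) zero_lt_one
    (by rw [O.zero]; exact hv a) (by rw [O.one]; exact hv b)
    ((hh_continuous c f).comp_continuousOn O.cont) (O.fin c f hf)
  exact ⟨⟨n, fun i => XX c (O.γ (s i)), up⟩, s, ⟨h0, h1, h2, h3, h4, fun i => rfl⟩⟩

namespace Rep

variable {c : ℝ} {f : ℝ[X]} {γ γ' : ℝ → ℝ × ℝ} {A A' : AxisPath} {s s' : ℕ → ℝ}

theorem mono (R : Rep c f γ A s) : ∀ i ≤ A.n + 1, ∀ j ≤ i, s j ≤ s i := by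
  intro i
  induction i with
  | zero => intro _ j hj; have : j = 0 := by omega
            rw [this]
  | succ i ih =>
    intro hi j hj
    rcases Nat.lt_or_ge i j with h' | h'
    · have : j = i + 1 := by omega
      rw [this]
    · exact (ih (by omega) j h').trans (R.lt i (by omega)).le

theorem strict (R : Rep c f γ A s) : ∀ i ≤ A.n + 1, ∀ j < i, s j < s i := by
  intro i hi j hj
  exact (R.lt j (by omega)).trans_le (R.mono i hi (j + 1) hj)

theorem mem (R : Rep c f γ A s) {i : ℕ} (hi : i ≤ A.n + 1) : s i ∈ Icc (0 : ℝ) 1 :=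
  ⟨by rw [← R.zero]; exact R.mono i hi 0 (by omega), by rw [← R.last]; exact R.mono _ le_rfl i hi⟩

theorem mem_Ioo (R : Rep c f γ A s) {i : ℕ} (hi : 1 ≤ i) (hi' : i ≤ A.n) : s i ∈ Ioo (0 : ℝ) 1 :=
  ⟨by rw [← R.zero]; exact R.strict i (by omega) 0 (by omega),
   by rw [← R.last]; exact R.strict _ le_rfl i (by omega)⟩

theorem inj (R : Rep c f γ A s) {i j : ℕ} (hi : i ≤ A.n + 1) (hj : j ≤ A.n + 1) (h : s i = s j) :
    i = j := by
  rcases lt_trichotomy i j with h' | h' | h'
  · exact absurd h (R.strict j hj i h').ne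
  · exact h'
  · exact absurd h.symm (R.strict i hi j h').ne

theorem sub_Icc (R : Rep c f γ A s) {k : ℕ} (hk : k ≤ A.n) : Icc (s k) (s (k + 1)) ⊆ Icc 0 1 :=
  Icc_subset_Icc (R.mem (by omega)).1 (R.mem (by omega)).2

/-- the shear -/
noncomputable def shear (c : ℝ) (f : ℝ[X]) (P : ℝ × ℝ) : ℝ × ℝ := (XX c P, hh c f P)

theorem shear_inj {P Q : ℝ × ℝ} (h : shear c f P = shear c f Q) : P = Q := by
  simp only [shear, Prod.mk.injEq] at h
  exact eq_of_XX_hh h.1 h.2

/-- interleaving pieces have a common point -/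
theorem meet (R : Rep c f γ A s) (R' : Rep c f γ' A' s') (hγ : ContinuousOn γ (Icc 0 1))
    (hγ' : ContinuousOn γ' (Icc 0 1)) {k : ℕ × ℕ} (hk : k ∈ A.pairs A') :
    ∃ t ∈ Icc (s k.1) (s (k.1 + 1)), ∃ u ∈ Icc (s' k.2) (s' (k.2 + 1)), γ t = γ' u := by
  classical
  unfold AxisPath.pairs at hk
  simp only [Finset.mem_filter, Finset.mem_product, Finset.mem_range] at hk
  obtain ⟨⟨hk1, hk2⟩, hside, hint⟩ := hk
  have hsc : Continuous (shear c f) := (XX_continuous c).prodMk (hh_continuous c f)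
  obtain ⟨t, ht, u, hu, h⟩ := chords_meet (α := fun t => shear c f (γ t))
    (β := fun t => shear c f (γ' t)) hint (sgn (A.side k.1)) (sgn_ne_zero _)
    (R.lt k.1 (by omega)).le (R'.lt k.2 (by omega)).le
    ((hsc.comp_continuousOn hγ).mono (R.sub_Icc (by omega)))
    ((hsc.comp_continuousOn hγ').mono (R'.sub_Icc (by omega)))
    (fun t ht => R.sign k.1 (by omega) t ht)
    (fun t ht => by rw [hside]; exact R'.sign k.2 (by omega) t ht)
    (by simp only [shear]; rw [R.zz, R.root k.1 (by omega)])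
    (by simp only [shear]; rw [R.zz, R.root (k.1 + 1) (by omega)])
    (by simp only [shear]; rw [R'.zz, R'.root k.2 (by omega)])
    (by simp only [shear]; rw [R'.zz, R'.root (k.2 + 1) (by omega)])
  exact ⟨t, ht, u, hu, shear_inj h⟩

theorem z_inj (R : Rep c f γ A s) (hinj : InjOn γ (Icc 0 1)) {i j : ℕ} (hi : i ≤ A.n + 1)
    (hj : j ≤ A.n + 1) (h : A.z i = A.z j) : i = j := by
  rw [R.zz, R.zz] at h
  have h1 : γ (s i) = γ (s j) := eq_of_XX_hh h (by rw [R.root i hi, R.root j hj])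
  exact R.inj hi hj (hinj (R.mem hi) (R.mem hj) h1)

theorem X_self (R : Rep c f γ A s) (hγ : ContinuousOn γ (Icc 0 1)) (hinj : InjOn γ (Icc 0 1)) :
    A.X A = 0 := by
  classical
  unfold AxisPath.X
  rw [Finset.card_eq_zero, Finset.eq_empty_iff_forall_notMem]
  intro k hk
  obtain ⟨t, ht, u, hu, h⟩ := R.meet R hγ hγ hk
  unfold AxisPath.pairs at hk
  simp only [Finset.mem_filter, Finset.mem_product, Finset.mem_range] at hk
  obtain ⟨⟨hk1, hk2⟩, -, hint⟩ := hk
  have htu := hinj (R.sub_Icc (by omega) ht) (R.sub_Icc (by omega) hu) h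
  subst htu
  -- same parameter in two pieces
  rcases lt_trichotomy k.1 k.2 with h' | h' | h'
  · have h1 := R.mono k.2 (by omega) (k.1 + 1) h'
    have h2 : s (k.1 + 1) = s k.2 := le_antisymm h1 (hu.1.trans ht.2)
    have h3 := R.inj (by omega) (by omega) h2
    rw [← h3] at hint
    unfold Inter at hint
    grind
  · rw [h'] at hint
    unfold Inter at hint
    grind
  · have h1 := R.mono k.1 (by omega) (k.2 + 1) h'
    have h2 : s (k.2 + 1) = s k.1 := le_antisymm h1 (ht.1.trans hu.2)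
    have h3 := R.inj (by omega) (by omega) h2
    rw [← h3] at hint
    unfold Inter at hint
    grind

end Rep

/-- interleaving pieces of two different edges have a crossing in their interiors -/
theorem exists_crossing {V : Type} {G : SimpleGraph V} {D : Drawing G} {a b a' b' : V}
    (hab : G.Adj a b) (hab' : G.Adj a' b') (hne : s(a, b) ≠ s(a', b'))
    (O : OArc D a b) (O' : OArc D a' b') {c : ℝ} {f : ℝ[X]}
    (hcr : ∀ x ∈ D.crossings, hh c f x.1 ≠ 0) {A A' : AxisPath} {s s' : ℕ → ℝ}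
    (R : Rep c f O.γ A s) (R' : Rep c f O'.γ A' s') {k : ℕ × ℕ} (hk : k ∈ A.pairs A') :
    ∃ P : ℝ × ℝ, (P, s(s(a, b), s(a', b'))) ∈ D.crossings ∧
      (∃ t ∈ Ioo (s k.1) (s (k.1 + 1)), P = O.γ t) ∧
      ∃ u ∈ Ioo (s' k.2) (s' (k.2 + 1)), P = O'.γ u := by
  classical
  obtain ⟨t, ht, u, hu, h⟩ := R.meet R' O.cont O'.cont hk
  unfold AxisPath.pairs at hk
  simp only [Finset.mem_filter, Finset.mem_product, Finset.mem_range] at hk
  obtain ⟨⟨hk1, hk2⟩, -, hint⟩ := hk
  have ht01 := R.sub_Icc (by omega) ht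
  have hu01 := R'.sub_Icc (by omega) hu
  have hav : ∀ t ∈ Ioo (0 : ℝ) 1, ∀ v, O.γ t ≠ D.pt v := by
    intro t ht v hv
    have : O.γ t ∈ D.arc s(a, b) '' Ioo 0 1 := by rw [← O.image]; exact ⟨t, ht, rfl⟩
    obtain ⟨r, hr, hr'⟩ := this
    exact D.arc_avoid _ hab r hr v (hr'.trans hv)
  have hav' : ∀ t ∈ Ioo (0 : ℝ) 1, ∀ v, O'.γ t ≠ D.pt v := by
    intro t ht v hv
    have : O'.γ t ∈ D.arc s(a', b') '' Ioo 0 1 := by rw [← O'.image]; exact ⟨t, ht, rfl⟩
    obtain ⟨r, hr, hr'⟩ := this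
    exact D.arc_avoid _ hab' r hr v (hr'.trans hv)
  -- an end parameter gives a vertex and an end of the piece
  have hend : t ∉ Ioo (0 : ℝ) 1 → (∃ v, O.γ t = D.pt v) ∧ (t = s k.1 ∨ t = s (k.1 + 1)) := by
    intro hnot
    rcases eq_or_lt_of_le ht01.1 with h0 | h0
    · have h1 := (R.mem (i := k.1) (by omega)).1
      exact ⟨⟨a, by rw [← h0]; exact O.zero⟩, Or.inl (le_antisymm (by rw [← h0]; exact h1) ht.1)⟩
    · rcases eq_or_lt_of_le ht01.2 with h1 | h1
      · have h2 := (R.mem (i := k.1 + 1) (by omega)).2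
        exact ⟨⟨b, by rw [h1]; exact O.one⟩, Or.inr (le_antisymm ht.2 (by rw [h1]; exact h2))⟩
      · exact absurd ⟨h0, h1⟩ hnot
  have hend' : u ∉ Ioo (0 : ℝ) 1 → (∃ v, O'.γ u = D.pt v) ∧ (u = s' k.2 ∨ u = s' (k.2 + 1)) := by
    intro hnot
    rcases eq_or_lt_of_le hu01.1 with h0 | h0
    · have h1 := (R'.mem (i := k.2) (by omega)).1
      exact ⟨⟨a', by rw [← h0]; exact O'.zero⟩, Or.inl (le_antisymm (by rw [← h0]; exact h1) hu.1)⟩
    · rcases eq_or_lt_of_le hu01.2 with h1 | h1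
      · have h2 := (R'.mem (i := k.2 + 1) (by omega)).2
        exact ⟨⟨b', by rw [h1]; exact O'.one⟩, Or.inr (le_antisymm hu.2 (by rw [h1]; exact h2))⟩
      · exact absurd ⟨h0, h1⟩ hnot
  by_cases htI : t ∈ Ioo (0 : ℝ) 1
  · by_cases huI : u ∈ Ioo (0 : ℝ) 1
    · have hmem : (O.γ t, s(s(a, b), s(a', b'))) ∈ D.crossings := by
        refine ⟨?_, ?_⟩
        · simpa using hne
        · intro e he
          simp only [Sym2.mem_iff] at he
          rcases he with he | he
          · subst he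
            exact ⟨hab, by rw [← O.image]; exact ⟨t, htI, rfl⟩⟩
          · subst he
            exact ⟨hab', by rw [← O'.image]; exact ⟨u, huI, h.symm⟩⟩
      have h0 := hcr _ hmem
      simp only at h0
      refine ⟨O.γ t, hmem, ⟨t, ⟨?_, ?_⟩, rfl⟩, ⟨u, ⟨?_, ?_⟩, h⟩⟩
      · refine lt_of_le_of_ne ht.1 (fun e => h0 ?_)
        rw [← e]; exact R.root _ (by omega)
      · refine lt_of_le_of_ne ht.2 (fun e => h0 ?_)
        rw [e]; exact R.root _ (by omega)
      · refine lt_of_le_of_ne hu.1 (fun e => h0 ?_)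
        rw [h, ← e]; exact R'.root _ (by omega)
      · refine lt_of_le_of_ne hu.2 (fun e => h0 ?_)
        rw [h, e]; exact R'.root _ (by omega)
    · obtain ⟨⟨v, hv⟩, -⟩ := hend' huI
      exact absurd (h.trans hv) (hav t htI v)
  · obtain ⟨⟨v, hv⟩, h1⟩ := hend htI
    by_cases huI : u ∈ Ioo (0 : ℝ) 1
    · exact absurd (h.symm.trans hv) (hav' u huI v)
    · obtain ⟨-, h2⟩ := hend' huI
      exfalso
      have e1 : XX c (O.γ t) = A.z k.1 ∨ XX c (O.γ t) = A.z (k.1 + 1) := by
        rcases h1 with h1 | h1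
        · left; rw [R.zz, h1]
        · right; rw [R.zz, h1]
      have e2 : XX c (O.γ t) = A'.z k.2 ∨ XX c (O.γ t) = A'.z (k.2 + 1) := by
        rw [h]
        rcases h2 with h2 | h2
        · left; rw [R'.zz, h2]
        · right; rw [R'.zz, h2]
      unfold Inter at hint
      grind

theorem X_le_card {V : Type} [DecidableEq V] {G : SimpleGraph V} {D : Drawing G} {a b a' b' : V}
    (hab : G.Adj a b) (hab' : G.Adj a' b') (hne : s(a, b) ≠ s(a', b'))
    (O : OArc D a b) (O' : OArc D a' b') {c : ℝ} {f : ℝ[X]}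
    (hcr : ∀ x ∈ D.crossings, hh c f x.1 ≠ 0) {A A' : AxisPath} {s s' : ℕ → ℝ}
    (R : Rep c f O.γ A s) (R' : Rep c f O'.γ A' s') (C : Finset ((ℝ × ℝ) × Sym2 (Sym2 V)))
    (hC : ∀ x ∈ D.crossings, x ∈ C) :
    A.X A' ≤ (C.filter (fun y => y.2 = s(s(a, b), s(a', b')))).card := by
  have h1 : ∀ k ∈ A.pairs A', ∃ P : ℝ × ℝ, (P, s(s(a, b), s(a', b'))) ∈ D.crossings ∧
      (∃ t ∈ Ioo (s k.1) (s (k.1 + 1)), P = O.γ t) ∧
      ∃ u ∈ Ioo (s' k.2) (s' (k.2 + 1)), P = O'.γ u := fun k hk =>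
    exists_crossing hab hab' hne O O' hcr R R' hk
  choose! g hg using h1
  unfold AxisPath.X
  refine Finset.card_le_card_of_injOn (fun k => (g k, s(s(a, b), s(a', b')))) ?_ ?_
  · intro k hk
    simp only [Finset.coe_filter, mem_ofPred_eq, and_true]
    exact hC _ (hg k hk).1
  · intro k hk k' hk' hkk
    simp only [Prod.mk.injEq, and_true] at hkk
    obtain ⟨-, ⟨t, ht, e1⟩, u, hu, e2⟩ := hg k hk
    obtain ⟨-, ⟨t', ht', e1'⟩, u', hu', e2'⟩ := hg k' hk'
    have hm : ∀ k ∈ A.pairs A', k.1 ≤ A.n ∧ k.2 ≤ A'.n := by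
      intro k hk
      unfold AxisPath.pairs at hk
      simp only [Finset.mem_filter, Finset.mem_product, Finset.mem_range] at hk
      omega
    obtain ⟨m1, m2⟩ := hm k hk
    obtain ⟨m1', m2'⟩ := hm k' hk'
    have htt : t = t' := O.inj (R.sub_Icc m1 (Ioo_subset_Icc_self ht))
      (R.sub_Icc m1' (Ioo_subset_Icc_self ht')) (by rw [← e1, ← e1', hkk])
    have huu : u = u' := O'.inj (R'.sub_Icc m2 (Ioo_subset_Icc_self hu))
      (R'.sub_Icc m2' (Ioo_subset_Icc_self hu')) (by rw [← e2, ← e2', hkk])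
    subst htt huu
    refine Prod.ext ?_ ?_
    · rcases lt_trichotomy k.1 k'.1 with h' | h' | h'
      · have := R.mono k'.1 (by omega) (k.1 + 1) h'
        linarith [ht.2, ht'.1]
      · exact h'
      · have := R.mono k.1 (by omega) (k'.1 + 1) h'
        linarith [ht.1, ht'.2]
    · rcases lt_trichotomy k.2 k'.2 with h' | h' | h'
      · have := R'.mono k'.2 (by omega) (k.2 + 1) h'
        linarith [hu.2, hu'.1]
      · exact h'
      · have := R'.mono k.2 (by omega) (k'.2 + 1) h'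
        linarith [hu.1, hu'.2]

/-- **From drawings to the axis model.** -/
theorem exists_axisModel {V : Type} [Fintype V] {G : SimpleGraph V} (D : Drawing G)
    (hD : D.crossings.Finite) :
    ∃ M : AxisModel G, ∀ T : Finset ((V × V) × (V × V)),
      (∀ x ∈ T, G.Adj x.1.1 x.1.2 ∧ G.Adj x.2.1 x.2.2 ∧ s(x.1.1, x.1.2) ≠ s(x.2.1, x.2.2)) →
      (∀ x ∈ T, ∀ y ∈ T, s(s(x.1.1, x.1.2), s(x.2.1, x.2.2)) = s(s(y.1.1, y.1.2), s(y.2.1, y.2.2)) →
        x = y) →
      ∑ x ∈ T, (M.A x.1.1 x.1.2).X (M.A x.2.1 x.2.2) ≤ D.crossings.ncard := by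
  classical
  obtain ⟨c, hc⟩ := exists_shear D.pt D.pt_injective
  obtain ⟨f, hf, hfv, hfc⟩ := exists_poly D.pt c hc (Prod.fst '' D.crossings) (hD.image _) (by
    rintro P ⟨⟨P, q⟩, ⟨hx1, hx2⟩, rfl⟩ v hv
    simp only at hv hx2
    have hmem : ∃ e, e ∈ q := by
      induction q with
      | _ x y => exact ⟨x, Sym2.mem_mk_left _ _⟩
    obtain ⟨e, he⟩ := hmem
    obtain ⟨he1, r, hr, hr'⟩ := hx2 e he
    exact D.arc_avoid e he1 r hr v (hr'.trans hv))
  have hcr : ∀ x ∈ D.crossings, hh c f x.1 ≠ 0 := fun x hx => hfc _ ⟨x, hx, rfl⟩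
  have hex : ∀ a b, ∃ A : AxisPath, G.Adj a b → ∃ (O : OArc D a b) (s : ℕ → ℝ), Rep c f O.γ A s := by
    intro a b
    by_cases hab : G.Adj a b
    · obtain ⟨O⟩ := exists_oArc D hab
      obtain ⟨A, s, hR⟩ := exists_rep O c f hf hfv
      exact ⟨A, fun _ => ⟨O, s, hR⟩⟩
    · exact ⟨⟨0, fun _ => 0, true⟩, fun h => absurd h hab⟩
  choose A hA using hex
  have hint : ∀ {a b} (hab : G.Adj a b) (O : OArc D a b) (s : ℕ → ℝ) (_ : Rep c f O.γ (A a b) s)
      (i : ℕ), 1 ≤ i → i ≤ (A a b).n → O.γ (s i) ∈ D.arc s(a, b) '' Ioo 0 1 := by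
    intro a b hab O s R i h1 h2
    rw [← O.image]
    exact ⟨s i, R.mem_Ioo h1 h2, rfl⟩
  let M : AxisModel G :=
    { x := fun v => XX c (D.pt v)
      x_injective := hc
      A := A
      z_zero := by
        intro a b hab
        obtain ⟨O, s, R⟩ := hA a b hab
        rw [R.zz, R.zero, O.zero]
      z_last := by
        intro a b hab
        obtain ⟨O, s, R⟩ := hA a b hab
        rw [R.zz, R.last, O.one]
      z_inj := by
        intro a b hab i hi j hj h
        obtain ⟨O, s, R⟩ := hA a b hab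
        exact R.z_inj O.inj hi hj h
      z_ne := by
        intro a b hab i h1 h2 v hv
        obtain ⟨O, s, R⟩ := hA a b hab
        rw [R.zz] at hv
        have h3 : O.γ (s i) = D.pt v := eq_of_XX_hh hv (by rw [R.root i (by omega), hfv v])
        obtain ⟨r, hr, hr'⟩ := hint hab O s R i h1 h2
        exact D.arc_avoid _ hab r hr v (hr'.trans h3)
      z_ne_z := by
        intro a b a' b' hab hab' hne i h1 h2 j h3 h4 hz
        obtain ⟨O, s, R⟩ := hA a b hab
        obtain ⟨O', s', R'⟩ := hA a' b' hab'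
        rw [R.zz, R'.zz] at hz
        have h5 : O.γ (s i) = O'.γ (s' j) :=
          eq_of_XX_hh hz (by rw [R.root i (by omega), R'.root j (by omega)])
        have hmem : (O.γ (s i), s(s(a, b), s(a', b'))) ∈ D.crossings := by
          refine ⟨by simpa using hne, ?_⟩
          intro e he
          simp only [Sym2.mem_iff] at he
          rcases he with he | he
          · subst he
            exact ⟨hab, hint hab O s R i h1 h2⟩
          · subst he
            refine ⟨hab', ?_⟩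
            simp only
            rw [h5]
            exact hint hab' O' s' R' j h3 h4
        exact hcr _ hmem (R.root i (by omega))
      X_self := by
        intro a b hab
        obtain ⟨O, s, R⟩ := hA a b hab
        exact R.X_self O.cont O.inj }
  refine ⟨M, fun T hT1 hT2 => ?_⟩
  rw [Set.ncard_eq_toFinset_card _ hD]
  set C := hD.toFinset with hC
  have hC' : ∀ x ∈ D.crossings, x ∈ C := fun x hx => hD.mem_toFinset.2 hx
  calc ∑ x ∈ T, (M.A x.1.1 x.1.2).X (M.A x.2.1 x.2.2)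
      ≤ ∑ x ∈ T, (C.filter (fun y => y.2 = s(s(x.1.1, x.1.2), s(x.2.1, x.2.2)))).card := by
        refine Finset.sum_le_sum (fun x hx => ?_)
        obtain ⟨h1, h2, h3⟩ := hT1 x hx
        obtain ⟨O, s, R⟩ := hA _ _ h1
        obtain ⟨O', s', R'⟩ := hA _ _ h2
        exact X_le_card h1 h2 h3 O O' hcr R R' C hC'
    _ = (T.biUnion (fun x => C.filter
          (fun y => y.2 = s(s(x.1.1, x.1.2), s(x.2.1, x.2.2))))).card := by
        rw [Finset.card_biUnion]
        intro x hx y hy hxy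
        refine Finset.disjoint_left.2 ?_
        intro w hw1 hw2
        simp only [Finset.mem_filter] at hw1 hw2
        exact hxy (hT2 x hx y hy (hw1.2.symm.trans hw2.2))
    _ ≤ C.card := by
        apply Finset.card_le_card
        intro w hw
        simp only [Finset.mem_biUnion, Finset.mem_filter] at hw
        obtain ⟨x, -, hw, -⟩ := hw
        exact hw

end Pool.Agent.Lib.MP_266831_co
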