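import Pool.Agent.Lib.MP_266831_co.Align

/-!
# The hexagon identity for stars on the axis (MP_266831_co)
-/

namespace Pool.Agent.Lib.MP_266831_co

open W

variable {p : ℕ} [NeZero p]

theorem abel (F : ℕ → ℕ → ZMod 2) (n : ℕ) :
    ∑ t ∈ Finset.range (n + 1), (F t t + F t (t + 1)) =
      F 0 0 + ∑ i ∈ Finset.range n, (F i (i + 1) + F (i + 1) (i + 1)) + F n (n + 1) := by
  induction n with
  | zero => simp
  | succ n ih =>
    rw [Finset.sum_range_succ, ih, Finset.sum_range_succ _ n]
    ring

theorem telescope (G : ℕ → ZMod 2) (n : ℕ) :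
    ∑ i ∈ Finset.range n, (G (i + 1) + G i) = G n + G 0 := by
  induction n with
  | zero => simp [zmod2_add_self]
  | succ n ih =>
    rw [Finset.sum_range_succ, ih]
    have := zmod2_add_self (G n)
    linear_combination this

/-- a leg: a path from the hub `u` to the puncture `a` -/
structure IsLeg (P : Fin p → ℝ) (u : ℝ) (B : AxisPath) (a : Fin p) : Prop where
  zero : B.z 0 = u
  last : B.z (B.n + 1) = P a
  int : ∀ i, 1 ≤ i → i ≤ B.n → ∀ b, B.z i ≠ P b
  hub : ∀ b, u ≠ P b

/-- pieces of `g * B` in the copy `h`, compared with `ζ` -/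
noncomputable def Bf (P : Fin p → ℝ) (g : W p) (B : AxisPath) (h : W p) (ζ : ℝ) : ZMod 2 :=
  ∑ s ∈ Finset.range (B.n + 1),
    ind (h = g * copy P B s) * (lt2 P (B.z s) ζ + lt2 P (B.z (s + 1)) ζ)

/-- the contribution of the hub -/
noncomputable def startT (P : Fin p → ℝ) (g : W p) (u : ℝ) (h : W p) (s : Fin p) : ZMod 2 :=
  Phi h g s + ind (h = g) * ind (wall P u < s)

/-- the contribution of the hub at a wall point -/
noncomputable def TT (P : Fin p → ℝ) (g : W p) (u : ℝ) (h : W p) (ζ : ℝ) : ZMod 2 :=
  startT P g u h (wall P ζ) + startT P g u (h * gen (wall P ζ)) (wall P ζ) +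
    ind (wall P u = wall P ζ) * (ind (h = g) + ind (h * gen (wall P ζ) = g)) * lt2 P u ζ

/-- the correction constant -/
noncomputable def cc (P : Fin p → ℝ) (g : W p) (B : AxisPath) (a : Fin p) (h : W p) : ZMod 2 :=
  (qq (g * copy P B B.n) (corner P a) h + ind (h = g * copy P B B.n)) * ind (corner P a = 0)

/-- the end of `g * B` -/
noncomputable def fend (P : Fin p → ℝ) (g : W p) (B : AxisPath) (a : Fin p) : W p → Fin p :=
  cusp (g * copy P B B.n) (corner P a)

omit [NeZero p] in
theorem eq_gen_comm (h c : W p) (s : Fin p) : (h * gen s = c) ↔ (h = c * gen s) := by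
  constructor
  · rintro rfl; simp
  · rintro rfl; simp

theorem copy_zero_cases (P : Fin p → ℝ) (B : AxisPath) :
    copy P B 0 = 1 ∨ copy P B 0 = gen (wall P (B.z 0)) := by
  unfold copy
  cases B.up <;> simp

/-- the start term does not depend on the side -/
theorem start_eq (P : Fin p → ℝ) (g : W p) (B : AxisPath) (h : W p) (s : Fin p) :
    Phi h (g * copy P B 0) s + ind (h = g * copy P B 0) * ind (wall P (B.z 0) < s) =
      startT P g (B.z 0) h s := by
  unfold startT
  rcases copy_zero_cases P B with h0 | h0
  · rw [h0, mul_one]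
  · rw [h0]
    have h1 := Phi_step h g (wall P (B.z 0)) s
    generalize Phi h (g * gen (wall P (B.z 0))) s = x1 at *
    generalize Phi h g s = x2 at *
    generalize ind (h = g) = x3 at *
    generalize ind (h = g * gen (wall P (B.z 0))) = x4 at *
    generalize ind (wall P (B.z 0) < s) = x5 at *
    revert x1 x2 x3 x4 x5
    decide

theorem Bf_wall (hp : 2 ≤ p) (P : Fin p → ℝ) (g : W p) (u' : ℝ) (B : AxisPath) (a : Fin p)
    (hB : IsLeg P u' B a) (h : W p) (ζ : ℝ) (hζ : ∀ b, ζ ≠ P b) :
    Bf P g B h ζ + Bf P g B (h * gen (wall P ζ)) ζ =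
      ind (fend P g B a h < wall P ζ) + ind (fend P g B a (h * gen (wall P ζ)) < wall P ζ) +
      (cc P g B a h + cc P g B a (h * gen (wall P ζ))) + TT P g u' h ζ := by
  set s := wall P ζ with hs
  set c : ℕ → W p := fun j => g * copy P B j with hc
  have hwall : ∀ i, i ≤ B.n → wall P (B.z i) ≠ s → lt2 P (B.z i) ζ = ind (wall P (B.z i) < s) := by
    intro i hi hne
    apply lt2_wall_wall P _ hζ hne
    rcases Nat.eq_zero_or_pos i with rfl | hi'
    · rw [hB.zero]; exact hB.hub
    · exact hB.int i hi' hi
  have hexp : ∀ h' : W p, Bf P g B h' ζ = ind (h' = c 0) * lt2 P (B.z 0) ζ +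
      ∑ j ∈ Finset.range B.n, (ind (h' = c j) + ind (h' = c (j + 1))) * lt2 P (B.z (j + 1)) ζ +
      ind (h' = c B.n) * ind (corner P a ≤ s) := by
    intro h'
    have h1 := abel (fun t i => ind (h' = c t) * lt2 P (B.z i) ζ) B.n
    unfold Bf
    have h2 : ∑ t ∈ Finset.range (B.n + 1),
        ind (h' = g * copy P B t) * (lt2 P (B.z t) ζ + lt2 P (B.z (t + 1)) ζ) =
        ∑ t ∈ Finset.range (B.n + 1),
        (ind (h' = c t) * lt2 P (B.z t) ζ + ind (h' = c t) * lt2 P (B.z (t + 1)) ζ) :=
      Finset.sum_congr rfl fun t _ => by rw [mul_add]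
    rw [h2, h1, hB.last, lt2_puncture_wall P a hζ]
    congr 2
    refine Finset.sum_congr rfl fun j _ => ?_
    rw [add_mul]
  have hpair : ∀ j ∈ Finset.range B.n,
      (ind (h = c j) + ind (h = c (j + 1))) * lt2 P (B.z (j + 1)) ζ +
      (ind (h * gen s = c j) + ind (h * gen s = c (j + 1))) * lt2 P (B.z (j + 1)) ζ =
      (Phi h (c (j + 1)) s + Phi h (c j) s) +
        (Phi (h * gen s) (c (j + 1)) s + Phi (h * gen s) (c j) s) := by
    intro j hj
    rw [Finset.mem_range] at hj
    have hcj : c (j + 1) = c j * gen (wall P (B.z (j + 1))) := by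
      simp only [hc, copy, mul_assoc]
    rw [hcj, Phi_step h, Phi_step (h * gen s)]
    by_cases hσ : wall P (B.z (j + 1)) = s
    · rw [hσ, ind_false (lt_irrefl s)]
      have e1 : ind (h * gen s = c j) = ind (h = c j * gen s) := by
        unfold ind; simp only [eq_gen_comm]
      have e2 : ind (h * gen s = c j * gen s) = ind (h = c j) := by
        unfold ind; simp only [mul_left_inj]
      rw [e1, e2]
      generalize ind (h = c j * gen s) = x1
      generalize ind (h = c j) = x2
      generalize lt2 P (B.z (j + 1)) ζ = x3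
      revert x1 x2 x3
      decide
    · rw [hwall (j + 1) (by omega) hσ]
  rw [hexp h, hexp (h * gen s)]
  have hsum : (∑ j ∈ Finset.range B.n, (ind (h = c j) + ind (h = c (j + 1))) * lt2 P (B.z (j + 1)) ζ)
      + ∑ j ∈ Finset.range B.n,
        (ind (h * gen s = c j) + ind (h * gen s = c (j + 1))) * lt2 P (B.z (j + 1)) ζ =
      (Phi h (c B.n) s + Phi h (c 0) s) + (Phi (h * gen s) (c B.n) s + Phi (h * gen s) (c 0) s) := by
    rw [← Finset.sum_add_distrib, Finset.sum_congr rfl hpair, Finset.sum_add_distrib,
      telescope (fun j => Phi h (c j) s), telescope (fun j => Phi (h * gen s) (c j) s)]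
  have hE1 := E_wall hp (c B.n) (corner P a) h s
  have hE2 := E_wall hp (c B.n) (corner P a) (h * gen s) s
  have hq : qq (c B.n) (corner P a) h * ind (s = corner P a) +
      qq (c B.n) (corner P a) (h * gen s) * ind (s = corner P a) = 0 := by
    by_cases hsc : s = corner P a
    · rw [hsc, qq_cross hp, zmod2_add_self]
    · rw [ind_false hsc]; simp
  -- the hub
  have hst1 := start_eq P g B h s
  have hst2 := start_eq P g B (h * gen s) s
  have hub : (ind (h = c 0) + ind (h * gen s = c 0)) * (lt2 P (B.z 0) ζ + ind (wall P (B.z 0) < s))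
      = ind (wall P (B.z 0) = s) * (ind (h = g) + ind (h * gen s = g)) * lt2 P (B.z 0) ζ := by
    by_cases hσ : wall P (B.z 0) = s
    · rw [ind_true hσ, hσ, ind_false (lt_irrefl s), add_zero, one_mul]
      congr 1
      rcases copy_zero_cases P B with h0 | h0
      · simp only [hc, h0, mul_one]
      · simp only [hc, h0, hσ]
        have e1 : ind (h * gen s = g * gen s) = ind (h = g) := by
          unfold ind; simp only [mul_left_inj]
        have e2 : ind (h = g * gen s) = ind (h * gen s = g) := by
          unfold ind; simp only [eq_gen_comm]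
        rw [e1, e2, add_comm]
    · rw [ind_false hσ, hwall 0 (Nat.zero_le _) hσ, zmod2_add_self]; ring
  have hu : B.z 0 = u' := hB.zero
  have hcc1 : cc P g B a h = (qq (c B.n) (corner P a) h + ind (h = c B.n)) * ind (corner P a = 0) :=
    rfl
  have hcc2 : cc P g B a (h * gen s) =
      (qq (c B.n) (corner P a) (h * gen s) + ind (h * gen s = c B.n)) * ind (corner P a = 0) := rfl
  have hf : fend P g B a = cusp (c B.n) (corner P a) := rfl
  have hTT : TT P g u' h ζ = startT P g u' h s + startT P g u' (h * gen s) s +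
    ind (wall P u' = s) * (ind (h = g) + ind (h * gen s = g)) * lt2 P u' ζ := rfl
  rw [hTT, hcc1, hcc2, hf, ← hu, ← hub, ← hst1, ← hst2]
  have hc0 : c 0 = g * copy P B 0 := rfl
  rw [← hc0]
  have t1 := zmod2_add_self (ind (h = c 0) * ind (wall P (B.z 0) < s))
  have t2 := zmod2_add_self (ind (h * gen s = c 0) * ind (wall P (B.z 0) < s))
  linear_combination hsum + hE1 + hE2 + hq - t1 - t2

theorem Bf_corner (hp : 2 ≤ p) (P : Fin p → ℝ) (hP : Function.Injective P) (g : W p) (u' : ℝ)
    (B : AxisPath) (a' : Fin p) (hB : IsLeg P u' B a') (h : W p) (a : Fin p)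
    (hne : (∀ u ∈ ((g * copy P B B.n)⁻¹ * h).val, u = corner P a' ∨ u = corner P a' - 1) → a ≠ a') :
    Bf P g B h (P a) = ind (fend P g B a' h < corner P a) + cc P g B a' h +
      startT P g u' h (corner P a) := by
  set c : ℕ → W p := fun j => g * copy P B j with hc
  have hwall : ∀ i, i ≤ B.n → lt2 P (B.z i) (P a) = ind (wall P (B.z i) < corner P a) := by
    intro i hi
    apply lt2_wall_puncture
    rcases Nat.eq_zero_or_pos i with rfl | hi'
    · rw [hB.zero]; exact hB.hub
    · exact hB.int i hi' hi
  have hexp : Bf P g B h (P a) = ind (h = c 0) * ind (wall P (B.z 0) < corner P a) +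
      ∑ j ∈ Finset.range B.n, (ind (h = c j) + ind (h = c (j + 1))) * lt2 P (B.z (j + 1)) (P a) +
      ind (h = c B.n) * lt2 P (P a') (P a) := by
    have h1 := abel (fun t i => ind (h = c t) * lt2 P (B.z i) (P a)) B.n
    unfold Bf
    have h2 : ∑ t ∈ Finset.range (B.n + 1),
        ind (h = g * copy P B t) * (lt2 P (B.z t) (P a) + lt2 P (B.z (t + 1)) (P a)) =
        ∑ t ∈ Finset.range (B.n + 1),
        (ind (h = c t) * lt2 P (B.z t) (P a) + ind (h = c t) * lt2 P (B.z (t + 1)) (P a)) :=
      Finset.sum_congr rfl fun t _ => by rw [mul_add]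
    rw [h2, h1, hB.last, hwall 0 (Nat.zero_le _)]
    congr 2
    refine Finset.sum_congr rfl fun j _ => ?_
    rw [add_mul]
  have hpair : ∀ j ∈ Finset.range B.n,
      (ind (h = c j) + ind (h = c (j + 1))) * lt2 P (B.z (j + 1)) (P a) =
      (Phi h (c (j + 1)) (corner P a) + Phi h (c j) (corner P a)) := by
    intro j hj
    rw [Finset.mem_range] at hj
    have hcj : c (j + 1) = c j * gen (wall P (B.z (j + 1))) := by
      simp only [hc, copy, mul_assoc]
    rw [hcj, Phi_step h, hwall (j + 1) (by omega)]
  rw [hexp, Finset.sum_congr rfl hpair, telescope (fun j => Phi h (c j) (corner P a))]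
  have hE := E_corner hp (c B.n) (corner P a') h (corner P a)
    (fun hall h' => hne hall (corner_injective' hP h'))
  have hlast : ind (h = c B.n) * lt2 P (P a') (P a) =
      ind (h = c B.n) * ind (corner P a' < corner P a) := by
    by_cases h1 : h = c B.n
    · have h2 : a ≠ a' := hne (by
        intro u hu
        have h3 : (g * copy P B B.n)⁻¹ * h = 1 := by rw [h1]; simp [hc]
        rw [h3] at hu
        simp at hu)
      rw [lt2_puncture_puncture P hP h2.symm]
    · rw [ind_false h1]; simp
  rw [hlast]
  have hst1 := start_eq P g B h (corner P a)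
  have hu : B.z 0 = u' := hB.zero
  have hcc1 : cc P g B a' h =
    (qq (c B.n) (corner P a') h + ind (h = c B.n)) * ind (corner P a' = 0) := rfl
  have hf : fend P g B a' = cusp (c B.n) (corner P a') := rfl
  rw [hcc1, hf, ← hu, ← hst1]
  have hc0 : c 0 = g * copy P B 0 := rfl
  rw [← hc0]
  linear_combination hE

/-- the hub-dependent part of the crossing number of a leg `A` -/
noncomputable def eta (P : Fin p → ℝ) (g : W p) (u' : ℝ) (A : AxisPath) (a : Fin p) : ZMod 2 :=
  (if A.up then 0 else TT P g u' 1 (A.z 0)) +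
  (∑ i ∈ Finset.range A.n, TT P g u' (copy P A i) (A.z (i + 1))) +
  startT P g u' (copy P A A.n) (corner P a)

/-- the part of the crossing number which depends on `B` only -/
noncomputable def kap (P : Fin p → ℝ) (g : W p) (u : ℝ) (B : AxisPath) (a' : Fin p) : ZMod 2 :=
  Bf P g B 1 u + cc P g B a' 1

theorem sum_Bf (hp : 2 ≤ p) (P : Fin p → ℝ) (hP : Function.Injective P) (g : W p) (u u' : ℝ)
    (A B : AxisPath) (a a' : Fin p) (hA : IsLeg P u A a) (hB : IsLeg P u' B a')
    (hne : (∀ w ∈ ((g * copy P B B.n)⁻¹ * copy P A A.n).val,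
      w = corner P a' ∨ w = corner P a' - 1) → a ≠ a') :
    ∑ t ∈ Finset.range (A.n + 1),
      (Bf P g B (copy P A t) (A.z t) + Bf P g B (copy P A t) (A.z (t + 1))) =
      kap P g u B a' + eta P g u' A a + spot (fend P g B a') (copy P A A.n) (corner P a) := by
  set f := fend P g B a' with hf
  rw [abel (fun t i => Bf P g B (copy P A t) (A.z i)) A.n]
  have hz : ∀ i, i ≤ A.n → ∀ b, A.z i ≠ P b := by
    intro i hi
    rcases Nat.eq_zero_or_pos i with rfl | hi'
    · rw [hA.zero]; exact hA.hub
    · exact hA.int i hi' hi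
  have hmid : ∀ i ∈ Finset.range A.n,
      Bf P g B (copy P A i) (A.z (i + 1)) + Bf P g B (copy P A (i + 1)) (A.z (i + 1)) =
      ((off f (copy P A (i + 1)) + cc P g B a' (copy P A (i + 1))) +
        (off f (copy P A i) + cc P g B a' (copy P A i))) + TT P g u' (copy P A i) (A.z (i + 1)) := by
    intro i hi
    rw [Finset.mem_range] at hi
    have h1 := Bf_wall hp P g u' B a' hB (copy P A i) (A.z (i + 1)) (hz (i + 1) (by omega))
    have h2 : copy P A (i + 1) = copy P A i * gen (wall P (A.z (i + 1))) := rfl
    rw [← h2, ← hf] at h1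
    have h3 := off_mul_gen f (copy P A i) (wall P (A.z (i + 1)))
    rw [← h2] at h3
    rw [h1, h3]
    have h4 := zmod2_add_self (off f (copy P A i))
    linear_combination -h4
  rw [Finset.sum_congr rfl hmid, Finset.sum_add_distrib,
    telescope (fun i => off f (copy P A i) + cc P g B a' (copy P A i))]
  rw [hA.last, Bf_corner hp P hP g u' B a' hB (copy P A A.n) a hne, hA.zero]
  -- the start
  have hstart : Bf P g B (copy P A 0) u + off f (copy P A 0) + cc P g B a' (copy P A 0) =
      kap P g u B a' + (if A.up then 0 else TT P g u' 1 (A.z 0)) := by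
    unfold kap
    cases hup : A.up
    · have h0 : copy P A 0 = 1 * gen (wall P (A.z 0)) := by simp [copy, hup]
      have h1 := Bf_wall hp P g u' B a' hB 1 (A.z 0) (hz 0 (Nat.zero_le _))
      have h3 := off_mul_gen f 1 (wall P (A.z 0))
      rw [← h0, ← hf] at h1
      rw [← h0, off_one] at h3
      rw [hA.zero] at h1 h3 ⊢
      rw [h3]
      simp only [Bool.false_eq_true, if_false]
      have e1 := zmod2_add_self (Bf P g B 1 u)
      have e2 := zmod2_add_self (ind (f 1 < wall P u))
      have e3 := zmod2_add_self (ind (f (copy P A 0) < wall P u))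
      have e4 := zmod2_add_self (cc P g B a' 1)
      have e5 := zmod2_add_self (cc P g B a' (copy P A 0))
      linear_combination h1 - e1 + e2 + e3 + e5
    · have h0 : copy P A 0 = 1 := by simp [copy, hup]
      rw [h0, off_one]; simp
  unfold eta spot
  rw [← hf]
  have e1 := zmod2_add_self (cc P g B a' (copy P A A.n))
  linear_combination hstart + e1

/-- no coincidences between the end points of pieces in the same copy -/
def Sep (P : Fin p → ℝ) (g : W p) (A B : AxisPath) : Prop :=
  ∀ t ≤ A.n, ∀ s ≤ B.n, copy P A t = g * copy P B s →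
    A.z t ≠ B.z s ∧ A.z t ≠ B.z (s + 1) ∧ A.z (t + 1) ≠ B.z s ∧ A.z (t + 1) ≠ B.z (s + 1)

theorem xg_eq_sum (P : Fin p → ℝ) (g : W p) (A B : AxisPath) (h : Sep P g A B) :
    (xg P g A B : ZMod 2) = ∑ t ∈ Finset.range (A.n + 1),
      (Bf P g B (copy P A t) (A.z t) + Bf P g B (copy P A t) (A.z (t + 1))) := by
  classical
  unfold xg
  rw [Finset.card_filter, Finset.sum_product, Nat.cast_sum]
  refine Finset.sum_congr rfl fun t ht => ?_
  rw [Finset.mem_range] at ht
  rw [Nat.cast_sum]
  unfold Bf
  rw [← Finset.sum_add_distrib]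
  refine Finset.sum_congr rfl fun s hs => ?_
  rw [Finset.mem_range] at hs
  simp only
  by_cases hc : copy P A t = g * copy P B s
  · obtain ⟨h1, h2, h3, h4⟩ := h t (by omega) s (by omega) hc
    rw [ind_true hc]
    have key := inter_parity (A.z t) (A.z (t + 1)) (B.z s) (B.z (s + 1)) h1 h2 h3 h4
    have h5 : ((if copy P A t = g * copy P B s ∧ Inter (A.z t) (A.z (t + 1)) (B.z s) (B.z (s + 1))
        then 1 else 0 : ℕ) : ZMod 2) = ind (Inter (A.z t) (A.z (t + 1)) (B.z s) (B.z (s + 1))) := by
      unfold ind
      by_cases hI : Inter (A.z t) (A.z (t + 1)) (B.z s) (B.z (s + 1))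
      · rw [if_pos ⟨hc, hI⟩, if_pos hI]; rfl
      · rw [if_neg (fun h => hI h.2), if_neg hI]; rfl
    rw [h5, key]
    unfold lt2
    have e1 := zmod2_add_self (ind (∀ a, B.z s < P a))
    have e2 := zmod2_add_self (ind (∀ a, B.z (s + 1) < P a))
    have e3 := zmod2_add_self (ind (∀ a, A.z t < P a))
    have e4 := zmod2_add_self (ind (∀ a, A.z (t + 1) < P a))
    linear_combination -e1 - e2 - e3 - e4
  · rw [ind_false hc, if_neg (fun h => hc h.1)]
    simp

/-- the crossing formula for two legs -/
theorem xg_formula (hp : 2 ≤ p) (P : Fin p → ℝ) (hP : Function.Injective P) (g : W p) (u u' : ℝ)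
    (A B : AxisPath) (a a' : Fin p) (hA : IsLeg P u A a) (hB : IsLeg P u' B a')
    (hs : Sep P g A B) (hne : cuspOf P A a ≠ fend P g B a') :
    (xg P g A B : ZMod 2) =
      kap P g u B a' + eta P g u' A a + spot (fend P g B a') (copy P A A.n) (corner P a) := by
  rw [xg_eq_sum P g A B hs]
  apply sum_Bf hp P hP g u u' A B a a' hA hB
  rintro hall rfl
  apply hne
  -- the two corners represent the same cusp
  unfold cuspOf fend
  set c := g * copy P B B.n with hc
  have key : ∀ x : W p, (∀ w ∈ x.val, w = corner P a ∨ w = corner P a - 1) →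
      cusp (c * x) (corner P a) = cusp c (corner P a) := by
    intro x hx
    obtain ⟨l, hl⟩ := x
    induction l with
    | nil => exact congrArg (fun z => cusp z (corner P a)) (mul_one c)
    | cons s l ih =>
      rw [← mul_gen_of_red l s hl, ← mul_assoc,
        cusp_rot _ _ s (hx s List.mem_cons_self)]
      exact ih hl.tail (fun w hw => hx w (List.mem_cons_of_mem _ hw))
  have h1 := key (c⁻¹ * copy P A A.n) hall
  rwa [mul_inv_cancel_left] at h1

section model

open Sum

variable {q : ℕ} {G : SimpleGraph (Fin p ⊕ Fin q)}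

/-- the punctures of an axis model -/
def punct (M : AxisModel G) (a : Fin p) : ℝ := M.x (inl a)

omit [NeZero p] in
theorem punct_injective (M : AxisModel G) : Function.Injective (punct M) := by
  intro a b h
  exact inl_injective (M.x_injective h)

/-- the leg from the hub `i` to the puncture `a` -/
def leg (M : AxisModel G) (i : Fin q) (a : Fin p) : AxisPath := M.A (inr i) (inl a)

omit [NeZero p] in
theorem isLeg (M : AxisModel G) (i : Fin q) (a : Fin p) (h : G.Adj (inr i) (inl a)) :
    IsLeg (punct M) (M.x (inr i)) (leg M i a) a where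
  zero := M.z_zero _ _ h
  last := M.z_last _ _ h
  int := fun k hk hk' b => M.z_ne _ _ h k hk hk' _
  hub := fun b hb => by have := M.x_injective hb; simp at this

theorem parity_side (P : Fin p → ℝ) (A B : AxisPath) (g : W p) (hg : par g = 0) (t s : ℕ)
    (h : copy P A t = g * copy P B s) : A.side t = B.side s := by
  have h1 := congrArg par h
  rw [par_mul, hg, zero_add, par_copy, par_copy] at h1
  cases h2 : A.side t <;> cases h3 : B.side s <;> simp_all

/-- the pieces in the same copy have no common end point, unless the cusps agree -/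
theorem sep_model (M : AxisModel G) (i j : Fin q) (g : W p) (hg : par g = 0) (hne : i ≠ j ∨ g ≠ 1)
    (a a' : Fin p) (ha : G.Adj (inr i) (inl a)) (ha' : G.Adj (inr j) (inl a'))
    (hc : cuspOf (punct M) (leg M i a) a ≠ fend (punct M) g (leg M j a') a') :
    Sep (punct M) g (leg M i a) (leg M j a') := by
  intro t ht s hs hcopy
  have hside := parity_side _ _ _ g hg t s hcopy
  -- a general statement on the end points
  have key : ∀ t' s', (t' = t ∨ t' = t + 1) → (s' = s ∨ s' = s + 1) →
      (leg M i a).z t' ≠ (leg M j a').z s' := by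
    intro t' s' ht' hs' heq
    have ht2 : t' ≤ (leg M i a).n + 1 := by omega
    have hs2 : s' ≤ (leg M j a').n + 1 := by omega
    have z0 : (leg M i a).z 0 = M.x (inr i) := M.z_zero _ _ ha
    have z1 : (leg M i a).z ((leg M i a).n + 1) = M.x (inl a) := M.z_last _ _ ha
    have w0 : (leg M j a').z 0 = M.x (inr j) := M.z_zero _ _ ha'
    have w1 : (leg M j a').z ((leg M j a').n + 1) = M.x (inl a') := M.z_last _ _ ha'
    have zne := M.z_ne _ _ ha
    have wne := M.z_ne _ _ ha'
    -- classify t'
    by_cases ct : 1 ≤ t' ∧ t' ≤ (leg M i a).n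
    · by_cases cs : 1 ≤ s' ∧ s' ≤ (leg M j a').n
      · by_cases hedge : i = j ∧ a = a'
        · obtain ⟨rfl, rfl⟩ := hedge
          have hg1 : g ≠ 1 := hne.resolve_left (fun h => h rfl)
          have h1 := M.z_inj _ _ ha t' (by show t' ≤ (leg M i a).n + 1; omega) s'
            (by show s' ≤ (leg M i a).n + 1; omega) heq
          have hts : t ≠ s := by
            rintro rfl
            apply hg1
            have := mul_right_cancel (hcopy.symm.trans (one_mul _).symm)
            exact this
          have hsd : ∀ k, (leg M i a).side (k + 1) = !(leg M i a).side k := by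
            intro k; simp [AxisPath.side, Nat.bodd_succ]
          rcases ht' with rfl | rfl <;> rcases hs' with rfl | rfl
          · exact hts h1
          · rw [h1, hsd] at hside; simp at hside
          · rw [← h1, hsd] at hside; simp at hside
          · exact hts (by omega)
        · refine M.z_ne_z _ _ _ _ ha ha' ?_ t' ct.1 ct.2 s' cs.1 cs.2 heq
          intro h
          apply hedge
          rw [Sym2.eq_iff] at h
          rcases h with ⟨h1, h2⟩ | ⟨h1, h2⟩
          · exact ⟨inr_injective h1, inl_injective h2⟩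
          · simp at h1
      · have : s' = 0 ∨ s' = (leg M j a').n + 1 := by omega
        rcases this with h | h
        · rw [h, w0] at heq; exact zne t' ct.1 ct.2 _ heq
        · rw [h, w1] at heq; exact zne t' ct.1 ct.2 _ heq
    · have : t' = 0 ∨ t' = (leg M i a).n + 1 := by omega
      by_cases cs : 1 ≤ s' ∧ s' ≤ (leg M j a').n
      · rcases this with h | h
        · rw [h, z0] at heq; exact wne s' cs.1 cs.2 _ heq.symm
        · rw [h, z1] at heq; exact wne s' cs.1 cs.2 _ heq.symm
      · have : s' = 0 ∨ s' = (leg M j a').n + 1 := by omega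
        rcases ‹t' = 0 ∨ t' = (leg M i a).n + 1› with h | h <;> rcases this with h' | h'
        · rw [h, h', z0, w0] at heq
          have hij := inr_injective (M.x_injective heq)
          have hg1 : g ≠ 1 := hne.resolve_left (fun h => h hij)
          subst hij
          have t0 : t = 0 := by omega
          have s0 : s = 0 := by omega
          rw [t0, s0] at hcopy hside
          have hup : (leg M i a).up = (leg M i a').up := by
            simpa [AxisPath.side] using hside
          have : copy (punct M) (leg M i a) 0 = copy (punct M) (leg M i a') 0 := by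
            unfold copy
            rw [hup, z0, w0]
          rw [this] at hcopy
          exact hg1 (mul_right_cancel (hcopy.symm.trans (one_mul _).symm))
        · rw [h, h', z0, w1] at heq
          have := M.x_injective heq; simp at this
        · rw [h, h', z1, w0] at heq
          have := M.x_injective heq; simp at this
        · rw [h, h', z1, w1] at heq
          have haa := inl_injective (M.x_injective heq)
          have ht3 : t = (leg M i a).n := by omega
          have hs3 : s = (leg M j a').n := by omega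
          apply hc
          unfold cuspOf fend
          rw [← ht3, ← hs3, hcopy, haa]
  exact ⟨key t s (Or.inl rfl) (Or.inl rfl), key t (s + 1) (Or.inl rfl) (Or.inr rfl),
    key (t + 1) s (Or.inr rfl) (Or.inl rfl), key (t + 1) (s + 1) (Or.inr rfl) (Or.inr rfl)⟩

/-- The hexagon identity in the axis model: at a common median `b` of the star `i` and of `g` times the
star `j`, the off-diagonal crossing numbers of class `g` sum up to an odd number. -/
theorem hexagon_axis (hp : 2 ≤ p) (M : AxisModel G) (i j : Fin q) (g : W p) (hg : par g = 0)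
    (hne : i ≠ j ∨ g ≠ 1) (b : W p × Fin p) (a a' : Fin 3 → Fin p)
    (ha : ∀ k, G.Adj (inr i) (inl (a k))) (ha' : ∀ k, G.Adj (inr j) (inl (a' k)))
    (hv : ∀ k, pos b (cuspOf (punct M) (leg M i (a k)) (a k)) = k)
    (hy : ∀ k, pos b (fend (punct M) g (leg M j (a' k)) (a' k)) = k) :
    hex (fun k l => (xg (punct M) g (leg M i (a k)) (leg M j (a' l)) : ZMod 2)) = 1 := by
  have hcne : ∀ k l, k ≠ l → cuspOf (punct M) (leg M i (a k)) (a k) ≠
      fend (punct M) g (leg M j (a' l)) (a' l) := by
    intro k l hkl h
    apply hkl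
    rw [← hv k, ← hy l, h]
  have hform : ∀ k l, k ≠ l →
      (xg (punct M) g (leg M i (a k)) (leg M j (a' l)) : ZMod 2) =
      kap (punct M) g (M.x (inr i)) (leg M j (a' l)) (a' l) +
        eta (punct M) g (M.x (inr j)) (leg M i (a k)) (a k) +
        spot (fend (punct M) g (leg M j (a' l)) (a' l))
          (copy (punct M) (leg M i (a k)) (leg M i (a k)).n) (corner (punct M) (a k)) := by
    intro k l hkl
    exact xg_formula hp (punct M) (punct_injective M) g _ _ _ _ _ _ (isLeg M i _ (ha k))
      (isLeg M j _ (ha' l))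
      (sep_model M i j g hg hne _ _ (ha k) (ha' l) (hcne k l hkl)) (hcne k l hkl)
  refine hexagon hp b (fun k => copy (punct M) (leg M i (a k)) (leg M i (a k)).n)
    (fun k => corner (punct M) (a k)) (fun l => fend (punct M) g (leg M j (a' l)) (a' l))
    (fun l => isEnd_cusp hp _ _) hv hy _
    (fun l => kap (punct M) g (M.x (inr i)) (leg M j (a' l)) (a' l)) ?_
  intro k l l' hkl hkl' _
  rw [hform k l hkl, hform k l' hkl']
  unfold Spot
  have e1 := zmod2_add_self (eta (punct M) g (M.x (inr j)) (leg M i (a k)) (a k))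
  linear_combination e1

end model

end Pool.Agent.Lib.MP_266831_co
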