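import Mathlib

/-!
# Counting the pairs of hubs in a blow-up (MP_266831_co)
-/

namespace Pool.Agent.Lib.MP_266831_co

open Finset

theorem sum_pairs_eq (F : ℕ → ℕ → ℕ) (q : ℕ) :
    ∑ x ∈ (range q ×ˢ range q).filter (fun x => x.1 < x.2), F x.1 x.2 =
      ∑ b ∈ range q, ∑ a ∈ range b, F a b := by
  rw [sum_sigma']
  refine sum_bij' (fun x _ => (⟨x.2, x.1⟩ : Σ _ : ℕ, ℕ)) (fun x _ => (x.2, x.1)) ?_ ?_ ?_ ?_ ?_
  · intro x hx
    simp only [mem_filter, mem_product, mem_range] at hx
    simp only [mem_sigma, mem_range]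
    exact ⟨hx.1.2, hx.2⟩
  · intro x hx
    simp only [mem_sigma, mem_range] at hx
    simp only [mem_filter, mem_product, mem_range]
    exact ⟨⟨hx.2.trans hx.1, hx.1⟩, hx.2⟩
  · intro x _; rfl
  · intro x _; rfl
  · intro x _; rfl

theorem sum_mod (N : ℕ) (f : ℕ → ℕ) (m r : ℕ) (hr : r ≤ N) :
    ∑ a ∈ range (N * m + r), f (a % N) = m * ∑ i ∈ range N, f i + ∑ i ∈ range r, f i := by
  have h1 : ∀ r ≤ N, ∀ m, ∑ j ∈ range r, f ((N * m + j) % N) = ∑ j ∈ range r, f j := by
    intro r hr m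
    refine sum_congr rfl fun j hj => ?_
    have hj' : j < N := (mem_range.1 hj).trans_le hr
    rw [Nat.mul_add_mod, Nat.mod_eq_of_lt hj']
  have h2 : ∀ m, ∑ a ∈ range (N * m), f (a % N) = m * ∑ i ∈ range N, f i := by
    intro m
    induction m with
    | zero => simp
    | succ m ih => rw [Nat.mul_succ, sum_range_add, ih, h1 N le_rfl m]; ring
  rw [sum_range_add, h2, h1 r hr m]

/-- the number of pairs, blow-up with `q = N * m + r` hubs -/
theorem sum_blow (N : ℕ) (W : ℕ → ℕ → ℕ) (m r : ℕ) (hr : r ≤ N) :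
    ∑ x ∈ (range (N * m + r) ×ˢ range (N * m + r)).filter (fun x => x.1 < x.2),
        W (x.1 % N) (x.2 % N) =
      m.choose 2 * (∑ j ∈ range N, ∑ i ∈ range N, W i j) + m * (∑ j ∈ range N, ∑ i ∈ range j, W i j)
        + m * (∑ j ∈ range r, ∑ i ∈ range N, W i j) + ∑ j ∈ range r, ∑ i ∈ range j, W i j := by
  rw [sum_pairs_eq (fun a b => W (a % N) (b % N))]
  have h1 : ∀ r ≤ N, ∀ m, ∑ j ∈ range r, ∑ a ∈ range (N * m + j), W (a % N) ((N * m + j) % N) =
      m * (∑ j ∈ range r, ∑ i ∈ range N, W i j) + ∑ j ∈ range r, ∑ i ∈ range j, W i j := by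
    intro r hr m
    rw [mul_sum, ← sum_add_distrib]
    refine sum_congr rfl fun j hj => ?_
    have hj' : j < N := (mem_range.1 hj).trans_le hr
    have : (N * m + j) % N = j := by rw [Nat.mul_add_mod, Nat.mod_eq_of_lt hj']
    rw [this]
    exact sum_mod N (fun i => W i j) m j hj'.le
  have h2 : ∀ m, ∑ b ∈ range (N * m), ∑ a ∈ range b, W (a % N) (b % N) =
      m.choose 2 * (∑ j ∈ range N, ∑ i ∈ range N, W i j)
        + m * (∑ j ∈ range N, ∑ i ∈ range j, W i j) := by
    intro m
    induction m with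
    | zero => simp
    | succ m ih =>
      rw [Nat.mul_succ, sum_range_add, ih, h1 N le_rfl m, Nat.choose_succ_succ', Nat.choose_one_right]
      ring
  rw [sum_range_add, h2, h1 r hr m]
  ring

theorem sum_square_symm (N : ℕ) (W : ℕ → ℕ → ℕ) (hW : ∀ i < N, ∀ j < N, W i j = W j i) :
    ∑ j ∈ range N, ∑ i ∈ range N, W i j =
      2 * (∑ j ∈ range N, ∑ i ∈ range j, W i j) + ∑ i ∈ range N, W i i := by
  induction N with
  | zero => simp
  | succ N ih =>
    have ih' := ih (fun i hi j hj => hW i (hi.trans (Nat.lt_succ_self N)) j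
      (hj.trans (Nat.lt_succ_self N)))
    rw [sum_range_succ, sum_range_succ (fun j => ∑ i ∈ range j, W i j), sum_range_succ (fun i => W i i)]
    have h1 : ∑ j ∈ range N, ∑ i ∈ range (N + 1), W i j =
        ∑ j ∈ range N, ∑ i ∈ range N, W i j + ∑ j ∈ range N, W N j := by
      rw [← sum_add_distrib]
      exact sum_congr rfl fun j _ => sum_range_succ _ _
    have h2 : ∑ j ∈ range N, W N j = ∑ i ∈ range N, W i N :=
      sum_congr rfl fun j hj => hW N (Nat.lt_succ_self N) j ((mem_range.1 hj).trans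
        (Nat.lt_succ_self N))
    rw [h1, ih', sum_range_succ (fun i => W i N), h2]
    ring

/-- a symmetric weight, `q = N * m` hubs -/
theorem sum_blow_symm (N : ℕ) (W : ℕ → ℕ → ℕ) (hW : ∀ i < N, ∀ j < N, W i j = W j i) (m : ℕ) :
    ∑ x ∈ (range (N * m) ×ˢ range (N * m)).filter (fun x => x.1 < x.2), W (x.1 % N) (x.2 % N) =
      m ^ 2 * (∑ j ∈ range N, ∑ i ∈ range j, W i j) + m.choose 2 * ∑ i ∈ range N, W i i := by
  have h := sum_blow N W m 0 (Nat.zero_le _)
  rw [add_zero] at h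
  rw [h, sum_square_symm N W hW]
  simp only [range_zero, sum_empty, mul_zero, add_zero]
  have h2 : m ^ 2 = 2 * m.choose 2 + m := by
    have h3 : m.choose 2 * 2 = m * (m - 1) := by
      rw [Nat.choose_two_right]
      exact Nat.div_mul_cancel (Nat.even_mul_pred_self m).two_dvd
    rcases m with _ | m
    · simp
    · rw [Nat.add_sub_cancel] at h3
      nlinarith
  rw [h2]
  ring

/-- the diagonal weight `w`, any number `q = N * m + r` of hubs -/
theorem sum_blow_diag (N w m r : ℕ) (hr : r ≤ N) :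
    ∑ x ∈ (range (N * m + r) ×ˢ range (N * m + r)).filter (fun x => x.1 < x.2),
        (if x.1 % N = x.2 % N then w else 0) = w * (N * m.choose 2 + r * m) := by
  have h := sum_blow N (fun i j => if i = j then w else 0) m r hr
  rw [h]
  have h1 : ∀ r ≤ N, ∑ j ∈ range r, ∑ i ∈ range N, (if i = j then w else 0) = r * w := by
    intro r hr
    have : ∀ j ∈ range r, ∑ i ∈ range N, (if i = j then w else 0) = w := by
      intro j hj
      rw [sum_ite_eq' (range N) j (fun _ => w), if_pos]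
      exact mem_range.2 ((mem_range.1 hj).trans_le hr)
    rw [sum_congr rfl this, sum_const, card_range, smul_eq_mul]
  have h2 : ∀ r, ∑ j ∈ range r, ∑ i ∈ range j, (if i = j then w else 0) = 0 := by
    intro r
    refine sum_eq_zero fun j _ => sum_eq_zero fun i hi => ?_
    rw [if_neg]
    exact (mem_range.1 hi).ne
  rw [h1 N le_rfl, h1 r hr, h2, h2]
  ring

end Pool.Agent.Lib.MP_266831_co
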