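import Pool.Agent.Lib.MP_266831_co.Defs

/-!
# Monotonicity of the crossing number and the biplanar crossing number (MP_266831_co)
-/

namespace Pool.Agent.Lib.MP_266831_co

variable {V W : Type}

/-- restriction of a drawing to a subgraph (along an injective map of the vertices) -/
def Drawing.restrict {G : SimpleGraph V} {H : SimpleGraph W} (D : Drawing H) (f : V → W)
    (hf : Function.Injective f) (h : ∀ a b, G.Adj a b → H.Adj (f a) (f b)) : Drawing G where
  pt := D.pt ∘ f
  pt_injective := D.pt_injective.comp hf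
  arc := fun e => D.arc (e.map f)
  arc_poly := by
    intro e he
    apply D.arc_poly
    induction e with
    | _ a b => exact h a b he
  arc_ends := by
    intro e he
    rw [D.arc_ends (e.map f), Sym2.map_map]
    induction e with
    | _ a b => exact h a b he
  arc_avoid := by
    intro e he t ht v
    apply D.arc_avoid (e.map f) _ t ht (f v)
    induction e with
    | _ a b => exact h a b he

theorem cr_le_of_hom {G : SimpleGraph V} {H : SimpleGraph W} (f : V → W)
    (hf : Function.Injective f) (h : ∀ a b, G.Adj a b → H.Adj (f a) (f b)) : cr G ≤ cr H := by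
  unfold cr
  refine le_iInf fun D => (iInf_le _ (D.restrict f hf h)).trans ?_
  have hinj : Function.Injective (Sym2.map f) := Sym2.map.injective hf
  have hinj2 : Function.Injective (Sym2.map (Sym2.map f)) := Sym2.map.injective hinj
  set φ : (ℝ × ℝ) × Sym2 (Sym2 V) → (ℝ × ℝ) × Sym2 (Sym2 W) :=
    fun x => (x.1, x.2.map (Sym2.map f)) with hφ
  have hφi : Function.Injective φ := by
    rintro ⟨a, b⟩ ⟨c, d⟩ hh
    simp only [hφ, Prod.mk.injEq] at hh
    exact Prod.ext hh.1 (hinj2 hh.2)
  rw [← hφi.encard_image]
  refine Set.encard_le_encard ?_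
  rintro _ ⟨x, hx, rfl⟩
  obtain ⟨h1, h2⟩ := hx
  refine ⟨?_, ?_⟩
  · intro hd
    apply h1
    have : (x.2.map (Sym2.map f)).IsDiag := hd
    obtain ⟨P, y⟩ := x
    induction y with
    | _ a b =>
      rw [Sym2.map_mk, Sym2.mk_isDiag_iff] at this
      exact Sym2.mk_isDiag_iff.2 (hinj this)
  · intro e he
    obtain ⟨e', he', rfl⟩ := Sym2.mem_map.1 he
    obtain ⟨h3, h4⟩ := h2 e' he'
    refine ⟨?_, h4⟩
    induction e' with
    | _ a b => exact h a b h3

theorem crTwo_le_of_hom {G : SimpleGraph V} {H : SimpleGraph W} (f : V → W)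
    (hf : Function.Injective f) (h : ∀ a b, G.Adj a b → H.Adj (f a) (f b)) : crTwo G ≤ crTwo H := by
  unfold crTwo
  refine le_iInf fun H₁ => le_iInf fun H₂ => le_iInf fun hd => le_iInf fun hs => ?_
  refine (iInf_le_of_le (G ⊓ H₁.comap f) (iInf_le_of_le (G ⊓ H₂.comap f) (iInf_le_of_le ?_
    (iInf_le_of_le ?_ (add_le_add (cr_le_of_hom f hf ?_) (cr_le_of_hom f hf ?_))))))
  · rw [disjoint_iff_inf_le]
    intro a b hab
    simp only [SimpleGraph.inf_adj, SimpleGraph.comap_adj] at hab
    have := (disjoint_iff_inf_le.1 hd) (v := f a) (w := f b) ⟨hab.1.2, hab.2.2⟩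
    exact this.elim
  · ext a b
    simp only [SimpleGraph.sup_adj, SimpleGraph.inf_adj, SimpleGraph.comap_adj]
    constructor
    · rintro (hab | hab)
      · exact hab.1
      · exact hab.1
    · intro hab
      have := h a b hab
      rw [← hs, SimpleGraph.sup_adj] at this
      rcases this with h1 | h1
      · exact Or.inl ⟨hab, h1⟩
      · exact Or.inr ⟨hab, h1⟩
  · intro a b hab
    exact hab.2
  · intro a b hab
    exact hab.2

theorem crTwo_mono_q (p : ℕ) {q q' : ℕ} (hq : q ≤ q') :
    crTwo (completeBipartiteGraph (Fin p) (Fin q)) ≤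
      crTwo (completeBipartiteGraph (Fin p) (Fin q')) := by
  refine crTwo_le_of_hom (Sum.map id (Fin.castLE hq)) ?_ ?_
  · exact Function.Injective.sumMap Function.injective_id (Fin.castLE_injective hq)
  · rintro (a | a) (b | b) hab
    · simp [completeBipartiteGraph] at hab
    · simp [completeBipartiteGraph]
    · simp [completeBipartiteGraph]
    · simp [completeBipartiteGraph] at hab

end Pool.Agent.Lib.MP_266831_co
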