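import Pool.Agent.Lib.MP_266831_co.UpperData
import Pool.Agent.Lib.MP_266831_co.UpperCount
import Pool.Agent.Lib.MP_266831_co.UpperMono

/-!
# The upper bounds for `p = 5, 6, 7, 8`
-/

namespace Pool.Agent.Lib.MP_266831_co

open Finset Upper Upper.Data

/-- pairs of hubs whose types cross only if they are equal -/
lemma upper_diag {p N w : ℕ} {D₁ D₂ : Base} (h₁ : D₁.Valid p N) (h₂ : D₂.Valid p N) (hN : 0 < N)
    (hT : ∀ i < N, ∀ a < p, D₂.T i a = !(D₁.T i a))
    (hW : ∀ i < N, ∀ j < N, D₁.W p i j + D₂.W p i j = if i = j then w else 0) (m r : ℕ) (hr : r ≤ N) :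
    crTwo (completeBipartiteGraph (Fin p) (Fin (N * m + r))) ≤
      ((w * (N * m.choose 2 + r * m) : ℕ) : ℕ∞) := by
  refine (crTwo_le_base h₁ h₂ hN hT (N * m + r)).trans (le_of_eq ?_)
  congr 1
  rw [← sum_blow_diag N w m r hr]
  refine Finset.sum_congr rfl fun x _ => ?_
  exact hW _ (Nat.mod_lt _ hN) _ (Nat.mod_lt _ hN)

theorem upper5 (m r : ℕ) (hr : r ≤ 12) :
    crTwo (completeBipartiteGraph (Fin 5) (Fin (12 * m + r))) ≤
      ((1 * (12 * m.choose 2 + r * m) : ℕ) : ℕ∞) :=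
  upper_diag valid5a valid5b (by norm_num) compl5 W5 m r hr

theorem upper6 (m r : ℕ) (hr : r ≤ 8) :
    crTwo (completeBipartiteGraph (Fin 6) (Fin (8 * m + r))) ≤
      ((2 * (8 * m.choose 2 + r * m) : ℕ) : ℕ∞) :=
  upper_diag valid6a valid6b (by norm_num) compl6 W6 m r hr

theorem upper8 (m r : ℕ) (hr : r ≤ 6) :
    crTwo (completeBipartiteGraph (Fin 8) (Fin (6 * m + r))) ≤
      ((4 * (6 * m.choose 2 + r * m) : ℕ) : ℕ∞) :=
  upper_diag valid8a valid8b (by norm_num) compl8 W8 m r hr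

/-- the crossing table for `p = 7` -/
def W7 (i j : ℕ) : ℕ := D7a.W 7 i j + D7b.W 7 i j

theorem W7_symm : ∀ i < 20, ∀ j < 20, W7 i j = W7 j i := by decide +kernel

theorem W7_sum : ∑ j ∈ range 20, ∑ i ∈ range j, W7 i j = 60 := by decide +kernel

theorem W7_diag : ∑ i ∈ range 20, W7 i i = 60 := by decide +kernel

theorem upper7 (m : ℕ) :
    crTwo (completeBipartiteGraph (Fin 7) (Fin (20 * m))) ≤
      ((60 * m ^ 2 + 60 * m.choose 2 : ℕ) : ℕ∞) := by
  refine (crTwo_le_base valid7a valid7b (by norm_num) compl7 (20 * m)).trans (le_of_eq ?_)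
  congr 1
  have h := sum_blow_symm 20 W7 W7_symm m
  rw [W7_sum, W7_diag] at h
  rw [show (60 * m ^ 2 + 60 * m.choose 2) = m ^ 2 * 60 + m.choose 2 * 60 by ring, ← h]
  rfl

end Pool.Agent.Lib.MP_266831_co
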