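import Pool.Agent.Lib.MP_266831_co.Final
import Pool.Agent.Lib.MP_266831_co.UpperFinal

/-!
# Exact values and asymptotics of the biplanar crossing number (MP_266831_co)
-/

namespace Pool.Agent.Lib.MP_266831_co

open Filter Topology Asymptotics

theorem exact5 (k r : ℕ) (hr : r ≤ 12) :
    crTwo (completeBipartiteGraph (Fin 5) (Fin (12 * k + r))) =
      ((12 * k.choose 2 + r * k : ℕ) : ℕ∞) := by
  apply le_antisymm
  · have := upper5 k r hr
    rwa [one_mul] at this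
  · exact crTwo_lower (p := 5) (by norm_num) k r (by omega)

theorem exact6 (k r : ℕ) (hr : r ≤ 8) :
    crTwo (completeBipartiteGraph (Fin 6) (Fin (8 * k + r))) =
      ((2 * (8 * k.choose 2 + r * k) : ℕ) : ℕ∞) := by
  apply le_antisymm (upper6 k r hr)
  refine le_trans (le_of_eq ?_) (crTwo_lower (p := 6) (by norm_num) k (2 * r) (by omega))
  congr 1
  ring

theorem exact8 (k r : ℕ) (hr : r ≤ 6) :
    crTwo (completeBipartiteGraph (Fin 8) (Fin (6 * k + r))) =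
      ((4 * (6 * k.choose 2 + r * k) : ℕ) : ℕ∞) := by
  apply le_antisymm (upper8 k r hr)
  refine le_trans (le_of_eq ?_) (crTwo_lower (p := 8) (by norm_num) k (4 * r) (by omega))
  congr 1
  ring

theorem two_mul_choose_two (m : ℕ) : (2 : ℤ) * (m.choose 2 : ℤ) = m * ((m : ℤ) - 1) := by
  have := Nat.choose_two_right m
  have h2 : 2 ∣ m * (m - 1) := (Nat.even_mul_pred_self m).two_dvd
  have h3 : 2 * m.choose 2 = m * (m - 1) := by rw [this]; omega
  rcases m with _ | m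
  · simp
  · have h4 : ((2 * (m + 1).choose 2 : ℕ) : ℤ) = (((m + 1) * (m + 1 - 1) : ℕ) : ℤ) := by rw [h3]
    push_cast at h4 ⊢
    simpa using h4

theorem exact7 (m : ℕ) :
    crTwo (completeBipartiteGraph (Fin 7) (Fin (20 * m))) =
      ((60 * m ^ 2 + 60 * m.choose 2 : ℕ) : ℕ∞) := by
  apply le_antisymm (upper7 m)
  refine le_trans (le_of_eq ?_) (crTwo_lower (p := 7) (by norm_num) (3 * m) 0 (by omega))
  congr 1
  have h1 := two_mul_choose_two m
  have h2 := two_mul_choose_two (3 * m)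
  zify
  push_cast at h1 h2 ⊢
  linear_combination 30 * h1 - 10 * h2

theorem low_real {p q : ℕ} (hp : 4 ≤ p)
    (hfin : crTwo (completeBipartiteGraph (Fin p) (Fin q)) ≠ ⊤)
    (hx : 2 ≤ (((p : ℝ) - 4) / (4 * ((p : ℝ) - 2))) * q) :
    (4 * ((p : ℝ) - 2)) / 2 * (((((p : ℝ) - 4) / (4 * ((p : ℝ) - 2))) * q - 1) *
      ((((p : ℝ) - 4) / (4 * ((p : ℝ) - 2))) * q - 2)) ≤
      ((crTwo (completeBipartiteGraph (Fin p) (Fin q))).toNat : ℝ) := by
  obtain ⟨s, rfl⟩ := Nat.exists_eq_add_of_le hp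
  set M : ℕ := 4 * ((4 + s) - 2) with hM
  have hM0 : 0 < M := by omega
  set k := (s * q) / M with hk
  set r := (s * q) % M with hr
  have hkr : M * k + r = s * q := Nat.div_add_mod _ _
  have h1 := crTwo_lower (p := 4 + s) (q := q) hp k r (by
    rw [← hM, hkr, Nat.add_sub_cancel_left])
  rw [← hM] at h1
  have h2 : M * k.choose 2 + r * k ≤
      (crTwo (completeBipartiteGraph (Fin (4 + s)) (Fin q))).toNat := by
    have h3 := ENat.toNat_le_toNat h1 hfin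
    rwa [ENat.toNat_coe] at h3
  have h3 : ((M * k.choose 2 + r * k : ℕ) : ℝ) ≤
      ((crTwo (completeBipartiteGraph (Fin (4 + s)) (Fin q))).toNat : ℝ) := by exact_mod_cast h2
  refine le_trans ?_ h3
  have hMr : (4 * (((4 + s : ℕ) : ℝ) - 2)) = (M : ℝ) := by
    rw [hM, Nat.cast_mul, Nat.cast_sub (by omega)]
    push_cast
    ring
  have hs : ((4 + s : ℕ) : ℝ) - 4 = s := by push_cast; ring
  rw [hMr, hs] at hx ⊢
  have hMpos : (0 : ℝ) < M := by exact_mod_cast hM0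
  set x : ℝ := (s : ℝ) / M * q with hxdef
  have hxk : x - 1 ≤ k := by
    have h4 : (s * q : ℕ) < M * (k + 1) := by
      have := Nat.mod_lt (s * q) hM0
      rw [← hkr]
      rw [mul_add, mul_one]
      omega
    have h5 : ((s * q : ℕ) : ℝ) < ((M * (k + 1) : ℕ) : ℝ) := by exact_mod_cast h4
    push_cast at h5
    have h6 : x = (s * q : ℝ) / M := by rw [hxdef]; ring
    rw [h6]
    have h7 : (s * q : ℝ) / M < k + 1 := by
      rw [div_lt_iff₀ hMpos]; linarith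
    linarith
  have h8 := two_mul_choose_two k
  have h9 : (2 : ℝ) * (k.choose 2 : ℝ) = k * ((k : ℝ) - 1) := by exact_mod_cast h8
  have h10 : (x - 1) * (x - 2) ≤ k * ((k : ℝ) - 1) := by nlinarith
  have h11 : (0 : ℝ) ≤ (r : ℝ) * k := by positivity
  push_cast
  nlinarith

theorem up_real {p N A B : ℕ} (hN : 0 < N)
    (hup : ∀ m : ℕ, crTwo (completeBipartiteGraph (Fin p) (Fin (N * m))) ≤
      ((A * m.choose 2 + B * m ^ 2 : ℕ) : ℕ∞)) (q : ℕ) :
    crTwo (completeBipartiteGraph (Fin p) (Fin q)) ≠ ⊤ ∧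
      ((crTwo (completeBipartiteGraph (Fin p) (Fin q))).toNat : ℝ) ≤
        ((A : ℝ) / 2 + B) * ((q : ℝ) / N + 1) ^ 2 := by
  set m := q / N + 1 with hm
  have hq : q ≤ N * m := by
    have h1 := Nat.div_add_mod q N
    have h2 := Nat.mod_lt q hN
    rw [hm, mul_add, mul_one]
    omega
  have h1 := (crTwo_mono_q p hq).trans (hup m)
  have hfin : crTwo (completeBipartiteGraph (Fin p) (Fin q)) ≠ ⊤ :=
    (h1.trans_lt (ENat.coe_lt_top _)).ne
  refine ⟨hfin, ?_⟩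
  have h2 : (crTwo (completeBipartiteGraph (Fin p) (Fin q))).toNat ≤
      A * m.choose 2 + B * m ^ 2 := by
    have h3 := ENat.toNat_le_toNat h1 (ENat.coe_ne_top _)
    rwa [ENat.toNat_coe] at h3
  have h3 : ((crTwo (completeBipartiteGraph (Fin p) (Fin q))).toNat : ℝ) ≤
      ((A * m.choose 2 + B * m ^ 2 : ℕ) : ℝ) := by exact_mod_cast h2
  refine h3.trans ?_
  have h8 := two_mul_choose_two m
  have h9 : (2 : ℝ) * (m.choose 2 : ℝ) = m * ((m : ℝ) - 1) := by exact_mod_cast h8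
  have hmr : (m : ℝ) ≤ (q : ℝ) / N + 1 := by
    rw [hm]
    push_cast
    have := @Nat.cast_div_le ℝ _ _ _ q N
    linarith
  have hm0 : (0 : ℝ) ≤ m := Nat.cast_nonneg _
  have hA : (0 : ℝ) ≤ A := Nat.cast_nonneg _
  have hB : (0 : ℝ) ≤ B := Nat.cast_nonneg _
  have h10 : ((m : ℝ)) ^ 2 ≤ ((q : ℝ) / N + 1) ^ 2 := pow_le_pow_left₀ hm0 hmr 2
  push_cast
  calc (A : ℝ) * (m.choose 2 : ℝ) + B * (m : ℝ) ^ 2
      ≤ ((A : ℝ) / 2 + B) * (m : ℝ) ^ 2 := by nlinarith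
    _ ≤ _ := mul_le_mul_of_nonneg_left h10 (by positivity)

theorem lim_aux (f : ℕ → ℝ) {M a D N : ℝ} (ha : 0 < a) (hN : 0 < N)
    (hlow : ∀ q : ℕ, 2 ≤ a * q → M / 2 * ((a * q - 1) * (a * q - 2)) ≤ f q)
    (hup : ∀ q : ℕ, f q ≤ D * ((q : ℝ) / N + 1) ^ 2) (hE : M / 2 * a ^ 2 = D / N ^ 2) :
    Tendsto (fun q : ℕ => f q / (q : ℝ) ^ 2) atTop (𝓝 (M / 2 * a ^ 2)) := by
  have hinv : Tendsto (fun q : ℕ => 1 / (q : ℝ)) atTop (𝓝 0) := tendsto_one_div_atTop_nhds_zero_nat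
  have h1 : Tendsto (fun q : ℕ => M / 2 * ((a - 1 / (q : ℝ)) * (a - 2 * (1 / (q : ℝ))))) atTop
      (𝓝 (M / 2 * ((a - 0) * (a - 2 * 0)))) :=
    ((tendsto_const_nhds.sub hinv).mul (tendsto_const_nhds.sub (hinv.const_mul 2))).const_mul _
  have h2 : Tendsto (fun q : ℕ => D * (1 / N + 1 / (q : ℝ)) ^ 2) atTop
      (𝓝 (D * (1 / N + 0) ^ 2)) :=
    ((tendsto_const_nhds.add hinv).pow 2).const_mul _
  have e1 : M / 2 * ((a - 0) * (a - 2 * 0)) = M / 2 * a ^ 2 := by ring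
  have e2 : D * (1 / N + 0) ^ 2 = M / 2 * a ^ 2 := by rw [hE]; field_simp; ring
  rw [e1] at h1
  rw [e2] at h2
  have hbig : ∀ᶠ q : ℕ in atTop, 2 ≤ a * q ∧ 0 < q := by
    obtain ⟨q0, hq0⟩ := exists_nat_ge (2 / a)
    filter_upwards [eventually_ge_atTop (max q0 1)] with q hq
    refine ⟨?_, lt_of_lt_of_le Nat.one_pos ((le_max_right _ _).trans hq)⟩
    have h3 : (q0 : ℝ) ≤ q := by exact_mod_cast (le_max_left _ _).trans hq
    rw [div_le_iff₀ ha] at hq0
    nlinarith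
  refine tendsto_of_tendsto_of_tendsto_of_le_of_le' h1 h2 ?_ ?_
  · filter_upwards [hbig] with q hq
    have hq0 : (0 : ℝ) < q := by exact_mod_cast hq.2
    rw [le_div_iff₀ (by positivity)]
    refine le_trans (le_of_eq ?_) (hlow q hq.1)
    field_simp
  · filter_upwards [hbig] with q hq
    have hq0 : (0 : ℝ) < q := by exact_mod_cast hq.2
    rw [div_le_iff₀ (by positivity)]
    refine (hup q).trans (le_of_eq ?_)
    field_simp

theorem up_all {p : ℕ} (hp : 5 ≤ p) (hp' : p ≤ 8) : ∃ N A B : ℕ, 0 < N ∧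
    (∀ m : ℕ, crTwo (completeBipartiteGraph (Fin p) (Fin (N * m))) ≤
      ((A * m.choose 2 + B * m ^ 2 : ℕ) : ℕ∞)) ∧
    (4 * ((p : ℝ) - 2)) / 2 * (((p : ℝ) - 4) / (4 * ((p : ℝ) - 2))) ^ 2 =
      ((A : ℝ) / 2 + B) / (N : ℝ) ^ 2 := by
  interval_cases p
  · refine ⟨12, 12, 0, by norm_num, fun m => ?_, by norm_num⟩
    have := (exact5 m 0 (by norm_num)).le
    simpa using this
  · refine ⟨8, 16, 0, by norm_num, fun m => ?_, by norm_num⟩
    have := (exact6 m 0 (by norm_num)).le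
    refine this.trans (le_of_eq ?_)
    congr 1
    ring
  · refine ⟨20, 60, 60, by norm_num, fun m => ?_, by norm_num⟩
    refine (exact7 m).le.trans (le_of_eq ?_)
    congr 1
    ring
  · refine ⟨6, 24, 0, by norm_num, fun m => ?_, by norm_num⟩
    have := (exact8 m 0 (by norm_num)).le
    refine this.trans (le_of_eq ?_)
    congr 1
    ring

theorem asymp {p : ℕ} (hp : 5 ≤ p) (hp' : p ≤ 8) :
    (∀ q : ℕ, crTwo (completeBipartiteGraph (Fin p) (Fin q)) ≠ ⊤) ∧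
    Tendsto (fun q : ℕ => ((crTwo (completeBipartiteGraph (Fin p) (Fin q))).toNat : ℝ) /
      (q : ℝ) ^ 2) atTop (𝓝 (((p : ℝ) - 4) ^ 2 / (8 * ((p : ℝ) - 2)))) := by
  obtain ⟨N, A, B, hN, hup, hE⟩ := up_all hp hp'
  have hfin : ∀ q : ℕ, crTwo (completeBipartiteGraph (Fin p) (Fin q)) ≠ ⊤ :=
    fun q => (up_real hN hup q).1
  refine ⟨hfin, ?_⟩
  have hpr : (5 : ℝ) ≤ p := by exact_mod_cast hp
  have h1 := lim_aux
    (fun q : ℕ => ((crTwo (completeBipartiteGraph (Fin p) (Fin q))).toNat : ℝ))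
    (M := 4 * ((p : ℝ) - 2)) (a := ((p : ℝ) - 4) / (4 * ((p : ℝ) - 2)))
    (D := (A : ℝ) / 2 + B) (N := (N : ℝ))
    (div_pos (by linarith) (by linarith)) (by exact_mod_cast hN)
    (fun q hq => low_real (by omega) (hfin q) hq) (fun q => (up_real hN hup q).2) hE
  have h2 : 4 * ((p : ℝ) - 2) / 2 * (((p : ℝ) - 4) / (4 * ((p : ℝ) - 2))) ^ 2 =
      ((p : ℝ) - 4) ^ 2 / (8 * ((p : ℝ) - 2)) := by
    have h3 : (p : ℝ) - 2 ≠ 0 := by
      intro h; linarith
    field_simp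
    ring
  rwa [h2] at h1

end Pool.Agent.Lib.MP_266831_co
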