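import Pool.Agent.Lib.MP_266831_co.Copies

/-!
# The cyclic order on the axis (MP_266831_co)
-/

namespace Pool.Agent.Lib.MP_266831_co

open W

set_option linter.unusedSimpArgs false

variable {p : ℕ} [NeZero p]

/-! ### The cyclic order on the axis -/

section order

omit [NeZero p] in
theorem leftCount_mono (P : Fin p → ℝ) {w z : ℝ} (h : w ≤ z) : leftCount P w ≤ leftCount P z := by
  apply Finset.card_le_card
  intro a
  simp only [Finset.mem_filter, Finset.mem_univ, true_and]
  exact fun h' => lt_of_lt_of_le h' h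

omit [NeZero p] in
theorem leftCount_le (P : Fin p → ℝ) (z : ℝ) : leftCount P z ≤ p := by
  have := Finset.card_le_univ (Finset.univ.filter (fun a => P a < z))
  simpa [leftCount] using this

omit [NeZero p] in
theorem leftCount_lt' (P : Fin p → ℝ) (b : Fin p) : leftCount P (P b) < p := by
  have h1 : (Finset.univ.filter (fun a => P a < P b)) ⊂ (Finset.univ : Finset (Fin p)) := by
    rw [Finset.ssubset_univ_iff]
    intro h
    have : b ∈ (Finset.univ.filter (fun a => P a < P b)) := by rw [h]; simp
    simp at this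
  have := Finset.card_lt_card h1
  simpa [leftCount] using this

omit [NeZero p] in
theorem leftCount_lt_of_lt' (P : Fin p → ℝ) {b : Fin p} {z : ℝ} (h : P b < z) :
    leftCount P (P b) < leftCount P z := by
  apply Finset.card_lt_card
  rw [Finset.ssubset_iff_of_subset]
  · exact ⟨b, by simp [h], by simp⟩
  · intro a
    simp only [Finset.mem_filter, Finset.mem_univ, true_and]
    exact fun h' => h'.trans h

theorem wall_val (P : Fin p → ℝ) (z : ℝ) :
    (wall P z).val = if leftCount P z = 0 then p - 1 else leftCount P z - 1 := by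
  have hp : 0 < p := Nat.pos_of_ne_zero (NeZero.ne p)
  have hle := leftCount_le P z
  set m := leftCount P z with hm
  have hlt : (if m = 0 then p - 1 else m - 1) < p := by split_ifs <;> omega
  have : wall P z = ⟨if m = 0 then p - 1 else m - 1, hlt⟩ := by
    rw [wall, ← hm, sub_eq_iff_eq_add]
    apply Fin.ext
    rw [Fin.val_add, Fin.val_one' p]
    show m % p = ((if m = 0 then p - 1 else m - 1) + 1 % p) % p
    rw [Nat.add_mod, Nat.mod_mod, ← Nat.add_mod]
    split_ifs with h
    · rw [h, Nat.sub_add_cancel hp]; simp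
    · rw [Nat.sub_add_cancel (by omega)]
  rw [this]

theorem corner_val (P : Fin p → ℝ) (a : Fin p) : (corner P a).val = leftCount P (P a) := by
  show leftCount P (P a) % p = _
  exact Nat.mod_eq_of_lt (leftCount_lt' P a)

theorem corner_injective' {P : Fin p → ℝ} (hP : Function.Injective P) :
    Function.Injective (corner P) := by
  intro a b h
  have h1 : leftCount P (P a) = leftCount P (P b) := by
    rw [← corner_val, ← corner_val, h]
  by_contra hne
  rcases lt_or_gt_of_ne (fun h => hne (hP h)) with h2 | h2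
  · have := leftCount_lt_of_lt' P h2; omega
  · have := leftCount_lt_of_lt' P h2; omega

open Classical in
/-- comparison on the axis for the cyclic order cut at the first puncture -/
noncomputable def lt2 (P : Fin p → ℝ) (w z : ℝ) : ZMod 2 :=
  ind (w < z) + ind (∀ a, w < P a) + ind (∀ a, z < P a)

omit [NeZero p] in
theorem all_lt_iff (P : Fin p → ℝ) {z : ℝ} (hz : ∀ a, z ≠ P a) :
    (∀ a, z < P a) ↔ leftCount P z = 0 := by
  unfold leftCount
  rw [Finset.card_eq_zero, Finset.filter_eq_empty_iff]
  constructor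
  · intro h a _; exact (h a).not_gt
  · intro h a; exact lt_of_le_of_ne (not_lt.1 (h (Finset.mem_univ a))) (hz a)

theorem lt2_wall_wall (P : Fin p → ℝ) {w z : ℝ} (hw : ∀ a, w ≠ P a) (hz : ∀ a, z ≠ P a)
    (hne : wall P w ≠ wall P z) : lt2 P w z = ind (wall P w < wall P z) := by
  have h1 := all_lt_iff P hw
  have h2 := all_lt_iff P hz
  have h3 : (wall P w).val ≠ (wall P z).val := fun h => hne (Fin.ext h)
  have h4 : w < z → leftCount P w ≤ leftCount P z := fun h => leftCount_mono P h.le
  have h5 : ¬ w < z → leftCount P z ≤ leftCount P w := fun h => leftCount_mono P (not_lt.1 h)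
  have l1 := leftCount_le P w
  have l2 := leftCount_le P z
  have v1 := wall_val P w
  have v2 := wall_val P z
  have hp : 0 < p := Nat.pos_of_ne_zero (NeZero.ne p)
  unfold lt2 ind
  simp only [h1, h2, Fin.lt_def]
  by_cases hwz : w < z
  · have h6 := h4 hwz
    by_cases hm : leftCount P w = 0 <;> by_cases hn : leftCount P z = 0 <;>
      by_cases hv : (wall P w).val < (wall P z).val <;>
      simp only [hwz, hm, hn, hv, if_true, if_false, if_pos, if_neg, not_false_iff] at v1 v2 h6 ⊢ <;>
      first | rfl | decide | (exfalso; omega)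
  · have h6 := h5 hwz
    by_cases hm : leftCount P w = 0 <;> by_cases hn : leftCount P z = 0 <;>
      by_cases hv : (wall P w).val < (wall P z).val <;>
      simp only [hwz, hm, hn, hv, if_true, if_false, if_pos, if_neg, not_false_iff] at v1 v2 h6 ⊢ <;>
      first | rfl | decide | (exfalso; omega)

theorem lt2_puncture_wall (P : Fin p → ℝ) (b : Fin p) {z : ℝ} (hz : ∀ a, z ≠ P a) :
    lt2 P (P b) z = ind (corner P b ≤ wall P z) := by
  have h1 : (∀ a, P b < P a) ↔ False := ⟨fun h => lt_irrefl _ (h b), False.elim⟩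
  have h2 := all_lt_iff P hz
  have h4 : P b < z → leftCount P (P b) < leftCount P z := leftCount_lt_of_lt' P
  have h5 : ¬ P b < z → leftCount P z ≤ leftCount P (P b) := fun h => leftCount_mono P (not_lt.1 h)
  have l1 := leftCount_lt' P b
  have l2 := leftCount_le P z
  have v1 := corner_val P b
  have v2 := wall_val P z
  unfold lt2 ind
  simp only [h1, h2, Fin.le_def]
  by_cases hwz : P b < z
  · have h6 := h4 hwz
    by_cases hn : leftCount P z = 0 <;>
      by_cases hv : (corner P b).val ≤ (wall P z).val <;>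
      simp only [hwz, hn, hv, if_true, if_false, if_pos, if_neg, not_false_iff] at v1 v2 h6 ⊢ <;>
      first | rfl | decide | (exfalso; omega)
  · have h6 := h5 hwz
    by_cases hn : leftCount P z = 0 <;>
      by_cases hv : (corner P b).val ≤ (wall P z).val <;>
      simp only [hwz, hn, hv, if_true, if_false, if_pos, if_neg, not_false_iff] at v1 v2 h6 ⊢ <;>
      first | rfl | decide | (exfalso; omega)

theorem lt2_wall_puncture (P : Fin p → ℝ) {w : ℝ} (hw : ∀ a, w ≠ P a) (b : Fin p) :
    lt2 P w (P b) = ind (wall P w < corner P b) := by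
  have h1 : (∀ a, P b < P a) ↔ False := ⟨fun h => lt_irrefl _ (h b), False.elim⟩
  have h2 := all_lt_iff P hw
  have h4 : w < P b → leftCount P w ≤ leftCount P (P b) := fun h => leftCount_mono P h.le
  have h5 : ¬ w < P b → leftCount P (P b) < leftCount P w := fun h =>
    leftCount_lt_of_lt' P (lt_of_le_of_ne (not_lt.1 h) (hw b).symm)
  have l1 := leftCount_lt' P b
  have l2 := leftCount_le P w
  have v1 := corner_val P b
  have v2 := wall_val P w
  unfold lt2 ind
  simp only [h1, h2, Fin.lt_def]
  by_cases hwz : w < P b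
  · have h6 := h4 hwz
    by_cases hn : leftCount P w = 0 <;>
      by_cases hv : (wall P w).val < (corner P b).val <;>
      simp only [hwz, hn, hv, if_true, if_false, if_pos, if_neg, not_false_iff] at v1 v2 h6 ⊢ <;>
      first | rfl | decide | (exfalso; omega)
  · have h6 := h5 hwz
    by_cases hn : leftCount P w = 0 <;>
      by_cases hv : (wall P w).val < (corner P b).val <;>
      simp only [hwz, hn, hv, if_true, if_false, if_pos, if_neg, not_false_iff] at v1 v2 h6 ⊢ <;>
      first | rfl | decide | (exfalso; omega)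

theorem lt2_puncture_puncture (P : Fin p → ℝ) (hP : Function.Injective P) {a b : Fin p}
    (hab : b ≠ a) : lt2 P (P b) (P a) = ind (corner P b < corner P a) := by
  have h1 : (∀ a, P b < P a) ↔ False := ⟨fun h => lt_irrefl _ (h b), False.elim⟩
  have h2 : (∀ a', P a < P a') ↔ False := ⟨fun h => lt_irrefl _ (h a), False.elim⟩
  have h4 : P b < P a → leftCount P (P b) < leftCount P (P a) := leftCount_lt_of_lt' P
  have h5 : ¬ P b < P a → leftCount P (P a) < leftCount P (P b) := fun h =>
    leftCount_lt_of_lt' P (lt_of_le_of_ne (not_lt.1 h) (fun h => hab (hP h).symm))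
  have v1 := corner_val P b
  have v2 := corner_val P a
  unfold lt2 ind
  simp only [h1, h2, Fin.lt_def]
  by_cases hwz : P b < P a
  · have h6 := h4 hwz
    have hv : (corner P b).val < (corner P a).val := by omega
    simp only [hwz, hv, if_true, if_false, add_zero]
  · have h6 := h5 hwz
    have hv : ¬ (corner P b).val < (corner P a).val := by omega
    simp only [hwz, hv, if_false, add_zero]

theorem inter_parity (a b c d : ℝ) (h1 : a ≠ c) (h2 : a ≠ d) (h3 : b ≠ c) (h4 : b ≠ d)
    [Decidable (Inter a b c d)] :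
    ind (Inter a b c d) = ind (c < a) + ind (d < a) + ind (c < b) + ind (d < b) := by
  have e1 : ¬ c < a → a < c := fun h => lt_of_le_of_ne (not_lt.1 h) h1
  have e2 : ¬ d < a → a < d := fun h => lt_of_le_of_ne (not_lt.1 h) h2
  have e3 : ¬ c < b → b < c := fun h => lt_of_le_of_ne (not_lt.1 h) h3
  have e4 : ¬ d < b → b < d := fun h => lt_of_le_of_ne (not_lt.1 h) h4
  have hi : Inter a b c d ↔ (((a < c ∨ b < c) ∧ (a < d ∨ b < d)) ∧
      ((c < a ∨ d < a) ∨ c < b ∨ d < b) ∧ (a < c ∧ b < c ∨ a < d ∧ b < d)) ∨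
      (((c < a ∨ d < a) ∧ (c < b ∨ d < b)) ∧ ((a < c ∨ b < c) ∨ a < d ∨ b < d) ∧
        (c < a ∧ d < a ∨ c < b ∧ d < b)) := by
    unfold Inter
    simp only [lt_min_iff, min_lt_iff, lt_max_iff, max_lt_iff]
  have key : Inter a b c d ↔ ((c < a ∧ ¬ d < a ∧ ¬ c < b ∧ ¬ d < b) ∨
      (¬ c < a ∧ d < a ∧ ¬ c < b ∧ ¬ d < b) ∨
      (¬ c < a ∧ ¬ d < a ∧ c < b ∧ ¬ d < b) ∨ (¬ c < a ∧ ¬ d < a ∧ ¬ c < b ∧ d < b) ∨
      (¬ c < a ∧ d < a ∧ c < b ∧ d < b) ∨ (c < a ∧ ¬ d < a ∧ c < b ∧ d < b) ∨
      (c < a ∧ d < a ∧ ¬ c < b ∧ d < b) ∨ (c < a ∧ d < a ∧ c < b ∧ ¬ d < b)) := by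
    rw [hi]
    grind
  by_cases g1 : c < a <;> by_cases g2 : d < a <;> by_cases g3 : c < b <;> by_cases g4 : d < b <;>
    (simp only [g1, g2, g3, g4, not_true, not_false_iff, true_and, and_true, false_and, and_false,
      or_true, true_or, or_false, false_or, iff_true, iff_false] at key;
     simp [ind, key, g1, g2, g3, g4]) <;> decide

end order

end Pool.Agent.Lib.MP_266831_co
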