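import Pool.Agent.Lib.MP_266831_co.Defs

/-!
# Alternating sign decomposition of a continuous function with finitely many zeros
-/

namespace Pool.Agent.Lib.MP_266831_co

open Set

/-- the sign of a side -/
def sgn (b : Bool) : ℝ := if b then 1 else -1

theorem sgn_ne_zero (b : Bool) : sgn b ≠ 0 := by cases b <;> simp [sgn]

/-- a continuous function without zeros in `(a,b)` has constant (weak) sign on `[a,b]` -/
theorem const_sign {h : ℝ → ℝ} {a b : ℝ} (hab : a < b) (hc : ContinuousOn h (Icc a b))
    (hz : ∀ t ∈ Ioo a b, h t ≠ 0) : ∃ up : Bool, ∀ t ∈ Icc a b, 0 ≤ sgn up * h t := by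
  -- sign on the open interval
  have key : ∃ up : Bool, ∀ t ∈ Ioo a b, 0 ≤ sgn up * h t := by
    set m := (a + b) / 2 with hm
    have hmm : m ∈ Ioo a b := ⟨by linarith, by linarith⟩
    have hpre : IsPreconnected (h '' Ioo a b) :=
      isPreconnected_Ioo.image h (hc.mono Ioo_subset_Icc_self)
    have h0 : (0 : ℝ) ∉ h '' Ioo a b := by
      rintro ⟨t, ht, ht0⟩
      exact hz t ht ht0
    rcases lt_or_gt_of_ne (hz m hmm) with hneg | hpos
    · refine ⟨false, fun t ht => ?_⟩
      by_contra hcon
      push Not at hcon
      have : 0 < h t := by simpa [sgn] using hcon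
      exact h0 (hpre.ordConnected.out ⟨m, hmm, rfl⟩ ⟨t, ht, rfl⟩ ⟨hneg.le, this.le⟩)
    · refine ⟨true, fun t ht => ?_⟩
      by_contra hcon
      push Not at hcon
      have : h t < 0 := by simpa [sgn] using hcon
      exact h0 (hpre.ordConnected.out ⟨t, ht, rfl⟩ ⟨m, hmm, rfl⟩ ⟨this.le, hpos.le⟩)
  obtain ⟨up, hup⟩ := key
  refine ⟨up, fun t ht => ?_⟩
  have hcl : closure (Ioo a b) = Icc a b := closure_Ioo hab.ne
  have hc' : ContinuousOn (fun t => sgn up * h t) (closure (Ioo a b)) := by
    rw [hcl]; exact continuousOn_const.mul hc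
  have h1 : MapsTo (fun t => sgn up * h t) (Ioo a b) (Ici 0) := fun t ht => hup t ht
  have h2 := h1.closure_of_continuousOn hc'
  rw [hcl, isClosed_Ici.closure_eq] at h2
  exact h2 ht

theorem sign_dec_aux {h : ℝ → ℝ} {b : ℝ} (hb : h b = 0) (m : ℕ) : ∀ a : ℝ, a < b → h a = 0 →
    ContinuousOn h (Icc a b) → {t | t ∈ Ioo a b ∧ h t = 0}.Finite →
    {t | t ∈ Ioo a b ∧ h t = 0}.ncard = m →
    ∃ (n : ℕ) (s : ℕ → ℝ) (up : Bool), s 0 = a ∧ s (n + 1) = b ∧ (∀ i ≤ n, s i < s (i + 1)) ∧
      (∀ i ≤ n + 1, h (s i) = 0) ∧
      ∀ i ≤ n, ∀ t ∈ Icc (s i) (s (i + 1)), 0 ≤ sgn (xor up i.bodd) * h t := by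
  induction m using Nat.strong_induction_on with
  | _ m ih =>
    intro a hab ha hc hfin hcard
    by_cases hem : {t | t ∈ Ioo a b ∧ h t = 0} = ∅
    · obtain ⟨up, hup⟩ := const_sign hab hc (fun t ht h0 => by
        have : t ∈ {t | t ∈ Ioo a b ∧ h t = 0} := ⟨ht, h0⟩
        rw [hem] at this; exact this)
      refine ⟨0, fun i => if i = 0 then a else b, up, by simp, by simp, ?_, ?_, ?_⟩
      · intro i hi
        have : i = 0 := by omega
        subst this; simpa using hab
      · intro i hi
        by_cases h0 : i = 0
        · simp [h0, ha]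
        · simp [h0, hb]
      · intro i hi t ht
        have : i = 0 := by omega
        subst this
        simpa using hup t (by simpa using ht)
    · -- the smallest zero
      have hne : {t | t ∈ Ioo a b ∧ h t = 0}.Nonempty := Set.nonempty_iff_ne_empty.2 hem
      obtain ⟨u, ⟨⟨hau, hub⟩, hu0⟩, hmin⟩ := Set.exists_min_image _ id hfin hne
      simp only [id] at hmin
      obtain ⟨up0, hup0⟩ := const_sign hau (hc.mono (Icc_subset_Icc_right hub.le))
        (fun t ht h0 => by
          have := hmin t ⟨⟨ht.1, ht.2.trans hub⟩, h0⟩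
          linarith [ht.2])
      have hsub : {t | t ∈ Ioo u b ∧ h t = 0} ⊂ {t | t ∈ Ioo a b ∧ h t = 0} := by
        constructor
        · rintro t ⟨ht, ht0⟩
          exact ⟨⟨hau.trans ht.1, ht.2⟩, ht0⟩
        · intro hcon
          have := hcon (show u ∈ {t | t ∈ Ioo a b ∧ h t = 0} from ⟨⟨hau, hub⟩, hu0⟩)
          exact lt_irrefl _ this.1.1
      obtain ⟨n, s, up, hs0, hsn, hslt, hsz, hss⟩ := ih _
        (by rw [← hcard]; exact Set.ncard_lt_ncard hsub hfin) u hub hu0
        (hc.mono (Icc_subset_Icc_left hau.le)) (hfin.subset hsub.1) rfl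
      by_cases hup : up = !up0
      · refine ⟨n + 1, fun i => Nat.casesOn i a s, up0, rfl, hsn, ?_, ?_, ?_⟩
        · intro i hi
          rcases i with _ | i
          · simpa [hs0] using hau
          · exact hslt i (by omega)
        · intro i hi
          rcases i with _ | i
          · exact ha
          · exact hsz i (by omega)
        · intro i hi t ht
          rcases i with _ | i
          · simp only [hs0] at ht
            simpa using hup0 t ht
          · have := hss i (by omega) t ht
            rw [hup] at this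
            simpa [Nat.bodd_succ] using this
      · have hup' : up = up0 := by
          cases up <;> cases up0 <;> simp_all
        refine ⟨n, Function.update s 0 a, up, by simp, by simp [hsn], ?_, ?_, ?_⟩
        · intro i hi
          rcases i with _ | i
          · simp only [Function.update_self, zero_add]
            rw [Function.update_of_ne (by omega)]
            have := hslt 0 (by omega)
            rw [hs0] at this
            exact hau.trans this
          · rw [Function.update_of_ne (by omega), Function.update_of_ne (by omega)]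
            exact hslt (i + 1) hi
        · intro i hi
          rcases i with _ | i
          · simp [ha]
          · rw [Function.update_of_ne (by omega)]
            exact hsz (i + 1) hi
        · intro i hi t ht
          rcases i with _ | i
          · simp only [Function.update_self, zero_add] at ht
            rw [Function.update_of_ne (by omega)] at ht
            rcases le_total t u with htu | htu
            · have := hup0 t ⟨ht.1, htu⟩
              simpa [hup'] using this
            · exact hss 0 (by omega) t ⟨by rw [hs0]; exact htu, ht.2⟩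
          · rw [Function.update_of_ne (by omega), Function.update_of_ne (by omega)] at ht
            exact hss (i + 1) hi t ht

/-- Alternating sign decomposition of a continuous function with finitely many zeros. -/
theorem sign_dec {h : ℝ → ℝ} {a b : ℝ} (hab : a < b) (ha : h a = 0) (hb : h b = 0)
    (hc : ContinuousOn h (Icc a b)) (hfin : {t | t ∈ Icc a b ∧ h t = 0}.Finite) :
    ∃ (n : ℕ) (s : ℕ → ℝ) (up : Bool), s 0 = a ∧ s (n + 1) = b ∧ (∀ i ≤ n, s i < s (i + 1)) ∧
      (∀ i ≤ n + 1, h (s i) = 0) ∧
      ∀ i ≤ n, ∀ t ∈ Icc (s i) (s (i + 1)), 0 ≤ sgn (xor up i.bodd) * h t :=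
  sign_dec_aux hb _ a hab ha hc
    (hfin.subset fun _ ht => ⟨Ioo_subset_Icc_self ht.1, ht.2⟩) rfl

end Pool.Agent.Lib.MP_266831_co
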