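import Pool.Agent.Lib.MP_266831_co.Defs

/-!
# Simple polygonal arcs in polygonally connected sets (MP_266831_co)
-/

namespace Pool.Agent.Lib.MP_266831_co

/-- the segment from `a` to `b` is contained in `K` -/
def Seg (K : Set (ℝ × ℝ)) (a b : ℝ × ℝ) : Prop := segment ℝ a b ⊆ K

theorem Seg.symm {K : Set (ℝ × ℝ)} {a b : ℝ × ℝ} (h : Seg K a b) : Seg K b a := by
  unfold Seg; rw [segment_symm]; exact h

/-- a chain of `n` segments in `K` from `x` to `y` -/
def IsChainIn (K : Set (ℝ × ℝ)) (x y : ℝ × ℝ) (n : ℕ) (z : ℕ → ℝ × ℝ) : Prop :=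
  z 0 = x ∧ z n = y ∧ ∀ i < n, Seg K (z i) (z (i + 1))

theorem exists_chain {K : Set (ℝ × ℝ)} {x y : ℝ × ℝ} (h : Relation.ReflTransGen (Seg K) x y) :
    ∃ (n : ℕ) (z : ℕ → ℝ × ℝ), IsChainIn K x y n z := by
  induction h with
  | refl => exact ⟨0, fun _ => x, rfl, rfl, fun i hi => absurd hi (Nat.not_lt_zero i)⟩
  | @tail b c _ hbc ih =>
    obtain ⟨n, z, h0, hn, hz⟩ := ih
    refine ⟨n + 1, fun i => if i ≤ n then z i else c, by simp [h0], by simp, ?_⟩
    intro i hi
    simp only
    rcases Nat.lt_or_ge i n with h | h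
    · rw [if_pos h.le, if_pos (by omega)]; exact hz i h
    · have : i = n := by omega
      subst this
      rw [if_pos le_rfl, if_neg (by omega), hn]; exact hbc

/-- first shortcut -/
theorem shortcut {K : Set (ℝ × ℝ)} {x y : ℝ × ℝ} {n : ℕ} {z : ℕ → ℝ × ℝ}
    (h : IsChainIn K x y n z) {i j : ℕ} (hj : j < n) (w : ℝ × ℝ)
    (h1 : Seg K (z i) w) (h2 : Seg K w (z (j + 1))) (hij : i < j) :
    ∃ z', IsChainIn K x y (i + 1 + (n - j)) z' := by
  obtain ⟨h0, hn, hz⟩ := h
  refine ⟨fun k => if k ≤ i then z k else if k = i + 1 then w else z (k - (i + 1) + j), ?_, ?_, ?_⟩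
  · simp [h0]
  · simp only
    rw [if_neg (by omega), if_neg (by omega)]
    rw [← hn]; congr 1; omega
  · intro k hk
    simp only
    rcases lt_trichotomy k i with hki | hki | hki
    · rw [if_pos hki.le, if_pos (by omega)]; exact hz k (by omega)
    · subst hki
      rw [if_pos le_rfl, if_neg (by omega), if_pos rfl]; exact h1
    · rw [if_neg (by omega), if_neg (by omega : ¬ k + 1 ≤ i), if_neg (by omega : ¬ k + 1 = i + 1)]
      by_cases hk1 : k = i + 1
      · rw [if_pos hk1]
        have : k + 1 - (i + 1) + j = j + 1 := by omega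
        rw [this]; exact h2
      · rw [if_neg hk1]
        have : k + 1 - (i + 1) + j = (k - (i + 1) + j) + 1 := by omega
        rw [this]; exact hz _ (by omega)

/-- second shortcut -/
theorem shortcut2 {K : Set (ℝ × ℝ)} {x y : ℝ × ℝ} {n : ℕ} {z : ℕ → ℝ × ℝ}
    (h : IsChainIn K x y n z) {i : ℕ} (hi : i < n) (h1 : i + 2 ≤ n → Seg K (z i) (z (i + 2)))
    (h2 : i + 1 = n → z i = z (i + 1)) :
    ∃ z', IsChainIn K x y (n - 1) z' := by
  obtain ⟨h0, hn, hz⟩ := h
  refine ⟨fun k => if k ≤ i then z k else z (k + 1), ?_, ?_, ?_⟩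
  · simp [h0]
  · simp only
    by_cases hni : n - 1 ≤ i
    · have : i = n - 1 := by omega
      rw [if_pos hni, ← hn, ← this, h2 (by omega)]
      congr 1; omega
    · rw [if_neg hni, ← hn]; congr 1; omega
  · intro k hk
    simp only
    rcases lt_trichotomy k i with hki | hki | hki
    · rw [if_pos hki.le, if_pos (by omega)]; exact hz k (by omega)
    · subst hki
      rw [if_pos le_rfl, if_neg (by omega)]
      exact h1 (by omega)
    · rw [if_neg (by omega), if_neg (by omega : ¬ k + 1 ≤ i)]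
      exact hz (k + 1) (by omega)

theorem mem_seg_param {a b w : ℝ × ℝ} (h : w ∈ segment ℝ a b) :
    ∃ t : ℝ, 0 ≤ t ∧ t ≤ 1 ∧ w = a + t • (b - a) := by
  rw [segment_eq_image'] at h
  obtain ⟨t, ht, rfl⟩ := h
  exact ⟨t, ht.1, ht.2, rfl⟩

theorem param_mem_seg (a b : ℝ × ℝ) {t : ℝ} (h0 : 0 ≤ t) (h1 : t ≤ 1) :
    a + t • (b - a) ∈ segment ℝ a b := by
  rw [segment_eq_image']
  exact ⟨t, ⟨h0, h1⟩, rfl⟩

theorem seg_subset {K : Set (ℝ × ℝ)} {a b c d : ℝ × ℝ} (h : Seg K a b) (hc : c ∈ segment ℝ a b)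
    (hd : d ∈ segment ℝ a b) : Seg K c d :=
  ((convex_segment a b).segment_subset hc hd).trans h

/-- two segments with a common end point `b` and another common point -/
theorem fold {a b c w : ℝ × ℝ} (h1 : w ∈ segment ℝ a b) (h2 : w ∈ segment ℝ b c) (hw : w ≠ b) :
    a ∈ segment ℝ b c ∨ c ∈ segment ℝ a b := by
  rw [segment_symm] at h1
  obtain ⟨s, hs0, hs1, hs⟩ := mem_seg_param h1
  obtain ⟨t, ht0, ht1, ht⟩ := mem_seg_param h2
  have hs' : 0 < s := by
    rcases eq_or_lt_of_le hs0 with h | h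
    · exfalso; apply hw; rw [hs, ← h]; simp
    · exact h
  have ht' : 0 < t := by
    rcases eq_or_lt_of_le ht0 with h | h
    · exfalso; apply hw; rw [ht, ← h]; simp
    · exact h
  have heq : s • (a - b) = t • (c - b) := by
    have := hs.symm.trans ht
    exact add_left_cancel this
  rcases le_total s t with h | h
  · right
    have hc : c = b + (s / t) • (a - b) := by
      have : c - b = (s / t) • (a - b) := by
        rw [div_eq_inv_mul, mul_smul, heq, inv_smul_smul₀ ht'.ne']
      rw [← this]; abel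
    rw [hc, segment_symm]
    exact param_mem_seg b a (by positivity) ((div_le_one ht').2 h)
  · left
    have hc : a = b + (t / s) • (c - b) := by
      have : a - b = (t / s) • (c - b) := by
        rw [div_eq_inv_mul, mul_smul, ← heq, inv_smul_smul₀ hs'.ne']
      rw [← this]; abel
    rw [hc]
    exact param_mem_seg b c (by positivity) ((div_le_one hs').2 h)

/-- the polygonal parametrisation of a chain -/
noncomputable def chainArc (n : ℕ) (z : ℕ → ℝ × ℝ) (s : ℝ) : ℝ × ℝ :=
  AffineMap.lineMap (z ⌊(n : ℝ) * s⌋₊) (z (⌊(n : ℝ) * s⌋₊ + 1)) ((n : ℝ) * s - ⌊(n : ℝ) * s⌋₊)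

theorem chainArc_node (n : ℕ) (hn : 0 < n) (z : ℕ → ℝ × ℝ) (i : ℕ) :
    chainArc n z ((i : ℝ) / n) = z i := by
  have h : (n : ℝ) * ((i : ℝ) / n) = i := by field_simp
  unfold chainArc
  rw [h, Nat.floor_natCast]; simp

theorem chainArc_piece (n : ℕ) (hn : 0 < n) (z : ℕ → ℝ × ℝ) (i : ℕ) (s : ℝ)
    (h1 : (i : ℝ) / n ≤ s) (h2 : s ≤ ((i + 1 : ℕ) : ℝ) / n) :
    chainArc n z s = AffineMap.lineMap (z i) (z (i + 1)) ((n : ℝ) * s - i) := by
  have hn' : (0 : ℝ) < n := by exact_mod_cast hn
  rw [div_le_iff₀ hn'] at h1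
  rw [le_div_iff₀ hn'] at h2
  rcases eq_or_lt_of_le h2 with h | h
  · have hs : s = ((i + 1 : ℕ) : ℝ) / n := by field_simp; linarith
    have h3 : (n : ℝ) * s = ((i + 1 : ℕ) : ℝ) := by rw [hs]; field_simp
    rw [h3]
    have h4 : chainArc n z s = z (i + 1) := by
      rw [hs]; exact chainArc_node n hn z (i + 1)
    rw [h4]
    push_cast
    simp
  · have hf : ⌊(n : ℝ) * s⌋₊ = i := by
      rw [Nat.floor_eq_iff (by nlinarith [Nat.cast_nonneg (α := ℝ) i])]
      constructor
      · linarith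
      · push_cast at h; linarith
    unfold chainArc
    rw [hf]

/-- A minimal chain gives a simple polygonal arc. -/
theorem exists_polyArc {K : Set (ℝ × ℝ)} {x y : ℝ × ℝ} (hxy : x ≠ y)
    (h : Relation.ReflTransGen (Seg K) x y) :
    ∃ γ : ℝ → ℝ × ℝ, IsPolyArc γ ∧ γ 0 = x ∧ γ 1 = y ∧ ∀ t ∈ Set.Icc (0 : ℝ) 1, γ t ∈ K := by
  classical
  have hex : ∃ n, ∃ z, IsChainIn K x y n z := exists_chain h
  set n := Nat.find hex with hn
  obtain ⟨z, hz⟩ : ∃ z, IsChainIn K x y n z := Nat.find_spec hex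
  have hmin : ∀ m < n, ¬ ∃ z, IsChainIn K x y m z := fun m hm => Nat.find_min hex hm
  obtain ⟨h0, hlast, hseg⟩ := hz
  have hz : IsChainIn K x y n z := ⟨h0, hlast, hseg⟩
  have hnpos : 0 < n := by
    rcases Nat.eq_zero_or_pos n with h | h
    · exfalso; apply hxy; rw [← h0, ← hlast, h]
    · exact h
  have hn' : (0 : ℝ) < n := by exact_mod_cast hnpos
  -- nondegenerate segments
  have hnd : ∀ i < n, z i ≠ z (i + 1) := by
    intro i hi heq
    apply hmin (n - 1) (by omega)
    apply shortcut2 hz hi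
    · intro h2; rw [heq]; exact hseg (i + 1) (by omega)
    · intro _; exact heq
  -- intersections
  have hint : ∀ i j w, i < j → j < n → w ∈ segment ℝ (z i) (z (i + 1)) →
      w ∈ segment ℝ (z j) (z (j + 1)) → j = i + 1 ∧ w = z (i + 1) := by
    intro i j w hij hj hwi hwj
    by_cases hj1 : j = i + 1
    · refine ⟨hj1, ?_⟩
      subst hj1
      by_contra hw
      apply hmin (n - 1) (by omega)
      apply shortcut2 hz (i := i) (by omega)
      · intro _
        rcases fold hwi hwj hw with h3 | h3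
        · exact seg_subset (hseg (i + 1) hj) h3 (right_mem_segment ℝ _ _)
        · exact seg_subset (hseg i (by omega)) (left_mem_segment ℝ _ _) h3
      · intro h3; omega
    · exfalso
      apply hmin (i + 1 + (n - j)) (by omega)
      exact shortcut hz hj w (seg_subset (hseg i (by omega)) (left_mem_segment ℝ _ _) hwi)
        (seg_subset (hseg j hj) hwj (right_mem_segment ℝ _ _)) hij
  -- position of parameters
  have hpos : ∀ s ∈ Set.Icc (0 : ℝ) 1, s < 1 → ∃ i < n, (i : ℝ) ≤ n * s ∧ (n : ℝ) * s < i + 1 ∧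
      chainArc n z s = AffineMap.lineMap (z i) (z (i + 1)) ((n : ℝ) * s - i) := by
    intro s hs hs1
    have h1 : 0 ≤ (n : ℝ) * s := mul_nonneg hn'.le hs.1
    have h2 := Nat.floor_le h1
    have h3 := Nat.lt_floor_add_one ((n : ℝ) * s)
    refine ⟨⌊(n : ℝ) * s⌋₊, ?_, h2, h3, rfl⟩
    rw [Nat.floor_lt h1]
    nlinarith
  have hmem : ∀ i (t : ℝ), 0 ≤ t → t ≤ 1 → AffineMap.lineMap (z i) (z (i + 1)) t ∈
      segment ℝ (z i) (z (i + 1)) := by
    intro i t h1 h2
    rw [segment_eq_image_lineMap]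
    exact ⟨t, ⟨h1, h2⟩, rfl⟩
  have hone : chainArc n z 1 = z n := by
    have := chainArc_node n hnpos z n
    rwa [div_self hn'.ne'] at this
  have hinj : ∀ s ∈ Set.Icc (0 : ℝ) 1, ∀ s' ∈ Set.Icc (0 : ℝ) 1, s < s' →
      chainArc n z s ≠ chainArc n z s' := by
    intro s hs s' hs' hss heq
    obtain ⟨i, hi, hi1, hi2, hi3⟩ := hpos s hs (lt_of_lt_of_le hss hs'.2)
    have hlm : Function.Injective (AffineMap.lineMap (k := ℝ) (z i) (z (i + 1))) :=
      AffineMap.lineMap_injective ℝ (hnd i hi)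
    have hneq : chainArc n z s ≠ z (i + 1) := by
      rw [hi3]
      intro h
      have h5 : (AffineMap.lineMap (z i) (z (i + 1)) (1 : ℝ)) = z (i + 1) :=
        AffineMap.lineMap_apply_one _ _
      have := hlm (h.trans h5.symm)
      linarith
    have hmi : chainArc n z s ∈ segment ℝ (z i) (z (i + 1)) := by
      rw [hi3]; exact hmem i _ (by linarith) (by linarith)
    rcases eq_or_lt_of_le hs'.2 with h1 | h1
    · -- s' = 1
      rw [h1, hone] at heq
      by_cases hin : i + 1 = n
      · rw [hin] at hneq; exact hneq heq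
      · have h2 := hint i (n - 1) (z n) (by omega) (by omega) (by rw [← heq]; exact hmi) (by
          have : n - 1 + 1 = n := by omega
          rw [this]; exact right_mem_segment ℝ _ _)
        apply hneq
        rw [heq, h2.2]
    · obtain ⟨j, hj, hj1, hj2, hj3⟩ := hpos s' hs' h1
      have hlt : (n : ℝ) * s < n * s' := mul_lt_mul_of_pos_left hss hn'
      have hij : i ≤ j := by
        have : (i : ℝ) < j + 1 := by linarith
        have : i < j + 1 := by exact_mod_cast this
        omega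
      rcases eq_or_lt_of_le hij with h2 | h2
      · subst h2
        rw [hi3, hj3] at heq
        have := hlm heq
        linarith
      · have h3 := hint i j (chainArc n z s) h2 hj hmi (by
          rw [heq, hj3]; exact hmem j _ (by linarith) (by linarith))
        exact hneq h3.2
  refine ⟨chainArc n z, ⟨?_, n, fun i => (i : ℝ) / n, by simp, by simp [hn'.ne'], ?_⟩, ?_, ?_, ?_⟩
  · intro s hs s' hs' heq
    rcases lt_trichotomy s s' with h1 | h1 | h1
    · exact absurd heq (hinj s hs s' hs' h1)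
    · exact h1
    · exact absurd heq.symm (hinj s' hs' s hs h1)
  · intro i hi
    refine ⟨by simp only; gcongr; linarith, ?_⟩
    intro s hs
    simp only at hs ⊢
    rw [chainArc_piece n hnpos z i s hs.1 hs.2, chainArc_node n hnpos, chainArc_node n hnpos]
    congr 1
    push_cast
    field_simp
    ring
  · have := chainArc_node n hnpos z 0
    simp only [Nat.cast_zero, zero_div] at this
    rw [this, h0]
  · rw [hone, hlast]
  · intro t ht
    rcases eq_or_lt_of_le ht.2 with h1 | h1
    · rw [h1, hone]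
      have h2 := hseg (n - 1) (by omega)
      have : n - 1 + 1 = n := by omega
      rw [this] at h2
      exact h2 (right_mem_segment ℝ _ _)
    · obtain ⟨i, hi, hi1, hi2, hi3⟩ := hpos t ht h1
      rw [hi3]
      exact hseg i hi (hmem i _ (by linarith) (by linarith))

end Pool.Agent.Lib.MP_266831_co
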