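import Pool.Agent.Lib.MP_266831_co.Ends

/-!
# Summation over all relative positions (MP_266831_co)

Abstract form of the counting step: hubs `i`, legs `v ∈ L i` with ends `E i v`, finite sets
`X (i,v) (j,y)` of crossings with labels in `W p`.
-/

namespace Pool.Agent.Lib.MP_266831_co

open W

variable {p : ℕ}

/-- translate of an end -/
def shift (g : W p) (f : W p → Fin p) : W p → Fin p := fun h => f (g⁻¹ * h)

theorem isEnd_shift {g : W p} {f : W p → Fin p} (hf : IsEnd f) : IsEnd (shift g f) := by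
  intro h s
  show f (g⁻¹ * (h * gen s)) = s ↔ f (g⁻¹ * h) ≠ s
  rw [← mul_assoc]
  exact hf _ _

theorem pos_shift (g : W p) (b : W p × Fin p) (f : W p → Fin p) :
    pos b (shift g f) = pos (g⁻¹ * b.1, b.2) f := rfl

section

variable {ι κ γ : Type*} [DecidableEq ι] [DecidableEq κ] [DecidableEq γ]

/-- bound for one relative position -/
theorem pair_bound (L L' : Finset κ) (E E' : κ → W p → Fin p) (hE : ∀ v, IsEnd (E v))
    (hE' : ∀ v, IsEnd (E' v)) (B B' : Finset (W p × Fin p))
    (hB : ∀ b ∈ B, Hit (fun b v => pos b (E v)) b L)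
    (hB' : ∀ b ∈ B', Hit (fun b v => pos b (E' v)) b L') (g : W p)
    (X : κ → κ → Finset γ) (lab : κ → κ → γ → W p)
    (hex1 : ∀ b : W p × Fin p, ∀ (v y : Fin 3 → κ), (∀ k, v k ∈ L ∧ pos b (E (v k)) = k) →
      (∀ k, y k ∈ L' ∧ pos b (shift g (E' (y k))) = k) →
      hex (fun a c => ((((X (v a) (y c)).filter (fun x => lab (v a) (y c) x = g)).card : ℕ) :
        ZMod 2)) = 1) :
    ((B ×ˢ B').filter (fun q => q.1.1 = g * q.2.1 ∧ q.1.2 = q.2.2)).card ≤
      ∑ q ∈ L ×ˢ L', ((X q.1 q.2).filter (fun x => lab q.1 q.2 x = g)).card := by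
  classical
  set C : Finset (W p × Fin p) := B.filter (fun b => (g⁻¹ * b.1, b.2) ∈ B') with hC
  have h1 : ((B ×ˢ B').filter (fun q => q.1.1 = g * q.2.1 ∧ q.1.2 = q.2.2)).card ≤ C.card := by
    apply Finset.card_le_card_of_injOn (fun q => q.1)
    · intro q hq
      simp only [Finset.coe_filter, Finset.mem_product, Set.mem_ofPred_eq] at hq
      obtain ⟨⟨hq1, hq2⟩, hq3, hq4⟩ := hq
      simp only [hC, Finset.coe_filter, Set.mem_ofPred_eq]
      refine ⟨hq1, ?_⟩
      have : (g⁻¹ * q.1.1, q.1.2) = q.2 := by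
        rw [hq3, hq4]
        simp
      rw [this]; exact hq2
    · intro q hq q' hq' heq
      simp only [Finset.coe_filter, Finset.mem_product, Set.mem_ofPred_eq] at hq hq'
      have e1 : q.1 = q'.1 := heq
      have e2 : q.2 = q'.2 := by
        apply Prod.ext
        · have h2 := hq.2.1
          have h3 := hq'.2.1
          rw [e1] at h2
          exact mul_left_cancel (h2.symm.trans h3)
        · rw [← hq.2.2, ← hq'.2.2, e1]
      exact Prod.ext e1 e2
  refine le_trans h1 ?_
  have hN : Nested (fun b v => pos b (E v)) (pos2 (p := p)) := nested E hE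
  have hN' : Nested (fun b v => pos b (shift g (E' v))) (pos2 (p := p)) :=
    nested (fun v => shift g (E' v)) (fun v => isEnd_shift (hE' v))
  have h2 := weight_lemma hN hN'
    (fun v y => ((((X v y).filter (fun x => lab v y x = g)).card : ℕ) : ZMod 2))
    _ L L' C rfl
    (fun b hb => hB b (Finset.mem_of_mem_filter _ hb))
    (fun b hb => by
      have hb2 := (Finset.mem_filter.1 hb).2
      intro k
      obtain ⟨v, hv, hvk⟩ := hB' _ hb2 k
      exact ⟨v, hv, by rw [← hvk]; rfl⟩)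
    (fun b hb v y hv hy => hex1 b v y hv hy)
  refine le_trans h2 ?_
  rw [Finset.card_eq_sum_ones, Finset.sum_filter]
  apply Finset.sum_le_sum
  intro q _
  split_ifs with h
  · by_contra hcon
    push Not at hcon
    have : ((X q.1 q.2).filter (fun x => lab q.1 q.2 x = g)).card = 0 := by omega
    rw [this] at h
    exact h (by simp)
  · exact Nat.zero_le _

/-- type of a median -/
def typ (b : W p × Fin p) : ZMod 2 × Fin p := (par b.1, b.2)

theorem typ_snd {b b' : W p × Fin p} (h : typ b = typ b') : b.2 = b'.2 :=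
  congrArg (fun t : ZMod 2 × Fin p => t.2) h

/-- bound for a pair of hubs -/
theorem hub_bound (L L' : Finset κ) (E E' : κ → W p → Fin p) (hE : ∀ v, IsEnd (E v))
    (hE' : ∀ v, IsEnd (E' v)) (B B' : Finset (W p × Fin p))
    (hB : ∀ b ∈ B, Hit (fun b v => pos b (E v)) b L)
    (hB' : ∀ b ∈ B', Hit (fun b v => pos b (E' v)) b L')
    (X : κ → κ → Finset γ) (lab : κ → κ → γ → W p)
    (R : Finset ((W p × Fin p) × (W p × Fin p)))
    (hR : ∀ q ∈ R, q.1 ∈ B ∧ q.2 ∈ B' ∧ typ q.1 = typ q.2)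
    (good : W p → Prop) (hgood : ∀ q ∈ R, good (q.1.1 * q.2.1⁻¹))
    (hex1 : ∀ g, par g = 0 → good g → ∀ b : W p × Fin p, ∀ (v y : Fin 3 → κ),
      (∀ k, v k ∈ L ∧ pos b (E (v k)) = k) →
      (∀ k, y k ∈ L' ∧ pos b (shift g (E' (y k))) = k) →
      hex (fun a c => ((((X (v a) (y c)).filter (fun x => lab (v a) (y c) x = g)).card : ℕ) :
        ZMod 2)) = 1) :
    R.card ≤ ∑ q ∈ L ×ˢ L', (X q.1 q.2).card := by
  classical
  set S : Finset (W p) := R.image (fun q => q.1.1 * q.2.1⁻¹) with hS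
  have h1 : R.card = ∑ g ∈ S, (R.filter (fun q => q.1.1 * q.2.1⁻¹ = g)).card :=
    Finset.card_eq_sum_card_fiberwise (fun q hq => Finset.mem_image_of_mem _ hq)
  rw [h1]
  have h2 : ∀ g ∈ S, (R.filter (fun q => q.1.1 * q.2.1⁻¹ = g)).card ≤
      ∑ q ∈ L ×ˢ L', ((X q.1 q.2).filter (fun x => lab q.1 q.2 x = g)).card := by
    intro g hg
    obtain ⟨q0, hq0, hq0g⟩ := Finset.mem_image.1 hg
    have hpar : par g = 0 := by
      have h3 := (hR q0 hq0).2.2
      have h4 : par q0.1.1 = par q0.2.1 := congrArg Prod.fst h3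
      rw [← hq0g, par_mul, par_inv, h4]
      exact zmod2_add_self _
    have hgg : good g := by rw [← hq0g]; exact hgood q0 hq0
    refine le_trans ?_ (pair_bound L L' E E' hE hE' B B' hB hB' g X lab (hex1 g hpar hgg))
    apply Finset.card_le_card
    intro q hq
    rw [Finset.mem_filter] at hq ⊢
    obtain ⟨hq1, hq2⟩ := hq
    obtain ⟨ha, hb, hc⟩ := hR q hq1
    refine ⟨Finset.mem_product.2 ⟨ha, hb⟩, ?_, typ_snd hc⟩
    rw [← hq2]; group
  refine le_trans (Finset.sum_le_sum h2) ?_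
  rw [Finset.sum_comm]
  apply Finset.sum_le_sum
  intro q _
  -- the fibres over S are disjoint
  have h5 : ∑ g ∈ S, ((X q.1 q.2).filter (fun x => lab q.1 q.2 x = g)).card =
      ((X q.1 q.2).filter (fun x => lab q.1 q.2 x ∈ S)).card := by
    rw [Finset.card_eq_sum_card_fiberwise (f := fun x => lab q.1 q.2 x) (t := S)
      (s := (X q.1 q.2).filter (fun x => lab q.1 q.2 x ∈ S))
      (fun x hx => by
        simp only [Finset.coe_filter, Set.mem_ofPred_eq] at hx
        exact hx.2)]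
    apply Finset.sum_congr rfl
    intro g hg
    congr 1
    ext x
    simp only [Finset.mem_filter]
    constructor
    · rintro ⟨h, rfl⟩; exact ⟨⟨h, hg⟩, rfl⟩
    · rintro ⟨⟨h, -⟩, h'⟩; exact ⟨h, h'⟩
  rw [h5]
  exact Finset.card_le_card (Finset.filter_subset _ _)

/-- interior letters -/
theorem typ_interior {L : Finset κ} {E : κ → W p → Fin p} {b : W p × Fin p}
    (h : Hit (fun b v => pos b (E v)) b L) : 0 < b.2.val ∧ b.2.val + 1 < p := by
  obtain ⟨v0, -, h0⟩ := h 0
  obtain ⟨v2, -, h2⟩ := h 2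
  simp only [pos, cmp3] at h0 h2
  have hA : E v0 b.1 < b.2 := by
    by_contra hcon
    rw [if_neg hcon] at h0
    split_ifs at h0
    · exact absurd h0 (by decide)
    · exact absurd h0 (by decide)
  have hB : b.2 < E v2 b.1 := by
    by_contra hcon
    by_cases h3 : E v2 b.1 < b.2
    · rw [if_pos h3] at h2; exact absurd h2 (by decide)
    · rw [if_neg h3] at h2
      have h4 : E v2 b.1 = b.2 := le_antisymm (not_lt.1 hcon) (not_lt.1 h3)
      rw [if_pos h4] at h2; exact absurd h2 (by decide)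
  have h5 := (E v2 b.1).isLt
  rw [Fin.lt_def] at hA hB
  omega

/-- **Counting theorem.** -/
theorem count_all [Fintype ι] (L : ι → Finset κ) (E : ι → κ → W p → Fin p)
    (hE : ∀ i v, IsEnd (E i v))
    (hne : ∀ i, ∀ v ∈ L i, ∀ v' ∈ L i, v ≠ v' → E i v ≠ E i v')
    (X : ι × κ → ι × κ → Finset γ) (lab : ι × κ → ι × κ → γ → W p)
    (hex1 : ∀ i j g, par g = 0 → (i = j → g ≠ 1) → ∀ b : W p × Fin p, ∀ (v y : Fin 3 → κ),
      (∀ k, v k ∈ L i ∧ pos b (E i (v k)) = k) →
      (∀ k, y k ∈ L j ∧ pos b (shift g (E j (y k))) = k) →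
      hex (fun a c => ((((X (i, v a) (j, y c)).filter
        (fun x => lab (i, v a) (j, y c) x = g)).card : ℕ) : ZMod 2)) = 1) :
    ∃ N : ZMod 2 × Fin p → ℕ, (∀ τ, N τ ≠ 0 → 0 < τ.2.val ∧ τ.2.val + 1 < p) ∧
      ∑ τ, N τ = ∑ i, ((L i).card - 2) ∧
      ∑ τ, N τ * N τ ≤ ∑ τ, N τ + ∑ i, ∑ j, ∑ q ∈ L i ×ˢ L j, (X (i, q.1) (j, q.2)).card := by
  classical
  have hB : ∀ i, ∃ B : Finset (W p × Fin p), (∀ b ∈ B, Hit (fun b v => pos b (E i v)) b (L i)) ∧
      B.card = (L i).card - 2 := by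
    intro i
    apply exists_medians (nested (E i) (hE i)) _ (L i) rfl
    intro e₁ h1 e₂ h2 e₃ h3 h12 h13 h23
    exact exists_median (hE i e₁) (hE i e₂) (hE i e₃) (hne i _ h1 _ h2 h12) (hne i _ h1 _ h3 h13)
      (hne i _ h2 _ h3 h23)
  choose B hBh hBc using hB
  set n : ι → ZMod 2 × Fin p → ℕ := fun i τ => ((B i).filter (fun b => typ b = τ)).card with hn
  have hsum : ∀ i, ∑ τ, n i τ = (B i).card := by
    intro i
    rw [Finset.card_eq_sum_card_fiberwise (f := typ) (t := Finset.univ)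
      (fun b _ => Finset.mem_coe.2 (Finset.mem_univ _))]
  have hprod : ∀ i j, ∑ τ, n i τ * n j τ =
      ((B i ×ˢ B j).filter (fun q => typ q.1 = typ q.2)).card := by
    intro i j
    rw [Finset.card_eq_sum_card_fiberwise (f := fun q => typ q.1) (t := Finset.univ)
      (fun b _ => Finset.mem_coe.2 (Finset.mem_univ _))]
    apply Finset.sum_congr rfl
    intro τ _
    rw [hn]
    simp only
    rw [← Finset.card_product]
    congr 1
    ext ⟨a, b⟩
    simp only [Finset.mem_product, Finset.mem_filter]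
    constructor
    · rintro ⟨⟨h1, h2⟩, h3, h4⟩; exact ⟨⟨⟨h1, h3⟩, h2.trans h4.symm⟩, h2⟩
    · rintro ⟨⟨⟨h1, h3⟩, h2⟩, h4⟩; exact ⟨⟨h1, h4⟩, h3, h2 ▸ h4⟩
  have hoff : ∀ i j, i ≠ j → ∑ τ, n i τ * n j τ ≤
      ∑ q ∈ L i ×ˢ L j, (X (i, q.1) (j, q.2)).card := by
    intro i j hij
    rw [hprod]
    apply hub_bound (L i) (L j) (E i) (E j) (hE i) (hE j) (B i) (B j) (hBh i) (hBh j)
      (fun v y => X (i, v) (j, y)) (fun v y => lab (i, v) (j, y)) _ _ (fun _ => True)
    · intros; trivial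
    · intro g hg _ b v y hv hy
      exact hex1 i j g hg (fun h => absurd h hij) b v y hv hy
    · intro q hq
      rw [Finset.mem_filter, Finset.mem_product] at hq
      exact ⟨hq.1.1, hq.1.2, hq.2⟩
  have hdiag : ∀ i, ∑ τ, n i τ * n i τ ≤ (B i).card +
      ∑ q ∈ L i ×ˢ L i, (X (i, q.1) (i, q.2)).card := by
    intro i
    rw [hprod]
    have hsplit : ((B i ×ˢ B i).filter (fun q => typ q.1 = typ q.2)).card ≤
        (B i).card + (((B i ×ˢ B i).filter (fun q => typ q.1 = typ q.2)).filter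
          (fun q => q.1 ≠ q.2)).card := by
      rw [← Finset.card_filter_add_card_filter_not (s := (B i ×ˢ B i).filter
        (fun q => typ q.1 = typ q.2)) (fun q => q.1 = q.2)]
      apply Nat.add_le_add_right
      apply Finset.card_le_card_of_injOn (fun q => q.1)
      · intro q hq
        simp only [Finset.coe_filter, Finset.mem_filter, Finset.mem_product,
          Set.mem_ofPred_eq] at hq
        exact hq.1.1.1
      · intro q hq q' hq' heq
        simp only [Finset.coe_filter, Finset.mem_filter, Finset.mem_product,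
          Set.mem_ofPred_eq] at hq hq'
        have e1 : q.1 = q'.1 := heq
        exact Prod.ext e1 (by rw [← hq.2, ← hq'.2, e1])
    refine le_trans hsplit (Nat.add_le_add_left ?_ _)
    apply hub_bound (L i) (L i) (E i) (E i) (hE i) (hE i) (B i) (B i) (hBh i) (hBh i)
      (fun v y => X (i, v) (i, y)) (fun v y => lab (i, v) (i, y)) _ _ (fun g => g ≠ 1)
    · intro q hq h1
      rw [Finset.mem_filter, Finset.mem_filter, Finset.mem_product] at hq
      apply hq.2
      exact Prod.ext (mul_inv_eq_one.1 h1) (typ_snd hq.1.2)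
    · intro g hg hg1 b v y hv hy
      exact hex1 i i g hg (fun _ => hg1) b v y hv hy
    · intro q hq
      rw [Finset.mem_filter, Finset.mem_filter, Finset.mem_product] at hq
      exact ⟨hq.1.1.1, hq.1.1.2, hq.1.2⟩
  refine ⟨fun τ => ∑ i, n i τ, ?_, ?_, ?_⟩
  · intro τ hτ
    obtain ⟨i, -, hi⟩ := Finset.exists_ne_zero_of_sum_ne_zero hτ
    obtain ⟨b, hb⟩ := Finset.card_pos.1 (Nat.pos_of_ne_zero hi)
    rw [Finset.mem_filter] at hb
    have := typ_interior (hBh i b hb.1)
    rw [← hb.2]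
    exact this
  · rw [Finset.sum_comm]
    apply Finset.sum_congr rfl
    intro i _
    rw [hsum, hBc]
  · have e1 : ∑ τ, (∑ i, n i τ) * (∑ i, n i τ) = ∑ i, ∑ j, ∑ τ, n i τ * n j τ := by
      simp_rw [Finset.sum_mul_sum]
      rw [Finset.sum_comm]
      apply Finset.sum_congr rfl
      intro i _
      rw [Finset.sum_comm]
    have e2 : ∑ τ, ∑ i, n i τ = ∑ i, (B i).card := by
      rw [Finset.sum_comm]
      exact Finset.sum_congr rfl (fun i _ => hsum i)
    rw [e1, e2, ← Finset.sum_add_distrib]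
    apply Finset.sum_le_sum
    intro i _
    have h1 : ∑ j, ∑ τ, n i τ * n j τ ≤
        ∑ j, ((if i = j then (B i).card else 0) +
          ∑ q ∈ L i ×ˢ L j, (X (i, q.1) (j, q.2)).card) := by
      apply Finset.sum_le_sum
      intro j _
      by_cases hij : i = j
      · subst hij
        rw [if_pos rfl]
        exact hdiag i
      · rw [if_neg hij, zero_add]
        exact hoff i j hij
    refine le_trans h1 ?_
    rw [Finset.sum_add_distrib, Finset.sum_ite_eq]
    simp

end

end Pool.Agent.Lib.MP_266831_co
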