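import Mathlib

/-!
# The biplanar crossing number (MP_266831_co)

The notions of the problem: drawings of a finite graph in the plane with arbitrary continuous arcs, their
crossings, the crossing number `crTop` and the biplanar crossing number `crTwoTop`.
-/

namespace Pool.Agent.Lib.MP_266831_co

/-- A *drawing* of the graph `G` in the plane `ℝ × ℝ`: the vertices are distinct points, each edge `e` is
a simple (continuous, injective) arc `arc e` (with parameter in `[0,1]`) joining its two end vertices
and passing through no other vertex. -/
structure TopDrawing {V : Type} (G : SimpleGraph V) where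
  /-- the position of a vertex -/
  pt : V → ℝ × ℝ
  pt_injective : Function.Injective pt
  /-- the arc of an edge (only the values at edges of `G` and at parameters in `[0,1]` matter) -/
  arc : Sym2 V → ℝ → ℝ × ℝ
  arc_cont : ∀ e ∈ G.edgeSet, ContinuousOn (arc e) (Set.Icc 0 1)
  arc_inj : ∀ e ∈ G.edgeSet, Set.InjOn (arc e) (Set.Icc 0 1)
  arc_ends : ∀ e ∈ G.edgeSet, s(arc e 0, arc e 1) = e.map pt
  arc_avoid : ∀ e ∈ G.edgeSet, ∀ t ∈ Set.Ioo (0 : ℝ) 1, ∀ v, arc e t ≠ pt v

/-- The *crossings* of a drawing: all pairs of a point of the plane and an unordered pair of distinct edges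
such that the point lies in the interior of both arcs. (If `k` edges pass through one point, it counts
`k * (k - 1) / 2` times; a point where two arcs only touch counts, too.) -/
def TopDrawing.crossings {V : Type} {G : SimpleGraph V} (D : TopDrawing G) :
    Set ((ℝ × ℝ) × Sym2 (Sym2 V)) :=
  {x | ¬ x.2.IsDiag ∧ ∀ e ∈ x.2, e ∈ G.edgeSet ∧ x.1 ∈ D.arc e '' Set.Ioo 0 1}

/-- The *crossing number* of `G`: the minimum number of crossings over all drawings. -/
noncomputable def crTop {V : Type} (G : SimpleGraph V) : ℕ∞ :=
  ⨅ D : TopDrawing G, D.crossings.encard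

/-- The *biplanar crossing number* of `G`: the minimum of `crTop G₁ + crTop G₂` over all partitions of
the edge set of `G` into the edge sets of two graphs `G₁`, `G₂` on the same vertices. -/
noncomputable def crTwoTop {V : Type} (G : SimpleGraph V) : ℕ∞ :=
  ⨅ (G₁ : SimpleGraph V) (G₂ : SimpleGraph V) (_ : Disjoint G₁ G₂) (_ : G₁ ⊔ G₂ = G),
    crTop G₁ + crTop G₂

end Pool.Agent.Lib.MP_266831_co
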