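import Pool.Agent.Lib.MP_266831_co.SimplePoly
import Pool.Agent.Lib.MP_266831_co.TopDefs

/-!
# Drawings with arbitrary continuous arcs (MP_266831_co)

`TopDrawing G`: drawings of `G` whose edges are arbitrary injective continuous arcs. `crTop` is the
classical crossing number. Every such drawing with finitely many crossings can be replaced by a polygonal
drawing with the same vertices and at most the same crossings, so `crTop G = cr G`.
-/

namespace Pool.Agent.Lib.MP_266831_co

open Metric Set Filter Topology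

/-! ### Polygonal arcs are continuous -/

theorem IsPolyArc.continuousOn_top {γ : ℝ → ℝ × ℝ} (h : IsPolyArc γ) : ContinuousOn γ (Set.Icc 0 1) := by
  obtain ⟨-, n, t, h0, h1, hp⟩ := h
  have key : ∀ m ≤ n, ContinuousOn γ (Set.Icc (t 0) (t m)) ∧ t 0 ≤ t m := by
    intro m
    induction m with
    | zero => intro _; exact ⟨by rw [Set.Icc_self]; exact continuousOn_singleton _ _, le_rfl⟩
    | succ m ih =>
      intro hm
      obtain ⟨ih1, ih2⟩ := ih (by omega)
      obtain ⟨hlt, haff⟩ := hp m (by omega)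
      refine ⟨?_, ih2.trans hlt.le⟩
      have h3 : ContinuousOn γ (Set.Icc (t m) (t (m + 1))) := by
        have h4 : ContinuousOn (fun s => AffineMap.lineMap (k := ℝ) (γ (t m)) (γ (t (m + 1)))
            ((s - t m) / (t (m + 1) - t m))) (Set.Icc (t m) (t (m + 1))) := by
          apply Continuous.continuousOn
          exact (AffineMap.lineMap_continuous).comp (by fun_prop)
        exact h4.congr (fun s hs => haff s hs)
      have h5 : Set.Icc (t 0) (t (m + 1)) = Set.Icc (t 0) (t m) ∪ Set.Icc (t m) (t (m + 1)) :=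
        (Set.Icc_union_Icc_eq_Icc ih2 hlt.le).symm
      rw [h5]
      exact ih1.union_of_isClosed h3 isClosed_Icc isClosed_Icc
  have := (key n le_rfl).1
  rwa [h0, h1] at this

/-- a polygonal drawing is a drawing -/
def Drawing.toTop {V : Type} {G : SimpleGraph V} (D : Drawing G) : TopDrawing G where
  pt := D.pt
  pt_injective := D.pt_injective
  arc := D.arc
  arc_cont := fun e he => (D.arc_poly e he).continuousOn_top
  arc_inj := fun e he => (D.arc_poly e he).1
  arc_ends := D.arc_ends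
  arc_avoid := D.arc_avoid

theorem crTop_le_cr {V : Type} (G : SimpleGraph V) : crTop G ≤ cr G :=
  le_iInf fun D => iInf_le_of_le D.toTop le_rfl

/-! ### From continuous arcs to polygons -/

/-- sets of radial segments -/
def radial (S I C : Set (ℝ × ℝ)) (ρ : ℝ) : Set (ℝ × ℝ) :=
  {z | ∃ x ∈ S, x ∈ I ∧ ∃ c ∈ C, dist c x = ρ ∧ z ∈ segment ℝ x c}

theorem dist_radial {x c z : ℝ × ℝ} (hz : z ∈ segment ℝ x c) :
    dist z x + dist c z = dist c x := by
  have := dist_add_dist_of_mem_segment (x := x) (y := z) (z := c) hz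
  rw [dist_comm z x, dist_comm c z, dist_comm c x]; linarith

theorem radial_same {x c c' z : ℝ × ℝ} {ρ : ℝ} (hρ : 0 < ρ) (hc : dist c x = ρ)
    (hc' : dist c' x = ρ) (hz : z ∈ segment ℝ x c) (hz' : z ∈ segment ℝ x c') (hne : z ≠ x) :
    c = c' := by
  obtain ⟨s, hs0, hs1, hs⟩ := mem_seg_param hz
  obtain ⟨t, ht0, ht1, ht⟩ := mem_seg_param hz'
  have h1 : dist z x = s * ρ := by
    rw [hs, dist_eq_norm, add_sub_cancel_left, norm_smul, Real.norm_of_nonneg hs0,
      ← dist_eq_norm, hc]
  have h2 : dist z x = t * ρ := by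
    rw [ht, dist_eq_norm, add_sub_cancel_left, norm_smul, Real.norm_of_nonneg ht0,
      ← dist_eq_norm, hc']
  have hst : s = t := mul_right_cancel₀ hρ.ne' (h1.symm.trans h2)
  have hs' : s ≠ 0 := by
    rintro rfl; apply hne; rw [hs]; simp
  subst hst
  have h3 : s • (c - x) = s • (c' - x) := add_left_cancel (hs.symm.trans ht)
  have h4 : c - x = c' - x := smul_right_injective _ hs' h3
  exact sub_left_injective h4

section redraw

variable {V : Type} {G : SimpleGraph V} (D : TopDrawing G)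

/-- the special points -/
def TopDrawing.special : Set (ℝ × ℝ) := Set.range D.pt ∪ Prod.fst '' D.crossings

/-- the image of an edge -/
def TopDrawing.img (e : Sym2 V) : Set (ℝ × ℝ) := D.arc e '' Set.Icc 0 1

/-- the part of an edge which is not close to a special point -/
def TopDrawing.core (ρ : ℝ) (e : Sym2 V) : Set (ℝ × ℝ) :=
  {w | w ∈ D.img e ∧ ∀ x ∈ D.special, ρ ≤ dist w x}

/-- the region in which an edge is redrawn -/
def TopDrawing.region (ρ δ : ℝ) (e : Sym2 V) : Set (ℝ × ℝ) :=
  thickening δ (D.core ρ e) ∪ radial D.special (D.img e) (D.core ρ e) ρ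

theorem TopDrawing.arc_mem_img {e : Sym2 V} {t : ℝ} (ht : t ∈ Set.Icc (0 : ℝ) 1) :
    D.arc e t ∈ D.img e := ⟨t, ht, rfl⟩

theorem TopDrawing.end_zero {e : Sym2 V} (he : e ∈ G.edgeSet) : ∃ v ∈ e, D.arc e 0 = D.pt v := by
  have h := D.arc_ends e he
  have : D.arc e 0 ∈ e.map D.pt := by rw [← h]; simp
  rw [Sym2.mem_map] at this
  obtain ⟨v, hv, h1⟩ := this
  exact ⟨v, hv, h1.symm⟩

theorem TopDrawing.end_one {e : Sym2 V} (he : e ∈ G.edgeSet) : ∃ v ∈ e, D.arc e 1 = D.pt v := by
  have h := D.arc_ends e he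
  have : D.arc e 1 ∈ e.map D.pt := by rw [← h]; simp
  rw [Sym2.mem_map] at this
  obtain ⟨v, hv, h1⟩ := this
  exact ⟨v, hv, h1.symm⟩

theorem TopDrawing.img_cases {e : Sym2 V} (he : e ∈ G.edgeSet) {w : ℝ × ℝ} (hw : w ∈ D.img e) :
    (∃ v ∈ e, w = D.pt v) ∨ w ∈ D.arc e '' Set.Ioo 0 1 := by
  obtain ⟨t, ht, rfl⟩ := hw
  rcases eq_or_lt_of_le ht.1 with h | h
  · left
    obtain ⟨v, hv, h1⟩ := D.end_zero he
    exact ⟨v, hv, by rw [← h, h1]⟩
  · rcases eq_or_lt_of_le ht.2 with h' | h'
    · left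
      obtain ⟨v, hv, h1⟩ := D.end_one he
      exact ⟨v, hv, by rw [h', h1]⟩
    · right; exact ⟨t, ⟨h, h'⟩, rfl⟩

/-- common points of different edges are special -/
theorem TopDrawing.common_special {e f : Sym2 V} (he : e ∈ G.edgeSet) (hf : f ∈ G.edgeSet)
    (hef : e ≠ f) {w : ℝ × ℝ} (hw : w ∈ D.img e) (hw' : w ∈ D.img f) : w ∈ D.special := by
  rcases D.img_cases he hw with ⟨v, _, rfl⟩ | h1
  · left; exact ⟨v, rfl⟩
  · rcases D.img_cases hf hw' with ⟨v, _, rfl⟩ | h2
    · left; exact ⟨v, rfl⟩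
    · right
      refine ⟨(w, s(e, f)), ⟨by simpa using hef, ?_⟩, rfl⟩
      intro g hg
      simp only [Sym2.mem_iff] at hg
      rcases hg with rfl | rfl
      · exact ⟨he, h1⟩
      · exact ⟨hf, h2⟩

theorem TopDrawing.isCompact_img {e : Sym2 V} (he : e ∈ G.edgeSet) : IsCompact (D.img e) :=
  isCompact_Icc.image_of_continuousOn (D.arc_cont e he)

theorem TopDrawing.isCompact_core {e : Sym2 V} (he : e ∈ G.edgeSet) (ρ : ℝ) :
    IsCompact (D.core ρ e) := by
  have : D.core ρ e = D.img e ∩ ⋂ x ∈ D.special, {w | ρ ≤ dist w x} := by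
    ext w; simp [TopDrawing.core]
  rw [this]
  apply (D.isCompact_img he).inter_right
  apply isClosed_biInter
  intro x _
  exact isClosed_le continuous_const (continuous_id.dist continuous_const)

theorem TopDrawing.core_disjoint {e f : Sym2 V} (he : e ∈ G.edgeSet) (hf : f ∈ G.edgeSet)
    (hef : e ≠ f) {ρ : ℝ} (hρ : 0 < ρ) : Disjoint (D.core ρ e) (D.core ρ f) := by
  rw [Set.disjoint_left]
  intro w h1 h2
  have h3 := D.common_special he hf hef h1.1 h2.1
  have := h1.2 w h3
  rw [dist_self] at this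
  linarith

variable [Finite V] (hfin : D.crossings.Finite)

include hfin in
theorem TopDrawing.special_finite : D.special.Finite :=
  (Set.finite_range _).union (hfin.image _)

include hfin in
theorem TopDrawing.exists_rho : ∃ ρ : ℝ, 0 < ρ ∧
    (∀ x ∈ D.special, ∀ y ∈ D.special, x ≠ y → 2 * ρ < dist x y) ∧
    (∀ x ∈ D.special, ∀ e ∈ G.edgeSet, x ∉ D.img e → ∀ w ∈ D.img e, ρ < dist w x) := by
  have hS := D.special_finite hfin
  have hE : G.edgeSet.Finite := Set.toFinite _
  have h1 : ∀ᶠ ρ in 𝓝[>] (0 : ℝ), ∀ x ∈ D.special, ∀ y ∈ D.special, x ≠ y → 2 * ρ < dist x y := by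
    rw [hS.eventually_all]
    intro x _
    rw [hS.eventually_all]
    intro y _
    by_cases hxy : x = y
    · exact Eventually.of_forall fun _ h => absurd hxy h
    · have hd : 0 < dist x y := dist_pos.2 hxy
      filter_upwards [Ioo_mem_nhdsGT (show (0 : ℝ) < dist x y / 2 by linarith)] with ρ hρ _
      linarith [hρ.2]
  have h2 : ∀ᶠ ρ in 𝓝[>] (0 : ℝ), ∀ x ∈ D.special, ∀ e ∈ G.edgeSet, x ∉ D.img e →
      ∀ w ∈ D.img e, ρ < dist w x := by
    rw [hS.eventually_all]
    intro x _
    rw [hE.eventually_all]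
    intro e he
    by_cases hx : x ∈ D.img e
    · exact Eventually.of_forall fun _ h => absurd hx h
    · have hcl : IsClosed (D.img e) := (D.isCompact_img he).isClosed
      have hmem : (D.img e)ᶜ ∈ 𝓝 x := hcl.isOpen_compl.mem_nhds hx
      obtain ⟨r, hr, hball⟩ := Metric.mem_nhds_iff.1 hmem
      filter_upwards [Ioo_mem_nhdsGT hr] with ρ hρ _ w hw
      by_contra hcon
      push Not at hcon
      exact hball (show w ∈ ball x r from lt_of_le_of_lt hcon hρ.2) hw
  obtain ⟨ρ, hρ, h3, h4⟩ := ((h1.and h2).and self_mem_nhdsWithin).exists.imp (fun ρ h =>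
    (⟨h.2, h.1.1, h.1.2⟩ : ρ ∈ Set.Ioi (0 : ℝ) ∧ _ ∧ _))
  exact ⟨ρ, hρ, h3, h4⟩

theorem TopDrawing.exists_delta {ρ : ℝ} (hρ : 0 < ρ) : ∃ δ : ℝ, 0 < δ ∧ δ < ρ ∧
    ∀ e ∈ G.edgeSet, ∀ f ∈ G.edgeSet, e ≠ f →
      Disjoint (thickening δ (D.core ρ e)) (thickening δ (D.core ρ f)) := by
  have hE : G.edgeSet.Finite := Set.toFinite _
  have h1 : ∀ᶠ δ in 𝓝[>] (0 : ℝ), ∀ e ∈ G.edgeSet, ∀ f ∈ G.edgeSet, e ≠ f →
      Disjoint (thickening δ (D.core ρ e)) (thickening δ (D.core ρ f)) := by
    rw [hE.eventually_all]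
    intro e he
    rw [hE.eventually_all]
    intro f hf
    by_cases hef : e = f
    · exact Eventually.of_forall fun _ h => absurd hef h
    · obtain ⟨δ, hδ, hd⟩ := (D.core_disjoint he hf hef hρ).exists_thickenings
        (D.isCompact_core he ρ) (D.isCompact_core hf ρ).isClosed
      filter_upwards [Ioo_mem_nhdsGT hδ] with δ' hδ' _
      exact hd.mono (thickening_mono hδ'.2.le _) (thickening_mono hδ'.2.le _)
  obtain ⟨δ, h2, h3⟩ := (h1.and (Ioo_mem_nhdsGT hρ)).exists
  exact ⟨δ, h3.1, h3.2, h2⟩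

omit [Finite V] in
/-- regions of different edges meet only in special points of both -/
theorem TopDrawing.region_inter {ρ δ : ℝ} (hρ : 0 < ρ) (hδρ : δ < ρ)
    (h1 : ∀ x ∈ D.special, ∀ y ∈ D.special, x ≠ y → 2 * ρ < dist x y)
    {e f : Sym2 V} (hd : Disjoint (thickening δ (D.core ρ e)) (thickening δ (D.core ρ f)))
    (hδ : 0 < δ) {z : ℝ × ℝ} (hz : z ∈ D.region ρ δ e) (hz' : z ∈ D.region ρ δ f) :
    z ∈ D.img e ∧ z ∈ D.img f := by
  -- mixed case
  have mixed : ∀ e f : Sym2 V, Disjoint (thickening δ (D.core ρ e)) (thickening δ (D.core ρ f)) →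
      z ∈ thickening δ (D.core ρ f) → z ∈ radial D.special (D.img e) (D.core ρ e) ρ → False := by
    intro e f hd hz hz'
    obtain ⟨x, hx, hxe, c, hc, hcx, hseg⟩ := hz'
    rw [mem_thickening_iff] at hz
    obtain ⟨c', hc', hzc'⟩ := hz
    have h3 := dist_radial hseg
    have h4 := hc'.2 x hx
    have h5 : dist c' x ≤ dist c' z + dist z x := dist_triangle _ _ _
    rw [dist_comm c' z] at h5
    have h6 : z ∈ thickening δ (D.core ρ e) := by
      rw [mem_thickening_iff]
      exact ⟨c, hc, by rw [dist_comm]; linarith⟩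
    exact Set.disjoint_left.1 hd h6 (by rw [mem_thickening_iff]; exact ⟨c', hc', hzc'⟩)
  rcases hz with hz | hz <;> rcases hz' with hz' | hz'
  · exact absurd hz' (Set.disjoint_left.1 hd hz)
  · exact (mixed f e hd.symm hz hz').elim
  · exact (mixed e f hd hz' hz).elim
  · obtain ⟨x, hx, hxe, c, hc, hcx, hseg⟩ := hz
    obtain ⟨y, hy, hyf, c', hc', hcy, hseg'⟩ := hz'
    have h3 := dist_radial hseg
    have h4 := dist_radial hseg'
    have hxy : x = y := by
      by_contra hne
      have h5 := h1 x hx y hy hne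
      have h6 := dist_triangle_left x y z
      have h7 : 0 ≤ dist c z := dist_nonneg
      have h8 : 0 ≤ dist c' z := dist_nonneg
      linarith
    subst hxy
    by_cases hzx : z = x
    · rw [hzx]; exact ⟨hxe, hyf⟩
    · have hcc := radial_same hρ hcx hcy hseg hseg' hzx
      subst hcc
      exact absurd (self_subset_thickening hδ _ hc') (Set.disjoint_left.1 hd
        (self_subset_thickening hδ _ hc))

omit [Finite V] in
/-- special points in a region -/
theorem TopDrawing.region_special {ρ δ : ℝ} (hδρ : δ < ρ)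
    (h1 : ∀ x ∈ D.special, ∀ y ∈ D.special, x ≠ y → 2 * ρ < dist x y)
    {e : Sym2 V} {z : ℝ × ℝ} (hz : z ∈ D.region ρ δ e) (hs : z ∈ D.special) (hρ : 0 < ρ) :
    z ∈ D.img e := by
  rcases hz with hz | hz
  · exfalso
    rw [mem_thickening_iff] at hz
    obtain ⟨c, hc, hzc⟩ := hz
    have := hc.2 z hs
    rw [dist_comm] at this
    linarith
  · obtain ⟨x, hx, hxe, c, hc, hcx, hseg⟩ := hz
    by_cases hzx : z = x
    · rw [hzx]; exact hxe
    · exfalso
      have h3 := dist_radial hseg
      have h5 := h1 z hs x hx hzx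
      have h7 : 0 ≤ dist c z := dist_nonneg
      linarith

include hfin in
/-- the region of an edge is polygonally connected -/
theorem TopDrawing.region_conn {ρ δ : ℝ} (hρ : 0 < ρ) (hδ : 0 < δ)
    (h1 : ∀ x ∈ D.special, ∀ y ∈ D.special, x ≠ y → 2 * ρ < dist x y)
    (h2 : ∀ x ∈ D.special, ∀ e ∈ G.edgeSet, x ∉ D.img e → ∀ w ∈ D.img e, ρ < dist w x)
    {e : Sym2 V} (he : e ∈ G.edgeSet) :
    Relation.ReflTransGen (Seg (D.region ρ δ e)) (D.arc e 0) (D.arc e 1) := by
  classical
  set K := D.region ρ δ e with hK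
  set φ : ℝ → ℝ × ℝ := fun t =>
    if h : ∃ x ∈ D.special, dist (D.arc e t) x < ρ then h.choose else D.arc e t with hφ
  have hφ1 : ∀ t, ∀ x ∈ D.special, dist (D.arc e t) x < ρ → φ t = x := by
    intro t x hx hd
    have hex : ∃ x ∈ D.special, dist (D.arc e t) x < ρ := ⟨x, hx, hd⟩
    simp only [hφ, dif_pos hex]
    obtain ⟨h3, h4⟩ := hex.choose_spec
    by_contra hne
    have h5 := h1 _ h3 x hx hne
    have h6 := dist_triangle_left hex.choose x (D.arc e t)
    linarith
  have hφ2 : ∀ t, (∀ x ∈ D.special, ρ ≤ dist (D.arc e t) x) → φ t = D.arc e t := by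
    intro t ht
    simp only [hφ]
    rw [dif_neg]
    push Not
    exact ht
  have hsymm : Std.Symm (Seg K) := ⟨fun a b h => Seg.symm h⟩
  have hconn : ∀ t ∈ Set.Icc (0 : ℝ) 1, ∀ t' ∈ Set.Icc (0 : ℝ) 1,
      Relation.ReflTransGen (Seg K) (φ t) (φ t') := by
    intro t ht t' ht'
    refine (isPreconnected_Icc).induction₂
      (fun a b => Relation.ReflTransGen (Seg K) (φ a) (φ b)) ?_ ?_ ?_ ht ht'
    · intro a ha
      have hcont : Tendsto (D.arc e) (𝓝[Set.Icc 0 1] a) (𝓝 (D.arc e a)) := D.arc_cont e he a ha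
      by_cases hx : ∃ x ∈ D.special, dist (D.arc e a) x < ρ
      · obtain ⟨x, hx, hd⟩ := hx
        have hopen : ∀ᶠ w in 𝓝 (D.arc e a), dist w x < ρ := by
          have : Tendsto (fun w => dist w x) (𝓝 (D.arc e a)) (𝓝 (dist (D.arc e a) x)) :=
            (continuous_id.dist continuous_const).tendsto _
          exact this.eventually_lt_const hd
        filter_upwards [hcont.eventually hopen] with b hb
        rw [hφ1 a x hx hd, hφ1 b x hx hb]
      · push Not at hx
        have hS := D.special_finite hfin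
        have hev1 : ∀ᶠ w in 𝓝 (D.arc e a), ∀ x ∈ D.special, ρ < dist (D.arc e a) x →
            ρ < dist w x := by
          rw [hS.eventually_all]
          intro x _
          by_cases hd : ρ < dist (D.arc e a) x
          · have : Tendsto (fun w => dist w x) (𝓝 (D.arc e a)) (𝓝 (dist (D.arc e a) x)) :=
              (continuous_id.dist continuous_const).tendsto _
            filter_upwards [this.eventually_const_lt hd] with w hw _
            exact hw
          · exact Eventually.of_forall fun _ h => absurd h hd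
        have hev2 : ∀ᶠ w in 𝓝 (D.arc e a), w ∈ ball (D.arc e a) δ := ball_mem_nhds _ hδ
        have hca : D.arc e a ∈ D.core ρ e := ⟨D.arc_mem_img ha, hx⟩
        filter_upwards [hcont.eventually hev1, hcont.eventually hev2, self_mem_nhdsWithin]
          with b hb1 hb2 hb
        rw [hφ2 a hx]
        by_cases hy : ∃ y ∈ D.special, dist (D.arc e b) y < ρ
        · obtain ⟨y, hy, hd⟩ := hy
          rw [hφ1 b y hy hd]
          apply Relation.ReflTransGen.single
          apply Seg.symm
          intro z hz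
          right
          refine ⟨y, hy, ?_, D.arc e a, hca, ?_, hz⟩
          · by_contra hcon
            have := h2 y hy e he hcon _ (D.arc_mem_img hb)
            linarith
          · refine le_antisymm ?_ (hx y hy)
            by_contra hcon
            push Not at hcon
            have := hb1 y hy hcon
            linarith
        · push Not at hy
          rw [hφ2 b hy]
          apply Relation.ReflTransGen.single
          intro z hz
          left
          have h3 : segment ℝ (D.arc e a) (D.arc e b) ⊆ ball (D.arc e a) δ :=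
            (convex_ball _ _).segment_subset (mem_ball_self hδ) hb2
          exact ball_subset_thickening hca δ (h3 hz)
    · intro a b c _ _ _ hab hbc
      exact hab.trans hbc
    · intro a b _ _ hab
      exact symm hab
  have h0 : φ 0 = D.arc e 0 := by
    apply hφ1 0 _ _ (by rw [dist_self]; exact hρ)
    obtain ⟨v, _, hv⟩ := D.end_zero he
    left; exact ⟨v, hv.symm⟩
  have h1' : φ 1 = D.arc e 1 := by
    apply hφ1 1 _ _ (by rw [dist_self]; exact hρ)
    obtain ⟨v, _, hv⟩ := D.end_one he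
    left; exact ⟨v, hv.symm⟩
  have := hconn 0 (by simp) 1 (by simp)
  rwa [h0, h1'] at this

include hfin in
/-- every drawing with finitely many crossings can be replaced by a polygonal one -/
theorem TopDrawing.exists_drawing :
    ∃ D' : Drawing G, D'.pt = D.pt ∧ D'.crossings ⊆ D.crossings := by
  classical
  obtain ⟨ρ, hρ, h1, h2⟩ := D.exists_rho hfin
  obtain ⟨δ, hδ, hδρ, hdis⟩ := D.exists_delta hρ
  have hex : ∀ e : Sym2 V, ∃ γ : ℝ → ℝ × ℝ, e ∈ G.edgeSet → (IsPolyArc γ ∧ γ 0 = D.arc e 0 ∧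
      γ 1 = D.arc e 1 ∧ ∀ t ∈ Set.Icc (0 : ℝ) 1, γ t ∈ D.region ρ δ e) := by
    intro e
    by_cases he : e ∈ G.edgeSet
    · have hne : D.arc e 0 ≠ D.arc e 1 := by
        intro h
        have := D.arc_inj e he (by simp) (by simp) h
        norm_num at this
      obtain ⟨γ, hγ⟩ := exists_polyArc hne (D.region_conn hfin hρ hδ h1 h2 he)
      exact ⟨γ, fun _ => hγ⟩
    · exact ⟨fun _ => 0, fun h => absurd h he⟩
  choose γ hγ using hex
  -- special points on the new arcs
  have hsp : ∀ e ∈ G.edgeSet, ∀ t ∈ Set.Ioo (0 : ℝ) 1, ∀ v, γ e t ≠ D.pt v := by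
    intro e he t ht v heq
    obtain ⟨hpoly, hγ0, hγ1, hreg⟩ := hγ e he
    have ht' : t ∈ Set.Icc (0 : ℝ) 1 := ⟨ht.1.le, ht.2.le⟩
    have hmem : D.pt v ∈ D.img e := by
      apply D.region_special hδρ h1 (heq ▸ hreg t ht') (Or.inl ⟨v, rfl⟩) hρ
    rcases D.img_cases he hmem with ⟨w, hw, hvw⟩ | ⟨s, hs, hs'⟩
    · have hvw' := D.pt_injective hvw
      subst hvw'
      have hends := D.arc_ends e he
      have hmap : D.pt v ∈ e.map D.pt := Sym2.mem_map.2 ⟨v, hw, rfl⟩
      rw [← hends, Sym2.mem_iff] at hmap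
      rcases hmap with h | h
      · rw [h, ← hγ0] at heq
        have := hpoly.1 ht' (by simp) heq
        exact absurd this ht.1.ne'
      · rw [h, ← hγ1] at heq
        have := hpoly.1 ht' (by simp) heq
        exact absurd this ht.2.ne
    · exact D.arc_avoid e he s hs v hs'
  refine ⟨{ pt := D.pt, pt_injective := D.pt_injective, arc := γ,
            arc_poly := fun e he => (hγ e he).1,
            arc_ends := fun e he => by rw [(hγ e he).2.1, (hγ e he).2.2.1]; exact D.arc_ends e he,
            arc_avoid := hsp }, rfl, ?_⟩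
  rintro ⟨z, c⟩ ⟨hdiag, hc⟩
  refine ⟨hdiag, ?_⟩
  induction c with
  | _ e f =>
  have hef : e ≠ f := by simpa using hdiag
  obtain ⟨he, t, ht, hte⟩ := hc e (by simp)
  obtain ⟨hf, t', ht', htf⟩ := hc f (by simp)
  simp only at hte htf
  have hze : z ∈ D.region ρ δ e := hte ▸ (hγ e he).2.2.2 t ⟨ht.1.le, ht.2.le⟩
  have hzf : z ∈ D.region ρ δ f := htf ▸ (hγ f hf).2.2.2 t' ⟨ht'.1.le, ht'.2.le⟩
  obtain ⟨h3, h4⟩ := D.region_inter hρ hδρ h1 (hdis e he f hf hef) hδ hze hzf
  have hnv : ∀ v, z ≠ D.pt v := fun v => by rw [← hte]; exact hsp e he t ht v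
  intro g hg
  simp only [Sym2.mem_iff] at hg
  rcases hg with rfl | rfl
  · refine ⟨he, ?_⟩
    rcases D.img_cases he h3 with ⟨w, _, hw⟩ | h
    · exact absurd hw (hnv w)
    · exact h
  · refine ⟨hf, ?_⟩
    rcases D.img_cases hf h4 with ⟨w, _, hw⟩ | h
    · exact absurd hw (hnv w)
    · exact h

end redraw

/-- The crossing number does not change if only polygonal arcs are allowed. -/
theorem cr_eq_crTop {V : Type} [Finite V] (G : SimpleGraph V) : cr G = crTop G := by
  apply le_antisymm _ (crTop_le_cr G)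
  refine le_iInf fun D => ?_
  by_cases hfin : D.crossings.Finite
  · obtain ⟨D', -, hD'⟩ := D.exists_drawing hfin
    exact iInf_le_of_le D' (Set.encard_le_encard hD')
  · have : D.crossings.encard = ⊤ := Set.encard_eq_top_iff.2 hfin
    rw [this]; exact le_top

theorem crTwo_eq_crTwoTop {V : Type} [Finite V] (G : SimpleGraph V) : crTwo G = crTwoTop G := by
  unfold crTwo crTwoTop
  simp only [cr_eq_crTop]

end Pool.Agent.Lib.MP_266831_co
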