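import Mathlib

/-!
# The tree of reduced words in `p` involutions (MP_266831_co)

`W p` is the free product of `p` groups of order two, realised as reduced lists (the head of the list
is the last letter). Its Cayley graph is the `p`-regular tree. Ends of the tree are direction fields
`f : W p → Fin p`.
-/

namespace Pool.Agent.Lib.MP_266831_co

/-- cross the wall `s` (right multiplication by the generator `s`) on lists. -/
def crossL {p : ℕ} (s : Fin p) : List (Fin p) → List (Fin p)
  | [] => [s]
  | t :: l => if t = s then l else s :: t :: l

/-- Reduced words in `p` involutions; the head of the list is the last letter. -/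
@[ext] structure W (p : ℕ) where
  /-- the letters -/
  val : List (Fin p)
  red : val.IsChain (· ≠ ·)
deriving DecidableEq

namespace W

variable {p : ℕ}

theorem crossL_nil (s : Fin p) : crossL s [] = [s] := rfl
theorem crossL_self (s : Fin p) (l : List (Fin p)) : crossL s (s :: l) = l := by simp [crossL]
theorem crossL_ne {s t : Fin p} (h : s ≠ t) (l : List (Fin p)) :
    crossL s (t :: l) = s :: t :: l := by simp [crossL, h.symm]

theorem crossL_of_red (s : Fin p) (l : List (Fin p)) (h : (s :: l).IsChain (· ≠ ·)) :
    crossL s l = s :: l := by
  cases l with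
  | nil => rfl
  | cons t l => exact crossL_ne (List.isChain_cons_cons.1 h).1 l

theorem chain_crossL (s : Fin p) (l : List (Fin p)) (h : l.IsChain (· ≠ ·)) :
    (crossL s l).IsChain (· ≠ ·) := by
  cases l with
  | nil => simp [crossL]
  | cons t l =>
    by_cases hts : s = t
    · subst hts; rw [crossL_self]; exact h.tail
    · rw [crossL_ne hts]
      exact List.isChain_cons_cons.2 ⟨hts, h⟩

theorem crossL_crossL (s : Fin p) (l : List (Fin p)) (h : l.IsChain (· ≠ ·)) :
    crossL s (crossL s l) = l := by
  cases l with
  | nil => simp [crossL]
  | cons t l =>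
    by_cases hts : s = t
    · subst hts
      rw [crossL_self, crossL_of_red s l h]
    · rw [crossL_ne hts, crossL_self]

/-- cross the wall `s` -/
def step (s : Fin p) (x : W p) : W p := ⟨crossL s x.val, chain_crossL s x.val x.red⟩

@[simp] theorem step_step (s : Fin p) (x : W p) : step s (step s x) = x :=
  W.ext (crossL_crossL s x.val x.red)

instance : One (W p) := ⟨⟨[], by simp⟩⟩

@[simp] theorem one_val : (1 : W p).val = [] := rfl

/-- multiply `g` on the right by the letters of the list (head last) -/
def ev (g : W p) (l : List (Fin p)) : W p := l.foldr step g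

@[simp] theorem ev_nil (g : W p) : ev g [] = g := rfl
@[simp] theorem ev_cons (g : W p) (s : Fin p) (l : List (Fin p)) :
    ev g (s :: l) = step s (ev g l) := rfl

theorem ev_crossL (g : W p) (s : Fin p) (l : List (Fin p)) :
    ev g (crossL s l) = step s (ev g l) := by
  cases l with
  | nil => rfl
  | cons t l =>
    by_cases h : s = t
    · subst h; rw [crossL_self, ev_cons, step_step]
    · rw [crossL_ne h]; rfl

instance : Mul (W p) := ⟨fun g x => ev g x.val⟩

theorem mul_def (g x : W p) : g * x = ev g x.val := rfl

@[simp] theorem mul_step (g x : W p) (s : Fin p) : g * step s x = step s (g * x) := by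
  simp only [mul_def, step]; exact ev_crossL g s x.val

theorem ev_mul (a b : W p) (l : List (Fin p)) : ev (a * b) l = a * ev b l := by
  induction l with
  | nil => rfl
  | cons s l ih => rw [ev_cons, ih, ev_cons, mul_step]

theorem ev_one (x : W p) : ev 1 x.val = x := by
  obtain ⟨l, hl⟩ := x
  induction l with
  | nil => rfl
  | cons s l ih =>
    have hl' : l.IsChain (· ≠ ·) := hl.tail
    have := ih hl'
    simp only at this
    simp only [ev_cons, this]
    apply W.ext
    exact crossL_of_red s l hl

/-- the generator `s` -/
def gen (s : Fin p) : W p := step s 1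

theorem gen_val (s : Fin p) : (gen s).val = [s] := rfl

/-- the inverse of the word -/
def invL : List (Fin p) → W p
  | [] => 1
  | s :: l => gen s * invL l

instance : Inv (W p) := ⟨fun x => invL x.val⟩

instance : Group (W p) :=
  Group.ofLeftAxioms
    (fun a b c => by
      show ev (a * b) c.val = a * ev b c.val
      exact ev_mul a b c.val)
    (fun a => ev_one a)
    (fun a => by
      show ev (invL a.val) a.val = 1
      obtain ⟨l, hl⟩ := a
      simp only
      clear hl
      induction l with
      | nil => rfl
      | cons s l ih =>
        rw [invL, ev_cons, ev_mul, ih]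
        show step s (ev (gen s) (1 : W p).val) = 1
        rw [one_val, ev_nil, gen, step_step])

theorem mul_gen (x : W p) (s : Fin p) : x * gen s = step s x := rfl

@[simp] theorem gen_mul_gen (s : Fin p) : gen s * gen s = 1 := by
  rw [mul_gen, gen, step_step]

@[simp] theorem mul_gen_gen (x : W p) (s : Fin p) : x * gen s * gen s = x := by
  rw [mul_assoc, gen_mul_gen, mul_one]

@[simp] theorem gen_inv (s : Fin p) : (gen s)⁻¹ = gen s := inv_eq_of_mul_eq_one_left (gen_mul_gen s)

/-- the value of `x * gen s` -/
theorem mul_gen_val (x : W p) (s : Fin p) : (x * gen s).val = crossL s x.val := rfl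

theorem mul_gen_of_red (l : List (Fin p)) (s : Fin p) (h : (s :: l).IsChain (· ≠ ·)) :
    (⟨l, h.tail⟩ : W p) * gen s = ⟨s :: l, h⟩ := by
  apply W.ext
  rw [mul_gen_val]
  exact crossL_of_red s l h

/-- parity of the word length -/
def par (x : W p) : ZMod 2 := (x.val.length : ZMod 2)

theorem zmod2_add_self (a : ZMod 2) : a + a = 0 := by
  revert a; decide

@[simp] theorem par_one : par (1 : W p) = 0 := by simp [par]

theorem par_mul_gen (x : W p) (s : Fin p) : par (x * gen s) = par x + 1 := by
  simp only [par, mul_gen_val]
  obtain ⟨l, hl⟩ := x
  simp only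
  cases l with
  | nil => simp [crossL]
  | cons t l =>
    by_cases h : s = t
    · subst h
      rw [crossL_self, List.length_cons, Nat.cast_add, Nat.cast_one, add_assoc, zmod2_add_self,
        add_zero]
    · rw [crossL_ne h]; simp

theorem gen_induction {P : W p → Prop} (h1 : P 1) (h2 : ∀ x s, P x → P (x * gen s)) (x : W p) :
    P x := by
  obtain ⟨l, hl⟩ := x
  induction l with
  | nil => exact h1
  | cons s l ih =>
    have := h2 _ s (ih hl.tail)
    rwa [mul_gen_of_red] at this

theorem par_mul (x y : W p) : par (x * y) = par x + par y := by
  induction y using gen_induction with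
  | h1 => simp
  | h2 y s ih => rw [← mul_assoc, par_mul_gen, ih, par_mul_gen, add_assoc]

theorem par_gen (s : Fin p) : par (gen s) = 1 := by simp [par, gen_val]

theorem par_inv (x : W p) : par x⁻¹ = par x := by
  have h : par x⁻¹ + par x = 0 := by rw [← par_mul]; simp
  have h2 := zmod2_add_self (par x)
  have : par x⁻¹ + par x = par x + par x := by rw [h, h2]
  exact add_right_cancel this

theorem gen_injective : Function.Injective (gen : Fin p → W p) := by
  intro s t h
  have : (gen s).val = (gen t).val := by rw [h]
  simpa [gen_val] using this

end W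

end Pool.Agent.Lib.MP_266831_co
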