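import Pool.Agent.Lib.MP_266831_co.UncMin
import Pool.Agent.Lib.MP_266831_co.Lower

/-!
# Uncrossing in the axis model, part 4: from and to `AxisModel` (MP_266831_co)
-/

set_option autoImplicit false

namespace Pool.Agent.Lib.MP_266831_co.Unc

open Pool.Agent.Lib.MP_266831_co

variable {ι : Type}

theorem mem_seg {α : Type} {F : ℕ → α} {a b : ℕ} {y : α} : y ∈ seg F a b ↔ ∃ k < b, F (a + k) = y := by
  unfold seg
  rw [Multiset.mem_map]
  simp only [Multiset.mem_range]

theorem mem_pts {A : AxisPath} {y : ℝ} : y ∈ pts A ↔ ∃ i, 1 ≤ i ∧ i ≤ A.n ∧ A.z i = y := by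
  unfold pts
  rw [mem_seg]
  constructor
  · rintro ⟨k, hk, h⟩
    exact ⟨1 + k, by omega, by omega, h⟩
  · rintro ⟨i, h1, h2, h⟩
    exact ⟨i - 1, by omega, by rw [show 1 + (i - 1) = i by omega]; exact h⟩

theorem nodup_pts {A : AxisPath} (h : ∀ i, 1 ≤ i → i ≤ A.n → ∀ j, 1 ≤ j → j ≤ A.n → A.z i = A.z j → i = j) :
    (pts A).Nodup := by
  unfold pts seg
  apply Multiset.Nodup.map_on _ (Multiset.nodup_range _)
  intro x hx y hy hxy
  rw [Multiset.mem_range] at hx hy
  have := h (1 + x) (by omega) (by omega) (1 + y) (by omega) (by omega) hxy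
  omega

theorem nodup_sum {E : Finset ι} {g : ι → Multiset ℝ} (h1 : ∀ e ∈ E, (g e).Nodup)
    (h2 : ∀ e ∈ E, ∀ f ∈ E, e ≠ f → Disjoint (g e) (g f)) : (∑ e ∈ E, g e).Nodup := by
  classical
  induction E using Finset.induction_on with
  | empty => rw [Finset.sum_empty]; exact Multiset.nodup_zero
  | insert a s ha ih =>
    rw [Finset.sum_insert ha, Multiset.nodup_add]
    refine ⟨h1 a (Finset.mem_insert_self _ _), ih (fun e he => h1 e (Finset.mem_insert_of_mem he))
      (fun e he f hf => h2 e (Finset.mem_insert_of_mem he) f (Finset.mem_insert_of_mem hf)), ?_⟩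
    rw [Multiset.disjoint_left]
    intro y hy hy'
    obtain ⟨f, hf, hyf⟩ := Multiset.mem_sum.1 hy'
    exact Multiset.disjoint_left.1 (h2 a (Finset.mem_insert_self _ _) f (Finset.mem_insert_of_mem hf)
      (fun h => ha (h ▸ hf))) hy hyf

namespace Good

variable {E : Finset ι} {src tgt : ι → ℝ} {V : Set ℝ} {A : ι → AxisPath}

theorem not_mem (h : Good E src tgt V A) {e : ι} (he : e ∈ E) {i : ℕ} (h1 : 1 ≤ i)
    (h2 : i ≤ (A e).n) : (A e).z i ∉ V := by
  apply h.avoid
  unfold allI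
  rw [Multiset.mem_sum]
  exact ⟨e, he, mem_pts.2 ⟨i, h1, h2, rfl⟩⟩

theorem inj_int (h : Good E src tgt V A) {e : ι} (he : e ∈ E) {i j : ℕ} (h1 : 1 ≤ i)
    (h2 : i ≤ (A e).n) (h3 : 1 ≤ j) (h4 : j ≤ (A e).n) (hz : (A e).z i = (A e).z j) : i = j := by
  classical
  have h5 : (pts (A e)).Nodup := by
    refine Multiset.nodup_of_le ?_ h.nodup
    unfold allI
    rw [← Finset.add_sum_erase _ _ he]
    exact le_add_of_nonneg_right (Multiset.zero_le _)
  unfold pts seg at h5
  have := Multiset.inj_on_of_nodup_map h5 (i - 1) (Multiset.mem_range.2 (by omega)) (j - 1)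
    (Multiset.mem_range.2 (by omega)) (by
      rw [show 1 + (i - 1) = i by omega, show 1 + (j - 1) = j by omega]; exact hz)
  omega

theorem ne_int (h : Good E src tgt V A) {e f : ι} (he : e ∈ E) (hf : f ∈ E) (hef : e ≠ f) {i j : ℕ}
    (h1 : 1 ≤ i) (h2 : i ≤ (A e).n) (h3 : 1 ≤ j) (h4 : j ≤ (A f).n) : (A e).z i ≠ (A f).z j := by
  classical
  intro hz
  have h5 : (pts (A e) + pts (A f)).Nodup := by
    refine Multiset.nodup_of_le ?_ h.nodup
    unfold allI
    rw [← Finset.add_sum_erase _ _ he,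
      ← Finset.add_sum_erase _ _ (Finset.mem_erase.2 ⟨hef.symm, hf⟩), ← add_assoc]
    exact le_add_of_nonneg_right (Multiset.zero_le _)
  have h6 := Multiset.disjoint_of_nodup_add h5
  exact Multiset.disjoint_left.1 h6 (mem_pts.2 ⟨i, h1, h2, rfl⟩) (mem_pts.2 ⟨j, h3, h4, hz.symm⟩)

theorem inj (h : Good E src tgt V A) (hsrc : ∀ e, src e ∈ V) (htgt : ∀ e, tgt e ∈ V)
    (hne : ∀ e, src e ≠ tgt e) {e : ι} (he : e ∈ E) {i j : ℕ} (h1 : i ≤ (A e).n + 1)
    (h2 : j ≤ (A e).n + 1) (hz : (A e).z i = (A e).z j) : i = j := by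
  have hV0 : (A e).z 0 ∈ V := by rw [h.first e he]; exact hsrc e
  have hV1 : (A e).z ((A e).n + 1) ∈ V := by rw [h.last e he]; exact htgt e
  have hc : ∀ k, k ≤ (A e).n + 1 → k = 0 ∨ (1 ≤ k ∧ k ≤ (A e).n) ∨ k = (A e).n + 1 := by
    intro k hk; omega
  have h01 : (A e).z 0 ≠ (A e).z ((A e).n + 1) := by
    rw [h.first e he, h.last e he]; exact hne e
  rcases hc i h1 with hi | ⟨hi, hi'⟩ | hi <;> rcases hc j h2 with hj | ⟨hj, hj'⟩ | hj
  · omega
  · rw [hi] at hz
    exact absurd (hz ▸ hV0) (h.not_mem he hj hj')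
  · rw [hi, hj] at hz
    exact absurd hz h01
  · rw [hj] at hz
    exact absurd (hz ▸ hV0) (h.not_mem he hi hi')
  · exact h.inj_int he hi hi' hj hj' hz
  · rw [hj] at hz
    exact absurd (hz ▸ hV1) (h.not_mem he hi hi')
  · rw [hi, hj] at hz
    exact absurd hz.symm h01
  · rw [hi] at hz
    exact absurd (hz ▸ hV1) (h.not_mem he hj hj')
  · omega

end Good

theorem mem_edg {p q : ℕ} {G : SimpleGraph (PQ p q)} {e : Fin q × Fin p} :
    e ∈ edg G ↔ G.Adj (Sum.inr e.1) (Sum.inl e.2) := by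
  classical
  unfold edg
  simp

/-- the family of paths (hub to pole) of an axis model -/
theorem good_of_model {p q : ℕ} {G : SimpleGraph (PQ p q)} (M : AxisModel G) :
    Good (edg G) (fun e => M.x (Sum.inr e.1)) (fun e => M.x (Sum.inl e.2)) (Set.range M.x)
      (fun e => M.A (Sum.inr e.1) (Sum.inl e.2)) := by
  have hE : ∀ e ∈ edg G, G.Adj (Sum.inr e.1) (Sum.inl e.2) := fun e he => mem_edg.1 he
  refine ⟨fun e he => M.z_zero _ _ (hE e he), fun e he => M.z_last _ _ (hE e he), ?_, ?_⟩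
  · unfold allI
    apply nodup_sum
    · intro e he
      apply nodup_pts
      intro i h1 h2 j h3 h4 hz
      exact M.z_inj _ _ (hE e he) i (Nat.le_succ_of_le h2) j (Nat.le_succ_of_le h4) hz
    · intro e he f hf hef
      rw [Multiset.disjoint_left]
      intro y hy hy'
      obtain ⟨i, h1, h2, h3⟩ := mem_pts.1 hy
      obtain ⟨j, h4, h5, h6⟩ := mem_pts.1 hy'
      refine M.z_ne_z _ _ _ _ (hE e he) (hE f hf) ?_ i h1 h2 j h4 h5 (h3.trans h6.symm)
      intro h
      rw [Sym2.eq_iff] at h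
      rcases h with ⟨h7, h8⟩ | ⟨h7, h8⟩
      · exact hef (Prod.ext (Sum.inr_injective h7) (Sum.inl_injective h8))
      · exact absurd h7 (by simp)
  · intro y hy hyV
    unfold allI at hy
    obtain ⟨e, he, hye⟩ := Multiset.mem_sum.1 hy
    obtain ⟨i, h1, h2, h3⟩ := mem_pts.1 hye
    obtain ⟨v, hv⟩ := hyV
    exact M.z_ne _ _ (hE e he) i h1 h2 v (h3.trans hv.symm)

/-- restriction to some of the poles -/
def restr {p q m : ℕ} (φ : Fin m ↪ Fin p) (G : SimpleGraph (PQ p q)) : SimpleGraph (PQ m q) :=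
  G.comap (Sum.map φ id)

theorem restr_le {p q m : ℕ} (φ : Fin m ↪ Fin p) {G : SimpleGraph (PQ p q)}
    (hG : G ≤ completeBipartiteGraph (Fin p) (Fin q)) :
    restr φ G ≤ completeBipartiteGraph (Fin m) (Fin q) := by
  intro a b hab
  have h1 : G.Adj (Sum.map φ id a) (Sum.map φ id b) := hab
  have h2 := hG h1
  rcases a with a | a <;> rcases b with b | b <;>
    simp [completeBipartiteGraph] at h2 ⊢

/-- the paths of the restricted model -/
def restrA {p q m : ℕ} (φ : Fin m ↪ Fin p) (x : PQ p q → ℝ) (A : Fin q × Fin p → AxisPath) :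
    PQ m q → PQ m q → AxisPath
  | Sum.inr i, Sum.inl v => A (i, φ v)
  | Sum.inl v, b => ⟨0, fun k => if k = 0 then x (Sum.inl (φ v)) else x (Sum.map φ id b), true⟩
  | Sum.inr i, Sum.inr j => ⟨0, fun k => if k = 0 then x (Sum.inr i) else x (Sum.inr j), true⟩

theorem exists_restr {p q m : ℕ} (φ : Fin m ↪ Fin p) {G : SimpleGraph (PQ p q)}
    (hG : G ≤ completeBipartiteGraph (Fin p) (Fin q)) {x : PQ p q → ℝ} (hx : Function.Injective x)
    {A : Fin q × Fin p → AxisPath}
    (h : Good (edg G) (fun e => x (Sum.inr e.1)) (fun e => x (Sum.inl e.2)) (Set.range x) A)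
    (h0 : ∀ e ∈ edg G, (A e).X (A e) = 0) :
    ∃ M : AxisModel (restr φ G), ∀ i v, M.A (Sum.inr i) (Sum.inl v) = A (i, φ v) := by
  have hφ : Function.Injective (Sum.map φ (id : Fin q → Fin q)) :=
    Sum.map_injective.2 ⟨φ.injective, Function.injective_id⟩
  -- an adjacent pair is (hub, pole) or (pole, hub)
  have hadj : ∀ a b, (restr φ G).Adj a b →
      (∃ i v, a = Sum.inr i ∧ b = Sum.inl v ∧ (i, φ v) ∈ edg G) ∨
      (∃ i v, a = Sum.inl v ∧ b = Sum.inr i) := by
    intro a b hab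
    have h2 := restr_le φ hG hab
    rcases a with a | a <;> rcases b with b | b
    · simp [completeBipartiteGraph] at h2
    · exact Or.inr ⟨b, a, rfl, rfl⟩
    · exact Or.inl ⟨a, b, rfl, rfl, mem_edg.2 hab⟩
    · simp [completeBipartiteGraph] at h2
  refine ⟨{ x := fun v => x (Sum.map φ id v)
            x_injective := hx.comp hφ
            A := restrA φ x A
            z_zero := ?_
            z_last := ?_
            z_inj := ?_
            z_ne := ?_
            z_ne_z := ?_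
            X_self := ?_ }, fun i v => rfl⟩
  · intro a b hab
    rcases hadj a b hab with ⟨i, v, rfl, rfl, he⟩ | ⟨i, v, rfl, rfl⟩
    · exact h.first _ he
    · rfl
  · intro a b hab
    rcases hadj a b hab with ⟨i, v, rfl, rfl, he⟩ | ⟨i, v, rfl, rfl⟩
    · exact h.last _ he
    · rfl
  · intro a b hab i' hi' j' hj' hz
    rcases hadj a b hab with ⟨i, v, rfl, rfl, he⟩ | ⟨i, v, rfl, rfl⟩
    · exact h.inj (fun e => ⟨_, rfl⟩) (fun e => ⟨_, rfl⟩)
        (fun e he' => by have := hx he'; simp at this) he hi' hj' hz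
    · have h1 : (restrA φ x A (Sum.inl v) (Sum.inr i)).n = 0 := rfl
      rw [h1] at hi' hj'
      have h2 : ∀ k, (restrA φ x A (Sum.inl v) (Sum.inr i)).z k =
        if k = 0 then x (Sum.inl (φ v)) else x (Sum.inr i) := fun k => rfl
      rw [h2, h2] at hz
      have h3 : x (Sum.inl (φ v)) ≠ x (Sum.inr i) := fun h4 => by
        have := hx h4; simp at this
      by_cases hi0 : i' = 0 <;> by_cases hj0 : j' = 0
      · omega
      · rw [if_pos hi0, if_neg hj0] at hz; exact absurd hz h3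
      · rw [if_neg hi0, if_pos hj0] at hz; exact absurd hz.symm h3
      · omega
  · intro a b hab i' h1 h2 w hw
    rcases hadj a b hab with ⟨i, v, rfl, rfl, he⟩ | ⟨i, v, rfl, rfl⟩
    · exact h.not_mem he h1 h2 ⟨_, hw.symm⟩
    · have h3 : (restrA φ x A (Sum.inl v) (Sum.inr i)).n = 0 := rfl
      omega
  · intro a b a' b' hab hab' hne i' h1 h2 j' h3 h4
    rcases hadj a b hab with ⟨i, v, rfl, rfl, he⟩ | ⟨i, v, rfl, rfl⟩
    · rcases hadj a' b' hab' with ⟨j, w, rfl, rfl, hf⟩ | ⟨j, w, rfl, rfl⟩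
      · refine h.ne_int he hf ?_ h1 h2 h3 h4
        intro hef
        rw [Prod.mk.injEq] at hef
        apply hne
        rw [hef.1, φ.injective hef.2]
      · have h5 : (restrA φ x A (Sum.inl w) (Sum.inr j)).n = 0 := rfl
        omega
    · have h5 : (restrA φ x A (Sum.inl v) (Sum.inr i)).n = 0 := rfl
      omega
  · intro a b hab
    rcases hadj a b hab with ⟨i, v, rfl, rfl, he⟩ | ⟨i, v, rfl, rfl⟩
    · exact h0 _ he
    · by_contra hne
      obtain ⟨i', hi', j', hj', hs, hI⟩ := exists_of_X_ne hne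
      have h5 : (restrA φ x A (Sum.inl v) (Sum.inr i)).n = 0 := rfl
      have hi0 : i' = 0 := by omega
      have hj0 : j' = 0 := by omega
      subst hi0
      subst hj0
      exact not_inter_self _ _ hI

end Pool.Agent.Lib.MP_266831_co.Unc
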