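import Pool.Agent.Lib.MP_266831_co.UncGood
import Pool.Agent.Lib.MP_266831_co.Final

/-!
# Uncrossing and averaging over the sets of `m` poles (MP_266831_co)
-/

set_option autoImplicit false

namespace Pool.Agent.Lib.MP_266831_co.Unc

open Pool.Agent.Lib.MP_266831_co

theorem sum_half {p q : ℕ} (Λ : Finset (Fin q × Fin p)) (f : Fin q × Fin p → Fin q × Fin p → ℕ)
    (hfs : ∀ x y, f x y = f y x) (hf0 : ∀ x ∈ Λ, f x x = 0) :
    ∑ x ∈ Λ, ∑ y ∈ Λ, f x y = 2 * ∑ x ∈ (Λ ×ˢ Λ).filter (fun x => toLex x.1 < toLex x.2), f x.1 x.2 := by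
  classical
  rw [← Finset.sum_product']
  set Tp : Finset ((Fin q × Fin p) × (Fin q × Fin p)) :=
    (Λ ×ˢ Λ).filter (fun x => toLex x.1 < toLex x.2) with hTp
  rw [← Finset.sum_filter_add_sum_filter_not (Λ ×ˢ Λ) (fun x => toLex x.1 < toLex x.2), two_mul]
  congr 1
  rw [← Finset.sum_filter_add_sum_filter_not ((Λ ×ˢ Λ).filter
    (fun x => ¬ toLex x.1 < toLex x.2)) (fun x => x.1 = x.2)]
  have hz : ∑ x ∈ ((Λ ×ˢ Λ).filter (fun x => ¬ toLex x.1 < toLex x.2)).filter
      (fun x => x.1 = x.2), f x.1 x.2 = 0 := by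
    apply Finset.sum_eq_zero
    intro x hx
    rw [Finset.mem_filter, Finset.mem_filter, Finset.mem_product] at hx
    rw [← hx.2]
    exact hf0 _ hx.1.1.1
  rw [hz, zero_add]
  symm
  apply Finset.sum_bij (fun x _ => (x.2, x.1))
  · intro x hx
    rw [hTp, Finset.mem_filter, Finset.mem_product] at hx
    rw [Finset.mem_filter, Finset.mem_filter, Finset.mem_product]
    refine ⟨⟨⟨hx.1.2, hx.1.1⟩, not_lt.2 hx.2.le⟩, ?_⟩
    intro h
    simp only at h
    rw [h] at hx
    exact lt_irrefl _ hx.2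
  · intro x _ y _ h
    rw [Prod.mk.injEq] at h
    exact Prod.ext h.2 h.1
  · intro x hx
    rw [Finset.mem_filter, Finset.mem_filter, Finset.mem_product] at hx
    refine ⟨(x.2, x.1), ?_, rfl⟩
    rw [hTp, Finset.mem_filter, Finset.mem_product]
    refine ⟨⟨hx.1.1.2, hx.1.1.1⟩, ?_⟩
    rcases lt_or_eq_of_le (not_lt.1 hx.1.2) with h | h
    · exact h
    · exact absurd (toLex.injective h).symm hx.2
  · intro x _
    exact hfs _ _

/-- the legs which end in `S` -/
noncomputable def edgS {p q : ℕ} (G : SimpleGraph (PQ p q)) (S : Finset (Fin p)) :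
    Finset (Fin q × Fin p) := (edg G).filter (fun e => e.2 ∈ S)

/-- one plane, `m` of the poles -/
theorem plane_sub {p q m : ℕ} (hcore : CoreBound m q) {G : SimpleGraph (PQ p q)}
    (hG : G ≤ completeBipartiteGraph (Fin p) (Fin q)) {x : PQ p q → ℝ} (hx : Function.Injective x)
    {A : Fin q × Fin p → AxisPath}
    (h : Good (edg G) (fun e => x (Sum.inr e.1)) (fun e => x (Sum.inl e.2)) (Set.range x) A)
    (h0 : ∀ e ∈ edg G, (A e).X (A e) = 0) (S : Finset (Fin p)) (hS : S.card = m) :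
    ∃ N : Fin (2 * (m - 2)) → ℕ, ∑ a, ((nb G a ∩ S).card - 2) ≤ ∑ τ, N τ ∧
      2 * ∑ τ, (N τ).choose 2 ≤ ∑ e ∈ edgS G S, ∑ f ∈ edgS G S, (A e).X (A f) := by
  classical
  set φ : Fin m ↪ Fin p := (S.orderEmbOfFin hS).toEmbedding with hφ
  have hφS : ∀ v, φ v ∈ S := fun v => Finset.orderEmbOfFin_mem S hS v
  have hSφ : ∀ w ∈ S, ∃ v, φ v = w := by
    intro w hw
    have : w ∈ Set.range (S.orderEmbOfFin hS) := by
      rw [Finset.range_orderEmbOfFin]; exact hw
    obtain ⟨v, hv⟩ := this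
    exact ⟨v, hv⟩
  obtain ⟨M, hM⟩ := exists_restr φ hG hx h h0
  obtain ⟨N, hN1, hN2⟩ := hcore (restr φ G) (restr_le φ hG) M
  refine ⟨N, ?_, ?_⟩
  · refine le_trans (Finset.sum_le_sum (fun a _ => ?_)) hN1
    apply Nat.sub_le_sub_right
    have h1 : nb G a ∩ S ⊆ (nb (restr φ G) a).map φ := by
      intro w hw
      rw [Finset.mem_inter] at hw
      obtain ⟨v, rfl⟩ := hSφ w hw.2
      rw [Finset.mem_map]
      refine ⟨v, ?_, rfl⟩
      have h2 := hw.1
      unfold nb at h2 ⊢
      rw [Finset.mem_filter] at h2 ⊢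
      exact ⟨Finset.mem_univ _, h2.2⟩
    exact (Finset.card_le_card h1).trans (by rw [Finset.card_map])
  · have h1 : ∑ x ∈ edg (restr φ G), ∑ y ∈ edg (restr φ G),
        (A (x.1, φ x.2)).X (A (y.1, φ y.2)) =
        2 * ∑ x ∈ edgPairs (restr φ G), (A (x.1.1, φ x.1.2)).X (A (x.2.1, φ x.2.2)) := by
      rw [sum_half (edg (restr φ G)) (fun x y => (A (x.1, φ x.2)).X (A (y.1, φ y.2)))
        (fun x y => X_comm _ _) ?_]
      · rfl
      · intro x hx
        have hx' := mem_edg.1 hx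
        exact h0 _ (mem_edg.2 hx')
    have h2 : (edg (restr φ G)).map ⟨Prod.map id φ, Function.injective_id.prodMap φ.injective⟩ =
        edgS G S := by
      ext e
      rw [Finset.mem_map]
      unfold edgS
      rw [Finset.mem_filter]
      constructor
      · rintro ⟨x, hx, rfl⟩
        have hx' := mem_edg.1 hx
        exact ⟨mem_edg.2 hx', hφS _⟩
      · rintro ⟨h3, h4⟩
        obtain ⟨v, hv⟩ := hSφ _ h4
        refine ⟨(e.1, v), ?_, ?_⟩
        · rw [mem_edg] at h3 ⊢
          show G.Adj (Sum.inr e.1) (Sum.inl (φ v))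
          rw [hv]; exact h3
        · exact Prod.ext rfl hv
    have h3 : ∑ e ∈ edgS G S, ∑ f ∈ edgS G S, (A e).X (A f) =
        ∑ x ∈ edg (restr φ G), ∑ y ∈ edg (restr φ G), (A (x.1, φ x.2)).X (A (y.1, φ y.2)) := by
      rw [← h2, Finset.sum_map]
      apply Finset.sum_congr rfl
      intro x _
      rw [Finset.sum_map]
      rfl
    rw [h3, h1]
    refine Nat.mul_le_mul_left 2 (hN2.trans (le_of_eq ?_))
    apply Finset.sum_congr rfl
    intro x _
    rw [hM, hM]

/-- one plane: the paths of a drawing, uncrossed -/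
theorem plane_paths {p q : ℕ} {G : SimpleGraph (PQ p q)} (D : Drawing G)
    (hD : D.crossings.Finite) :
    ∃ (x : PQ p q → ℝ) (A : Fin q × Fin p → AxisPath), Function.Injective x ∧
      Good (edg G) (fun e => x (Sum.inr e.1)) (fun e => x (Sum.inl e.2)) (Set.range x) A ∧
      (∀ e ∈ edg G, ∀ f ∈ edg G, e.2 = f.2 → (A e).X (A f) = 0) ∧
      ∑ e ∈ edg G, ∑ f ∈ edg G, (A e).X (A f) ≤ 2 * D.crossings.ncard := by
  classical
  obtain ⟨M, hM⟩ := exists_axisModel D hD
  obtain ⟨A, hA, hA1, hA2⟩ := uncross (good_of_model M)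
  refine ⟨M.x, A, M.x_injective, hA, ?_, ?_⟩
  · intro e he f hf hef
    exact hA2 e he f hf (by rw [hef])
  · rw [T2_eq, T2_eq] at hA1
    refine hA1.trans ?_
    rw [sum_half (edg G) (fun e f => (M.A (Sum.inr e.1) (Sum.inl e.2)).X
      (M.A (Sum.inr f.1) (Sum.inl f.2))) (fun x y => X_comm _ _)
      (fun x hx => M.X_self _ _ (mem_edg.1 hx))]
    apply Nat.mul_le_mul_left 2
    set φ : (Fin q × Fin p) × (Fin q × Fin p) → (PQ p q × PQ p q) × (PQ p q × PQ p q) :=
      fun x => ((Sum.inr x.1.1, Sum.inl x.1.2), (Sum.inr x.2.1, Sum.inl x.2.2)) with hφ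
    have hφi : Function.Injective φ := by
      rintro ⟨⟨a, b⟩, ⟨c, d⟩⟩ ⟨⟨a', b'⟩, ⟨c', d'⟩⟩ h
      simp only [hφ, Prod.mk.injEq, Sum.inr.injEq, Sum.inl.injEq] at h
      obtain ⟨⟨h1, h2⟩, h3, h4⟩ := h
      rw [h1, h2, h3, h4]
    have hT := hM (((edg G ×ˢ edg G).filter (fun x => toLex x.1 < toLex x.2)).map ⟨φ, hφi⟩) ?_ ?_
    · rw [Finset.sum_map] at hT
      exact hT
    · intro x hx
      obtain ⟨y, hy, rfl⟩ := Finset.mem_map.1 hx
      rw [Finset.mem_filter, Finset.mem_product, mem_edg, mem_edg] at hy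
      obtain ⟨⟨h1, h2⟩, h3⟩ := hy
      refine ⟨h1, h2, ?_⟩
      intro h
      have h' : s((Sum.inr y.1.1 : PQ p q), Sum.inl y.1.2) = s(Sum.inr y.2.1, Sum.inl y.2.2) := h
      rw [Sym2.eq_iff] at h'
      rcases h' with ⟨h4, h5⟩ | ⟨h4, h5⟩
      · have : y.1 = y.2 := Prod.ext (Sum.inr_injective h4) (Sum.inl_injective h5)
        rw [this] at h3
        exact lt_irrefl _ h3
      · exact absurd h4 (by simp)
    · intro x' hx' y' hy' hxy
      obtain ⟨x, hx, rfl⟩ := Finset.mem_map.1 hx'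
      obtain ⟨y, hy, rfl⟩ := Finset.mem_map.1 hy'
      simp only [Finset.mem_filter] at hx hy
      have hxy' : s(s((Sum.inr x.1.1 : PQ p q), Sum.inl x.1.2), s(Sum.inr x.2.1, Sum.inl x.2.2)) =
        s(s(Sum.inr y.1.1, Sum.inl y.1.2), s(Sum.inr y.2.1, Sum.inl y.2.2)) := hxy
      have key : ∀ u v : Fin q × Fin p, s((Sum.inr u.1 : PQ p q), Sum.inl u.2) =
          s(Sum.inr v.1, Sum.inl v.2) → u = v := by
        intro u v h
        rw [Sym2.eq_iff] at h
        rcases h with ⟨h4, h5⟩ | ⟨h4, h5⟩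
        · exact Prod.ext (Sum.inr_injective h4) (Sum.inl_injective h5)
        · exact absurd h4 (by simp)
      rw [Sym2.eq_iff] at hxy'
      rcases hxy' with ⟨h1, h2⟩ | ⟨h1, h2⟩
      · have e1 := key _ _ h1
        have e2 := key _ _ h2
        rw [show x = y from Prod.ext e1 e2]
      · have e1 := key _ _ h1
        have e2 := key _ _ h2
        have h3 := hx.2
        rw [e1, e2] at h3
        exact absurd hy.2 (not_lt.2 h3.le)

/-- the number of `m`-sets which contain two given elements -/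
theorem card_two {p m : ℕ} {v w : Fin p} (hvw : v ≠ w) :
    ((Finset.powersetCard m (Finset.univ : Finset (Fin p))).filter
      (fun S => v ∈ S ∧ w ∈ S)).card ≤ (p - 2).choose (m - 2) := by
  classical
  have h1 : (((Finset.univ : Finset (Fin p)).erase v).erase w).card = p - 2 := by
    rw [Finset.card_erase_of_mem (Finset.mem_erase.2 ⟨hvw.symm, Finset.mem_univ _⟩),
      Finset.card_erase_of_mem (Finset.mem_univ _), Finset.card_univ, Fintype.card_fin]
    omega
  rw [← h1, ← Finset.card_powersetCard]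
  apply Finset.card_le_card_of_injOn (fun S => (S.erase v).erase w)
  · intro S hS
    rw [Finset.mem_coe, Finset.mem_filter, Finset.mem_powersetCard] at hS
    rw [Finset.mem_coe, Finset.mem_powersetCard]
    refine ⟨?_, ?_⟩
    · exact Finset.erase_subset_erase _ (Finset.erase_subset_erase _ (Finset.subset_univ _))
    · rw [Finset.card_erase_of_mem (Finset.mem_erase.2 ⟨hvw.symm, hS.2.2⟩),
        Finset.card_erase_of_mem hS.2.1, hS.1.2]
      omega
  · intro S hS T hT hST
    rw [Finset.mem_coe, Finset.mem_filter] at hS hT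
    have h2 : ∀ U : Finset (Fin p), v ∈ U → w ∈ U → insert v (insert w ((U.erase v).erase w)) = U := by
      intro U hv hw
      rw [Finset.insert_erase (Finset.mem_erase.2 ⟨hvw.symm, hw⟩), Finset.insert_erase hv]
    have hST' : (S.erase v).erase w = (T.erase v).erase w := hST
    rw [← h2 S hS.2.1 hS.2.2, ← h2 T hT.2.1 hT.2.2, hST']

/-- the average over the `m`-sets of poles -/
theorem sum_sets {p q : ℕ} (m : ℕ) {G : SimpleGraph (PQ p q)} {A : Fin q × Fin p → AxisPath}
    (h0 : ∀ e ∈ edg G, ∀ f ∈ edg G, e.2 = f.2 → (A e).X (A f) = 0) :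
    ∑ S ∈ Finset.powersetCard m (Finset.univ : Finset (Fin p)),
      ∑ e ∈ edgS G S, ∑ f ∈ edgS G S, (A e).X (A f) ≤
      (p - 2).choose (m - 2) * ∑ e ∈ edg G, ∑ f ∈ edg G, (A e).X (A f) := by
  classical
  have h1 : ∀ S : Finset (Fin p), ∑ e ∈ edgS G S, ∑ f ∈ edgS G S, (A e).X (A f) =
      ∑ e ∈ edg G, ∑ f ∈ edg G, if e.2 ∈ S ∧ f.2 ∈ S then (A e).X (A f) else 0 := by
    intro S
    unfold edgS
    rw [Finset.sum_filter]
    apply Finset.sum_congr rfl
    intro e _
    by_cases he : e.2 ∈ S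
    · rw [if_pos he, Finset.sum_filter]
      apply Finset.sum_congr rfl
      intro f _
      simp only [he, true_and]
    · rw [if_neg he]
      symm
      apply Finset.sum_eq_zero
      intro f _
      rw [if_neg (fun h => he h.1)]
  simp only [h1]
  rw [Finset.sum_comm, Finset.mul_sum]
  apply Finset.sum_le_sum
  intro e he
  rw [Finset.sum_comm, Finset.mul_sum]
  apply Finset.sum_le_sum
  intro f hf
  by_cases hef : e.2 = f.2
  · rw [h0 e he f hf hef]
    simp
  · rw [← Finset.sum_filter, Finset.sum_const, smul_eq_mul]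
    exact Nat.mul_le_mul_right _ (card_two hef)

theorem choose_id (n k : ℕ) : (n + 2).choose (k + 2) * ((k + 2) * (k + 1)) =
    (n + 2) * (n + 1) * n.choose k := by
  have h1 := Nat.add_one_mul_choose_eq (n + 1) (k + 1)
  have h2 := Nat.add_one_mul_choose_eq n k
  calc (n + 2).choose (k + 2) * ((k + 2) * (k + 1))
      = ((n + 1 + 1).choose (k + 1 + 1) * (k + 1 + 1)) * (k + 1) := by ring
    _ = ((n + 1 + 1) * (n + 1).choose (k + 1)) * (k + 1) := by rw [h1]
    _ = (n + 2) * ((n + 1).choose (k + 1) * (k + 1)) := by ring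
    _ = (n + 2) * ((n + 1) * n.choose k) := by rw [h2]
    _ = _ := by ring

/-- The lower bound for `m` poles, averaged over all sets of `m` of the `p` poles. -/
theorem lower_avg {p q m : ℕ} (hm : 4 ≤ m) (hmp : m ≤ p) (k r : ℕ)
    (hkr : (4 * (m - 2)) * k + r ≤ (m - 4) * q) :
    ((p * (p - 1) * ((4 * (m - 2)) * k.choose 2 + r * k) : ℕ) : ℕ∞) ≤
      ((m * (m - 1) : ℕ) : ℕ∞) * crTwo (completeBipartiteGraph (Fin p) (Fin q)) := by
  classical
  have hmm : ((m * (m - 1) : ℕ) : ℕ∞) ≠ 0 := by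
    have : 0 < m * (m - 1) := Nat.mul_pos (by omega) (by omega)
    exact_mod_cast this.ne'
  have hcore : CoreBound m q := coreBound (by omega) q
  unfold crTwo
  rw [ENat.mul_iInf_of_ne hmm]
  refine le_iInf fun G₁ => ?_
  rw [ENat.mul_iInf_of_ne hmm]
  refine le_iInf fun G₂ => ?_
  rw [ENat.mul_iInf_of_ne hmm]
  refine le_iInf fun hdisj => ?_
  rw [ENat.mul_iInf_of_ne hmm]
  refine le_iInf fun hsup => ?_
  have hG1 : G₁ ≤ completeBipartiteGraph (Fin p) (Fin q) := by rw [← hsup]; exact le_sup_left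
  have hG2 : G₂ ≤ completeBipartiteGraph (Fin p) (Fin q) := by rw [← hsup]; exact le_sup_right
  unfold cr
  rw [ENat.iInf_add, ENat.mul_iInf_of_ne hmm]
  refine le_iInf fun D₁ => ?_
  rw [ENat.add_iInf, ENat.mul_iInf_of_ne hmm]
  refine le_iInf fun D₂ => ?_
  by_cases hf1 : D₁.crossings.Finite
  swap
  · rw [Set.encard_eq_top_iff.2 hf1, top_add, ENat.mul_top hmm]; exact le_top
  by_cases hf2 : D₂.crossings.Finite
  swap
  · rw [Set.encard_eq_top_iff.2 hf2, add_top, ENat.mul_top hmm]; exact le_top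
  rw [← hf1.cast_ncard_eq, ← hf2.cast_ncard_eq, ← Nat.cast_add, ← Nat.cast_mul]
  refine Nat.cast_le.2 ?_
  obtain ⟨x₁, A₁, hx1, hA1, h01, hc1⟩ := plane_paths D₁ hf1
  obtain ⟨x₂, A₂, hx2, hA2, h02, hc2⟩ := plane_paths D₂ hf2
  set LB := (4 * (m - 2)) * k.choose 2 + r * k with hLB
  -- every set of `m` poles
  have hS : ∀ S ∈ Finset.powersetCard m (Finset.univ : Finset (Fin p)),
      2 * LB ≤ ∑ e ∈ edgS G₁ S, ∑ f ∈ edgS G₁ S, (A₁ e).X (A₁ f) +
        ∑ e ∈ edgS G₂ S, ∑ f ∈ edgS G₂ S, (A₂ e).X (A₂ f) := by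
    intro S hSm
    have hcard := (Finset.mem_powersetCard.1 hSm).2
    obtain ⟨N₁, h1, h2⟩ := plane_sub hcore hG1 hx1 hA1 (fun e he => h01 e he e he rfl) S hcard
    obtain ⟨N₂, h3, h4⟩ := plane_sub hcore hG2 hx2 hA2 (fun e he => h02 e he e he rfl) S hcard
    refine le_trans ?_ (add_le_add h2 h4)
    rw [← mul_add]
    apply Nat.mul_le_mul_left 2
    have hcd : Fintype.card (Fin (2 * (m - 2)) ⊕ Fin (2 * (m - 2))) = 4 * (m - 2) := by
      rw [Fintype.card_sum, Fintype.card_fin]; ring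
    have key := sum_choose_ge (Sum.elim N₁ N₂) k r (by
      rw [hcd, Fintype.sum_sum_type]
      simp only [Sum.elim_inl, Sum.elim_inr]
      refine hkr.trans (le_trans ?_ (add_le_add h1 h3))
      rw [← Finset.sum_add_distrib]
      have h5 : ∀ a : Fin q, m - 4 ≤ ((nb G₁ a ∩ S).card - 2) + ((nb G₂ a ∩ S).card - 2) := by
        intro a
        have h6 : S ⊆ (nb G₁ a ∩ S) ∪ (nb G₂ a ∩ S) := by
          intro i hi
          have h7 : (G₁ ⊔ G₂).Adj (Sum.inr a) (Sum.inl i) := by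
            rw [hsup]; simp [completeBipartiteGraph]
          rw [SimpleGraph.sup_adj] at h7
          simpa [nb, hi] using h7
        have h8 := (Finset.card_le_card h6).trans (Finset.card_union_le _ _)
        omega
      calc (m - 4) * q = ∑ _a : Fin q, (m - 4) := by
            rw [Finset.sum_const, Finset.card_univ, Fintype.card_fin, smul_eq_mul, mul_comm]
        _ ≤ _ := Finset.sum_le_sum (fun a _ => h5 a))
    rw [hcd, Fintype.sum_sum_type] at key
    simpa using key
  -- sum over all sets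
  have hsum := Finset.sum_le_sum hS
  rw [Finset.sum_const, Finset.card_powersetCard, Finset.card_univ, Fintype.card_fin,
    smul_eq_mul, Finset.sum_add_distrib] at hsum
  have hs1 := sum_sets m h01
  have hs2 := sum_sets m h02
  set C := (p - 2).choose (m - 2) with hC
  have hCpos : 0 < C := Nat.choose_pos (by omega)
  have hid : p.choose m * (m * (m - 1)) = p * (p - 1) * C := by
    have := choose_id (p - 2) (m - 2)
    rw [show p - 2 + 2 = p by omega, show m - 2 + 2 = m by omega, show m - 2 + 1 = m - 1 by omega,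
      show p - 2 + 1 = p - 1 by omega] at this
    exact this
  have h9 : p.choose m * (2 * LB) ≤ C * (2 * D₁.crossings.ncard) + C * (2 * D₂.crossings.ncard) :=
    hsum.trans (add_le_add (hs1.trans (Nat.mul_le_mul_left _ hc1))
      (hs2.trans (Nat.mul_le_mul_left _ hc2)))
  have h10 : C * (2 * (p * (p - 1) * LB)) ≤
      C * (2 * (m * (m - 1) * (D₁.crossings.ncard + D₂.crossings.ncard))) := by
    calc C * (2 * (p * (p - 1) * LB)) = (p * (p - 1) * C) * (2 * LB) := by ring
      _ = (p.choose m * (m * (m - 1))) * (2 * LB) := by rw [hid]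
      _ = (m * (m - 1)) * (p.choose m * (2 * LB)) := by ring
      _ ≤ (m * (m - 1)) * (C * (2 * D₁.crossings.ncard) + C * (2 * D₂.crossings.ncard)) :=
          Nat.mul_le_mul_left _ h9
      _ = _ := by ring
  have h11 := Nat.le_of_mul_le_mul_left h10 hCpos
  omega

end Pool.Agent.Lib.MP_266831_co.Unc
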