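import Pool.Agent.Lib.MP_266831_co.UncSplice

/-!
# Uncrossing in the axis model, part 3: minimal families of paths (MP_266831_co)
-/

set_option autoImplicit false

namespace Pool.Agent.Lib.MP_266831_co.Unc

open Pool.Agent.Lib.MP_266831_co

variable {ι : Type}

/-- all pieces of a family of paths -/
def allP (E : Finset ι) (A : ι → AxisPath) : Multiset Piece := ∑ e ∈ E, pieces (A e)

/-- all interior points of a family of paths -/
def allI (E : Finset ι) (A : ι → AxisPath) : Multiset ℝ := ∑ e ∈ E, pts (A e)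

/-- a family of paths with given ends, the interior points of which are distinct and avoid `V` -/
structure Good (E : Finset ι) (src tgt : ι → ℝ) (V : Set ℝ) (A : ι → AxisPath) : Prop where
  first : ∀ e ∈ E, (A e).z 0 = src e
  last : ∀ e ∈ E, (A e).z ((A e).n + 1) = tgt e
  nodup : (allI E A).Nodup
  avoid : ∀ y ∈ allI E A, y ∉ V

/-- twice the number of crossings of a family of paths -/
noncomputable def T2 (E : Finset ι) (A : ι → AxisPath) : ℕ := cross (allP E A) (allP E A)

theorem cross_sum_left (E : Finset ι) (g : ι → Multiset Piece) (T : Multiset Piece) :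
    cross (∑ e ∈ E, g e) T = ∑ e ∈ E, cross (g e) T := by
  classical
  induction E using Finset.induction_on with
  | empty => rw [Finset.sum_empty, Finset.sum_empty, cross_zero_left]
  | insert a s ha ih => rw [Finset.sum_insert ha, Finset.sum_insert ha, cross_add_left, ih]

theorem T2_eq (E : Finset ι) (A : ι → AxisPath) : T2 E A = ∑ e ∈ E, ∑ f ∈ E, (A e).X (A f) := by
  unfold T2 allP
  rw [cross_sum_left]
  apply Finset.sum_congr rfl
  intro e _
  rw [cross_comm, cross_sum_left]
  apply Finset.sum_congr rfl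
  intro f _
  rw [X_eq, cross_comm]

theorem exists_min {E : Finset ι} {src tgt : ι → ℝ} {V : Set ℝ} {A₀ : ι → AxisPath}
    (h : Good E src tgt V A₀) : ∃ A, Good E src tgt V A ∧ T2 E A ≤ T2 E A₀ ∧
      ∀ B, Good E src tgt V B → T2 E A ≤ T2 E B := by
  classical
  have hex : ∃ t, ∃ A, Good E src tgt V A ∧ T2 E A = t := ⟨_, A₀, h, rfl⟩
  obtain ⟨A, hA, hA'⟩ := Nat.find_spec hex
  refine ⟨A, hA, ?_, ?_⟩
  · rw [hA']; exact Nat.find_min' hex ⟨A₀, h, rfl⟩
  · intro B hB
    rw [hA']; exact Nat.find_min' hex ⟨B, hB, rfl⟩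

variable [DecidableEq ι]

theorem sum_update_one {α : Type} {E : Finset ι} {e : ι} (he : e ∈ E) (F : AxisPath → Multiset α)
    (A : ι → AxisPath) (P : AxisPath) :
    ∑ x ∈ E, F (Function.update A e P x) = F P + ∑ x ∈ E.erase e, F (A x) := by
  rw [← Finset.add_sum_erase _ _ he, Function.update_self]
  congr 1
  apply Finset.sum_congr rfl
  intro x hx
  rw [Function.update_of_ne (Finset.ne_of_mem_erase hx)]

theorem self_lt {E : Finset ι} {src tgt : ι → ℝ} {V : Set ℝ} {A : ι → AxisPath}
    (h : Good E src tgt V A) {e : ι} (he : e ∈ E) {i j : ℕ} (hij : i < j) (hj : j ≤ (A e).n)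
    (hs : (A e).side i = (A e).side j)
    (hI : Inter ((A e).z i) ((A e).z (i + 1)) ((A e).z j) ((A e).z (j + 1))) :
    ∃ B, Good E src tgt V B ∧ T2 E B < T2 E A := by
  set P := A e with hP
  set B := Function.update A e (splice P i P j) with hB
  have hBe : B e = splice P i P j := Function.update_self _ _ _
  have hBne : ∀ x, x ≠ e → B x = A x := fun x hx => Function.update_of_ne hx _ _
  have hI1 : allI E A = (seg P.z 1 i + seg P.z (j + 1) (P.n - j)) + seg P.z (i + 1) (j - i) +
      ∑ x ∈ E.erase e, pts (A x) := by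
    unfold allI
    rw [← Finset.add_sum_erase _ _ he, ← hP, pts_split P (show i ≤ P.n by omega),
      show P.n - i = (j - i) + (P.n - j) by omega, seg_add,
      show i + 1 + (j - i) = j + 1 by omega]
    abel
  have hI2 : allI E B = (seg P.z 1 i + seg P.z (j + 1) (P.n - j)) +
      ∑ x ∈ E.erase e, pts (A x) := by
    unfold allI
    rw [hB, sum_update_one he, pts_splice]
  have hle : allI E B ≤ allI E A := by
    rw [hI1, hI2]
    exact add_le_add_left (le_add_of_nonneg_right (Multiset.zero_le _)) _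
  refine ⟨B, ⟨?_, ?_, ?_, ?_⟩, ?_⟩
  · intro x hx
    by_cases hxe : x = e
    · subst hxe; rw [hBe, splice_first, h.first _ hx]
    · rw [hBne x hxe, h.first x hx]
  · intro x hx
    by_cases hxe : x = e
    · subst hxe; rw [hBe, splice_last _ _ hj, h.last _ hx]
    · rw [hBne x hxe, h.last x hx]
  · exact Multiset.nodup_of_le hle h.nodup
  · exact fun y hy => h.avoid y (Multiset.mem_of_le hle hy)
  · have hP1 : allP E A = (seg (pc P) 0 i + seg (pc P) (i + 1) (j - i - 1) +
        seg (pc P) (j + 1) (P.n - j) + ∑ x ∈ E.erase e, pieces (A x)) +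
        ({(P.side i, P.z i, P.z (i + 1))} + {(P.side i, P.z j, P.z (j + 1))}) := by
      unfold allP
      rw [← Finset.add_sum_erase _ _ he, ← hP, pieces_split P (show i ≤ P.n by omega),
        show P.n - i = (j - i - 1) + (1 + (P.n - j)) by omega, seg_add, seg_add, seg_one,
        show i + 1 + (j - i - 1) = j by omega]
      have h1 : pc P i = (P.side i, P.z i, P.z (i + 1)) := rfl
      have h2 : pc P j = (P.side i, P.z j, P.z (j + 1)) := by rw [hs]; rfl
      rw [h1, h2]
      abel
    have hP2 : allP E B ≤ (seg (pc P) 0 i + seg (pc P) (i + 1) (j - i - 1) +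
        seg (pc P) (j + 1) (P.n - j) + ∑ x ∈ E.erase e, pieces (A x)) +
        ({(P.side i, P.z i, P.z (j + 1))} + {(P.side i, P.z j, P.z (i + 1))}) := by
      unfold allP
      rw [hB, sum_update_one he, pieces_splice P P hj hs]
      refine Multiset.le_iff_exists_add.2 ⟨seg (pc P) (i + 1) (j - i - 1) +
        {(P.side i, P.z j, P.z (i + 1))}, ?_⟩
      abel
    unfold T2
    rw [hP1]
    exact cross_lt _ _ _ hI hP2

theorem pair_lt {E : Finset ι} {src tgt : ι → ℝ} {V : Set ℝ} {A : ι → AxisPath}
    (h : Good E src tgt V A) {e f : ι} (he : e ∈ E) (hf : f ∈ E) (hef : e ≠ f)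
    (ht : tgt e = tgt f) {i j : ℕ} (hi : i ≤ (A e).n) (hj : j ≤ (A f).n)
    (hs : (A e).side i = (A f).side j)
    (hI : Inter ((A e).z i) ((A e).z (i + 1)) ((A f).z j) ((A f).z (j + 1))) :
    ∃ B, Good E src tgt V B ∧ T2 E B < T2 E A := by
  set P := A e with hP
  set Q := A f with hQ
  set B := Function.update (Function.update A e (splice P i Q j)) f (splice Q j P i) with hB
  have hBf : B f = splice Q j P i := Function.update_self _ _ _
  have hBe : B e = splice P i Q j := by
    rw [hB, Function.update_of_ne hef, Function.update_self]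
  have hBne : ∀ x, x ≠ e → x ≠ f → B x = A x := fun x hx hx' => by
    rw [hB, Function.update_of_ne hx', Function.update_of_ne hx]
  have hef' : f ∈ E.erase e := Finset.mem_erase.2 ⟨hef.symm, hf⟩
  have key : ∀ {α : Type} (F : AxisPath → Multiset α) (C : ι → AxisPath),
      ∑ x ∈ E, F (C x) = F (C e) + F (C f) + ∑ x ∈ (E.erase e).erase f, F (C x) := by
    intro α F C
    rw [← Finset.add_sum_erase _ _ he, ← Finset.add_sum_erase _ _ hef', add_assoc]
  have hrest : ∀ {α : Type} (F : AxisPath → Multiset α),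
      ∑ x ∈ (E.erase e).erase f, F (B x) = ∑ x ∈ (E.erase e).erase f, F (A x) := by
    intro α F
    apply Finset.sum_congr rfl
    intro x hx
    have h1 := Finset.ne_of_mem_erase hx
    have h2 := Finset.ne_of_mem_erase (Finset.mem_of_mem_erase hx)
    rw [hBne x h2 h1]
  have hIeq : allI E B = allI E A := by
    unfold allI
    rw [key pts A, key pts B, hrest, hBe, hBf, ← hP, ← hQ, pts_splice, pts_splice,
      pts_split P hi, pts_split Q hj]
    abel
  refine ⟨B, ⟨?_, ?_, ?_, ?_⟩, ?_⟩
  · intro x hx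
    by_cases hxe : x = e
    · subst hxe; rw [hBe, splice_first, h.first _ hx]
    · by_cases hxf : x = f
      · subst hxf; rw [hBf, splice_first, h.first _ hx]
      · rw [hBne x hxe hxf, h.first x hx]
  · intro x hx
    by_cases hxe : x = e
    · subst hxe; rw [hBe, splice_last _ _ hj, hQ, h.last _ hf, ht]
    · by_cases hxf : x = f
      · subst hxf; rw [hBf, splice_last _ _ hi, hP, h.last _ he, ht]
      · rw [hBne x hxe hxf, h.last x hx]
  · rw [hIeq]; exact h.nodup
  · rw [hIeq]; exact h.avoid
  · have hP1 : allP E A = (seg (pc P) 0 i + seg (pc P) (i + 1) (P.n - i) +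
        seg (pc Q) 0 j + seg (pc Q) (j + 1) (Q.n - j) +
        ∑ x ∈ (E.erase e).erase f, pieces (A x)) +
        ({(P.side i, P.z i, P.z (i + 1))} + {(P.side i, Q.z j, Q.z (j + 1))}) := by
      unfold allP
      rw [key pieces A, ← hP, ← hQ, pieces_split P hi, pieces_split Q hj]
      have h1 : pc P i = (P.side i, P.z i, P.z (i + 1)) := rfl
      have h2 : pc Q j = (P.side i, Q.z j, Q.z (j + 1)) := by rw [hs]; rfl
      rw [h1, h2]
      abel
    have hP2 : allP E B = (seg (pc P) 0 i + seg (pc P) (i + 1) (P.n - i) +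
        seg (pc Q) 0 j + seg (pc Q) (j + 1) (Q.n - j) +
        ∑ x ∈ (E.erase e).erase f, pieces (A x)) +
        ({(P.side i, P.z i, Q.z (j + 1))} + {(P.side i, Q.z j, P.z (i + 1))}) := by
      unfold allP
      rw [key pieces B, hrest, hBe, hBf, pieces_splice P Q hj hs, pieces_splice Q P hi hs.symm,
        ← hs]
      abel
    unfold T2
    rw [hP1]
    exact cross_lt _ _ _ hI hP2.le

theorem exists_of_X_ne {A B : AxisPath} (h : A.X B ≠ 0) : ∃ i ≤ A.n, ∃ j ≤ B.n,
    A.side i = B.side j ∧ Inter (A.z i) (A.z (i + 1)) (B.z j) (B.z (j + 1)) := by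
  classical
  unfold AxisPath.X at h
  obtain ⟨k, hk⟩ := Finset.card_ne_zero.1 h
  unfold AxisPath.pairs at hk
  rw [Finset.mem_filter, Finset.mem_product, Finset.mem_range, Finset.mem_range] at hk
  exact ⟨k.1, by omega, k.2, by omega, hk.2.1, hk.2.2⟩

/-- **Uncrossing.** A family of paths can be replaced by one with the same ends, with at most as many
crossings, in which no path crosses itself and no two paths with the same second end cross. -/
theorem uncross {E : Finset ι} {src tgt : ι → ℝ} {V : Set ℝ} {A₀ : ι → AxisPath}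
    (h : Good E src tgt V A₀) : ∃ A, Good E src tgt V A ∧ T2 E A ≤ T2 E A₀ ∧
      ∀ e ∈ E, ∀ f ∈ E, tgt e = tgt f → (A e).X (A f) = 0 := by
  obtain ⟨A, hA, hA1, hA2⟩ := exists_min h
  refine ⟨A, hA, hA1, ?_⟩
  intro e he f hf ht
  by_contra hne
  obtain ⟨i, hi, j, hj, hs, hI⟩ := exists_of_X_ne hne
  by_cases hef : e = f
  · subst hef
    rcases lt_trichotomy i j with hij | hij | hij
    · obtain ⟨B, hB, hB'⟩ := self_lt hA he hij hj hs hI
      exact absurd (hA2 B hB) (not_le.2 hB')
    · subst hij
      exact not_inter_self _ _ hI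
    · obtain ⟨B, hB, hB'⟩ := self_lt hA he hij hi hs.symm (inter_symm hI)
      exact absurd (hA2 B hB) (not_le.2 hB')
  · obtain ⟨B, hB, hB'⟩ := pair_lt hA he hf hef ht hi hj hs hI
    exact absurd (hA2 B hB) (not_le.2 hB')

end Pool.Agent.Lib.MP_266831_co.Unc
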