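import Pool.Agent.Lib.MP_266831_co.Core

/-!
# Uncrossing in the axis model, part 1: pieces and their crossings (MP_266831_co)
-/

set_option autoImplicit false

namespace Pool.Agent.Lib.MP_266831_co.Unc

open Pool.Agent.Lib.MP_266831_co

/-- a piece of a path: its side and its two ends on the axis -/
abbrev Piece : Type := Bool × ℝ × ℝ

/-- two pieces in the same half plane which interleave -/
def Cr (P Q : Piece) : Prop := P.1 = Q.1 ∧ Inter P.2.1 P.2.2 Q.2.1 Q.2.2

open Classical in
/-- indicator of `Cr` -/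
noncomputable def c (P Q : Piece) : ℕ := if Cr P Q then 1 else 0

theorem Cr_symm {P Q : Piece} (h : Cr P Q) : Cr Q P := ⟨h.1.symm, inter_symm h.2⟩

theorem c_comm (P Q : Piece) : c P Q = c Q P := by
  unfold c
  by_cases h : Cr P Q
  · rw [if_pos h, if_pos (Cr_symm h)]
  · rw [if_neg h, if_neg (fun h' => h (Cr_symm h'))]

theorem not_inter_self (a b : ℝ) : ¬ Inter a b a b := by
  unfold Inter
  rintro (⟨h, _, _⟩ | ⟨h, _, _⟩) <;> exact lt_irrefl _ h

theorem c_self (P : Piece) : c P P = 0 := by
  unfold c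
  rw [if_neg (fun h => not_inter_self _ _ h.2)]

theorem inter_iff (a b u v : ℝ) : Inter a b u v ↔
    ((min a b < u ∧ u < max a b) ∧ (v < min a b ∨ max a b < v)) ∨
    ((min a b < v ∧ v < max a b) ∧ (u < min a b ∨ max a b < u)) := by
  unfold Inter
  rcases le_total u v with h | h
  · rw [min_eq_left h, max_eq_right h]
    constructor
    · rintro (⟨h1, h2, h3⟩ | ⟨h1, h2, h3⟩)
      · exact Or.inl ⟨⟨h1, h2⟩, Or.inr h3⟩
      · exact Or.inr ⟨⟨h2, h3⟩, Or.inl h1⟩
    · rintro (⟨⟨h1, h2⟩, h3 | h3⟩ | ⟨⟨h1, h2⟩, h3 | h3⟩)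
      · exact absurd (h1.trans_le h) (not_lt.2 h3.le)
      · exact Or.inl ⟨h1, h2, h3⟩
      · exact Or.inr ⟨h3, h1, h2⟩
      · exact absurd (h.trans_lt h2) (not_lt.2 h3.le)
  · rw [min_eq_right h, max_eq_left h]
    constructor
    · rintro (⟨h1, h2, h3⟩ | ⟨h1, h2, h3⟩)
      · exact Or.inr ⟨⟨h1, h2⟩, Or.inr h3⟩
      · exact Or.inl ⟨⟨h2, h3⟩, Or.inl h1⟩
    · rintro (⟨⟨h1, h2⟩, h3 | h3⟩ | ⟨⟨h1, h2⟩, h3 | h3⟩)
      · exact Or.inr ⟨h3, h1, h2⟩
      · exact absurd (h.trans_lt h2) (not_lt.2 h3.le)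
      · exact absurd (h1.trans_le h) (not_lt.2 h3.le)
      · exact Or.inl ⟨h1, h2, h3⟩

theorem inter_swap_left (a b u v : ℝ) : Inter a b u v ↔ Inter b a u v := by
  unfold Inter; rw [min_comm a b, max_comm a b]

theorem inter_swap_right (a b u v : ℝ) : Inter a b u v ↔ Inter a b v u := by
  unfold Inter; rw [min_comm u v, max_comm u v]

theorem inter_comm (a b u v : ℝ) : Inter a b u v ↔ Inter u v a b :=
  ⟨inter_symm, inter_symm⟩

/-- the sorted form of the interleaving relation -/
theorem inter_sorted {a b u v : ℝ} (h1 : a < b) (h2 : b < u) (h3 : u < v) : Inter a u b v := by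
  left
  rw [min_eq_left (h1.trans h2).le, min_eq_left (h2.trans h3).le, max_eq_right (h1.trans h2).le,
    max_eq_right (h2.trans h3).le]
  exact ⟨h1, h2, h3⟩

theorem not_inter_nested {a b u v : ℝ} (h1 : a < b) (h2 : b < u) (h3 : u < v) : ¬ Inter a v b u := by
  unfold Inter
  rw [min_eq_left (h1.trans (h2.trans h3)).le, min_eq_left h2.le,
    max_eq_right (h1.trans (h2.trans h3)).le, max_eq_right h2.le]
  rintro (⟨_, _, h⟩ | ⟨h, _, _⟩)
  · exact lt_asymm h h3
  · exact lt_asymm h h1

theorem not_inter_disjoint {a b u v : ℝ} (h1 : a < b) (h2 : b < u) (h3 : u < v) : ¬ Inter a b u v := by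
  unfold Inter
  rw [min_eq_left h1.le, min_eq_left h3.le, max_eq_right h1.le, max_eq_right h3.le]
  rintro (⟨_, h, _⟩ | ⟨h, _, _⟩)
  · exact lt_asymm h h2
  · exact lt_asymm h (h1.trans h2)

theorem inter_lt {a b u v : ℝ} (h1 : a < b) (h2 : u < v) : Inter a b u v ↔
    ((a < u ∧ u < b ∧ b < v) ∨ (u < a ∧ a < v ∧ v < b)) := by
  unfold Inter
  rw [min_eq_left h1.le, min_eq_left h2.le, max_eq_right h1.le, max_eq_right h2.le]

open Classical in
/-- the indicator of interleaving -/
noncomputable def ind (a b u v : ℝ) : ℕ := if Inter a b u v then 1 else 0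

theorem ind_swap_left (a b u v : ℝ) : ind a b u v = ind b a u v := by
  unfold ind Inter; rw [min_comm a b, max_comm a b]

theorem ind_swap_right (a b u v : ℝ) : ind a b u v = ind a b v u := by
  unfold ind Inter; rw [min_comm u v, max_comm u v]

theorem not_inter_self_right (a b u : ℝ) : ¬ Inter a b u u := by
  unfold Inter
  rw [min_self, max_self]
  rintro (⟨_, h2, h3⟩ | ⟨h1, h2, h3⟩)
  · exact lt_asymm h2 h3
  · exact lt_irrefl _ (h1.trans h2)

theorem ind_self_right (a b u : ℝ) : ind a b u u = 0 := by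
  unfold ind
  rw [if_neg (not_inter_self_right a b u)]

theorem ind_sortedA {w x y z : ℝ} (h1 : w < x) (h2 : x < y) (h3 : y < z) (u v : ℝ) (h : u < v) :
    ind w x u v + ind y z u v ≤ ind w y u v + ind x z u v := by
  unfold ind
  simp only [inter_lt h1 h, inter_lt h3 h, inter_lt (h1.trans h2) h, inter_lt (h2.trans h3) h]
  split_ifs <;> first | omega | grind

theorem ind_sortedB {w x y z : ℝ} (h1 : w < x) (h2 : x < y) (h3 : y < z) (u v : ℝ) (h : u < v) :
    ind w z u v + ind x y u v ≤ ind w y u v + ind x z u v := by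
  unfold ind
  simp only [inter_lt h2 h, inter_lt (h1.trans (h2.trans h3)) h, inter_lt (h1.trans h2) h,
    inter_lt (h2.trans h3) h]
  split_ifs <;> first | omega | grind

theorem ind_A {w x y z : ℝ} (h1 : w < x) (h2 : x < y) (h3 : y < z) (u v : ℝ) :
    ind w x u v + ind y z u v ≤ ind w y u v + ind x z u v := by
  rcases lt_trichotomy u v with h | h | h
  · exact ind_sortedA h1 h2 h3 u v h
  · subst h; simp only [ind_self_right]; omega
  · rw [ind_swap_right w x, ind_swap_right y z, ind_swap_right w y, ind_swap_right x z]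
    exact ind_sortedA h1 h2 h3 v u h

theorem ind_B {w x y z : ℝ} (h1 : w < x) (h2 : x < y) (h3 : y < z) (u v : ℝ) :
    ind w z u v + ind x y u v ≤ ind w y u v + ind x z u v := by
  rcases lt_trichotomy u v with h | h | h
  · exact ind_sortedB h1 h2 h3 u v h
  · subst h; simp only [ind_self_right]; omega
  · rw [ind_swap_right w z, ind_swap_right x y, ind_swap_right w y, ind_swap_right x z]
    exact ind_sortedB h1 h2 h3 v u h

/-- uncrossing: the two new pieces are crossed at most as often as the two old ones -/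
theorem ind_swap {a1 a2 b1 b2 : ℝ} (h : Inter a1 a2 b1 b2) (u v : ℝ) :
    ind a1 b2 u v + ind b1 a2 u v ≤ ind a1 a2 u v + ind b1 b2 u v := by
  have hA : a1 ≠ a2 := fun h' => not_inter_self_right b1 b2 a2 (inter_symm (h' ▸ h))
  have hB : b1 ≠ b2 := fun h' => not_inter_self_right a1 a2 b2 (h' ▸ h)
  rcases lt_or_gt_of_ne hA with ha | ha <;> rcases lt_or_gt_of_ne hB with hb | hb
  · rcases (inter_lt ha hb).1 h with ⟨h1, h2, h3⟩ | ⟨h1, h2, h3⟩
    · exact ind_B h1 h2 h3 u v
    · have := ind_B h1 h2 h3 u v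
      omega
  · rcases (inter_lt ha hb).1 ((inter_swap_right _ _ _ _).1 h) with ⟨h1, h2, h3⟩ | ⟨h1, h2, h3⟩
    · have := ind_A h1 h2 h3 u v
      rw [ind_swap_left b1 a2, ind_swap_left b1 b2]
      omega
    · have := ind_A h1 h2 h3 u v
      rw [ind_swap_left a1 b2, ind_swap_left b1 b2]
      omega
  · rcases (inter_lt ha hb).1 ((inter_swap_left _ _ _ _).1 h) with ⟨h1, h2, h3⟩ | ⟨h1, h2, h3⟩
    · have := ind_A h1 h2 h3 u v
      rw [ind_swap_left b1 a2, ind_swap_left a1 a2]
      omega
    · have := ind_A h1 h2 h3 u v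
      rw [ind_swap_left a1 b2, ind_swap_left a1 a2]
      omega
  · rcases (inter_lt ha hb).1 ((inter_swap_left _ _ _ _).1 ((inter_swap_right _ _ _ _).1 h)) with
      ⟨h1, h2, h3⟩ | ⟨h1, h2, h3⟩
    · have := ind_B h1 h2 h3 u v
      rw [ind_swap_left b1 a2, ind_swap_left a1 b2, ind_swap_left a1 a2, ind_swap_left b1 b2]
      omega
    · have := ind_B h1 h2 h3 u v
      rw [ind_swap_left b1 a2, ind_swap_left a1 b2, ind_swap_left a1 a2, ind_swap_left b1 b2]
      omega

theorem c_eq (s : Bool) (a b : ℝ) (Q : Piece) :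
    c (s, a, b) Q = if s = Q.1 then ind a b Q.2.1 Q.2.2 else 0 := by
  unfold c Cr ind
  by_cases hs : s = Q.1
  · by_cases hI : Inter a b Q.2.1 Q.2.2
    · rw [if_pos ⟨hs, hI⟩, if_pos hs, if_pos hI]
    · rw [if_neg (fun h => hI h.2), if_pos hs, if_neg hI]
  · rw [if_neg (fun h => hs h.1), if_neg hs]

theorem c_swap (s : Bool) {a1 a2 b1 b2 : ℝ} (h : Inter a1 a2 b1 b2) (Q : Piece) :
    c (s, a1, b2) Q + c (s, b1, a2) Q ≤ c (s, a1, a2) Q + c (s, b1, b2) Q := by
  simp only [c_eq]
  by_cases hs : s = Q.1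
  · simp only [if_pos hs]
    exact ind_swap h _ _
  · simp only [if_neg hs]
    exact le_rfl

/-- the number of crossings between two multisets of pieces -/
noncomputable def cross (S T : Multiset Piece) : ℕ := (S.map (fun P => (T.map (c P)).sum)).sum

theorem cross_zero_left (T : Multiset Piece) : cross 0 T = 0 := by simp [cross]

theorem cross_add_left (S S' T : Multiset Piece) : cross (S + S') T = cross S T + cross S' T := by
  simp [cross]

theorem cross_add_right (S T T' : Multiset Piece) : cross S (T + T') = cross S T + cross S T' := by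
  simp [cross]

theorem cross_zero_right (S : Multiset Piece) : cross S 0 = 0 := by simp [cross]

theorem cross_single (P Q : Piece) : cross {P} {Q} = c P Q := by simp [cross]

theorem cross_single_left (P : Piece) (T : Multiset Piece) : cross {P} T = (T.map (c P)).sum := by
  simp [cross]

theorem cross_single_right (P : Piece) (S : Multiset Piece) :
    cross S {P} = (S.map (c P)).sum := by
  unfold cross
  congr 1
  apply Multiset.map_congr rfl
  intro Q _
  rw [Multiset.map_singleton, Multiset.sum_singleton, c_comm]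

theorem cross_comm (S T : Multiset Piece) : cross S T = cross T S := by
  induction S using Multiset.induction_on with
  | empty => rw [cross_zero_left, cross_zero_right]
  | cons P S ih =>
    rw [← Multiset.singleton_add, cross_add_left, cross_add_right, ih, cross_single_left,
      cross_single_right]

theorem cross_mono {S S' T T' : Multiset Piece} (h : S ≤ S') (h' : T ≤ T') :
    cross S T ≤ cross S' T' := by
  obtain ⟨U, rfl⟩ := Multiset.le_iff_exists_add.1 h
  obtain ⟨V, rfl⟩ := Multiset.le_iff_exists_add.1 h'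
  rw [cross_add_left, cross_add_right, cross_add_right]
  omega

theorem not_inter_share {a b v : ℝ} : ¬ Inter a v b v := by
  unfold Inter
  grind

theorem c_share {s : Bool} {a b v : ℝ} : c (s, a, v) (s, b, v) = 0 := by
  unfold c
  rw [if_neg (fun h => not_inter_share h.2)]

theorem c_share' {s : Bool} {a b v : ℝ} : c (s, v, a) (s, v, b) = 0 := by
  unfold c
  rw [if_neg]
  intro h
  exact not_inter_share ((inter_swap_left _ _ _ _).1 ((inter_swap_right _ _ _ _).1 h.2))

/-- **Uncrossing** strictly lowers the total number of crossings. -/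
theorem cross_lt (R S : Multiset Piece) (s : Bool) {a1 a2 b1 b2 : ℝ} (h : Inter a1 a2 b1 b2)
    (hS : S ≤ R + ({(s, a1, b2)} + {(s, b1, a2)})) :
    cross S S < cross (R + ({(s, a1, a2)} + {(s, b1, b2)})) (R + ({(s, a1, a2)} + {(s, b1, b2)})) := by
  refine (cross_mono hS hS).trans_lt ?_
  have hR : cross R {(s, a1, b2)} + cross R {(s, b1, a2)} ≤
      cross R {(s, a1, a2)} + cross R {(s, b1, b2)} := by
    simp only [cross_single_right]
    rw [← Multiset.sum_map_add, ← Multiset.sum_map_add]
    exact Multiset.sum_map_le_sum_map _ _ (fun Q _ => c_swap s h Q)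
  have h1 : c (s, a1, a2) (s, b1, b2) = 1 := by
    unfold c; rw [if_pos ⟨rfl, h⟩]
  have h2 : c (s, a1, b2) (s, b1, a2) = 0 := by
    have := c_swap s h (s, b1, a2)
    rw [c_self, c_share, c_share'] at this
    omega
  have e : ∀ P Q : Piece, cross (R + ({P} + {Q})) (R + ({P} + {Q})) =
      cross R R + 2 * (cross R {P} + cross R {Q}) + 2 * c P Q := by
    intro P Q
    simp only [cross_add_left, cross_add_right, cross_comm {P} R, cross_comm {Q} R]
    simp only [cross_single, c_self, c_comm Q P]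
    ring
  rw [e, e, h1, h2]
  omega

end Pool.Agent.Lib.MP_266831_co.Unc
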