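import Pool.Agent.Lib.MP_266831_co.UncPiece

/-!
# Uncrossing in the axis model, part 2: splicing paths (MP_266831_co)
-/

set_option autoImplicit false

namespace Pool.Agent.Lib.MP_266831_co.Unc

open Pool.Agent.Lib.MP_266831_co

/-- the values `F a, ..., F (a + b - 1)` -/
def seg {α : Type} (F : ℕ → α) (a b : ℕ) : Multiset α := (Multiset.range b).map (fun k => F (a + k))

theorem seg_add {α : Type} (F : ℕ → α) (a b c : ℕ) : seg F a (b + c) = seg F a b + seg F (a + b) c := by
  unfold seg
  rw [Multiset.range_add, Multiset.map_add, Multiset.map_map]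
  congr 1
  apply Multiset.map_congr rfl
  intro k _
  simp only [Function.comp_apply, add_assoc]

theorem seg_one {α : Type} (F : ℕ → α) (a : ℕ) : seg F a 1 = {F a} := by
  unfold seg
  simp

theorem seg_congr {α : Type} {F G : ℕ → α} {a a' b : ℕ} (h : ∀ k < b, F (a + k) = G (a' + k)) :
    seg F a b = seg G a' b := by
  unfold seg
  apply Multiset.map_congr rfl
  intro k hk
  exact h k (Multiset.mem_range.1 hk)

/-- the piece `k` of a path -/
def pc (A : AxisPath) (k : ℕ) : Piece := (A.side k, A.z k, A.z (k + 1))

/-- all pieces of a path -/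
def pieces (A : AxisPath) : Multiset Piece := seg (pc A) 0 (A.n + 1)

/-- the interior points of a path on the axis -/
def pts (A : AxisPath) : Multiset ℝ := seg A.z 1 A.n

theorem X_eq (A B : AxisPath) : A.X B = cross (pieces A) (pieces B) := by
  classical
  unfold AxisPath.X AxisPath.pairs cross pieces seg
  rw [Finset.card_filter, Finset.sum_product, Multiset.map_map]
  apply Finset.sum_congr rfl
  intro i _
  simp only [Function.comp_apply, Multiset.map_map]
  apply Finset.sum_congr rfl
  intro j _
  unfold c Cr pc
  simp only [zero_add]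

/-- follow `A` up to the beginning of its piece `i`, go to the end of the piece `j` of `B`, follow `B` -/
def splice (A : AxisPath) (i : ℕ) (B : AxisPath) (j : ℕ) : AxisPath where
  n := i + (B.n - j)
  z := fun k => if k ≤ i then A.z k else B.z (k - i + j)
  up := A.up

theorem splice_z_le (A B : AxisPath) {i j k : ℕ} (h : k ≤ i) : (splice A i B j).z k = A.z k := by
  unfold splice; simp [h]

theorem splice_z_gt (A B : AxisPath) {i j k : ℕ} (h : i < k) :
    (splice A i B j).z k = B.z (k - i + j) := by
  unfold splice; simp [not_le.2 h]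

theorem splice_side_le (A B : AxisPath) {i j k : ℕ} : (splice A i B j).side k = A.side k := rfl

theorem splice_side_gt (A B : AxisPath) {i j : ℕ} (hs : A.side i = B.side j) (m : ℕ) :
    (splice A i B j).side (i + m) = B.side (j + m) := by
  unfold AxisPath.side at *
  unfold splice
  simp only [Nat.bodd_add]
  revert hs
  cases A.up <;> cases B.up <;> cases i.bodd <;> cases j.bodd <;> cases m.bodd <;> simp

theorem pieces_splice (A B : AxisPath) {i j : ℕ} (hj : j ≤ B.n) (hs : A.side i = B.side j) :
    pieces (splice A i B j) = seg (pc A) 0 i + {(A.side i, A.z i, B.z (j + 1))} +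
      seg (pc B) (j + 1) (B.n - j) := by
  unfold pieces
  have h1 : (splice A i B j).n + 1 = i + 1 + (B.n - j) := by
    show i + (B.n - j) + 1 = _
    omega
  rw [h1, seg_add, seg_add, seg_one]
  congr 1
  · congr 1
    · apply seg_congr
      intro k hk
      unfold pc
      rw [splice_side_le, splice_z_le A B (by omega), splice_z_le A B (by omega)]
    · unfold pc
      rw [splice_side_le, splice_z_le A B (by omega), splice_z_gt A B (by omega)]
      rw [zero_add, show i + 1 - i + j = j + 1 by omega]
  · apply seg_congr
    intro k hk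
    unfold pc
    rw [splice_z_gt A B (by omega), splice_z_gt A B (by omega),
      show 0 + (i + 1) + k = i + (1 + k) by omega, splice_side_gt A B hs,
      show j + (1 + k) = j + 1 + k by omega, show i + (1 + k) - i + j = j + 1 + k by omega,
      show i + (1 + k) + 1 - i + j = j + 1 + k + 1 by omega]

theorem pieces_split (A : AxisPath) {i : ℕ} (hi : i ≤ A.n) :
    pieces A = seg (pc A) 0 i + {pc A i} + seg (pc A) (i + 1) (A.n - i) := by
  unfold pieces
  rw [show A.n + 1 = i + 1 + (A.n - i) by omega, seg_add, seg_add, seg_one, zero_add, zero_add]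

theorem pts_splice (A B : AxisPath) (i j : ℕ) :
    pts (splice A i B j) = seg A.z 1 i + seg B.z (j + 1) (B.n - j) := by
  unfold pts
  have h1 : (splice A i B j).n = i + (B.n - j) := rfl
  rw [h1, seg_add]
  congr 1
  · apply seg_congr
    intro k hk
    rw [splice_z_le A B (by omega)]
  · apply seg_congr
    intro k hk
    rw [splice_z_gt A B (by omega), show 1 + i + k - i + j = j + 1 + k by omega]

theorem pts_split (A : AxisPath) {i : ℕ} (hi : i ≤ A.n) :
    pts A = seg A.z 1 i + seg A.z (i + 1) (A.n - i) := by
  unfold pts
  nth_rewrite 1 [show A.n = i + (A.n - i) by omega]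
  rw [seg_add, add_comm 1 i]

theorem splice_first (A B : AxisPath) (i j : ℕ) : (splice A i B j).z 0 = A.z 0 :=
  splice_z_le A B (Nat.zero_le _)

theorem splice_last (A B : AxisPath) {i j : ℕ} (hj : j ≤ B.n) :
    (splice A i B j).z ((splice A i B j).n + 1) = B.z (B.n + 1) := by
  have h1 : (splice A i B j).n + 1 = i + (B.n - j) + 1 := rfl
  rw [h1, splice_z_gt A B (by omega), show i + (B.n - j) + 1 - i + j = B.n + 1 by omega]

end Pool.Agent.Lib.MP_266831_co.Unc
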