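import Pool.Agent.Lib.MP_266831_co.UpperTent

/-!
# The explicit polygonal arc of an axis path
-/

namespace Pool.Agent.Lib.MP_266831_co.Upper

open Pool.Agent.Lib.MP_266831_co

/-- the sign of a half plane -/
noncomputable def sgn (b : Bool) : ℝ := if b then 1 else -1

lemma sgn_ne_zero (b : Bool) : sgn b ≠ 0 := by
  unfold sgn; split_ifs <;> norm_num

lemma sgn_mul_inj {b c : Bool} {u v : ℝ} (hu : 0 < u) (hv : 0 < v) (h : sgn b * u = sgn c * v) :
    b = c ∧ u = v := by
  cases b <;> cases c <;> simp only [sgn, if_true, if_false, Bool.false_eq_true] at h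
  · exact ⟨rfl, by linarith⟩
  · linarith
  · linarith
  · exact ⟨rfl, by linarith⟩

/-- the point with parameter `f ∈ [0,1]` on the `k`-th tent of `A` -/
noncomputable def piece (A : AxisPath) (k : ℕ) (f : ℝ) : ℝ × ℝ :=
  (A.z k + f * (A.z (k + 1) - A.z k), sgn (A.side k) * ((A.z (k + 1) - A.z k) ^ 2 * min f (1 - f)))

/-- the arc of `A` -/
noncomputable def arcFun (A : AxisPath) (t : ℝ) : ℝ × ℝ :=
  piece A ⌊(A.n + 1 : ℝ) * t⌋₊ ((A.n + 1 : ℝ) * t - ⌊(A.n + 1 : ℝ) * t⌋₊)

lemma piece_zero (A : AxisPath) (k : ℕ) : piece A k 0 = (A.z k, 0) := by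
  simp [piece]

lemma piece_one (A : AxisPath) (k : ℕ) : piece A k 1 = (A.z (k + 1), 0) := by
  simp [piece]

lemma arcFun_of_eq (A : AxisPath) {t f : ℝ} {k : ℕ} (h0 : 0 ≤ f) (h1 : f ≤ 1)
    (ht : (A.n + 1 : ℝ) * t = k + f) : arcFun A t = piece A k f := by
  rcases lt_or_eq_of_le h1 with h | h
  · have : ⌊(A.n + 1 : ℝ) * t⌋₊ = k := by
      rw [ht, Nat.floor_eq_iff (by positivity)]
      constructor <;> linarith
    rw [arcFun, this, ht]
    congr 1
    ring
  · have : ⌊(A.n + 1 : ℝ) * t⌋₊ = k + 1 := by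
      rw [ht, Nat.floor_eq_iff (by positivity), h]
      push_cast
      constructor <;> linarith
    rw [arcFun, this, ht, h, piece_one]
    have : (k : ℝ) + 1 - ((k + 1 : ℕ) : ℝ) = 0 := by push_cast; ring
    rw [this, piece_zero]

lemma arcFun_zero (A : AxisPath) : arcFun A 0 = (A.z 0, 0) := by
  rw [arcFun_of_eq A (k := 0) (f := 0) le_rfl zero_le_one (by simp), piece_zero]

lemma arcFun_one (A : AxisPath) : arcFun A 1 = (A.z (A.n + 1), 0) := by
  rw [arcFun_of_eq A (k := A.n) (f := 1) zero_le_one le_rfl (by simp), piece_one]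

/-- a parameter in `(0,1)` is either an interior axis point or an interior point of a tent -/
lemma exists_rep (A : AxisPath) {t : ℝ} (ht0 : 0 < t) (ht1 : t < 1) :
    (∃ k, 1 ≤ k ∧ k ≤ A.n ∧ (A.n + 1 : ℝ) * t = k ∧ arcFun A t = (A.z k, 0)) ∨
    (∃ k f, k ≤ A.n ∧ 0 < f ∧ f < 1 ∧ (A.n + 1 : ℝ) * t = k + f ∧ arcFun A t = piece A k f) := by
  have hpos : (0 : ℝ) < A.n + 1 := by positivity
  set s : ℝ := (A.n + 1 : ℝ) * t with hs
  have hs0 : 0 < s := by positivity
  have hs1 : s < A.n + 1 := by rw [hs]; nlinarith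
  have hfl := Nat.floor_le hs0.le
  have hfl' := Nat.lt_floor_add_one s
  have hk : ⌊s⌋₊ ≤ A.n := by
    have : ((⌊s⌋₊ : ℕ) : ℝ) < ((A.n + 1 : ℕ) : ℝ) := by push_cast; linarith
    have := Nat.cast_lt.1 this
    omega
  rcases eq_or_lt_of_le hfl with h | h
  · left
    refine ⟨⌊s⌋₊, ?_, hk, h.symm, ?_⟩
    · by_contra hc
      have : ⌊s⌋₊ = 0 := by omega
      rw [this] at h
      simp at h
      linarith
    · rw [arcFun_of_eq A (k := ⌊s⌋₊) (f := 0) le_rfl zero_le_one (by rw [← hs, add_zero]; exact h.symm),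
        piece_zero]
  · right
    refine ⟨⌊s⌋₊, s - ⌊s⌋₊, hk, by linarith, by linarith, by ring, ?_⟩
    exact arcFun_of_eq A (by linarith) (by linarith) (by rw [← hs]; ring)

/-- The point `piece A k f` in terms of the interval of the piece. -/
lemma piece_spec (A : AxisPath) (k : ℕ) {f : ℝ} (hf0 : 0 < f) (hf1 : f < 1)
    (hz : A.z k ≠ A.z (k + 1)) :
    min (A.z k) (A.z (k + 1)) < (piece A k f).1 ∧ (piece A k f).1 < max (A.z k) (A.z (k + 1)) ∧
    0 < (max (A.z k) (A.z (k + 1)) - min (A.z k) (A.z (k + 1))) *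
      min ((piece A k f).1 - min (A.z k) (A.z (k + 1))) (max (A.z k) (A.z (k + 1)) - (piece A k f).1) ∧
    (piece A k f).2 = sgn (A.side k) * ((max (A.z k) (A.z (k + 1)) - min (A.z k) (A.z (k + 1))) *
      min ((piece A k f).1 - min (A.z k) (A.z (k + 1))) (max (A.z k) (A.z (k + 1)) - (piece A k f).1)) := by
  set a := A.z k with ha
  set b := A.z (k + 1) with hb
  have e1 : (piece A k f).1 = a + f * (b - a) := rfl
  have e2 : (piece A k f).2 = sgn (A.side k) * ((b - a) ^ 2 * min f (1 - f)) := rfl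
  rw [e1, e2]
  have key : ∀ c > (0 : ℝ), ∀ u v : ℝ, c * min (c * u) (c * v) = c ^ 2 * min u v := by
    intro c hc u v
    rw [← mul_min_of_nonneg _ _ hc.le]
    ring
  rcases lt_or_gt_of_ne hz with h | h
  · rw [min_eq_left h.le, max_eq_right h.le]
    have h3 : (b - a) * min (a + f * (b - a) - a) (b - (a + f * (b - a))) =
        (b - a) ^ 2 * min f (1 - f) := by
      rw [← key (b - a) (by linarith)]
      congr 2 <;> ring
    rw [h3]
    refine ⟨by nlinarith, by nlinarith, ?_, rfl⟩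
    exact mul_pos (by nlinarith) (lt_min hf0 (by linarith))
  · rw [min_eq_right h.le, max_eq_left h.le]
    have h3 : (a - b) * min (a + f * (b - a) - b) (a - (a + f * (b - a))) =
        (b - a) ^ 2 * min f (1 - f) := by
      have : (b - a) ^ 2 = (a - b) ^ 2 := by ring
      rw [this, min_comm f, ← key (a - b) (by linarith)]
      congr 2 <;> ring
    rw [h3]
    refine ⟨by nlinarith, by nlinarith, ?_, rfl⟩
    exact mul_pos (by nlinarith) (lt_min hf0 (by linarith))

/-- Two tents with a common interior point: same side, and they interleave or are equal. -/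
lemma piece_meet {A B : AxisPath} {k l : ℕ} {f g : ℝ} (hf0 : 0 < f) (hf1 : f < 1) (hg0 : 0 < g)
    (hg1 : g < 1) (hA : A.z k ≠ A.z (k + 1)) (hB : B.z l ≠ B.z (l + 1))
    (h : piece A k f = piece B l g) :
    A.side k = B.side l ∧ (Inter (A.z k) (A.z (k + 1)) (B.z l) (B.z (l + 1)) ∨
      (min (A.z k) (A.z (k + 1)) = min (B.z l) (B.z (l + 1)) ∧
       max (A.z k) (A.z (k + 1)) = max (B.z l) (B.z (l + 1)))) := by
  obtain ⟨a1, a2, a3, a4⟩ := piece_spec A k hf0 hf1 hA
  obtain ⟨b1, b2, b3, b4⟩ := piece_spec B l hg0 hg1 hB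
  rw [← h] at b1 b2 b3 b4
  rw [a4] at b4
  obtain ⟨hs, he⟩ := sgn_mul_inj a3 b3 b4
  refine ⟨hs, ?_⟩
  by_cases hc : min (A.z k) (A.z (k + 1)) = min (B.z l) (B.z (l + 1)) ∧
       max (A.z k) (A.z (k + 1)) = max (B.z l) (B.z (l + 1))
  · exact Or.inr hc
  · exact Or.inl (tent_meet a1 a2 b1 b2 he hc)

/-- Interleaving tents meet at most once. -/
lemma piece_unique {A B : AxisPath} {k l : ℕ} {f g f' g' : ℝ} (hf0 : 0 < f) (hf1 : f < 1)
    (hg0 : 0 < g) (hg1 : g < 1) (hf0' : 0 < f') (hf1' : f' < 1) (hg0' : 0 < g') (hg1' : g' < 1)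
    (hA : A.z k ≠ A.z (k + 1)) (hB : B.z l ≠ B.z (l + 1))
    (hi : Inter (A.z k) (A.z (k + 1)) (B.z l) (B.z (l + 1)))
    (h : piece A k f = piece B l g) (h' : piece A k f' = piece B l g') :
    piece A k f = piece A k f' := by
  obtain ⟨a1, a2, a3, a4⟩ := piece_spec A k hf0 hf1 hA
  obtain ⟨b1, b2, b3, b4⟩ := piece_spec B l hg0 hg1 hB
  rw [← h] at b1 b2 b3 b4
  obtain ⟨a1', a2', a3', a4'⟩ := piece_spec A k hf0' hf1' hA
  obtain ⟨b1', b2', b3', b4'⟩ := piece_spec B l hg0' hg1' hB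
  rw [← h'] at b1' b2' b3' b4'
  have he := (sgn_mul_inj a3 b3 (a4.symm.trans b4)).2
  have he' := (sgn_mul_inj a3' b3' (a4'.symm.trans b4')).2
  have hx : (piece A k f).1 = (piece A k f').1 := by
    rcases hi with ⟨h1, h2, h3⟩ | ⟨h1, h2, h3⟩
    · exact tent_unique h1 h2 h3 b1 a2 b1' a2' he he'
    · exact tent_unique h1 h2 h3 a1 b2 a1' b2' he.symm he'.symm
  refine Prod.ext hx ?_
  rw [a4, a4', hx]

lemma piece_snd_ne_zero {A : AxisPath} {k : ℕ} {f : ℝ} (hf0 : 0 < f) (hf1 : f < 1)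
    (hA : A.z k ≠ A.z (k + 1)) : (piece A k f).2 ≠ 0 := by
  obtain ⟨a1, a2, a3, a4⟩ := piece_spec A k hf0 hf1 hA
  rw [a4]
  exact mul_ne_zero (sgn_ne_zero _) a3.ne'

/-- the conditions on one path: distinct axis points, no self interleaving -/
structure Good (A : AxisPath) : Prop where
  inj : ∀ i ≤ A.n + 1, ∀ j ≤ A.n + 1, A.z i = A.z j → i = j
  self : ∀ i ≤ A.n, ∀ j ≤ A.n, A.side i = A.side j →
    ¬ Inter (A.z i) (A.z (i + 1)) (A.z j) (A.z (j + 1))

lemma Good.ne {A : AxisPath} (hA : Good A) {k : ℕ} (hk : k ≤ A.n) : A.z k ≠ A.z (k + 1) := by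
  intro h
  have := hA.inj k (by omega) (k + 1) (by omega) h
  omega

/-- representation for the closed interval -/
lemma exists_rep' (A : AxisPath) {t : ℝ} (ht0 : 0 ≤ t) (ht1 : t ≤ 1) :
    (∃ k, k ≤ A.n + 1 ∧ (A.n + 1 : ℝ) * t = k ∧ arcFun A t = (A.z k, 0)) ∨
    (∃ k f, k ≤ A.n ∧ 0 < f ∧ f < 1 ∧ (A.n + 1 : ℝ) * t = k + f ∧ arcFun A t = piece A k f) := by
  rcases eq_or_lt_of_le ht0 with h | h
  · left
    refine ⟨0, by omega, ?_, ?_⟩
    · rw [← h]; simp
    · rw [← h, arcFun_zero]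
  · rcases eq_or_lt_of_le ht1 with h' | h'
    · left
      refine ⟨A.n + 1, le_rfl, ?_, ?_⟩
      · rw [h']; simp
      · rw [h', arcFun_one]
    · rcases exists_rep A h h' with ⟨k, _, h2, h3, h4⟩ | h5
      · exact Or.inl ⟨k, by omega, h3, h4⟩
      · exact Or.inr h5

lemma arcFun_injOn {A : AxisPath} (hA : Good A) : Set.InjOn (arcFun A) (Set.Icc 0 1) := by
  have hpos : (0 : ℝ) < A.n + 1 := by positivity
  intro t ht t' ht' h
  rcases exists_rep' A ht.1 ht.2 with ⟨k, hk, e, hp⟩ | ⟨k, f, hk, f0, f1, e, hp⟩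
  · rcases exists_rep' A ht'.1 ht'.2 with ⟨k', hk', e', hp'⟩ | ⟨k', f', hk', f0', f1', e', hp'⟩
    · rw [hp, hp'] at h
      have hz : A.z k = A.z k' := congrArg Prod.fst h
      have hkk := hA.inj k hk k' hk' hz
      rw [← hkk] at e'
      exact mul_left_cancel₀ hpos.ne' (e.trans e'.symm)
    · rw [hp, hp'] at h
      exact absurd (congrArg Prod.snd h).symm (piece_snd_ne_zero f0' f1' (hA.ne hk'))
  · rcases exists_rep' A ht'.1 ht'.2 with ⟨k', hk', e', hp'⟩ | ⟨k', f', hk', f0', f1', e', hp'⟩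
    · rw [hp, hp'] at h
      exact absurd (congrArg Prod.snd h) (piece_snd_ne_zero f0 f1 (hA.ne hk))
    · rw [hp, hp'] at h
      obtain ⟨hs, hi⟩ := piece_meet f0 f1 f0' f1' (hA.ne hk) (hA.ne hk') h
      have hkk : k = k' := by
        rcases hi with hi | ⟨hm, hM⟩
        · exact absurd hi (hA.self k hk k' hk' hs)
        · by_contra hne
          rcases min_choice (A.z k) (A.z (k + 1)) with m1 | m1 <;>
          rcases max_choice (A.z k) (A.z (k + 1)) with m2 | m2 <;>
          rcases min_choice (A.z k') (A.z (k' + 1)) with m3 | m3 <;>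
          rcases max_choice (A.z k') (A.z (k' + 1)) with m4 | m4 <;>
          rw [m1, m3] at hm <;> rw [m2, m4] at hM <;>
          have q1 := hA.inj _ (by omega) _ (by omega) hm <;>
          have q2 := hA.inj _ (by omega) _ (by omega) hM <;>
          first
          | omega
          | (have q3 := hA.ne hk
             rcases lt_or_gt_of_ne q3 with q | q
             · first
               | (rw [max_eq_right q.le] at m2; exact q3 m2.symm)
               | (rw [min_eq_left q.le] at m1; exact q3 m1)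
             · first
               | (rw [max_eq_left q.le] at m2; exact q3 m2)
               | (rw [min_eq_right q.le] at m1; exact q3 m1.symm))
      subst hkk
      have hz : A.z k + f * (A.z (k + 1) - A.z k) = A.z k + f' * (A.z (k + 1) - A.z k) :=
        congrArg Prod.fst h
      have hd : A.z (k + 1) - A.z k ≠ 0 := sub_ne_zero.2 (hA.ne hk).symm
      have hff : f = f' := mul_right_cancel₀ hd (by linarith)
      rw [← hff] at e'
      exact mul_left_cancel₀ hpos.ne' (e.trans e'.symm)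

lemma piece_left (A : AxisPath) (k : ℕ) {c : ℝ} (hc1 : c ≤ 1) :
    piece A k (c / 2) = AffineMap.lineMap (piece A k 0) (piece A k (1 / 2)) c := by
  rw [AffineMap.lineMap_apply_module, piece, piece, piece]
  have h1 : min (c / 2) (1 - c / 2) = c / 2 := min_eq_left (by linarith)
  have h2 : min (1 / 2 : ℝ) (1 - 1 / 2) = 1 / 2 := by norm_num
  have h3 : min (0 : ℝ) (1 - 0) = 0 := by norm_num
  rw [h1, h2, h3]
  ext
  · simp only [Prod.fst_add, Prod.smul_fst, smul_eq_mul]; ring
  · simp only [Prod.snd_add, Prod.smul_snd, smul_eq_mul]; ring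

lemma piece_right (A : AxisPath) (k : ℕ) {c : ℝ} (hc0 : 0 ≤ c) :
    piece A k ((1 + c) / 2) = AffineMap.lineMap (piece A k (1 / 2)) (piece A k 1) c := by
  rw [AffineMap.lineMap_apply_module, piece, piece, piece]
  have h1 : min ((1 + c) / 2) (1 - (1 + c) / 2) = 1 - (1 + c) / 2 := min_eq_right (by linarith)
  have h2 : min (1 / 2 : ℝ) (1 - 1 / 2) = 1 / 2 := by norm_num
  have h3 : min (1 : ℝ) (1 - 1) = 0 := by norm_num
  rw [h1, h2, h3]
  ext
  · simp only [Prod.fst_add, Prod.smul_fst, smul_eq_mul]; ring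
  · simp only [Prod.snd_add, Prod.smul_snd, smul_eq_mul]; ring

lemma arcFun_isPolyArc {A : AxisPath} (hA : Good A) : IsPolyArc (arcFun A) := by
  have hpos : (0 : ℝ) < A.n + 1 := by positivity
  refine ⟨arcFun_injOn hA, 2 * (A.n + 1), fun i => (i : ℝ) / (2 * (A.n + 1)), by simp, ?_, ?_⟩
  · push_cast
    rw [div_self (by positivity)]
  · intro i hi
    have hlt : (i : ℝ) / (2 * (A.n + 1)) < ((i + 1 : ℕ) : ℝ) / (2 * (A.n + 1)) := by
      rw [div_lt_div_iff_of_pos_right (by positivity)]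
      push_cast; linarith
    refine ⟨hlt, ?_⟩
    intro s hs
    have hs1 : (i : ℝ) ≤ 2 * (A.n + 1) * s := by
      have := hs.1
      rw [div_le_iff₀ (by positivity)] at this
      linarith
    have hs2 : 2 * (A.n + 1) * s ≤ (i : ℝ) + 1 := by
      have := hs.2
      rw [le_div_iff₀ (by positivity)] at this
      push_cast at this
      linarith
    have hc : (s - (i : ℝ) / (2 * (A.n + 1))) / (((i + 1 : ℕ) : ℝ) / (2 * (A.n + 1)) -
        (i : ℝ) / (2 * (A.n + 1))) = 2 * (A.n + 1) * s - i := by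
      push_cast
      field_simp
      ring
    simp only [hc]
    set c : ℝ := 2 * (A.n + 1) * s - i with hcdef
    have hc0 : 0 ≤ c := by rw [hcdef]; linarith
    have hc1 : c ≤ 1 := by rw [hcdef]; linarith
    rcases Nat.even_or_odd' i with ⟨k, hk | hk⟩
    · have hik : (i : ℝ) = 2 * k := by rw [hk]; push_cast; ring
      have e0 : arcFun A ((i : ℝ) / (2 * (A.n + 1))) = piece A k 0 :=
        arcFun_of_eq A le_rfl zero_le_one (by rw [hik]; field_simp; ring)
      have e1 : arcFun A (((i + 1 : ℕ) : ℝ) / (2 * (A.n + 1))) = piece A k (1 / 2) :=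
        arcFun_of_eq A (by norm_num) (by norm_num) (by push_cast; rw [hik]; field_simp)
      have e2 : arcFun A s = piece A k (c / 2) :=
        arcFun_of_eq A (by linarith) (by linarith) (by rw [hcdef, hik]; ring)
      rw [e0, e1, e2, piece_left A k hc1]
    · have hik : (i : ℝ) = 2 * k + 1 := by rw [hk]; push_cast; ring
      have e0 : arcFun A ((i : ℝ) / (2 * (A.n + 1))) = piece A k (1 / 2) :=
        arcFun_of_eq A (by norm_num) (by norm_num) (by rw [hik]; field_simp)
      have e1 : arcFun A (((i + 1 : ℕ) : ℝ) / (2 * (A.n + 1))) = piece A k 1 :=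
        arcFun_of_eq A zero_le_one le_rfl (by push_cast; rw [hik]; field_simp; ring)
      have e2 : arcFun A s = piece A k ((1 + c) / 2) :=
        arcFun_of_eq A (by linarith) (by linarith) (by rw [hcdef, hik]; ring)
      rw [e0, e1, e2, piece_right A k hc0]

end Pool.Agent.Lib.MP_266831_co.Upper
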