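import Pool.Agent.Lib.MP_266831_co.UpperDraw

/-!
# Blow-up of a finite axis layout
-/

namespace Pool.Agent.Lib.MP_266831_co.Upper

open Pool.Agent.Lib.MP_266831_co

/-- interleaving as a Boolean combination of the comparisons between `a,b` and `c,d` -/
def IG (ac ad bc bd ca cb da db : Prop) : Prop :=
  (((ac ∨ bc) ∧ (ad ∨ bd)) ∧ ((ca ∨ cb) ∨ (da ∨ db)) ∧ ((ac ∨ ad) ∧ (bc ∨ bd))) ∨
  (((ca ∨ da) ∧ (cb ∨ db)) ∧ ((ac ∨ ad) ∨ (bc ∨ bd)) ∧ ((ca ∨ cb) ∧ (da ∨ db)))

/-- interleaving of integers -/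
def InterZ (a b c d : ℤ) : Prop :=
  IG (a < c) (a < d) (b < c) (b < d) (c < a) (c < b) (d < a) (d < b)

instance (a b c d : ℤ) : Decidable (InterZ a b c d) := by
  unfold InterZ IG; infer_instance

lemma inter_iff (a b c d : ℝ) : Inter a b c d ↔
    IG (a < c) (a < d) (b < c) (b < d) (c < a) (c < b) (d < a) (d < b) := by
  have h1 : ∀ a b c d : ℝ, min a b < min c d ↔ (a < c ∨ b < c) ∧ (a < d ∨ b < d) := by
    intro a b c d; rw [lt_min_iff, min_lt_iff, min_lt_iff]
  have h2 : ∀ a b c d : ℝ, min c d < max a b ↔ (c < a ∨ c < b) ∨ (d < a ∨ d < b) := by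
    intro a b c d; rw [min_lt_iff, lt_max_iff, lt_max_iff]
  have h3 : ∀ a b c d : ℝ, max a b < max c d ↔ (a < c ∨ a < d) ∧ (b < c ∨ b < d) := by
    intro a b c d; rw [max_lt_iff, lt_max_iff, lt_max_iff]
  unfold Inter IG
  rw [h1, h2, h3, h1, h2, h3]

lemma inter_cast (a b c d : ℤ) : Inter (a : ℝ) (b : ℝ) (c : ℝ) (d : ℝ) ↔ InterZ a b c d := by
  rw [inter_iff, InterZ]
  simp only [Int.cast_lt]

/-- comparison of two perturbed positions at different scales -/
lemma cmp {M X Y s t σ τ c c' : ℤ} (hs0 : 0 ≤ s) (hs : 2 * s < M) (ht0 : 0 ≤ t) (ht : 2 * t < M)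
    (hc0 : 0 ≤ c) (hc1 : c ≤ 1) (hc0' : 0 ≤ c') (hc1' : c' ≤ 1)
    (hσ : σ = 0 ∨ σ = 1 ∨ σ = -1) (hτ : τ = 0 ∨ τ = 1 ∨ τ = -1)
    (h : X = Y → σ = τ ∧ (σ = 0 ∨ (s < t ∧ c < c') ∨ (t < s ∧ c' < c) ∨ (s = t ∧ c = c'))) :
    (M * X + σ * s < M * Y + τ * t) ↔ (4 * X + σ * c < 4 * Y + τ * c') := by
  rcases lt_trichotomy X Y with hXY | hXY | hXY
  · have h1 : M * X + M ≤ M * Y := by nlinarith
    have h2 : 4 * X + 4 ≤ 4 * Y := by linarith
    constructor
    · intro _
      rcases hσ with rfl | rfl | rfl <;> rcases hτ with rfl | rfl | rfl <;> linarith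
    · intro _
      rcases hσ with rfl | rfl | rfl <;> rcases hτ with rfl | rfl | rfl <;> linarith
  · obtain ⟨h1, h2⟩ := h hXY
    subst h1 hXY
    rcases hσ with rfl | rfl | rfl
    · simp
    · constructor
      · intro h3
        rcases h2 with h2 | h2 | h2 | h2
        · omega
        · linarith
        · linarith
        · linarith
      · intro h3
        rcases h2 with h2 | h2 | h2 | h2
        · omega
        · linarith
        · linarith
        · linarith
    · constructor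
      · intro h3
        rcases h2 with h2 | h2 | h2 | h2
        · omega
        · linarith
        · linarith
        · linarith
      · intro h3
        rcases h2 with h2 | h2 | h2 | h2
        · omega
        · linarith
        · linarith
        · linarith
  · have h1 : M * Y + M ≤ M * X := by nlinarith
    have h2 : 4 * Y + 4 ≤ 4 * X := by linarith
    constructor
    · intro h3
      exfalso
      rcases hσ with rfl | rfl | rfl <;> rcases hτ with rfl | rfl | rfl <;> linarith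
    · intro h3
      exfalso
      rcases hσ with rfl | rfl | rfl <;> rcases hτ with rfl | rfl | rfl <;> linarith

lemma eq_of_pos_eq {M X Y s t σ τ : ℤ} (hs0 : 0 ≤ s) (hs : 2 * s < M) (ht0 : 0 ≤ t)
    (ht : 2 * t < M) (hσ : σ = 0 ∨ σ = 1 ∨ σ = -1) (hτ : τ = 0 ∨ τ = 1 ∨ τ = -1)
    (h : M * X + σ * s = M * Y + τ * t) : X = Y := by
  rcases lt_trichotomy X Y with hXY | hXY | hXY
  · exfalso
    have h1 : M * X + M ≤ M * Y := by nlinarith
    rcases hσ with rfl | rfl | rfl <;> rcases hτ with rfl | rfl | rfl <;> linarith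
  · exact hXY
  · exfalso
    have h1 : M * Y + M ≤ M * X := by nlinarith
    rcases hσ with rfl | rfl | rfl <;> rcases hτ with rfl | rfl | rfl <;> linarith

/-- A finite axis layout: integer positions of poles, hubs and bends. -/
structure Base where
  /-- positions of the poles -/
  P : ℕ → ℤ
  /-- positions of the hubs -/
  C : ℕ → ℤ
  /-- which spokes exist -/
  T : ℕ → ℕ → Bool
  /-- side of the first piece of a spoke -/
  up : ℕ → ℕ → Bool
  /-- which spokes have a bend on the axis -/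
  nb : ℕ → ℕ → Bool
  /-- positions of the bends -/
  B : ℕ → ℕ → ℤ

namespace Base

variable (D : Base)

/-- number of bends -/
def num (i a : ℕ) : ℕ := if D.nb i a = true then 1 else 0

/-- base position of the `k`-th axis point of a spoke -/
def zb (i a k : ℕ) : ℤ := if k = 0 then D.C i else if k = 1 ∧ D.nb i a = true then D.B i a else D.P a

/-- direction of the perturbation -/
def sg (i a k : ℕ) : ℤ := if k = 0 then 1 else if k = 1 ∧ D.nb i a = true then -1 else 0

/-- position of the `k`-th axis point of copy `s` of a spoke at scale `M` -/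
def ps (M s : ℤ) (i a k : ℕ) : ℤ := M * D.zb i a k + D.sg i a k * s

/-- the side of the `k`-th piece -/
def sd (i a k : ℕ) : Bool := xor (D.up i a) k.bodd

/-- the number of crossings between two spokes, with copies `c`, `c'` at scale `4` -/
def kap (i a : ℕ) (c : ℤ) (j b : ℕ) (c' : ℤ) : ℕ :=
  ((Finset.range (D.num i a + 1) ×ˢ Finset.range (D.num j b + 1)).filter (fun k =>
    D.sd i a k.1 = D.sd j b k.2 ∧
    InterZ (D.ps 4 c i a k.1) (D.ps 4 c i a (k.1 + 1))
      (D.ps 4 c' j b k.2) (D.ps 4 c' j b (k.2 + 1)))).card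

/-- the path of copy `s` of a spoke at scale `M` -/
noncomputable def path (M s : ℤ) (i a : ℕ) : AxisPath :=
  ⟨D.num i a, fun k => (D.ps M s i a k : ℝ), D.up i a⟩

/-- the bend of a spoke is different from poles, hubs and other bends -/
def ValidB1 (p N i a : ℕ) : Prop :=
  (∀ b < p, D.B i a ≠ D.P b) ∧ (∀ j < N, D.B i a ≠ D.C j) ∧
    (∀ j < N, ∀ b < p, D.nb j b = true → D.B i a = D.B j b → i = j ∧ a = b)

instance (p N i a : ℕ) : Decidable (D.ValidB1 p N i a) := by
  unfold ValidB1; infer_instance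

/-- the bends are different from all other items -/
def ValidB (p N : ℕ) : Prop := ∀ i < N, ∀ a < p, D.nb i a = true → D.ValidB1 p N i a

/-- spokes of one hub do not cross -/
def ValidX (p N : ℕ) : Prop :=
  ∀ i < N, ∀ a < p, D.T i a = true → ∀ b < p, D.T i b = true → D.kap i a 0 i b 0 = 0

/-- poles and hubs are different -/
def ValidP (p N : ℕ) : Prop :=
  (∀ a < p, ∀ b < p, D.P a = D.P b → a = b) ∧
  (∀ i < N, ∀ j < N, D.C i = D.C j → i = j) ∧
  (∀ a < p, ∀ i < N, D.P a ≠ D.C i)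

instance (p N : ℕ) : Decidable (D.ValidB p N) := by
  unfold ValidB; infer_instance

instance (p N : ℕ) : Decidable (D.ValidX p N) := by
  unfold ValidX; infer_instance

instance (p N : ℕ) : Decidable (D.ValidP p N) := by
  unfold ValidP; infer_instance

/-- validity of the data -/
structure Valid (p N : ℕ) : Prop where
  vP : D.ValidP p N
  vB : D.ValidB p N
  vX : D.ValidX p N

variable {D}

lemma sg_cases (i a k : ℕ) : D.sg i a k = 0 ∨ D.sg i a k = 1 ∨ D.sg i a k = -1 := by
  unfold sg; split_ifs <;> simp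

lemma ps_zero (M s : ℤ) (i a : ℕ) : D.ps M s i a 0 = M * D.C i + s := by
  simp [ps, zb, sg]

lemma ps_last (M s : ℤ) (i a : ℕ) : D.ps M s i a (D.num i a + 1) = M * D.P a := by
  unfold ps zb sg num
  by_cases h : D.nb i a = true <;> simp [h]

lemma ps_bend (M s : ℤ) {i a k : ℕ} (h1 : 1 ≤ k) (h2 : k ≤ D.num i a) :
    D.nb i a = true ∧ k = 1 ∧ D.ps M s i a k = M * D.B i a - s := by
  unfold num at h2
  split_ifs at h2 with h
  · have hk : k = 1 := by omega
    subst hk
    refine ⟨h, rfl, ?_⟩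
    simp [ps, zb, sg, h]
    ring
  · omega

lemma axis_cases {i a k : ℕ} (hk : k ≤ D.num i a + 1) :
    (k = 0 ∧ D.zb i a k = D.C i ∧ D.sg i a k = 1) ∨
    (k = D.num i a + 1 ∧ D.zb i a k = D.P a ∧ D.sg i a k = 0) ∨
    (k = 1 ∧ D.nb i a = true ∧ D.zb i a k = D.B i a ∧ D.sg i a k = -1) := by
  unfold num at *
  unfold zb sg
  by_cases h : D.nb i a = true
  · rw [if_pos h] at *
    have : k = 0 ∨ k = 1 ∨ k = 2 := by omega
    rcases this with rfl | rfl | rfl <;> simp [h]
  · rw [if_neg h] at *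
    have : k = 0 ∨ k = 1 := by omega
    rcases this with rfl | rfl <;> simp [h]

/-- coincidences of base positions -/
lemma zb_eq {p N : ℕ} (hV : D.Valid p N) {i j a b k l : ℕ} (hi : i < N) (hj : j < N) (ha : a < p)
    (hb : b < p) (hk : k ≤ D.num i a + 1) (hl : l ≤ D.num j b + 1) (h : D.zb i a k = D.zb j b l) :
    D.sg i a k = D.sg j b l ∧ (D.sg i a k = 0 ∨ i = j) ∧ (i = j → a = b → k = l) := by
  obtain ⟨⟨v1, v2, v3⟩, v4, -⟩ := hV
  rcases axis_cases hk with ⟨k1, k2, k3⟩ | ⟨k1, k2, k3⟩ | ⟨k1, k0, k2, k3⟩ <;>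
  rcases axis_cases hl with ⟨l1, l2, l3⟩ | ⟨l1, l2, l3⟩ | ⟨l1, l0, l2, l3⟩ <;>
  rw [k2, l2] at h <;> rw [k3, l3]
  · exact ⟨rfl, Or.inr (v2 i hi j hj h), fun _ _ => by omega⟩
  · exact absurd h.symm (v3 b hb i hi)
  · exact absurd h.symm ((v4 j hj b hb l0).2.1 i hi)
  · exact absurd h (v3 a ha j hj)
  · refine ⟨rfl, Or.inl rfl, ?_⟩
    rintro rfl rfl
    omega
  · exact absurd h.symm ((v4 j hj b hb l0).1 a ha)
  · exact absurd h ((v4 i hi a ha k0).2.1 j hj)
  · exact absurd h ((v4 i hi a ha k0).1 b hb)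
  · obtain ⟨h1, h2⟩ := (v4 i hi a ha k0).2.2 j hj b hb l0 h
    exact ⟨rfl, Or.inr h1, fun _ _ => by omega⟩

/-- The number of crossings does not depend on the scale. -/
lemma X_eq {p N : ℕ} (hV : D.Valid p N) {M s t c c' : ℤ} {i j a b : ℕ} (hs0 : 0 ≤ s)
    (hs : 2 * s < M) (ht0 : 0 ≤ t) (ht : 2 * t < M) (hc0 : 0 ≤ c) (hc1 : c ≤ 1) (hc0' : 0 ≤ c')
    (hc1' : c' ≤ 1) (hi : i < N) (hj : j < N) (ha : a < p) (hb : b < p)
    (h : i ≠ j ∨ (s < t ∧ c < c') ∨ (t < s ∧ c' < c) ∨ (s = t ∧ c = c')) :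
    (D.path M s i a).X (D.path M t j b) = D.kap i a c j b c' := by
  classical
  have hlt : ∀ k ≤ D.num i a + 1, ∀ l ≤ D.num j b + 1,
      ((D.ps M s i a k < D.ps M t j b l) ↔ (D.ps 4 c i a k < D.ps 4 c' j b l)) ∧
      ((D.ps M t j b l < D.ps M s i a k) ↔ (D.ps 4 c' j b l < D.ps 4 c i a k)) := by
    intro k hk l hl
    constructor
    · refine cmp hs0 hs ht0 ht hc0 hc1 hc0' hc1' (sg_cases _ _ _) (sg_cases _ _ _) ?_
      intro he
      obtain ⟨h1, h2, -⟩ := zb_eq hV hi hj ha hb hk hl he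
      refine ⟨h1, ?_⟩
      rcases h2 with h2 | h2
      · exact Or.inl h2
      · right
        rcases h with h | h
        · exact absurd h2 h
        · exact h
    · refine cmp ht0 ht hs0 hs hc0' hc1' hc0 hc1 (sg_cases _ _ _) (sg_cases _ _ _) ?_
      intro he
      obtain ⟨h1, h2, -⟩ := zb_eq hV hi hj ha hb hk hl he.symm
      refine ⟨h1.symm, ?_⟩
      rcases h2 with h2 | h2
      · exact Or.inl (h1 ▸ h2)
      · right
        rcases h with h | h
        · exact absurd h2 h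
        · rcases h with h | h | h
          · exact Or.inr (Or.inl h)
          · exact Or.inl h
          · exact Or.inr (Or.inr ⟨h.1.symm, h.2.symm⟩)
  unfold AxisPath.X AxisPath.pairs kap
  congr 1
  apply Finset.filter_congr
  rintro ⟨k, l⟩ hkl
  rw [Finset.mem_product, Finset.mem_range, Finset.mem_range] at hkl
  obtain ⟨hk, hl⟩ := hkl
  have hk' : k < D.num i a + 1 := hk
  have hl' : l < D.num j b + 1 := hl
  have e1 : Inter ((D.path M s i a).z k) ((D.path M s i a).z (k + 1)) ((D.path M t j b).z l)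
      ((D.path M t j b).z (l + 1)) ↔ InterZ (D.ps M s i a k) (D.ps M s i a (k + 1))
        (D.ps M t j b l) (D.ps M t j b (l + 1)) := inter_cast _ _ _ _
  have e2 : InterZ (D.ps M s i a k) (D.ps M s i a (k + 1)) (D.ps M t j b l) (D.ps M t j b (l + 1)) ↔
      InterZ (D.ps 4 c i a k) (D.ps 4 c i a (k + 1)) (D.ps 4 c' j b l) (D.ps 4 c' j b (l + 1)) := by
    unfold InterZ
    rw [(hlt k (by omega) l (by omega)).1, (hlt k (by omega) l (by omega)).2,
      (hlt k (by omega) (l + 1) (by omega)).1, (hlt k (by omega) (l + 1) (by omega)).2,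
      (hlt (k + 1) (by omega) l (by omega)).1, (hlt (k + 1) (by omega) l (by omega)).2,
      (hlt (k + 1) (by omega) (l + 1) (by omega)).1, (hlt (k + 1) (by omega) (l + 1) (by omega)).2]
  exact and_congr Iff.rfl (e1.trans e2)

/-- the bipartite graph of a blow-up -/
def Rel (D : Base) (p N q : ℕ) : Fin q → Fin p → Prop := fun h a => D.T (h.val % N) a.val = true

/-- the layout of the blow-up -/
noncomputable def layout {p N : ℕ} (hV : D.Valid p N) (hN : 0 < N) (q : ℕ) :
    Layout (D.Rel p N q) where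
  xP a := ((((2 * q + 2 : ℕ) : ℤ) * D.P a : ℤ) : ℝ)
  xC h := ((((2 * q + 2 : ℕ) : ℤ) * D.C (h.val % N) + ((h.val / N : ℕ) : ℤ) : ℤ) : ℝ)
  xP_inj a b h := by
    have h1 : ((2 * q + 2 : ℕ) : ℤ) * D.P a = ((2 * q + 2 : ℕ) : ℤ) * D.P b :=
      Int.cast_injective (α := ℝ) h
    have h2 := mul_left_cancel₀ (by positivity) h1
    exact Fin.ext (hV.vP.1 a a.2 b b.2 h2)
  xC_inj h g e := by
    have h1 : ((2 * q + 2 : ℕ) : ℤ) * D.C (h.val % N) + ((h.val / N : ℕ) : ℤ) =
      ((2 * q + 2 : ℕ) : ℤ) * D.C (g.val % N) + ((g.val / N : ℕ) : ℤ) :=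
      Int.cast_injective (α := ℝ) e
    have hh : h.val / N ≤ h.val := Nat.div_le_self _ _
    have hg : g.val / N ≤ g.val := Nat.div_le_self _ _
    have h2 : D.C (h.val % N) = D.C (g.val % N) := by
      refine eq_of_pos_eq (M := ((2 * q + 2 : ℕ) : ℤ)) (s := ((h.val / N : ℕ) : ℤ))
        (t := ((g.val / N : ℕ) : ℤ)) (σ := 1) (τ := 1) (by positivity) ?_ (by positivity) ?_
        (by simp) (by simp) (by simpa using h1)
      · have := h.2; push_cast; omega
      · have := g.2; push_cast; omega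
    have h3 := hV.vP.2.1 _ (Nat.mod_lt _ hN) _ (Nat.mod_lt _ hN) h2
    rw [h2] at h1
    have h4 : h.val / N = g.val / N := by exact_mod_cast add_left_cancel h1
    apply Fin.ext
    rw [← Nat.div_add_mod h.val N, ← Nat.div_add_mod g.val N, h3, h4]
  xPC a h e := by
    have h1 : ((2 * q + 2 : ℕ) : ℤ) * D.P a = ((2 * q + 2 : ℕ) : ℤ) * D.C (h.val % N) +
      ((h.val / N : ℕ) : ℤ) := Int.cast_injective (α := ℝ) e
    have hh : h.val / N ≤ h.val := Nat.div_le_self _ _
    have h2 : D.P a = D.C (h.val % N) := by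
      refine eq_of_pos_eq (M := ((2 * q + 2 : ℕ) : ℤ)) (s := 0)
        (t := ((h.val / N : ℕ) : ℤ)) (σ := 0) (τ := 1) le_rfl ?_ (by positivity) ?_
        (by simp) (by simp) (by simpa using h1)
      · push_cast; omega
      · have := h.2; push_cast; omega
    exact hV.vP.2.2 a a.2 _ (Nat.mod_lt _ hN) h2
  A x := D.path ((2 * q + 2 : ℕ) : ℤ) ((x.1.val / N : ℕ) : ℤ) (x.1.val % N) x.2.val
  z_zero x _ := by
    simp only [path, ps_zero]
  z_last x _ := by
    have := ps_last (D := D) ((2 * q + 2 : ℕ) : ℤ) ((x.1.val / N : ℕ) : ℤ) (x.1.val % N) x.2.val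
    simp only [path, this]
  good x hx := by
    have hh : x.1.val / N ≤ x.1.val := Nat.div_le_self _ _
    have hs : 2 * ((x.1.val / N : ℕ) : ℤ) < ((2 * q + 2 : ℕ) : ℤ) := by
      have := x.1.2; push_cast; omega
    constructor
    · intro k hk l hl h
      have h1 : D.ps ((2 * q + 2 : ℕ) : ℤ) ((x.1.val / N : ℕ) : ℤ) (x.1.val % N) x.2.val k =
        D.ps ((2 * q + 2 : ℕ) : ℤ) ((x.1.val / N : ℕ) : ℤ) (x.1.val % N) x.2.val l :=
        Int.cast_injective (α := ℝ) h
      have h2 := eq_of_pos_eq (by positivity) hs (by positivity) hs (sg_cases _ _ _)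
        (sg_cases _ _ _) h1
      exact (zb_eq hV (Nat.mod_lt _ hN) (Nat.mod_lt _ hN) x.2.2 x.2.2 hk hl h2).2.2 rfl rfl
    · intro k hk l hl hsd hI
      have h1 := X_eq hV (s := ((x.1.val / N : ℕ) : ℤ)) (t := ((x.1.val / N : ℕ) : ℤ))
        (c := 0) (c' := 0) (by positivity) hs (by positivity) hs le_rfl zero_le_one le_rfl
        zero_le_one (Nat.mod_lt x.1.val hN) (Nat.mod_lt x.1.val hN) x.2.2 x.2.2
        (Or.inr (Or.inr (Or.inr ⟨rfl, rfl⟩)))
      rw [hV.vX _ (Nat.mod_lt x.1.val hN) _ x.2.2 hx _ x.2.2 hx, AxisPath.X,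
        Finset.card_eq_zero] at h1
      have h2 : (k, l) ∈ (D.path ((2 * q + 2 : ℕ) : ℤ) ((x.1.val / N : ℕ) : ℤ) (x.1.val % N)
          x.2.val).pairs (D.path ((2 * q + 2 : ℕ) : ℤ) ((x.1.val / N : ℕ) : ℤ) (x.1.val % N)
          x.2.val) := by
        classical
        rw [AxisPath.pairs, Finset.mem_filter, Finset.mem_product, Finset.mem_range,
          Finset.mem_range]
        exact ⟨⟨by omega, by omega⟩, hsd, hI⟩
      rw [h1] at h2
      exact absurd h2 (by simp)
  z_ne_P x hx k h1 h2 b e := by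
    obtain ⟨h3, -, h4⟩ := ps_bend ((2 * q + 2 : ℕ) : ℤ) ((x.1.val / N : ℕ) : ℤ) h1 h2
    have e1 : D.ps ((2 * q + 2 : ℕ) : ℤ) ((x.1.val / N : ℕ) : ℤ) (x.1.val % N) x.2.val k =
      ((2 * q + 2 : ℕ) : ℤ) * D.P b := Int.cast_injective (α := ℝ) e
    rw [h4] at e1
    have hh : x.1.val / N ≤ x.1.val := Nat.div_le_self _ _
    have h5 : D.B (x.1.val % N) x.2.val = D.P b := by
      refine eq_of_pos_eq (M := ((2 * q + 2 : ℕ) : ℤ)) (s := ((x.1.val / N : ℕ) : ℤ))
        (t := 0) (σ := -1) (τ := 0) (by positivity) ?_ le_rfl ?_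
        (by simp) (by simp) (by linarith)
      · have := x.1.2; push_cast; omega
      · push_cast; omega
    exact (hV.vB _ (Nat.mod_lt _ hN) _ x.2.2 h3).1 b b.2 h5
  z_ne_C x hx k h1 h2 g e := by
    obtain ⟨h3, -, h4⟩ := ps_bend ((2 * q + 2 : ℕ) : ℤ) ((x.1.val / N : ℕ) : ℤ) h1 h2
    have e1 : D.ps ((2 * q + 2 : ℕ) : ℤ) ((x.1.val / N : ℕ) : ℤ) (x.1.val % N) x.2.val k =
      ((2 * q + 2 : ℕ) : ℤ) * D.C (g.val % N) + ((g.val / N : ℕ) : ℤ) :=
      Int.cast_injective (α := ℝ) e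
    rw [h4] at e1
    have hh : x.1.val / N ≤ x.1.val := Nat.div_le_self _ _
    have hg : g.val / N ≤ g.val := Nat.div_le_self _ _
    have h5 : D.B (x.1.val % N) x.2.val = D.C (g.val % N) := by
      refine eq_of_pos_eq (M := ((2 * q + 2 : ℕ) : ℤ)) (s := ((x.1.val / N : ℕ) : ℤ))
        (t := ((g.val / N : ℕ) : ℤ)) (σ := -1) (τ := 1) (by positivity) ?_ (by positivity) ?_
        (by simp) (by simp) (by linarith)
      · have := x.1.2; push_cast; omega
      · have := g.2; push_cast; omega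
    exact (hV.vB _ (Nat.mod_lt _ hN) _ x.2.2 h3).2.1 _ (Nat.mod_lt _ hN) h5
  z_ne_z x y hx hy hxy k h1 h2 l h1' h2' e := by
    obtain ⟨h3, -, h4⟩ := ps_bend ((2 * q + 2 : ℕ) : ℤ) ((x.1.val / N : ℕ) : ℤ) h1 h2
    obtain ⟨h3', -, h4'⟩ := ps_bend ((2 * q + 2 : ℕ) : ℤ) ((y.1.val / N : ℕ) : ℤ) h1' h2'
    have e1 : D.ps ((2 * q + 2 : ℕ) : ℤ) ((x.1.val / N : ℕ) : ℤ) (x.1.val % N) x.2.val k =
      D.ps ((2 * q + 2 : ℕ) : ℤ) ((y.1.val / N : ℕ) : ℤ) (y.1.val % N) y.2.val l :=
      Int.cast_injective (α := ℝ) e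
    rw [h4, h4'] at e1
    have hh : x.1.val / N ≤ x.1.val := Nat.div_le_self _ _
    have hg : y.1.val / N ≤ y.1.val := Nat.div_le_self _ _
    have h5 : D.B (x.1.val % N) x.2.val = D.B (y.1.val % N) y.2.val := by
      refine eq_of_pos_eq (M := ((2 * q + 2 : ℕ) : ℤ)) (s := ((x.1.val / N : ℕ) : ℤ))
        (t := ((y.1.val / N : ℕ) : ℤ)) (σ := -1) (τ := -1) (by positivity) ?_ (by positivity) ?_
        (by simp) (by simp) (by linarith)
      · have := x.1.2; push_cast; omega
      · have := y.1.2; push_cast; omega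
    obtain ⟨h6, h7⟩ := (hV.vB _ (Nat.mod_lt _ hN) _ x.2.2 h3).2.2 _ (Nat.mod_lt _ hN) _
      y.2.2 h3' h5
    rw [h5] at e1
    have h8 : x.1.val / N = y.1.val / N := by
      have : ((x.1.val / N : ℕ) : ℤ) = ((y.1.val / N : ℕ) : ℤ) := by linarith
      exact_mod_cast this
    apply hxy
    refine Prod.ext (Fin.ext ?_) (Fin.ext h7)
    rw [← Nat.div_add_mod x.1.val N, ← Nat.div_add_mod y.1.val N, h6, h8]

/-- crossings between the stars of two hubs -/
def W (D : Base) (p i j : ℕ) : ℕ :=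
  ∑ a ∈ Finset.range p, ∑ b ∈ Finset.range p,
    if D.T i a = true ∧ D.T j b = true then D.kap i a 0 j b (if i = j then 1 else 0) else 0

theorem cr_le {p N : ℕ} (hV : D.Valid p N) (hN : 0 < N) (q : ℕ) :
    cr (bip (D.Rel p N q)) ≤
      ((∑ x ∈ (Finset.univ : Finset (Fin q × Fin q)).filter (fun x => x.1 < x.2),
        D.W p (x.1.val % N) (x.2.val % N) : ℕ) : ℕ∞) := by
  classical
  refine (layout hV hN q).cr_le_hubs ?_ (fun h g => D.W p (h.val % N) (g.val % N)) ?_
  · intro h a b ha hb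
    have hh : h.val / N ≤ h.val := Nat.div_le_self _ _
    have hs : 2 * ((h.val / N : ℕ) : ℤ) < ((2 * q + 2 : ℕ) : ℤ) := by
      have := h.2; push_cast; omega
    have h1 := X_eq hV (s := ((h.val / N : ℕ) : ℤ)) (t := ((h.val / N : ℕ) : ℤ))
        (c := 0) (c' := 0) (by positivity) hs (by positivity) hs le_rfl zero_le_one le_rfl
        zero_le_one (Nat.mod_lt h.val hN) (Nat.mod_lt h.val hN) a.2 b.2
        (Or.inr (Or.inr (Or.inr ⟨rfl, rfl⟩)))
    rw [hV.vX _ (Nat.mod_lt h.val hN) _ a.2 ha _ b.2 hb] at h1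
    exact h1
  · intro h g hlt S S' hS hS'
    have hh : h.val / N ≤ h.val := Nat.div_le_self _ _
    have hg : g.val / N ≤ g.val := Nat.div_le_self _ _
    have hs : 2 * ((h.val / N : ℕ) : ℤ) < ((2 * q + 2 : ℕ) : ℤ) := by
      have := h.2; push_cast; omega
    have ht : 2 * ((g.val / N : ℕ) : ℤ) < ((2 * q + 2 : ℕ) : ℤ) := by
      have := g.2; push_cast; omega
    have hX : ∀ a b : Fin p, ((layout hV hN q).A (h, a)).X ((layout hV hN q).A (g, b)) =
        D.kap (h.val % N) a.val 0 (g.val % N) b.val (if h.val % N = g.val % N then 1 else 0) := by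
      intro a b
      refine X_eq hV (by positivity) hs (by positivity) ht le_rfl zero_le_one ?_ ?_
        (Nat.mod_lt h.val hN) (Nat.mod_lt g.val hN) a.2 b.2 ?_
      · split_ifs <;> norm_num
      · split_ifs <;> norm_num
      · by_cases he : h.val % N = g.val % N
        · right; left
          rw [if_pos he]
          refine ⟨?_, zero_lt_one⟩
          have h1 : h.val < g.val := hlt
          have h2 : h.val / N < g.val / N := by
            by_contra hc
            push Not at hc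
            have h3 := Nat.div_add_mod h.val N
            have h4 := Nat.div_add_mod g.val N
            have h5 : N * (g.val / N) ≤ N * (h.val / N) := Nat.mul_le_mul_left _ hc
            omega
          exact_mod_cast h2
        · exact Or.inl he
    have hsum : ∀ (S : Finset (Fin p)) (i : ℕ) (f : ℕ → ℕ), (∀ a, a ∈ S ↔ D.T i a.val = true) →
        ∑ a ∈ S, f a.val = ∑ a ∈ Finset.range p, if D.T i a = true then f a else 0 := by
      intro S i f hS
      rw [← Fin.sum_univ_eq_sum_range (fun a => if D.T i a = true then f a else 0) p,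
        ← Finset.sum_filter]
      apply Finset.sum_congr _ (fun _ _ => rfl)
      ext a
      simp [hS]
    apply le_of_eq
    calc ∑ a ∈ S, ∑ b ∈ S', ((layout hV hN q).A (h, a)).X ((layout hV hN q).A (g, b))
        = ∑ a ∈ S, ∑ b ∈ S', D.kap (h.val % N) a.val 0 (g.val % N) b.val
            (if h.val % N = g.val % N then 1 else 0) :=
          Finset.sum_congr rfl fun a _ => Finset.sum_congr rfl fun b _ => hX a b
      _ = ∑ a ∈ S, (fun a : ℕ => ∑ b ∈ Finset.range p, if D.T (g.val % N) b = true then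
            D.kap (h.val % N) a 0 (g.val % N) b (if h.val % N = g.val % N then 1 else 0) else 0)
              a.val := Finset.sum_congr rfl fun a _ => hsum S' (g.val % N)
                (fun b => D.kap (h.val % N) a.val 0 (g.val % N) b
                  (if h.val % N = g.val % N then 1 else 0)) hS'
      _ = _ := by
          refine (hsum S (h.val % N) (fun a : ℕ => ∑ b ∈ Finset.range p,
            if D.T (g.val % N) b = true then D.kap (h.val % N) a 0 (g.val % N) b
              (if h.val % N = g.val % N then 1 else 0) else 0) hS).trans ?_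
          rw [W]
          refine Finset.sum_congr rfl fun a _ => ?_
          by_cases h1 : D.T (h.val % N) a = true
          · rw [if_pos h1]
            refine Finset.sum_congr rfl fun b _ => ?_
            simp [h1]
          · rw [if_neg h1]
            simp [h1]

end Base

/-- complementary relations give a partition of `K_{p,q}` into two planes -/
theorem crTwo_le {p q : ℕ} {R₁ R₂ : Fin q → Fin p → Prop} (h : ∀ i a, R₂ i a ↔ ¬ R₁ i a)
    {c₁ c₂ : ℕ∞} (h₁ : cr (bip R₁) ≤ c₁) (h₂ : cr (bip R₂) ≤ c₂) :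
    crTwo (completeBipartiteGraph (Fin p) (Fin q)) ≤ c₁ + c₂ := by
  have hdis : Disjoint (bip R₁) (bip R₂) := by
    rw [← SimpleGraph.disjoint_edgeSet, Set.disjoint_left]
    intro e he he'
    obtain ⟨x, hx, rfl⟩ := mem_edgeSet_bip.1 he
    obtain ⟨y, hy, hxy⟩ := mem_edgeSet_bip.1 he'
    have := edge_inj hxy
    subst this
    exact (h _ _).1 hy hx
  have hsup : bip R₁ ⊔ bip R₂ = completeBipartiteGraph (Fin p) (Fin q) := by
    rw [← SimpleGraph.edgeSet_inj, SimpleGraph.edgeSet_sup]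
    ext e
    rw [Set.mem_union, mem_edgeSet_bip, mem_edgeSet_bip]
    constructor
    · rintro (⟨x, _, rfl⟩ | ⟨x, _, rfl⟩) <;> simp
    · induction e with
      | _ u v =>
        intro huv
        rw [SimpleGraph.mem_edgeSet] at huv
        rcases u with a | g <;> rcases v with b | k
        · simp at huv
        · by_cases hR : R₁ k a
          · exact Or.inl ⟨(k, a), hR, Sym2.eq_swap⟩
          · exact Or.inr ⟨(k, a), (h _ _).2 hR, Sym2.eq_swap⟩
        · by_cases hR : R₁ g b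
          · exact Or.inl ⟨(g, b), hR, rfl⟩
          · exact Or.inr ⟨(g, b), (h _ _).2 hR, rfl⟩
        · simp at huv
  calc crTwo (completeBipartiteGraph (Fin p) (Fin q)) ≤ cr (bip R₁) + cr (bip R₂) := by
        unfold crTwo
        exact iInf_le_of_le _ (iInf_le_of_le _ (iInf_le_of_le hdis (iInf_le_of_le hsup le_rfl)))
    _ ≤ c₁ + c₂ := add_le_add h₁ h₂

/-- The blow-up bound for two planes. -/
theorem crTwo_le_base {p N : ℕ} {D₁ D₂ : Base} (h₁ : D₁.Valid p N) (h₂ : D₂.Valid p N) (hN : 0 < N)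
    (hT : ∀ i < N, ∀ a < p, D₂.T i a = !(D₁.T i a)) (q : ℕ) :
    crTwo (completeBipartiteGraph (Fin p) (Fin q)) ≤
      ((∑ x ∈ (Finset.range q ×ˢ Finset.range q).filter (fun x => x.1 < x.2),
        (D₁.W p (x.1 % N) (x.2 % N) + D₂.W p (x.1 % N) (x.2 % N)) : ℕ) : ℕ∞) := by
  classical
  have key := crTwo_le (R₁ := D₁.Rel p N q) (R₂ := D₂.Rel p N q) (by
    intro i a
    unfold Base.Rel
    rw [hT _ (Nat.mod_lt _ hN) _ a.2]
    simp) (Base.cr_le h₁ hN q) (Base.cr_le h₂ hN q)
  refine key.trans (le_of_eq ?_)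
  rw [← Nat.cast_add, ← Finset.sum_add_distrib]
  congr 1
  refine Finset.sum_bij (fun x _ => (x.1.val, x.2.val)) ?_ ?_ ?_ ?_
  · intro x hx
    simp only [Finset.mem_filter, Finset.mem_univ, true_and, Finset.mem_product,
      Finset.mem_range] at hx ⊢
    exact ⟨⟨x.1.2, x.2.2⟩, hx⟩
  · intro x _ y _ hxy
    simp only [Prod.mk.injEq] at hxy
    exact Prod.ext (Fin.ext hxy.1) (Fin.ext hxy.2)
  · rintro ⟨u, v⟩ hx
    simp only [Finset.mem_filter, Finset.mem_product, Finset.mem_range] at hx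
    refine ⟨(⟨u, hx.1.1⟩, ⟨v, hx.1.2⟩), ?_, rfl⟩
    simp only [Finset.mem_filter, Finset.mem_univ, true_and]
    exact hx.2
  · intro x _; rfl

end Pool.Agent.Lib.MP_266831_co.Upper
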