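import Pool.Agent.Lib.MP_266831_co.UpperBlow

/-!
# The explicit layouts for `p = 5, 6, 7, 8`
-/

namespace Pool.Agent.Lib.MP_266831_co.Upper

open Pool.Agent.Lib.MP_266831_co

namespace Data

/-- D5a: positions and sides (p = 5) -/
def D5a : Base where
  P a := ([0, 9, 1, 15, 5] : List ℤ).getD a 0
  C i := ([16, 11, 13, 4, 7, 2, 14, 10, 12, 3, 8, 6] : List ℤ).getD i 0
  T i a := (([[true, true, false, true, false],
     [false, true, true, true, false],
     [true, false, true, true, false],
     [true, true, false, false, true],
     [false, true, true, false, true],
     [true, false, true, false, true],
     [true, false, false, true, false],
     [false, true, false, true, false],
     [false, false, true, true, false],
     [true, false, false, false, true],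
     [false, true, false, false, true],
     [false, false, true, false, true]] : List (List Bool)).getD i []).getD a false
  up i a := (([[false, false, false, true, false],
     [false, true, true, false, false],
     [true, false, true, false, false],
     [false, false, false, false, true],
     [false, true, true, false, false],
     [false, false, false, false, true],
     [true, false, false, false, false],
     [false, true, false, false, false],
     [false, false, true, false, false],
     [false, false, false, false, true],
     [false, true, false, false, false],
     [false, false, true, false, false]] : List (List Bool)).getD i []).getD a false
  nb _ _ := false
  B _ _ := 0

/-- D5b: positions and sides (p = 5) -/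
def D5b : Base where
  P a := ([0, 9, 1, 15, 5] : List ℤ).getD a 0
  C i := ([6, 3, 8, 12, 14, 10, 7, 2, 4, 11, 13, 16] : List ℤ).getD i 0
  T i a := (([[false, false, true, false, true],
     [true, false, false, false, true],
     [false, true, false, false, true],
     [false, false, true, true, false],
     [true, false, false, true, false],
     [false, true, false, true, false],
     [false, true, true, false, true],
     [true, false, true, false, true],
     [true, true, false, false, true],
     [false, true, true, true, false],
     [true, false, true, true, false],
     [true, true, false, true, false]] : List (List Bool)).getD i []).getD a false
  up i a := (([[false, false, true, false, false],
     [false, false, false, false, true],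
     [false, true, false, false, false],
     [false, false, true, false, false],
     [true, false, false, false, false],
     [false, true, false, false, false],
     [false, true, true, false, false],
     [false, false, false, false, true],
     [false, false, false, false, true],
     [false, true, true, false, false],
     [true, false, true, false, false],
     [false, false, false, true, false]] : List (List Bool)).getD i []).getD a false
  nb _ _ := false
  B _ _ := 0

theorem valid5a : D5a.Valid 5 12 :=
  ⟨by decide +kernel, by decide +kernel, by decide +kernel⟩

theorem valid5b : D5b.Valid 5 12 :=
  ⟨by decide +kernel, by decide +kernel, by decide +kernel⟩

theorem compl5 : ∀ i < 12, ∀ a < 5, D5b.T i a = !(D5a.T i a) := by decide +kernel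

theorem W5 : ∀ i < 12, ∀ j < 12, D5a.W 5 i j + D5b.W 5 i j = if i = j then 1 else 0 := by
  decide +kernel

/-- D6a: positions and sides (p = 6) -/
def D6a : Base where
  P a := ([5, 9, 3, 11, 6, 1] : List ℤ).getD a 0
  C i := ([4, 0, 12, 13, 8, 2, 7, 10] : List ℤ).getD i 0
  T i a := (([[true, false, true, false, true, false],
     [true, false, true, false, false, true],
     [true, false, false, true, true, false],
     [true, false, false, true, false, true],
     [false, true, true, false, true, false],
     [false, true, true, false, false, true],
     [false, true, false, true, true, false],
     [false, true, false, true, false, true]] : List (List Bool)).getD i []).getD a false
  up i a := (([[true, false, false, false, true, false],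
     [false, false, false, false, false, true],
     [false, false, false, true, false, false],
     [false, false, false, true, false, true],
     [false, false, true, false, true, false],
     [false, true, true, false, false, false],
     [false, false, false, false, true, false],
     [false, true, false, false, false, true]] : List (List Bool)).getD i []).getD a false
  nb _ _ := false
  B _ _ := 0

/-- D6b: positions and sides (p = 6) -/
def D6b : Base where
  P a := ([5, 9, 3, 11, 6, 1] : List ℤ).getD a 0
  C i := ([10, 7, 2, 8, 13, 12, 0, 4] : List ℤ).getD i 0
  T i a := (([[false, true, false, true, false, true],
     [false, true, false, true, true, false],
     [false, true, true, false, false, true],
     [false, true, true, false, true, false],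
     [true, false, false, true, false, true],
     [true, false, false, true, true, false],
     [true, false, true, false, false, true],
     [true, false, true, false, true, false]] : List (List Bool)).getD i []).getD a false
  up i a := (([[false, true, false, false, false, true],
     [false, false, false, false, true, false],
     [false, true, true, false, false, false],
     [false, false, true, false, true, false],
     [false, false, false, true, false, true],
     [false, false, false, true, false, false],
     [false, false, false, false, false, true],
     [true, false, false, false, true, false]] : List (List Bool)).getD i []).getD a false
  nb _ _ := false
  B _ _ := 0

theorem valid6a : D6a.Valid 6 8 :=
  ⟨by decide +kernel, by decide +kernel, by decide +kernel⟩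

theorem valid6b : D6b.Valid 6 8 :=
  ⟨by decide +kernel, by decide +kernel, by decide +kernel⟩

theorem compl6 : ∀ i < 8, ∀ a < 6, D6b.T i a = !(D6a.T i a) := by decide +kernel

theorem W6 : ∀ i < 8, ∀ j < 8, D6a.W 6 i j + D6b.W 6 i j = if i = j then 2 else 0 := by
  decide +kernel

/-- D7a: positions and sides (p = 7) -/
def D7a : Base where
  P a := ([22, 18, 13, 7, 27, 25, 4] : List ℤ).getD a 0
  C i := ([21, 12, 10, 8, 24, 3, 16, 14, 5, 1, 19, 11, 9, 26, 23, 17, 15, 6, 28, 2] : List ℤ).getD i 0
  T i a := (([[true, true, false, false, false, true, false],
     [false, true, true, false, false, true, false],
     [false, false, true, true, false, true, false],
     [false, false, false, true, true, true, false],
     [true, false, false, false, true, true, false],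
     [true, true, false, false, false, false, true],
     [false, true, true, false, false, false, true],
     [false, false, true, true, false, false, true],
     [false, false, false, true, true, false, true],
     [true, false, false, false, true, false, true],
     [true, true, true, false, false, true, false],
     [false, true, true, true, false, true, false],
     [false, false, true, true, true, true, false],
     [true, false, false, true, true, true, false],
     [true, true, false, false, true, true, false],
     [true, true, true, false, false, false, true],
     [false, true, true, true, false, false, true],
     [false, false, true, true, true, false, true],
     [true, false, false, true, true, false, true],
     [true, true, false, false, true, false, true]] : List (List Bool)).getD i []).getD a false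
  up i a := (([[true, false, false, false, false, true, false],
     [false, true, false, false, false, true, false],
     [false, false, false, false, false, true, false],
     [false, false, false, false, true, true, false],
     [false, false, false, false, false, true, false],
     [false, false, false, false, false, false, true],
     [false, true, true, false, false, false, false],
     [false, false, true, false, false, false, false],
     [false, false, false, true, true, false, false],
     [false, false, false, false, false, false, true],
     [false, false, true, false, false, true, false],
     [false, true, false, false, false, true, false],
     [false, false, false, false, true, true, false],
     [false, false, false, true, false, true, false],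
     [false, true, false, false, false, true, false],
     [false, true, true, false, false, false, false],
     [false, true, true, false, false, false, false],
     [false, false, false, true, true, false, false],
     [false, false, false, true, false, false, true],
     [false, false, false, false, true, false, true]] : List (List Bool)).getD i []).getD a false
  nb i a := (i == 14 && a == 1) || (i == 19 && a == 4)
  B i _ := if i == 19 then 0 else if i == 14 then 20 else 0

/-- D7b: positions and sides (p = 7) -/
def D7b : Base where
  P a := ([22, 18, 13, 7, 27, 25, 4] : List ℤ).getD a 0
  C i := ([6, 28, 2, 17, 15, 9, 26, 23, 19, 11, 5, 1, 3, 16, 14, 8, 24, 21, 12, 10] : List ℤ).getD i 0
  T i a := (([[false, false, true, true, true, false, true],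
     [true, false, false, true, true, false, true],
     [true, true, false, false, true, false, true],
     [true, true, true, false, false, false, true],
     [false, true, true, true, false, false, true],
     [false, false, true, true, true, true, false],
     [true, false, false, true, true, true, false],
     [true, true, false, false, true, true, false],
     [true, true, true, false, false, true, false],
     [false, true, true, true, false, true, false],
     [false, false, false, true, true, false, true],
     [true, false, false, false, true, false, true],
     [true, true, false, false, false, false, true],
     [false, true, true, false, false, false, true],
     [false, false, true, true, false, false, true],
     [false, false, false, true, true, true, false],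
     [true, false, false, false, true, true, false],
     [true, true, false, false, false, true, false],
     [false, true, true, false, false, true, false],
     [false, false, true, true, false, true, false]] : List (List Bool)).getD i []).getD a false
  up i a := (([[false, false, false, true, true, false, false],
     [false, false, false, true, false, false, true],
     [false, false, false, false, true, false, true],
     [false, true, true, false, false, false, false],
     [false, true, true, false, false, false, false],
     [false, false, false, false, true, true, false],
     [false, false, false, true, false, true, false],
     [false, true, false, false, false, true, false],
     [false, false, true, false, false, true, false],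
     [false, true, false, false, false, true, false],
     [false, false, false, true, true, false, false],
     [false, false, false, false, false, false, true],
     [false, false, false, false, false, false, true],
     [false, true, true, false, false, false, false],
     [false, false, true, false, false, false, false],
     [false, false, false, false, true, true, false],
     [false, false, false, false, false, true, false],
     [true, false, false, false, false, true, false],
     [false, true, false, false, false, true, false],
     [false, false, false, false, false, true, false]] : List (List Bool)).getD i []).getD a false
  nb i a := (i == 2 && a == 4) || (i == 7 && a == 1)
  B i _ := if i == 7 then 20 else if i == 2 then 0 else 0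

theorem valid7a : D7a.Valid 7 20 :=
  ⟨by decide +kernel, by decide +kernel, by decide +kernel⟩

theorem valid7b : D7b.Valid 7 20 :=
  ⟨by decide +kernel, by decide +kernel, by decide +kernel⟩

theorem compl7 : ∀ i < 20, ∀ a < 7, D7b.T i a = !(D7a.T i a) := by decide +kernel

/-- D8a: positions and sides (p = 8) -/
def D8a : Base where
  P a := ([6, 4, 8, 10, 13, 0, 12, 2] : List ℤ).getD a 0
  C i := ([7, 3, 5, 11, 9, 1] : List ℤ).getD i 0
  T i a := (([[true, false, true, false, true, false, true, false],
     [false, true, false, true, false, true, false, true],
     [true, true, false, false, true, true, false, false],
     [false, false, true, true, false, false, true, true],
     [true, true, true, true, false, false, false, false],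
     [false, false, false, false, true, true, true, true]] : List (List Bool)).getD i []).getD a false
  up i a := (([[true, false, true, false, false, false, false, false],
     [false, false, false, true, false, false, false, true],
     [true, true, false, false, false, false, false, false],
     [false, false, false, false, false, false, true, true],
     [true, true, false, false, false, false, false, false],
     [false, false, false, false, true, false, true, false]] : List (List Bool)).getD i []).getD a false
  nb _ _ := false
  B _ _ := 0

/-- D8b: positions and sides (p = 8) -/
def D8b : Base where
  P a := ([6, 4, 8, 10, 13, 0, 12, 2] : List ℤ).getD a 0
  C i := ([3, 7, 11, 5, 1, 9] : List ℤ).getD i 0
  T i a := (([[false, true, false, true, false, true, false, true],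
     [true, false, true, false, true, false, true, false],
     [false, false, true, true, false, false, true, true],
     [true, true, false, false, true, true, false, false],
     [false, false, false, false, true, true, true, true],
     [true, true, true, true, false, false, false, false]] : List (List Bool)).getD i []).getD a false
  up i a := (([[false, false, false, true, false, false, false, true],
     [true, false, true, false, false, false, false, false],
     [false, false, false, false, false, false, true, true],
     [true, true, false, false, false, false, false, false],
     [false, false, false, false, true, false, true, false],
     [true, true, false, false, false, false, false, false]] : List (List Bool)).getD i []).getD a false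
  nb _ _ := false
  B _ _ := 0

theorem valid8a : D8a.Valid 8 6 :=
  ⟨by decide +kernel, by decide +kernel, by decide +kernel⟩

theorem valid8b : D8b.Valid 8 6 :=
  ⟨by decide +kernel, by decide +kernel, by decide +kernel⟩

theorem compl8 : ∀ i < 6, ∀ a < 8, D8b.T i a = !(D8a.T i a) := by decide +kernel

theorem W8 : ∀ i < 6, ∀ j < 6, D8a.W 8 i j + D8b.W 8 i j = if i = j then 4 else 0 := by
  decide +kernel

end Data

end Pool.Agent.Lib.MP_266831_co.Upper
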