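import Pool.Agent.Lib.MP_266831_co.UpperFast

/-!
# The explicit layout for `p = 10`
-/

namespace Pool.Agent.Lib.MP_266831_co.Upper

open Pool.Agent.Lib.MP_266831_co

namespace Data

/-- D10a: positions, planes and sides (p = 10, 40 hubs), first plane -/
def D10a : Base where
  P a := ([4, 14, 42, 15, 31, 48, 43, 26, 57, 21] : List ℤ).getD a 0
  C i := ([10, 13, 7, 5, 6, 11, 8, 16, 18, 17, 2, 0, 3, 45, 49, 60, 59, 58, 50, 44, 23, 25, 24,
      22, 41, 40, 38, 35, 34, 36, 27, 33, 55, 56, 54, 32, 28, 53, 52, 51] : List ℤ).getD i 0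
  T i a := (([79, 79, 587, 587, 587, 79, 79, 651, 651, 651, 865, 865, 865, 357, 357, 929, 929,
      929, 357, 357, 905, 905, 905, 905, 94, 94, 94, 158, 158, 158, 412, 412, 436, 436, 436, 412,
      412, 372, 372, 372] : List ℕ).getD i 0).testBit a
  up i a := (([10, 3, 522, 522, 522, 10, 10, 11, 515, 3, 768, 513, 769, 68, 69, 641, 641, 641,
      69, 36, 385, 384, 384, 385, 28, 28, 20, 20, 20, 20, 276, 20, 148, 148, 148, 20, 276, 84,
      84, 84] : List ℕ).getD i 0).testBit a
  nb i a := (([0, 1, 0, 0, 0, 8, 0, 0, 0, 0, 256, 0, 256, 0, 1, 0, 0, 0, 1, 0, 0, 1, 1, 0, 8, 8,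
      0, 0, 0, 0, 0, 256, 0, 0, 0, 256, 0, 0, 0, 0] : List ℕ).getD i 0).testBit a
  B i a := if i == 1 && a == 0 then 9 else if i == 5 && a == 3 then 12 else if i == 10 && a == 8
      then 1 else if i == 12 && a == 8 then 61 else if i == 14 && a == 0 then 47 else if i == 18
      && a == 0 then 46 else if i == 21 && a == 0 then 19 else if i == 22 && a == 0 then 20 else
      if i == 24 && a == 3 then 37 else if i == 25 && a == 3 then 39 else if i == 31 && a == 8
      then 29 else if i == 35 && a == 8 then 30 else 0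

/-- D10b: positions, planes and sides (p = 10, 40 hubs), second plane -/
def D10b : Base where
  P a := ([2, 8, 14, 41, 23, 30, 9, 36, 31, 47] : List ℤ).getD a 0
  C i := ([33, 35, 25, 24, 26, 34, 32, 28, 27, 29, 22, 21, 20, 43, 40, 18, 17, 19, 39, 42, 15,
      11, 10, 16, 50, 48, 49, 51, 52, 53, 4, 3, 6, 5, 7, 0, 1, 45, 46, 44] : List ℤ).getD i 0
  T i a := (([944, 944, 436, 436, 436, 944, 944, 372, 372, 372, 158, 158, 158, 666, 666, 94, 94,
      94, 666, 666, 118, 118, 118, 118, 929, 929, 929, 865, 865, 865, 611, 611, 587, 587, 587,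
      611, 611, 651, 651, 651] : List ℕ).getD i 0).testBit a
  up i a := (([272, 304, 416, 416, 416, 304, 272, 288, 288, 288, 138, 138, 138, 10, 18, 74, 74,
      74, 146, 10, 98, 70, 66, 98, 513, 513, 513, 513, 513, 513, 513, 513, 521, 521, 521, 513,
      513, 11, 11, 11] : List ℕ).getD i 0).testBit a
  nb i a := (([0, 0, 0, 0, 0, 0, 0, 0, 0, 0, 0, 0, 0, 16, 0, 0, 0, 0, 0, 16, 32, 0, 0, 32, 0, 0,
      0, 0, 0, 0, 0, 0, 0, 0, 0, 0, 0, 0, 0, 0] : List ℕ).getD i 0).testBit a
  B i a := if i == 13 && a == 4 then 37 else if i == 19 && a == 4 then 38 else if i == 20 && a ==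
      5 then 13 else if i == 23 && a == 5 then 12 else 0

/-- the pieces of 10a -/
def R10a : List (List (Bool × ℕ × ℕ)) :=
  [[(false, 4, 10), (true, 10, 14), (false, 10, 42), (true, 10, 15), (false, 10, 43)],
  [(true, 9, 13), (false, 4, 9), (true, 13, 14), (false, 13, 42), (false, 13, 15), (false, 13,
      43)],
  [(false, 4, 7), (true, 7, 14), (true, 7, 15), (false, 7, 43), (true, 7, 21)],
  [(false, 4, 5), (true, 5, 14), (true, 5, 15), (false, 5, 43), (true, 5, 21)],
  [(false, 4, 6), (true, 6, 14), (true, 6, 15), (false, 6, 43), (true, 6, 21)],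
  [(false, 4, 11), (true, 11, 14), (false, 11, 42), (true, 11, 12), (false, 12, 15), (false, 11,
      43)],
  [(false, 4, 8), (true, 8, 14), (false, 8, 42), (true, 8, 15), (false, 8, 43)],
  [(true, 4, 16), (true, 14, 16), (true, 15, 16), (false, 16, 26), (false, 16, 21)],
  [(true, 4, 18), (true, 14, 18), (false, 15, 18), (false, 18, 26), (true, 18, 21)],
  [(true, 4, 17), (true, 14, 17), (false, 15, 17), (false, 17, 26), (false, 17, 21)],
  [(false, 2, 4), (false, 2, 48), (false, 2, 43), (true, 1, 2), (false, 1, 57), (true, 2, 21)],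
  [(true, 0, 4), (false, 0, 48), (false, 0, 43), (false, 0, 57), (true, 0, 21)],
  [(true, 3, 4), (false, 3, 48), (false, 3, 43), (true, 3, 61), (false, 57, 61), (true, 3, 21)],
  [(false, 4, 45), (true, 42, 45), (false, 45, 48), (true, 43, 45), (false, 45, 57)],
  [(true, 47, 49), (false, 4, 47), (true, 42, 49), (false, 48, 49), (true, 43, 49), (false, 49,
      57)],
  [(true, 4, 60), (false, 48, 60), (true, 26, 60), (false, 57, 60), (true, 21, 60)],
  [(true, 4, 59), (false, 48, 59), (true, 26, 59), (false, 57, 59), (true, 21, 59)],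
  [(true, 4, 58), (false, 48, 58), (true, 26, 58), (false, 57, 58), (true, 21, 58)],
  [(true, 46, 50), (false, 4, 46), (true, 42, 50), (false, 48, 50), (true, 43, 50), (false, 50,
      57)],
  [(false, 4, 44), (true, 42, 44), (true, 44, 48), (false, 43, 44), (false, 44, 57)],
  [(true, 4, 23), (false, 15, 23), (true, 23, 26), (true, 23, 57), (false, 21, 23)],
  [(false, 19, 25), (true, 4, 19), (false, 15, 25), (true, 25, 26), (true, 25, 57), (false, 21,
      25)],
  [(false, 20, 24), (true, 4, 20), (false, 15, 24), (true, 24, 26), (true, 24, 57), (false, 21,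
      24)],
  [(true, 4, 22), (false, 15, 22), (true, 22, 26), (true, 22, 57), (false, 21, 22)],
  [(false, 14, 41), (true, 41, 42), (true, 37, 41), (false, 15, 37), (true, 31, 41), (false, 41,
      43)],
  [(false, 14, 40), (true, 40, 42), (true, 39, 40), (false, 15, 39), (true, 31, 40), (false, 40,
      43)],
  [(false, 14, 38), (true, 38, 42), (false, 15, 38), (true, 31, 38), (false, 38, 43)],
  [(false, 14, 35), (true, 35, 42), (false, 15, 35), (true, 31, 35), (false, 26, 35)],
  [(false, 14, 34), (true, 34, 42), (false, 15, 34), (true, 31, 34), (false, 26, 34)],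
  [(false, 14, 36), (true, 36, 42), (false, 15, 36), (true, 31, 36), (false, 26, 36)],
  [(true, 27, 42), (false, 15, 27), (true, 27, 31), (false, 26, 27), (true, 27, 57)],
  [(true, 33, 42), (false, 15, 33), (true, 31, 33), (false, 26, 33), (false, 29, 33), (true, 29,
      57)],
  [(true, 42, 55), (true, 31, 55), (false, 48, 55), (true, 26, 55), (false, 55, 57)],
  [(true, 42, 56), (true, 31, 56), (false, 48, 56), (true, 26, 56), (false, 56, 57)],
  [(true, 42, 54), (true, 31, 54), (false, 48, 54), (true, 26, 54), (false, 54, 57)],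
  [(true, 32, 42), (false, 15, 32), (true, 31, 32), (false, 26, 32), (false, 30, 32), (true, 30,
      57)],
  [(true, 28, 42), (false, 15, 28), (true, 28, 31), (false, 26, 28), (true, 28, 57)],
  [(true, 42, 53), (true, 31, 53), (false, 48, 53), (true, 43, 53), (false, 53, 57)],
  [(true, 42, 52), (true, 31, 52), (false, 48, 52), (true, 43, 52), (false, 52, 57)],
  [(true, 42, 51), (true, 31, 51), (false, 48, 51), (true, 43, 51), (false, 51, 57)]]

/-- the pieces of 10b -/
def R10b : List (List (Bool × ℕ × ℕ)) :=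
  [[(true, 23, 33), (false, 30, 33), (false, 33, 36), (true, 31, 33), (false, 33, 47)],
  [(true, 23, 35), (true, 30, 35), (false, 35, 36), (true, 31, 35), (false, 35, 47)],
  [(false, 14, 25), (false, 23, 25), (true, 25, 30), (true, 25, 36), (true, 25, 31)],
  [(false, 14, 24), (false, 23, 24), (true, 24, 30), (true, 24, 36), (true, 24, 31)],
  [(false, 14, 26), (false, 23, 26), (true, 26, 30), (true, 26, 36), (true, 26, 31)],
  [(true, 23, 34), (true, 30, 34), (false, 34, 36), (true, 31, 34), (false, 34, 47)],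
  [(true, 23, 32), (false, 30, 32), (false, 32, 36), (true, 31, 32), (false, 32, 47)],
  [(false, 14, 28), (false, 23, 28), (true, 28, 30), (false, 9, 28), (true, 28, 31)],
  [(false, 14, 27), (false, 23, 27), (true, 27, 30), (false, 9, 27), (true, 27, 31)],
  [(false, 14, 29), (false, 23, 29), (true, 29, 30), (false, 9, 29), (true, 29, 31)],
  [(true, 8, 22), (false, 14, 22), (true, 22, 41), (false, 22, 23), (true, 22, 36)],
  [(true, 8, 21), (false, 14, 21), (true, 21, 41), (false, 21, 23), (true, 21, 36)],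
  [(true, 8, 20), (false, 14, 20), (true, 20, 41), (false, 20, 23), (true, 20, 36)],
  [(true, 8, 43), (true, 41, 43), (false, 37, 43), (true, 23, 37), (false, 36, 43), (false, 43,
      47)],
  [(true, 8, 40), (false, 40, 41), (true, 23, 40), (false, 36, 40), (false, 40, 47)],
  [(true, 8, 18), (false, 14, 18), (true, 18, 41), (false, 18, 23), (true, 9, 18)],
  [(true, 8, 17), (false, 14, 17), (true, 17, 41), (false, 17, 23), (true, 9, 17)],
  [(true, 8, 19), (false, 14, 19), (true, 19, 41), (false, 19, 23), (true, 9, 19)],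
  [(true, 8, 39), (false, 39, 41), (true, 23, 39), (true, 36, 39), (false, 39, 47)],
  [(true, 8, 42), (true, 41, 42), (false, 38, 42), (true, 23, 38), (false, 36, 42), (false, 42,
      47)],
  [(true, 8, 15), (false, 14, 15), (false, 15, 23), (true, 13, 15), (false, 13, 30), (true, 9,
      15)],
  [(true, 8, 11), (true, 11, 14), (false, 11, 23), (false, 11, 30), (true, 9, 11)],
  [(true, 8, 10), (false, 10, 14), (false, 10, 23), (false, 10, 30), (true, 9, 10)],
  [(true, 8, 16), (false, 14, 16), (false, 16, 23), (true, 12, 16), (false, 12, 30), (true, 9,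
      16)],
  [(true, 2, 50), (false, 30, 50), (false, 36, 50), (false, 31, 50), (true, 47, 50)],
  [(true, 2, 48), (false, 30, 48), (false, 36, 48), (false, 31, 48), (true, 47, 48)],
  [(true, 2, 49), (false, 30, 49), (false, 36, 49), (false, 31, 49), (true, 47, 49)],
  [(true, 2, 51), (false, 30, 51), (false, 9, 51), (false, 31, 51), (true, 47, 51)],
  [(true, 2, 52), (false, 30, 52), (false, 9, 52), (false, 31, 52), (true, 47, 52)],
  [(true, 2, 53), (false, 30, 53), (false, 9, 53), (false, 31, 53), (true, 47, 53)],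
  [(true, 2, 4), (false, 4, 8), (false, 4, 30), (false, 4, 9), (true, 4, 47)],
  [(true, 2, 3), (false, 3, 8), (false, 3, 30), (false, 3, 9), (true, 3, 47)],
  [(true, 2, 6), (false, 6, 8), (true, 6, 41), (false, 6, 9), (true, 6, 47)],
  [(true, 2, 5), (false, 5, 8), (true, 5, 41), (false, 5, 9), (true, 5, 47)],
  [(true, 2, 7), (false, 7, 8), (true, 7, 41), (false, 7, 9), (true, 7, 47)],
  [(true, 0, 2), (false, 0, 8), (false, 0, 30), (false, 0, 9), (true, 0, 47)],
  [(true, 1, 2), (false, 1, 8), (false, 1, 30), (false, 1, 9), (true, 1, 47)],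
  [(true, 2, 45), (true, 8, 45), (true, 41, 45), (false, 36, 45), (false, 45, 47)],
  [(true, 2, 46), (true, 8, 46), (true, 41, 46), (false, 36, 46), (false, 46, 47)],
  [(true, 2, 44), (true, 8, 44), (true, 41, 44), (false, 36, 44), (false, 44, 47)]]

theorem valid10a : D10a.Valid 10 40 :=
  ⟨by decide +kernel, by decide +kernel, by decide +kernel⟩

theorem valid10b : D10b.Valid 10 40 :=
  ⟨by decide +kernel, by decide +kernel, by decide +kernel⟩

theorem compl10 : ∀ i < 40, ∀ a < 10, D10b.T i a = !(D10a.T i a) := by decide +kernel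

theorem rows10a : D10a.rows 10 40 = R10a.map (List.map toZ) := by decide +kernel

theorem rows10b : D10b.rows 10 40 = R10b.map (List.map toZ) := by decide +kernel

theorem tri10 : ∑ j ∈ Finset.range 40, ∑ i ∈ Finset.range j,
    (D10a.W 10 i j + D10b.W 10 i j) = 880 := by
  rw [Base.tri_eq_nat R10a R10b rows10a rows10b]
  decide +kernel

theorem diag10 : ∑ i ∈ Finset.range 40, (D10a.W 10 i i + D10b.W 10 i i) = 320 := by
  decide +kernel

end Data

end Pool.Agent.Lib.MP_266831_co.Upper
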