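import Pool.Agent.Lib.MP_266831_co.UpperFast

/-!
# The explicit layout for `p = 11`
-/

namespace Pool.Agent.Lib.MP_266831_co.Upper

open Pool.Agent.Lib.MP_266831_co

namespace Data

/-- D11a: positions, planes and sides (p = 11, 24 hubs), first plane -/
def D11a : Base where
  P a := ([0, 42, 9, 27, 19, 41, 45, 33, 32, 29, 13] : List ℤ).getD a 0
  C i := ([8, 7, 17, 16, 18, 3, 44, 43, 24, 34, 35, 26, 25, 6, 5, 15, 12, 10, 21, 20, 38, 36, 31,
      28] : List ℤ).getD i 0
  T i a := (([901, 901, 1109, 1109, 1107, 451, 211, 242, 1082, 482, 426, 1592, 1592, 965, 455,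
      1621, 1565, 1805, 1146, 1146, 938, 938, 940, 1836] : List ℕ).getD i 0).testBit a
  up i a := (([5, 5, 69, 69, 67, 257, 80, 112, 42, 384, 384, 40, 40, 69, 69, 581, 21, 5, 98, 98,
      776, 896, 168, 800] : List ℕ).getD i 0).testBit a
  nb i a := (([0, 0, 0, 0, 0, 256, 0, 0, 0, 0, 8, 0, 0, 64, 64, 512, 16, 0, 8, 8, 128, 8, 0, 256]
      : List ℕ).getD i 0).testBit a
  B i a := if i == 5 && a == 8 then 4 else if i == 10 && a == 3 then 40 else if i == 13 && a == 6
      then 1 else if i == 14 && a == 6 then 2 else if i == 15 && a == 9 then 11 else if i == 16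
      && a == 4 then 14 else if i == 18 && a == 3 then 22 else if i == 19 && a == 3 then 23 else
      if i == 20 && a == 7 then 37 else if i == 21 && a == 3 then 39 else if i == 23 && a == 8
      then 30 else 0

/-- D11b: positions, planes and sides (p = 11, 24 hubs), second plane -/
def D11b : Base where
  P a := ([1, 23, 2, 25, 41, 24, 20, 16, 8, 27, 33] : List ℤ).getD a 0
  C i := ([39, 40, 10, 12, 9, 34, 26, 29, 5, 32, 45, 18, 17, 36, 35, 14, 15, 22, 3, 4, 44, 43,
      42, 21] : List ℤ).getD i 0
  T i a := (([1146, 1146, 938, 938, 940, 1596, 1836, 1805, 965, 1565, 1621, 455, 455, 1082, 1592,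
      426, 482, 242, 901, 901, 1109, 1109, 1107, 211] : List ℕ).getD i 0).testBit a
  up i a := (([98, 98, 386, 896, 384, 556, 1540, 1544, 197, 1544, 65, 261, 261, 42, 552, 384,
      384, 112, 5, 5, 69, 69, 67, 80] : List ℕ).getD i 0).testBit a
  nb i a := (([8, 8, 2, 512, 0, 4, 4, 0, 0, 0, 512, 0, 0, 0, 0, 0, 0, 0, 128, 128, 4, 4, 0, 1] :
      List ℕ).getD i 0).testBit a
  B i a := if i == 0 && a == 3 then 38 else if i == 1 && a == 3 then 37 else if i == 2 && a == 1
      then 13 else if i == 3 && a == 9 then 11 else if i == 5 && a == 2 then 30 else if i == 6 &&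
      a == 2 then 28 else if i == 10 && a == 9 then 31 else if i == 18 && a == 7 then 7 else if i
      == 19 && a == 7 then 6 else if i == 20 && a == 2 then 46 else if i == 21 && a == 2 then 0
      else if i == 23 && a == 0 then 19 else 0

/-- the pieces of 11a -/
def R11a : List (List (Bool × ℕ × ℕ)) :=
  [[(true, 0, 8), (true, 8, 9), (false, 8, 33), (false, 8, 32), (false, 8, 29)],
  [(true, 0, 7), (true, 7, 9), (false, 7, 33), (false, 7, 32), (false, 7, 29)],
  [(true, 0, 17), (true, 9, 17), (false, 17, 19), (true, 17, 45), (false, 13, 17)],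
  [(true, 0, 16), (true, 9, 16), (false, 16, 19), (true, 16, 45), (false, 13, 16)],
  [(true, 0, 18), (true, 18, 42), (false, 18, 19), (true, 18, 45), (false, 13, 18)],
  [(true, 0, 3), (false, 3, 42), (false, 3, 45), (false, 3, 33), (true, 3, 4), (false, 4, 32)],
  [(false, 0, 44), (false, 42, 44), (true, 19, 44), (true, 44, 45), (false, 33, 44)],
  [(false, 42, 43), (true, 19, 43), (true, 41, 43), (true, 43, 45), (false, 33, 43)],
  [(true, 24, 42), (true, 24, 27), (false, 19, 24), (true, 24, 41), (false, 13, 24)],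
  [(false, 34, 42), (false, 34, 41), (false, 34, 45), (true, 33, 34), (true, 32, 34)],
  [(false, 35, 42), (false, 35, 40), (true, 27, 40), (false, 35, 41), (true, 33, 35), (true, 32,
      35)],
  [(true, 26, 27), (false, 19, 26), (true, 26, 41), (false, 26, 29), (false, 13, 26)],
  [(true, 25, 27), (false, 19, 25), (true, 25, 41), (false, 25, 29), (false, 13, 25)],
  [(true, 0, 6), (true, 6, 9), (true, 1, 6), (false, 1, 45), (false, 6, 33), (false, 6, 32),
      (false, 6, 29)],
  [(true, 0, 5), (false, 5, 42), (true, 5, 9), (true, 2, 5), (false, 2, 45), (false, 5, 33),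
      (false, 5, 32)],
  [(true, 0, 15), (true, 9, 15), (false, 15, 19), (true, 15, 45), (true, 11, 15), (false, 11,
      29), (false, 13, 15)],
  [(true, 0, 12), (true, 9, 12), (false, 12, 27), (true, 12, 14), (false, 14, 19), (false, 12,
      29), (false, 12, 13)],
  [(true, 0, 10), (true, 9, 10), (false, 10, 27), (false, 10, 32), (false, 10, 29), (false, 10,
      13)],
  [(true, 21, 42), (false, 21, 22), (true, 22, 27), (false, 19, 21), (true, 21, 41), (true, 21,
      45), (false, 13, 21)],
  [(true, 20, 42), (false, 20, 23), (true, 23, 27), (false, 19, 20), (true, 20, 41), (true, 20,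
      45), (false, 13, 20)],
  [(false, 38, 42), (true, 27, 38), (false, 38, 41), (false, 37, 38), (true, 33, 37), (true, 32,
      38), (true, 29, 38)],
  [(false, 36, 42), (false, 36, 39), (true, 27, 39), (false, 36, 41), (true, 33, 36), (true, 32,
      36), (true, 29, 36)],
  [(false, 9, 31), (true, 27, 31), (true, 31, 41), (true, 31, 33), (false, 31, 32), (false, 29,
      31)],
  [(false, 9, 28), (false, 27, 28), (true, 28, 41), (true, 28, 30), (false, 30, 32), (true, 28,
      29), (false, 13, 28)]]

/-- the pieces of 11b -/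
def R11b : List (List (Bool × ℕ × ℕ)) :=
  [[(true, 23, 39), (false, 38, 39), (true, 25, 38), (false, 39, 41), (true, 24, 39), (true, 20,
      39), (false, 33, 39)],
  [(true, 23, 40), (false, 37, 40), (true, 25, 37), (false, 40, 41), (true, 24, 40), (true, 20,
      40), (false, 33, 40)],
  [(true, 10, 13), (false, 13, 23), (false, 10, 25), (false, 10, 24), (true, 10, 16), (true, 8,
      10), (false, 10, 27)],
  [(false, 12, 23), (false, 12, 25), (false, 12, 24), (true, 12, 16), (true, 8, 12), (true, 11,
      12), (false, 11, 27)],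
  [(false, 2, 9), (false, 9, 25), (false, 9, 24), (true, 9, 16), (true, 8, 9), (false, 9, 27)],
  [(true, 30, 34), (false, 2, 30), (true, 25, 34), (false, 34, 41), (true, 24, 34), (true, 27,
      34), (false, 33, 34)],
  [(true, 26, 28), (false, 2, 28), (false, 25, 26), (false, 24, 26), (false, 8, 26), (true, 26,
      27), (true, 26, 33)],
  [(false, 1, 29), (false, 2, 29), (true, 25, 29), (false, 8, 29), (true, 27, 29), (true, 29,
      33)],
  [(true, 1, 5), (true, 2, 5), (true, 5, 20), (true, 5, 16), (false, 5, 8), (false, 5, 27)],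
  [(false, 1, 32), (false, 2, 32), (true, 25, 32), (false, 32, 41), (true, 27, 32), (true, 32,
      33)],
  [(true, 1, 45), (false, 2, 45), (false, 41, 45), (true, 20, 45), (false, 31, 45), (true, 27,
      31), (false, 33, 45)],
  [(true, 1, 18), (false, 18, 23), (true, 2, 18), (false, 18, 20), (false, 16, 18), (true, 8,
      18)],
  [(true, 1, 17), (false, 17, 23), (true, 2, 17), (false, 17, 20), (false, 16, 17), (true, 8,
      17)],
  [(true, 23, 36), (true, 25, 36), (false, 36, 41), (true, 24, 36), (false, 33, 36)],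
  [(true, 25, 35), (false, 35, 41), (true, 24, 35), (true, 27, 35), (false, 33, 35)],
  [(false, 14, 23), (false, 14, 25), (false, 14, 24), (true, 14, 16), (true, 8, 14)],
  [(false, 15, 23), (false, 15, 24), (false, 15, 20), (true, 15, 16), (true, 8, 15)],
  [(false, 22, 23), (true, 22, 41), (true, 22, 24), (true, 20, 22), (false, 16, 22)],
  [(true, 1, 3), (true, 2, 3), (false, 3, 7), (true, 7, 16), (false, 3, 8), (false, 3, 27)],
  [(true, 1, 4), (true, 2, 4), (false, 4, 6), (true, 6, 16), (false, 4, 8), (false, 4, 27)],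
  [(true, 1, 44), (true, 44, 46), (false, 2, 46), (false, 41, 44), (true, 20, 44), (false, 33,
      44)],
  [(true, 1, 43), (true, 0, 43), (false, 0, 2), (false, 41, 43), (true, 20, 43), (false, 33, 43)],
  [(true, 1, 42), (true, 23, 42), (false, 41, 42), (true, 20, 42), (false, 33, 42)],
  [(false, 19, 21), (true, 1, 19), (false, 21, 23), (true, 21, 41), (true, 20, 21), (false, 16,
      21)]]

theorem valid11a : D11a.Valid 11 24 :=
  ⟨by decide +kernel, by decide +kernel, by decide +kernel⟩

theorem valid11b : D11b.Valid 11 24 :=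
  ⟨by decide +kernel, by decide +kernel, by decide +kernel⟩

theorem compl11 : ∀ i < 24, ∀ a < 11, D11b.T i a = !(D11a.T i a) := by decide +kernel

theorem rows11a : D11a.rows 11 24 = R11a.map (List.map toZ) := by decide +kernel

theorem rows11b : D11b.rows 11 24 = R11b.map (List.map toZ) := by decide +kernel

theorem tri11 : ∑ j ∈ Finset.range 24, ∑ i ∈ Finset.range j,
    (D11a.W 11 i j + D11b.W 11 i j) = 372 := by
  rw [Base.tri_eq_nat R11a R11b rows11a rows11b]
  decide +kernel

theorem diag11 : ∑ i ∈ Finset.range 24, (D11a.W 11 i i + D11b.W 11 i i) = 246 := by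
  decide +kernel

end Data

end Pool.Agent.Lib.MP_266831_co.Upper
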