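import Pool.Agent.Lib.MP_266831_co.UpperFast

/-!
# The explicit layout for `p = 12`
-/

namespace Pool.Agent.Lib.MP_266831_co.Upper

open Pool.Agent.Lib.MP_266831_co

namespace Data

/-- D12a: positions, planes and sides (p = 12, 16 hubs), first plane -/
def D12a : Base where
  P a := ([3, 5, 12, 23, 9, 10, 33, 19, 26, 13, 21, 30] : List ℤ).getD a 0
  C i := ([4, 2, 6, 11, 35, 34, 32, 31, 28, 29, 14, 16, 18, 24, 22, 20] : List ℤ).getD i 0
  T i a := (([2151, 615, 2103, 567, 1733, 1733, 3147, 3147, 2362, 2362, 948, 948, 1944, 3480,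
      3528, 1992] : List ℕ).getD i 0).testBit a
  up i a := (([37, 550, 37, 7, 1664, 1664, 3080, 3080, 2312, 2312, 896, 644, 640, 2320, 3136,
      704] : List ℕ).getD i 0).testBit a
  nb i a := (([0, 0, 0, 0, 4, 4, 0, 0, 32, 32, 256, 4, 0, 16, 256, 0] : List ℕ).getD i 0).testBit
      a
  B i a := if i == 4 && a == 2 then 0 else if i == 5 && a == 2 then 1 else if i == 8 && a == 5
      then 8 else if i == 9 && a == 5 then 7 else if i == 10 && a == 8 then 17 else if i == 11 &&
      a == 2 then 15 else if i == 13 && a == 4 then 27 else if i == 14 && a == 8 then 25 else 0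

/-- D12b: positions, planes and sides (p = 12, 16 hubs), second plane -/
def D12b : Base where
  P a := ([1, 3, 31, 10, 23, 29, 17, 14, 12, 20, 16, 4] : List ℤ).getD a 0
  C i := ([13, 11, 15, 9, 27, 25, 22, 21, 19, 18, 5, 6, 2, 0, 30, 28] : List ℤ).getD i 0
  T i a := (([1944, 3480, 1992, 3528, 2362, 2362, 948, 948, 1733, 1733, 3147, 3147, 2151, 615,
      567, 2103] : List ℕ).getD i 0).testBit a
  up i a := (([1160, 1408, 1288, 1472, 304, 50, 548, 548, 517, 517, 67, 67, 2114, 577, 560, 48] :
      List ℕ).getD i 0).testBit a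
  nb i a := (([0, 0, 0, 0, 256, 2, 0, 0, 0, 0, 1024, 1024, 0, 0, 0, 0] : List ℕ).getD i
      0).testBit a
  B i a := if i == 4 && a == 8 then 24 else if i == 5 && a == 1 then 26 else if i == 10 && a ==
      10 then 8 else if i == 11 && a == 10 then 7 else 0

/-- the pieces of 12a -/
def R12a : List (List (Bool × ℕ × ℕ)) :=
  [[(true, 3, 4), (false, 4, 5), (true, 4, 12), (true, 4, 10), (false, 4, 33), (false, 4, 30)],
  [(false, 2, 3), (true, 2, 5), (true, 2, 12), (true, 2, 10), (false, 2, 33), (true, 2, 13)],
  [(true, 3, 6), (false, 5, 6), (true, 6, 12), (false, 6, 9), (true, 6, 10), (false, 6, 30)],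
  [(true, 3, 11), (true, 5, 11), (true, 11, 12), (false, 9, 11), (false, 10, 11), (false, 11,
      13)],
  [(false, 3, 35), (false, 0, 35), (true, 0, 12), (false, 33, 35), (true, 19, 35), (true, 13,
      35), (true, 21, 35)],
  [(false, 3, 34), (false, 1, 34), (true, 1, 12), (false, 33, 34), (true, 19, 34), (true, 13,
      34), (true, 21, 34)],
  [(false, 3, 32), (false, 5, 32), (true, 23, 32), (false, 32, 33), (true, 21, 32), (true, 30,
      32)],
  [(false, 3, 31), (false, 5, 31), (true, 23, 31), (false, 31, 33), (true, 21, 31), (true, 30,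
      31)],
  [(false, 5, 28), (true, 23, 28), (false, 9, 28), (false, 8, 28), (true, 8, 10), (true, 26, 28),
      (true, 28, 30)],
  [(false, 5, 29), (true, 23, 29), (false, 9, 29), (false, 7, 29), (true, 7, 10), (true, 26, 29),
      (true, 29, 30)],
  [(false, 12, 14), (false, 9, 14), (false, 10, 14), (true, 14, 19), (true, 14, 17), (false, 17,
      26), (true, 13, 14)],
  [(true, 15, 16), (false, 12, 15), (false, 9, 16), (false, 10, 16), (true, 16, 19), (false, 16,
      26), (true, 13, 16)],
  [(false, 18, 23), (false, 9, 18), (true, 18, 19), (false, 18, 26), (true, 13, 18), (false, 18,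
      21)],
  [(false, 23, 24), (true, 24, 27), (false, 9, 27), (false, 19, 24), (true, 24, 26), (false, 21,
      24), (true, 24, 30)],
  [(false, 22, 23), (true, 22, 33), (false, 19, 22), (false, 22, 25), (true, 25, 26), (true, 21,
      22), (true, 22, 30)],
  [(false, 20, 23), (true, 20, 33), (true, 19, 20), (false, 20, 26), (true, 13, 20), (false, 20,
      21)]]

/-- the pieces of 12b -/
def R12b : List (List (Bool × ℕ × ℕ)) :=
  [[(true, 10, 13), (false, 13, 23), (true, 13, 14), (false, 12, 13), (false, 13, 20), (true, 13,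
      16)],
  [(false, 10, 11), (false, 11, 23), (true, 11, 14), (true, 11, 12), (true, 11, 16), (false, 4,
      11)],
  [(true, 10, 15), (false, 15, 17), (false, 14, 15), (true, 12, 15), (false, 15, 20), (true, 15,
      16)],
  [(false, 9, 10), (true, 9, 17), (true, 9, 14), (true, 9, 12), (true, 9, 16), (false, 4, 9)],
  [(false, 3, 27), (false, 10, 27), (true, 23, 27), (true, 27, 29), (true, 24, 27), (false, 12,
      24), (false, 4, 27)],
  [(true, 25, 26), (false, 3, 26), (false, 10, 25), (true, 23, 25), (true, 25, 29), (false, 12,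
      25), (false, 4, 25)],
  [(true, 22, 31), (false, 22, 23), (true, 22, 29), (false, 14, 22), (false, 12, 22), (true, 20,
      22)],
  [(true, 21, 31), (false, 21, 23), (true, 21, 29), (false, 14, 21), (false, 12, 21), (true, 20,
      21)],
  [(true, 1, 19), (true, 19, 31), (false, 17, 19), (false, 14, 19), (true, 19, 20), (false, 16,
      19)],
  [(true, 1, 18), (true, 18, 31), (false, 17, 18), (false, 14, 18), (true, 18, 20), (false, 16,
      18)],
  [(true, 1, 5), (true, 3, 5), (false, 5, 10), (true, 5, 17), (false, 5, 8), (true, 8, 16),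
      (false, 4, 5)],
  [(true, 1, 6), (true, 3, 6), (false, 6, 10), (true, 6, 17), (false, 6, 7), (true, 7, 16),
      (false, 4, 6)],
  [(false, 1, 2), (true, 2, 3), (false, 2, 31), (false, 2, 29), (true, 2, 17), (true, 2, 4)],
  [(true, 0, 1), (false, 0, 3), (false, 0, 31), (false, 0, 29), (true, 0, 17), (true, 0, 20)],
  [(false, 1, 30), (false, 3, 30), (false, 30, 31), (true, 23, 30), (true, 29, 30), (true, 20,
      30)],
  [(false, 1, 28), (false, 3, 28), (false, 28, 31), (true, 23, 28), (true, 28, 29), (false, 4,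
      28)]]

theorem valid12a : D12a.Valid 12 16 :=
  ⟨by decide +kernel, by decide +kernel, by decide +kernel⟩

theorem valid12b : D12b.Valid 12 16 :=
  ⟨by decide +kernel, by decide +kernel, by decide +kernel⟩

theorem compl12 : ∀ i < 16, ∀ a < 12, D12b.T i a = !(D12a.T i a) := by decide +kernel

theorem rows12a : D12a.rows 12 16 = R12a.map (List.map toZ) := by decide +kernel

theorem rows12b : D12b.rows 12 16 = R12b.map (List.map toZ) := by decide +kernel

theorem tri12 : ∑ j ∈ Finset.range 16, ∑ i ∈ Finset.range j,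
    (D12a.W 12 i j + D12b.W 12 i j) = 176 := by
  rw [Base.tri_eq_nat R12a R12b rows12a rows12b]
  decide +kernel

theorem diag12 : ∑ i ∈ Finset.range 16, (D12a.W 12 i i + D12b.W 12 i i) = 196 := by
  decide +kernel

end Data

end Pool.Agent.Lib.MP_266831_co.Upper
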