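import Pool.Agent.Lib.MP_266831_co.UpperFast

/-!
# The explicit layout for `p = 16`
-/

namespace Pool.Agent.Lib.MP_266831_co.Upper

open Pool.Agent.Lib.MP_266831_co

namespace Data

/-- D16a: positions, planes and sides (p = 16, 16 hubs), first plane -/
def D16a : Base where
  P a := ([37, 35, 7, 1, 26, 28, 21, 32, 6, 11, 24, 10, 14, 31, 15, 39] : List ℤ).getD a 0
  C i := ([12, 8, 19, 4, 13, 3, 38, 25, 9, 2, 27, 23, 36, 18, 20, 40] : List ℤ).getD i 0
  T i a := (([56897, 36636, 28899, 8638, 56897, 8638, 55819, 3956, 36636, 41359, 9716, 24176,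
      61579, 28899, 29936, 35599] : List ℕ).getD i 0).testBit a
  up i a := (([3648, 1300, 20545, 8370, 3648, 8354, 32779, 2820, 1300, 41091, 8580, 23040, 32779,
      20545, 20544, 32779] : List ℕ).getD i 0).testBit a
  nb i a := (([64, 0, 33, 2, 0, 18, 0, 0, 8, 0, 0, 0, 0, 33, 0, 0] : List ℕ).getD i 0).testBit a
  B i a := if i == 0 && a == 6 then 22 else if i == 2 && a == 0 then 16 else if i == 2 && a == 5
      then 29 else if i == 3 && a == 1 then 33 else if i == 5 && a == 1 then 34 else if i == 5 &&
      a == 4 then 5 else if i == 8 && a == 3 then 0 else if i == 13 && a == 0 then 17 else if i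
      == 13 && a == 5 then 30 else 0

/-- D16b: positions, planes and sides (p = 16, 16 hubs), second plane -/
def D16b : Base where
  P a := ([12, 14, 40, 16, 29, 27, 24, 2, 41, 36, 31, 37, 7, 3, 9, 19] : List ℤ).getD a 0
  C i := ([0, 5, 38, 21, 1, 22, 28, 13, 4, 23, 20, 15, 30, 39, 17, 26] : List ℤ).getD i 0
  T i a := (([8638, 28899, 36636, 56897, 8638, 56897, 9716, 61579, 28899, 24176, 55819, 41359,
      3956, 36636, 35599, 29936] : List ℕ).getD i 0).testBit a
  up i a := (([308, 8416, 3600, 20545, 308, 20545, 8580, 32779, 8416, 20544, 20491, 32779, 2820,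
      3600, 32779, 28800] : List ℕ).getD i 0).testBit a
  nb i a := (([0, 0, 0, 1025, 0, 1025, 0, 0, 64, 2560, 4096, 0, 0, 32768, 0, 16384] : List
      ℕ).getD i 0).testBit a
  B i a := if i == 3 && a == 0 then 11 else if i == 3 && a == 10 then 34 else if i == 5 && a == 0
      then 10 else if i == 5 && a == 10 then 33 else if i == 8 && a == 6 then 25 else if i == 9
      && a == 9 then 35 else if i == 9 && a == 11 then 32 else if i == 10 && a == 12 then 8 else
      if i == 13 && a == 15 then 18 else if i == 15 && a == 14 then 6 else 0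

/-- the pieces of 16a -/
def R16a : List (List (Bool × ℕ × ℕ)) :=
  [[(false, 12, 37), (true, 12, 22), (false, 21, 22), (true, 11, 12), (true, 12, 24), (true, 10,
      12), (false, 12, 14), (false, 12, 15), (false, 12, 39)],
  [(true, 7, 8), (false, 1, 8), (true, 8, 26), (true, 6, 8), (false, 8, 11), (true, 8, 24),
      (false, 8, 10), (false, 8, 39)],
  [(true, 16, 19), (false, 16, 37), (false, 19, 35), (false, 19, 29), (true, 28, 29), (true, 19,
      21), (false, 19, 32), (true, 14, 19), (false, 19, 31), (true, 15, 19)],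
  [(true, 4, 33), (false, 33, 35), (false, 4, 7), (false, 1, 4), (true, 4, 26), (true, 4, 28),
      (true, 4, 32), (false, 4, 6), (true, 4, 31)],
  [(false, 13, 37), (true, 13, 21), (true, 11, 13), (true, 13, 24), (true, 10, 13), (false, 13,
      14), (false, 13, 15), (false, 13, 39)],
  [(true, 3, 34), (false, 34, 35), (false, 3, 7), (false, 1, 3), (false, 3, 5), (true, 5, 26),
      (true, 3, 28), (true, 3, 32), (false, 3, 6), (true, 3, 31)],
  [(true, 37, 38), (true, 35, 38), (true, 1, 38), (false, 11, 38), (false, 10, 38), (false, 14,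
      38), (false, 15, 38), (true, 38, 39)],
  [(true, 7, 25), (false, 25, 26), (false, 25, 28), (false, 21, 25), (true, 6, 25), (true, 11,
      25), (false, 24, 25), (true, 10, 25)],
  [(true, 7, 9), (false, 0, 9), (true, 0, 1), (true, 9, 26), (true, 6, 9), (false, 9, 11), (true,
      9, 24), (false, 9, 10), (false, 9, 39)],
  [(true, 2, 37), (true, 2, 35), (false, 2, 7), (false, 1, 2), (true, 2, 32), (false, 2, 6),
      (true, 2, 31), (true, 2, 39)],
  [(true, 7, 27), (false, 26, 27), (false, 27, 28), (false, 21, 27), (true, 27, 32), (true, 6,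
      27), (false, 24, 27), (true, 27, 31)],
  [(false, 23, 26), (false, 23, 28), (false, 21, 23), (true, 11, 23), (false, 23, 24), (true, 10,
      23), (true, 14, 23), (true, 15, 23)],
  [(true, 36, 37), (true, 35, 36), (true, 1, 36), (false, 32, 36), (false, 14, 36), (false, 31,
      36), (false, 15, 36), (true, 36, 39)],
  [(true, 17, 18), (false, 17, 37), (false, 18, 35), (false, 18, 30), (true, 28, 30), (true, 18,
      21), (false, 18, 32), (true, 14, 18), (false, 18, 31), (true, 15, 18)],
  [(false, 20, 26), (false, 20, 28), (true, 20, 21), (false, 20, 32), (false, 20, 24), (true, 14,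
      20), (false, 20, 31), (true, 15, 20)],
  [(true, 37, 40), (true, 35, 40), (false, 7, 40), (true, 1, 40), (false, 6, 40), (false, 11,
      40), (false, 10, 40), (true, 39, 40)]]

/-- the pieces of 16b -/
def R16b : List (List (Bool × ℕ × ℕ)) :=
  [[(false, 0, 14), (true, 0, 40), (false, 0, 16), (true, 0, 29), (true, 0, 27), (false, 0, 2),
      (true, 0, 41), (false, 0, 3)],
  [(false, 5, 12), (false, 5, 14), (true, 5, 27), (true, 5, 24), (true, 2, 5), (false, 5, 7),
      (true, 3, 5), (false, 5, 9)],
  [(false, 38, 40), (false, 16, 38), (true, 29, 38), (false, 38, 41), (true, 36, 38), (true, 31,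
      38), (true, 37, 38), (false, 19, 38)],
  [(true, 11, 21), (false, 11, 12), (true, 21, 24), (false, 21, 36), (false, 21, 34), (true, 31,
      34), (false, 21, 37), (true, 7, 21), (true, 9, 21), (false, 19, 21)],
  [(false, 1, 14), (true, 1, 40), (false, 1, 16), (true, 1, 29), (true, 1, 27), (false, 1, 2),
      (true, 1, 41), (false, 1, 3)],
  [(true, 10, 22), (false, 10, 12), (true, 22, 24), (false, 22, 36), (false, 22, 33), (true, 31,
      33), (false, 22, 37), (true, 7, 22), (true, 9, 22), (false, 19, 22)],
  [(true, 28, 40), (false, 28, 29), (false, 27, 28), (false, 24, 28), (true, 2, 28), (true, 28,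
      41), (false, 28, 31), (true, 3, 28)],
  [(true, 12, 13), (true, 13, 14), (true, 13, 16), (false, 2, 13), (false, 7, 13), (false, 3,
      13), (false, 9, 13), (true, 13, 19)],
  [(false, 4, 12), (false, 4, 14), (true, 4, 27), (true, 4, 25), (false, 24, 25), (true, 2, 4),
      (false, 4, 7), (true, 3, 4), (false, 4, 9)],
  [(false, 23, 29), (false, 23, 27), (true, 23, 24), (false, 23, 35), (true, 35, 36), (false, 23,
      31), (false, 23, 32), (true, 32, 37), (true, 7, 23), (true, 9, 23)],
  [(true, 12, 20), (true, 14, 20), (true, 16, 20), (false, 20, 36), (false, 20, 37), (true, 8,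
      20), (false, 7, 8), (true, 9, 20), (false, 19, 20)],
  [(true, 12, 15), (true, 14, 15), (false, 15, 40), (true, 15, 16), (false, 2, 15), (false, 15,
      41), (false, 3, 15), (true, 15, 19)],
  [(true, 30, 40), (false, 29, 30), (false, 27, 30), (false, 24, 30), (true, 30, 41), (true, 30,
      36), (false, 30, 31), (true, 30, 37)],
  [(false, 39, 40), (false, 16, 39), (true, 29, 39), (false, 39, 41), (true, 36, 39), (true, 31,
      39), (true, 37, 39), (false, 18, 39), (true, 18, 19)],
  [(true, 12, 17), (true, 14, 17), (false, 17, 40), (true, 16, 17), (false, 17, 41), (false, 17,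
      36), (false, 17, 37), (true, 17, 19)],
  [(false, 26, 29), (false, 26, 27), (false, 24, 26), (true, 2, 26), (false, 26, 31), (true, 7,
      26), (true, 3, 26), (true, 6, 26), (false, 6, 9)]]

theorem valid16a : D16a.Valid 16 16 :=
  ⟨by decide +kernel, by decide +kernel, by decide +kernel⟩

theorem valid16b : D16b.Valid 16 16 :=
  ⟨by decide +kernel, by decide +kernel, by decide +kernel⟩

theorem compl16 : ∀ i < 16, ∀ a < 16, D16b.T i a = !(D16a.T i a) := by decide +kernel

theorem rows16a : D16a.rows 16 16 = R16a.map (List.map toZ) := by decide +kernel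

theorem rows16b : D16b.rows 16 16 = R16b.map (List.map toZ) := by decide +kernel

theorem tri16 : ∑ j ∈ Finset.range 16, ∑ i ∈ Finset.range j,
    (D16a.W 16 i j + D16b.W 16 i j) = 368 := by
  rw [Base.tri_eq_nat R16a R16b rows16a rows16b]
  decide +kernel

theorem diag16 : ∑ i ∈ Finset.range 16, (D16a.W 16 i i + D16b.W 16 i i) = 389 := by
  decide +kernel

end Data

end Pool.Agent.Lib.MP_266831_co.Upper
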