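import Pool.Agent.Lib.MP_266831_co.UpperFast

/-!
# The explicit layout for `p = 9`
-/

namespace Pool.Agent.Lib.MP_266831_co.Upper

open Pool.Agent.Lib.MP_266831_co

namespace Data

/-- D9a: positions, planes and sides (p = 9, 28 hubs), first plane -/
def D9a : Base where
  P a := ([3, 9, 39, 27, 22, 21, 20, 33, 15] : List ℤ).getD a 0
  C i := ([8, 5, 4, 32, 38, 37, 10, 13, 12, 17, 34, 25, 29, 30, 18, 19, 40, 0, 2, 1, 31, 11, 16,
      14, 24, 23, 28, 26] : List ℤ).getD i 0
  T i a := (([323, 195, 195, 201, 150, 150, 278, 306, 306, 354, 156, 184, 232, 232, 355, 355,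
      151, 151, 199, 199, 233, 310, 370, 370, 188, 188, 248, 248] : List ℕ).getD i 0).testBit a
  up i a := (([3, 3, 3, 136, 18, 18, 20, 48, 48, 96, 24, 136, 136, 136, 96, 96, 19, 19, 3, 3,
      136, 52, 112, 112, 140, 140, 136, 136] : List ℕ).getD i 0).testBit a
  nb i a := (([0, 0, 0, 0, 0, 0, 0, 0, 0, 0, 0, 0, 0, 0, 1, 1, 0, 0, 0, 0, 0, 0, 0, 0, 4, 4, 0,
      0] : List ℕ).getD i 0).testBit a
  B i a := if i == 14 && a == 0 then 7 else if i == 15 && a == 0 then 6 else if i == 24 && a == 2
      then 35 else if i == 25 && a == 2 then 36 else 0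

/-- D9b: positions, planes and sides (p = 9, 28 hubs), second plane -/
def D9b : Base where
  P a := ([0, 4, 10, 19, 27, 32, 37, 13, 5] : List ℤ).getD a 0
  C i := ([25, 26, 29, 6, 38, 35, 18, 15, 16, 11, 39, 1, 9, 8, 22, 24, 33, 34, 30, 31, 7, 17, 14,
      12, 41, 40, 2, 3] : List ℤ).getD i 0
  T i a := (([188, 316, 316, 310, 361, 361, 233, 205, 205, 157, 355, 327, 279, 279, 156, 156,
      360, 360, 312, 312, 278, 201, 141, 141, 323, 323, 263, 263] : List ℕ).getD i 0).testBit a
  up i a := (([20, 20, 292, 52, 296, 320, 136, 136, 136, 152, 290, 322, 20, 20, 132, 20, 320,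
      320, 288, 288, 20, 136, 136, 136, 258, 258, 258, 2] : List ℕ).getD i 0).testBit a
  nb i a := (([128, 256, 0, 0, 8, 0, 0, 0, 0, 0, 0, 64, 0, 0, 16, 128, 0, 0, 0, 0, 0, 0, 0, 0, 0,
      0, 0, 0] : List ℕ).getD i 0).testBit a
  B i a := if i == 0 && a == 7 then 20 else if i == 1 && a == 8 then 28 else if i == 4 && a == 3
      then 36 else if i == 11 && a == 6 then 42 else if i == 14 && a == 4 then 23 else if i == 15
      && a == 7 then 21 else 0

/-- the pieces of 9a -/
def R9a : List (List (Bool × ℕ × ℕ)) :=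
  [[(true, 3, 8), (true, 8, 9), (false, 8, 20), (false, 8, 15)],
  [(true, 3, 5), (true, 5, 9), (false, 5, 20), (false, 5, 33)],
  [(true, 3, 4), (true, 4, 9), (false, 4, 20), (false, 4, 33)],
  [(false, 3, 32), (true, 27, 32), (false, 20, 32), (true, 32, 33)],
  [(true, 9, 38), (false, 38, 39), (true, 22, 38), (false, 33, 38)],
  [(true, 9, 37), (false, 37, 39), (true, 22, 37), (false, 33, 37)],
  [(false, 9, 10), (true, 10, 39), (true, 10, 22), (false, 10, 15)],
  [(false, 9, 13), (true, 13, 22), (true, 13, 21), (false, 13, 15)],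
  [(false, 9, 12), (true, 12, 22), (true, 12, 21), (false, 12, 15)],
  [(false, 9, 17), (true, 17, 21), (true, 17, 20), (false, 15, 17)],
  [(false, 34, 39), (true, 27, 34), (true, 22, 34), (false, 33, 34)],
  [(true, 25, 27), (false, 22, 25), (false, 21, 25), (true, 25, 33)],
  [(true, 27, 29), (false, 21, 29), (false, 20, 29), (true, 29, 33)],
  [(true, 27, 30), (false, 21, 30), (false, 20, 30), (true, 30, 33)],
  [(false, 7, 18), (true, 3, 7), (false, 9, 18), (true, 18, 21), (true, 18, 20), (false, 15, 18)],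
  [(false, 6, 19), (true, 3, 6), (false, 9, 19), (true, 19, 21), (true, 19, 20), (false, 15, 19)],
  [(true, 3, 40), (true, 9, 40), (false, 39, 40), (true, 22, 40), (false, 33, 40)],
  [(true, 0, 3), (true, 0, 9), (false, 0, 39), (true, 0, 22), (false, 0, 33)],
  [(true, 2, 3), (true, 2, 9), (false, 2, 39), (false, 2, 20), (false, 2, 33)],
  [(true, 1, 3), (true, 1, 9), (false, 1, 39), (false, 1, 20), (false, 1, 33)],
  [(false, 3, 31), (true, 27, 31), (false, 21, 31), (false, 20, 31), (true, 31, 33)],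
  [(false, 9, 11), (true, 11, 39), (true, 11, 22), (true, 11, 21), (false, 11, 15)],
  [(false, 9, 16), (true, 16, 22), (true, 16, 21), (true, 16, 20), (false, 15, 16)],
  [(false, 9, 14), (true, 14, 22), (true, 14, 21), (true, 14, 20), (false, 14, 15)],
  [(true, 24, 35), (false, 35, 39), (true, 24, 27), (false, 22, 24), (false, 21, 24), (true, 24,
      33)],
  [(true, 23, 36), (false, 36, 39), (true, 23, 27), (false, 22, 23), (false, 21, 23), (true, 23,
      33)],
  [(true, 27, 28), (false, 22, 28), (false, 21, 28), (false, 20, 28), (true, 28, 33)],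
  [(true, 26, 27), (false, 22, 26), (false, 21, 26), (false, 20, 26), (true, 26, 33)]]

/-- the pieces of 9b -/
def R9b : List (List (Bool × ℕ × ℕ)) :=
  [[(true, 10, 25), (false, 19, 25), (true, 25, 27), (false, 25, 32), (false, 20, 25), (true, 13,
      20)],
  [(true, 10, 26), (false, 19, 26), (true, 26, 27), (false, 26, 32), (false, 26, 28), (true, 5,
      28)],
  [(true, 10, 29), (false, 19, 29), (false, 27, 29), (true, 29, 32), (true, 5, 29)],
  [(false, 4, 6), (true, 6, 10), (true, 6, 27), (true, 6, 32), (false, 5, 6)],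
  [(false, 0, 38), (true, 36, 38), (false, 19, 36), (true, 32, 38), (false, 37, 38), (true, 5,
      38)],
  [(false, 0, 35), (false, 19, 35), (false, 32, 35), (true, 35, 37), (true, 5, 35)],
  [(false, 0, 18), (true, 18, 19), (false, 18, 32), (false, 18, 37), (true, 13, 18)],
  [(false, 0, 15), (false, 10, 15), (true, 15, 19), (false, 15, 37), (true, 13, 15)],
  [(false, 0, 16), (false, 10, 16), (true, 16, 19), (false, 16, 37), (true, 13, 16)],
  [(false, 0, 11), (false, 10, 11), (true, 11, 19), (true, 11, 27), (true, 11, 13)],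
  [(false, 0, 39), (true, 4, 39), (true, 32, 39), (false, 37, 39), (true, 5, 39)],
  [(false, 0, 1), (true, 1, 4), (false, 1, 10), (true, 1, 42), (false, 37, 42), (true, 1, 5)],
  [(false, 0, 9), (false, 4, 9), (true, 9, 10), (true, 9, 27), (false, 5, 9)],
  [(false, 0, 8), (false, 4, 8), (true, 8, 10), (true, 8, 27), (false, 5, 8)],
  [(true, 10, 22), (false, 19, 22), (false, 22, 23), (true, 23, 27), (true, 13, 22)],
  [(true, 10, 24), (false, 19, 24), (true, 24, 27), (false, 21, 24), (true, 13, 21)],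
  [(false, 19, 33), (false, 32, 33), (true, 33, 37), (true, 5, 33)],
  [(false, 19, 34), (false, 32, 34), (true, 34, 37), (true, 5, 34)],
  [(false, 19, 30), (false, 27, 30), (true, 30, 32), (true, 5, 30)],
  [(false, 19, 31), (false, 27, 31), (true, 31, 32), (true, 5, 31)],
  [(false, 4, 7), (true, 7, 10), (true, 7, 27), (false, 5, 7)],
  [(false, 0, 17), (true, 17, 19), (false, 17, 37), (true, 13, 17)],
  [(false, 0, 14), (false, 10, 14), (true, 14, 19), (true, 13, 14)],
  [(false, 0, 12), (false, 10, 12), (true, 12, 19), (true, 12, 13)],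
  [(false, 0, 41), (true, 4, 41), (false, 37, 41), (true, 5, 41)],
  [(false, 0, 40), (true, 4, 40), (false, 37, 40), (true, 5, 40)],
  [(false, 0, 2), (true, 2, 4), (false, 2, 10), (true, 2, 5)],
  [(false, 0, 3), (true, 3, 4), (false, 3, 10), (false, 3, 5)]]

theorem valid9a : D9a.Valid 9 28 :=
  ⟨by decide +kernel, by decide +kernel, by decide +kernel⟩

theorem valid9b : D9b.Valid 9 28 :=
  ⟨by decide +kernel, by decide +kernel, by decide +kernel⟩

theorem compl9 : ∀ i < 28, ∀ a < 9, D9b.T i a = !(D9a.T i a) := by decide +kernel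

theorem rows9a : D9a.rows 9 28 = R9a.map (List.map toZ) := by decide +kernel

theorem rows9b : D9b.rows 9 28 = R9b.map (List.map toZ) := by decide +kernel

theorem tri9 : ∑ j ∈ Finset.range 28, ∑ i ∈ Finset.range j,
    (D9a.W 9 i j + D9b.W 9 i j) = 292 := by
  rw [Base.tri_eq_nat R9a R9b rows9a rows9b]
  decide +kernel

theorem diag9 : ∑ i ∈ Finset.range 28, (D9a.W 9 i i + D9b.W 9 i i) = 169 := by
  decide +kernel

end Data

end Pool.Agent.Lib.MP_266831_co.Upper
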