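import Pool.Agent.Lib.MP_266831_co.UpperArc

/-!
# From an axis layout of a bipartite graph to a drawing with few crossings
-/

namespace Pool.Agent.Lib.MP_266831_co.Upper

open Pool.Agent.Lib.MP_266831_co

variable {p q : ℕ}

/-- the bipartite graph in which the hub `h` is joined to the pole `a` if `R h a` -/
def bip (R : Fin q → Fin p → Prop) : SimpleGraph (Fin p ⊕ Fin q) where
  Adj u v := ∃ x : Fin q × Fin p, R x.1 x.2 ∧ s(u, v) = s(Sum.inr x.1, Sum.inl x.2)
  symm := ⟨fun u v h => by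
    obtain ⟨x, h1, h2⟩ := h
    exact ⟨x, h1, by rw [Sym2.eq_swap]; exact h2⟩⟩
  loopless := ⟨fun u h => by
    obtain ⟨x, h1, h2⟩ := h
    rw [Sym2.eq_iff] at h2
    rcases h2 with ⟨h3, h4⟩ | ⟨h3, h4⟩
    · rw [h3] at h4; exact absurd h4 (by simp)
    · rw [h3] at h4; exact absurd h4 (by simp)⟩

lemma mem_edgeSet_bip {R : Fin q → Fin p → Prop} {e : Sym2 (Fin p ⊕ Fin q)} :
    e ∈ (bip R).edgeSet ↔ ∃ x : Fin q × Fin p, R x.1 x.2 ∧ e = s(Sum.inr x.1, Sum.inl x.2) := by
  induction e with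
  | _ u v => rw [SimpleGraph.mem_edgeSet]; rfl

lemma edge_inj {x y : Fin q × Fin p}
    (h : s((Sum.inr x.1 : Fin p ⊕ Fin q), Sum.inl x.2) = s(Sum.inr y.1, Sum.inl y.2)) : x = y := by
  rw [Sym2.eq_iff] at h
  rcases h with ⟨h1, h2⟩ | ⟨h1, h2⟩
  · exact Prod.ext (Sum.inr_injective h1) (Sum.inl_injective h2)
  · exact absurd h1 (by simp)

/-- An axis layout of `bip R`. -/
structure Layout (R : Fin q → Fin p → Prop) where
  xP : Fin p → ℝ
  xC : Fin q → ℝ
  xP_inj : Function.Injective xP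
  xC_inj : Function.Injective xC
  xPC : ∀ a h, xP a ≠ xC h
  A : Fin q × Fin p → AxisPath
  z_zero : ∀ x : Fin q × Fin p, R x.1 x.2 → (A x).z 0 = xC x.1
  z_last : ∀ x : Fin q × Fin p, R x.1 x.2 → (A x).z ((A x).n + 1) = xP x.2
  good : ∀ x : Fin q × Fin p, R x.1 x.2 → Good (A x)
  z_ne_P : ∀ x : Fin q × Fin p, R x.1 x.2 → ∀ i, 1 ≤ i → i ≤ (A x).n → ∀ b, (A x).z i ≠ xP b
  z_ne_C : ∀ x : Fin q × Fin p, R x.1 x.2 → ∀ i, 1 ≤ i → i ≤ (A x).n → ∀ g, (A x).z i ≠ xC g
  z_ne_z : ∀ x y : Fin q × Fin p, R x.1 x.2 → R y.1 y.2 → x ≠ y →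
    ∀ i, 1 ≤ i → i ≤ (A x).n → ∀ j, 1 ≤ j → j ≤ (A y).n → (A x).z i ≠ (A y).z j

namespace Layout

variable {R : Fin q → Fin p → Prop} (L : Layout R)

open Classical in
/-- the arcs of the drawing -/
noncomputable def arc (e : Sym2 (Fin p ⊕ Fin q)) : ℝ → ℝ × ℝ :=
  if H : ∃ x : Fin q × Fin p, e = s(Sum.inr x.1, Sum.inl x.2) then arcFun (L.A H.choose)
  else fun _ => 0

lemma arc_eq (x : Fin q × Fin p) : L.arc s(Sum.inr x.1, Sum.inl x.2) = arcFun (L.A x) := by
  have H : ∃ y : Fin q × Fin p, s((Sum.inr x.1 : Fin p ⊕ Fin q), Sum.inl x.2) =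
    s(Sum.inr y.1, Sum.inl y.2) := ⟨x, rfl⟩
  have := H.choose_spec
  rw [arc, dif_pos H, ← edge_inj this]

/-- the positions of the vertices -/
noncomputable def pos : Fin p ⊕ Fin q → ℝ := Sum.elim L.xP L.xC

lemma pos_inj : Function.Injective L.pos := by
  intro u v h
  rcases u with a | g <;> rcases v with b | k
  · exact congrArg _ (L.xP_inj h)
  · exact absurd h (L.xPC a k)
  · exact absurd h.symm (L.xPC b g)
  · exact congrArg _ (L.xC_inj h)

/-- the drawing of a layout -/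
noncomputable def drawing : Drawing (bip R) where
  pt v := (L.pos v, 0)
  pt_injective u v h := L.pos_inj (congrArg Prod.fst h)
  arc := L.arc
  arc_poly e he := by
    obtain ⟨x, hx, rfl⟩ := mem_edgeSet_bip.1 he
    rw [L.arc_eq]
    exact arcFun_isPolyArc (L.good x hx)
  arc_ends e he := by
    obtain ⟨x, hx, rfl⟩ := mem_edgeSet_bip.1 he
    rw [L.arc_eq, arcFun_zero, arcFun_one, L.z_zero x hx, L.z_last x hx]
    rfl
  arc_avoid e he t ht v := by
    obtain ⟨x, hx, rfl⟩ := mem_edgeSet_bip.1 he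
    rw [L.arc_eq]
    rcases exists_rep (L.A x) ht.1 ht.2 with ⟨k, hk1, hk2, _, hp⟩ | ⟨k, f, hk, f0, f1, _, hp⟩
    · rw [hp]
      intro h
      have h1 : (L.A x).z k = L.pos v := congrArg Prod.fst h
      rcases v with b | g
      · exact L.z_ne_P x hx k hk1 hk2 b h1
      · exact L.z_ne_C x hx k hk1 hk2 g h1
    · rw [hp]
      intro h
      exact piece_snd_ne_zero f0 f1 ((L.good x hx).ne hk) (congrArg Prod.snd h)

/-- `Q` is an interior point of the `k`-th tent of `A` and of the `l`-th tent of `B` -/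
def IsCommon (A B : AxisPath) (k l : ℕ) (Q : ℝ × ℝ) : Prop :=
  ∃ f g : ℝ, 0 < f ∧ f < 1 ∧ 0 < g ∧ g < 1 ∧ Q = piece A k f ∧ Q = piece B l g

/-- axis points of a path are vertices only at its ends -/
lemma end_cases {x : Fin q × Fin p} (hx : R x.1 x.2) {y : Fin q × Fin p} (hy : R y.1 y.2) (hxy : x ≠ y)
    {i j : ℕ} (hi : i ≤ (L.A x).n + 1) (hj : j ≤ (L.A y).n + 1) (h : (L.A x).z i = (L.A y).z j) :
    (i = 0 ∧ j = 0 ∧ x.1 = y.1) ∨ (i = (L.A x).n + 1 ∧ j = (L.A y).n + 1 ∧ x.2 = y.2) := by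
  have hi' : i = 0 ∨ i = (L.A x).n + 1 ∨ (1 ≤ i ∧ i ≤ (L.A x).n) := by omega
  have hj' : j = 0 ∨ j = (L.A y).n + 1 ∨ (1 ≤ j ∧ j ≤ (L.A y).n) := by omega
  rcases hi' with rfl | rfl | ⟨h1, h2⟩
  · rw [L.z_zero x hx] at h
    rcases hj' with rfl | rfl | ⟨h3, h4⟩
    · rw [L.z_zero y hy] at h
      exact Or.inl ⟨rfl, rfl, L.xC_inj h⟩
    · rw [L.z_last y hy] at h
      exact absurd h.symm (L.xPC _ _)
    · exact absurd h.symm (L.z_ne_C y hy j h3 h4 _)
  · rw [L.z_last x hx] at h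
    rcases hj' with rfl | rfl | ⟨h3, h4⟩
    · rw [L.z_zero y hy] at h
      exact absurd h (L.xPC _ _)
    · rw [L.z_last y hy] at h
      exact Or.inr ⟨rfl, rfl, L.xP_inj h⟩
    · exact absurd h.symm (L.z_ne_P y hy j h3 h4 _)
  · rcases hj' with rfl | rfl | ⟨h3, h4⟩
    · rw [L.z_zero y hy] at h
      exact absurd h (L.z_ne_C x hx i h1 h2 _)
    · rw [L.z_last y hy] at h
      exact absurd h (L.z_ne_P x hx i h1 h2 _)
    · exact absurd h (L.z_ne_z x y hx hy hxy i h1 h2 j h3 h4)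

lemma exists_common {x y : Fin q × Fin p} (hx : R x.1 x.2) (hy : R y.1 y.2) (hxy : x ≠ y)
    {Q : ℝ × ℝ} (hQx : Q ∈ arcFun (L.A x) '' Set.Ioo 0 1) (hQy : Q ∈ arcFun (L.A y) '' Set.Ioo 0 1) :
    ∃ kl ∈ (L.A x).pairs (L.A y), IsCommon (L.A x) (L.A y) kl.1 kl.2 Q := by
  classical
  obtain ⟨t, ht, hQt⟩ := hQx
  obtain ⟨t', ht', hQt'⟩ := hQy
  rcases exists_rep (L.A x) ht.1 ht.2 with ⟨k, hk1, hk2, _, hp⟩ | ⟨k, f, hk, f0, f1, _, hp⟩
  · rcases exists_rep (L.A y) ht'.1 ht'.2 with ⟨l, hl1, hl2, _, hp'⟩ | ⟨l, g, hl, g0, g1, _, hp'⟩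
    · exfalso
      have h : (L.A x).z k = (L.A y).z l := by
        have : ((L.A x).z k, (0 : ℝ)) = ((L.A y).z l, 0) := by rw [← hp, ← hp', hQt, hQt']
        exact congrArg Prod.fst this
      exact L.z_ne_z x y hx hy hxy k hk1 hk2 l hl1 hl2 h
    · exfalso
      have : ((L.A x).z k, (0 : ℝ)) = piece (L.A y) l g := by rw [← hp, ← hp', hQt, hQt']
      exact piece_snd_ne_zero g0 g1 ((L.good y hy).ne hl) (congrArg Prod.snd this).symm
  · rcases exists_rep (L.A y) ht'.1 ht'.2 with ⟨l, hl1, hl2, _, hp'⟩ | ⟨l, g, hl, g0, g1, _, hp'⟩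
    · exfalso
      have : piece (L.A x) k f = ((L.A y).z l, (0 : ℝ)) := by rw [← hp, ← hp', hQt, hQt']
      exact piece_snd_ne_zero f0 f1 ((L.good x hx).ne hk) (congrArg Prod.snd this)
    · have h : piece (L.A x) k f = piece (L.A y) l g := by rw [← hp, ← hp', hQt, hQt']
      obtain ⟨hs, hi⟩ := piece_meet f0 f1 g0 g1 ((L.good x hx).ne hk) ((L.good y hy).ne hl) h
      have hi' : Inter ((L.A x).z k) ((L.A x).z (k + 1)) ((L.A y).z l) ((L.A y).z (l + 1)) := by
        rcases hi with hi | ⟨hm, hM⟩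
        · exact hi
        · exfalso
          -- the two intervals are equal: then the two edges have the same ends
          have key : ∃ i i' j j', i ≤ (L.A x).n + 1 ∧ i' ≤ (L.A x).n + 1 ∧ j ≤ (L.A y).n + 1 ∧
              j' ≤ (L.A y).n + 1 ∧ i ≠ i' ∧ (L.A x).z i = (L.A y).z j ∧
              (L.A x).z i' = (L.A y).z j' := by
            have hne := (L.good x hx).ne hk
            rcases lt_or_gt_of_ne hne with h1 | h1
            · rw [min_eq_left h1.le] at hm
              rw [max_eq_right h1.le] at hM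
              rcases min_choice ((L.A y).z l) ((L.A y).z (l + 1)) with m | m <;>
              rcases max_choice ((L.A y).z l) ((L.A y).z (l + 1)) with m' | m' <;>
              rw [m] at hm <;> rw [m'] at hM
              · exact ⟨k, k + 1, l, l, by omega, by omega, by omega, by omega, by omega, hm, hM⟩
              · exact ⟨k, k + 1, l, l + 1, by omega, by omega, by omega, by omega, by omega, hm, hM⟩
              · exact ⟨k, k + 1, l + 1, l, by omega, by omega, by omega, by omega, by omega, hm, hM⟩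
              · exact ⟨k, k + 1, l + 1, l + 1, by omega, by omega, by omega, by omega, by omega,
                  hm, hM⟩
            · rw [min_eq_right h1.le] at hm
              rw [max_eq_left h1.le] at hM
              rcases min_choice ((L.A y).z l) ((L.A y).z (l + 1)) with m | m <;>
              rcases max_choice ((L.A y).z l) ((L.A y).z (l + 1)) with m' | m' <;>
              rw [m] at hm <;> rw [m'] at hM
              · exact ⟨k + 1, k, l, l, by omega, by omega, by omega, by omega, by omega, hm, hM⟩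
              · exact ⟨k + 1, k, l, l + 1, by omega, by omega, by omega, by omega, by omega, hm, hM⟩
              · exact ⟨k + 1, k, l + 1, l, by omega, by omega, by omega, by omega, by omega, hm, hM⟩
              · exact ⟨k + 1, k, l + 1, l + 1, by omega, by omega, by omega, by omega, by omega,
                  hm, hM⟩
          obtain ⟨i, i', j, j', h1, h2, h3, h4, h5, h6, h7⟩ := key
          rcases L.end_cases hx hy hxy h1 h3 h6 with ⟨a1, a2, a3⟩ | ⟨a1, a2, a3⟩ <;>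
          rcases L.end_cases hx hy hxy h2 h4 h7 with ⟨b1, b2, b3⟩ | ⟨b1, b2, b3⟩
          · omega
          · exact hxy (Prod.ext a3 b3)
          · exact hxy (Prod.ext b3 a3)
          · omega
      refine ⟨(k, l), ?_, f, g, f0, f1, g0, g1, by rw [← hp]; exact hQt.symm,
        by rw [← hp']; exact hQt'.symm⟩
      rw [AxisPath.pairs, Finset.mem_filter, Finset.mem_product, Finset.mem_range, Finset.mem_range]
      exact ⟨⟨by omega, by omega⟩, hs, hi'⟩

lemma isCommon_unique {x y : Fin q × Fin p} (hx : R x.1 x.2) (hy : R y.1 y.2)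
    {kl : ℕ × ℕ} (hkl : kl ∈ (L.A x).pairs (L.A y)) {Q Q' : ℝ × ℝ}
    (h : IsCommon (L.A x) (L.A y) kl.1 kl.2 Q) (h' : IsCommon (L.A x) (L.A y) kl.1 kl.2 Q') :
    Q = Q' := by
  classical
  rw [AxisPath.pairs, Finset.mem_filter, Finset.mem_product, Finset.mem_range,
    Finset.mem_range] at hkl
  obtain ⟨⟨h1, h2⟩, h3, h4⟩ := hkl
  obtain ⟨f, g, f0, f1, g0, g1, e1, e2⟩ := h
  obtain ⟨f', g', f0', f1', g0', g1', e1', e2'⟩ := h'
  rw [e1, e1']
  exact piece_unique f0 f1 g0 g1 f0' f1' g0' g1' ((L.good x hx).ne (by omega))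
    ((L.good y hy).ne (by omega)) h4 (e1.symm.trans e2) (e1'.symm.trans e2')

open Classical in
/-- the pairs of edges -/
noncomputable def edgePairs (R : Fin q → Fin p → Prop) :
    Finset ((Fin q × Fin p) × (Fin q × Fin p)) :=
  Finset.univ.filter (fun x => R x.1.1 x.1.2 ∧ R x.2.1 x.2.2 ∧ toLex x.1 < toLex x.2)

theorem crossings_le : L.drawing.crossings.encard ≤
    ((∑ x ∈ edgePairs R, (L.A x.1).X (L.A x.2) : ℕ) : ℕ∞) := by
  classical
  set T : Finset ((_ : (Fin q × Fin p) × (Fin q × Fin p)) × (ℕ × ℕ)) :=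
    (edgePairs R).sigma (fun x => (L.A x.1).pairs (L.A x.2)) with hT
  have hcard : T.card = ∑ x ∈ edgePairs R, (L.A x.1).X (L.A x.2) := Finset.card_sigma _ _
  set F : ((_ : (Fin q × Fin p) × (Fin q × Fin p)) × (ℕ × ℕ)) →
      (ℝ × ℝ) × Sym2 (Sym2 (Fin p ⊕ Fin q)) := fun w =>
    (Classical.epsilon (IsCommon (L.A w.1.1) (L.A w.1.2) w.2.1 w.2.2),
      s(s(Sum.inr w.1.1.1, Sum.inl w.1.1.2), s(Sum.inr w.1.2.1, Sum.inl w.1.2.2))) with hF
  have hsub : L.drawing.crossings ⊆ (T.image F : Finset _) := by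
    rintro ⟨Q, E⟩ ⟨hE1, hE2⟩
    induction E with
    | _ e e' =>
      have hee : e ≠ e' := by
        intro h; exact hE1 (by rw [h]; exact Sym2.diag_isDiag e')
      obtain ⟨he, hQ⟩ := hE2 e (Sym2.mem_mk_left e e')
      obtain ⟨he', hQ'⟩ := hE2 e' (Sym2.mem_mk_right e e')
      obtain ⟨x, hx, rfl⟩ := mem_edgeSet_bip.1 he
      obtain ⟨y, hy, rfl⟩ := mem_edgeSet_bip.1 he'
      have hxy : x ≠ y := fun h => hee (by rw [h])
      have hQx : Q ∈ arcFun (L.A x) '' Set.Ioo 0 1 := by rw [← L.arc_eq]; exact hQ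
      have hQy : Q ∈ arcFun (L.A y) '' Set.Ioo 0 1 := by rw [← L.arc_eq]; exact hQ'
      have main : ∀ x y : Fin q × Fin p, R x.1 x.2 → R y.1 y.2 → toLex x < toLex y →
          Q ∈ arcFun (L.A x) '' Set.Ioo 0 1 → Q ∈ arcFun (L.A y) '' Set.Ioo 0 1 →
          (Q, s(s((Sum.inr x.1 : Fin p ⊕ Fin q), Sum.inl x.2), s(Sum.inr y.1, Sum.inl y.2))) ∈
            T.image F := by
        intro x y hx hy hlt hQx hQy
        have hxy : x ≠ y := fun h => by rw [h] at hlt; exact lt_irrefl _ hlt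
        obtain ⟨kl, hkl, hc⟩ := L.exists_common hx hy hxy hQx hQy
        rw [Finset.mem_image]
        refine ⟨⟨(x, y), kl⟩, ?_, ?_⟩
        · rw [hT, Finset.mem_sigma]
          refine ⟨?_, hkl⟩
          rw [edgePairs, Finset.mem_filter]
          exact ⟨Finset.mem_univ _, hx, hy, hlt⟩
        · have : IsCommon (L.A x) (L.A y) kl.1 kl.2
              (Classical.epsilon (IsCommon (L.A x) (L.A y) kl.1 kl.2)) :=
            Classical.epsilon_spec ⟨Q, hc⟩
          have h2 := L.isCommon_unique hx hy hkl this hc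
          simp only [hF]
          rw [h2]
      rcases lt_or_gt_of_ne (fun h => hxy (toLex.injective h) : toLex x ≠ toLex y) with h | h
      · exact_mod_cast main x y hx hy h hQx hQy
      · have := main y x hy hx h hQy hQx
        rw [Sym2.eq_swap]
        exact_mod_cast this
  calc L.drawing.crossings.encard ≤ ((T.image F : Finset _) : Set _).encard :=
        Set.encard_le_encard hsub
    _ = ((T.image F).card : ℕ∞) := Set.encard_coe_eq_coe_finsetCard _
    _ ≤ (T.card : ℕ∞) := Nat.cast_le.2 Finset.card_image_le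
    _ = _ := by rw [hcard]

theorem cr_le : cr (bip R) ≤ ((∑ x ∈ edgePairs R, (L.A x.1).X (L.A x.2) : ℕ) : ℕ∞) :=
  (iInf_le _ L.drawing).trans L.crossings_le

/-- If spokes of the same hub do not cross, only pairs of hubs matter. -/
theorem cr_le_hubs (hself : ∀ h a b, R h a → R h b → (L.A (h, a)).X (L.A (h, b)) = 0)
    (κ : Fin q → Fin q → ℕ)
    (hκ : ∀ h g, h < g → ∀ (S S' : Finset (Fin p)), (∀ a, a ∈ S ↔ R h a) → (∀ b, b ∈ S' ↔ R g b) →
      ∑ a ∈ S, ∑ b ∈ S', (L.A (h, a)).X (L.A (g, b)) ≤ κ h g) :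
    cr (bip R) ≤ ((∑ x ∈ (Finset.univ : Finset (Fin q × Fin q)).filter (fun x => x.1 < x.2),
      κ x.1 x.2 : ℕ) : ℕ∞) := by
  classical
  refine L.cr_le.trans (Nat.cast_le.2 ?_)
  set S : Fin q → Finset (Fin p) := fun h => Finset.univ.filter (fun a => R h a) with hS
  have hS' : ∀ h a, a ∈ S h ↔ R h a := by intro h a; simp [hS]
  calc ∑ x ∈ edgePairs R, (L.A x.1).X (L.A x.2)
      = ∑ x ∈ (edgePairs R).filter (fun x => x.1.1 < x.2.1), (L.A x.1).X (L.A x.2) := by
        symm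
        apply Finset.sum_filter_of_ne
        intro x hx hne
        rw [edgePairs, Finset.mem_filter] at hx
        obtain ⟨_, h1, h2, h3⟩ := hx
        rw [Prod.Lex.toLex_lt_toLex] at h3
        rcases h3 with h3 | ⟨h3, _⟩
        · exact h3
        · exfalso
          apply hne
          have h4 : x.2 = (x.1.1, x.2.2) := Prod.ext h3.symm rfl
          rw [h4]
          apply hself _ _ _ h1
          rw [h3]; exact h2
    _ = ∑ w ∈ ((Finset.univ : Finset (Fin q × Fin q)).filter (fun x => x.1 < x.2)).sigma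
          (fun x => S x.1 ×ˢ S x.2), (L.A (w.1.1, w.2.1)).X (L.A (w.1.2, w.2.2)) := by
        symm
        refine Finset.sum_bij' (fun w _ => ((w.1.1, w.2.1), (w.1.2, w.2.2)))
          (fun x _ => ⟨(x.1.1, x.2.1), (x.1.2, x.2.2)⟩) ?_ ?_ ?_ ?_ ?_
        · rintro ⟨⟨h, g⟩, ⟨a, b⟩⟩ hw
          simp only [Finset.mem_sigma, Finset.mem_filter, Finset.mem_univ, true_and,
            Finset.mem_product, hS', edgePairs] at hw ⊢
          refine ⟨⟨hw.2.1, hw.2.2, ?_⟩, hw.1⟩
          rw [Prod.Lex.toLex_lt_toLex]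
          exact Or.inl hw.1
        · rintro ⟨⟨h, a⟩, ⟨g, b⟩⟩ hw
          simp only [Finset.mem_sigma, Finset.mem_filter, Finset.mem_univ, true_and,
            Finset.mem_product, hS', edgePairs] at hw ⊢
          exact ⟨hw.2, hw.1.1, hw.1.2.1⟩
        · intro w _; rfl
        · intro w _; rfl
        · intro w _; rfl
    _ = ∑ x ∈ (Finset.univ : Finset (Fin q × Fin q)).filter (fun x => x.1 < x.2),
          ∑ a ∈ S x.1, ∑ b ∈ S x.2, (L.A (x.1, a)).X (L.A (x.2, b)) := by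
        rw [Finset.sum_sigma]
        refine Finset.sum_congr rfl fun x _ => ?_
        rw [Finset.sum_product]
    _ ≤ _ := by
        refine Finset.sum_le_sum fun x hx => ?_
        exact hκ x.1 x.2 (Finset.mem_filter.1 hx).2 (S x.1) (S x.2) (hS' _) (hS' _)

end Layout

end Pool.Agent.Lib.MP_266831_co.Upper
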