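import Pool.Agent.Lib.MP_266831_co.UpperBlow

/-!
# Symmetry and fast evaluation of the crossing numbers of a layout
-/

namespace Pool.Agent.Lib.MP_266831_co.Upper

open Pool.Agent.Lib.MP_266831_co

lemma interZ_comm (a b c d : ℤ) : InterZ a b c d ↔ InterZ c d a b := by
  unfold InterZ IG; exact or_comm

namespace Base

lemma kap_symm (D : Base) (i a : ℕ) (c : ℤ) (j b : ℕ) (c' : ℤ) :
    D.kap i a c j b c' = D.kap j b c' i a c := by
  unfold kap
  refine Finset.card_bij' (fun k _ => k.swap) (fun k _ => k.swap) ?_ ?_ (fun _ _ => rfl)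
    (fun _ _ => rfl)
  · rintro ⟨k, l⟩ h
    simp only [Finset.mem_filter, Finset.mem_product, Prod.swap] at h ⊢
    exact ⟨⟨h.1.2, h.1.1⟩, h.2.1.symm, (interZ_comm _ _ _ _).1 h.2.2⟩
  · rintro ⟨k, l⟩ h
    simp only [Finset.mem_filter, Finset.mem_product, Prod.swap] at h ⊢
    exact ⟨⟨h.1.2, h.1.1⟩, h.2.1.symm, (interZ_comm _ _ _ _).1 h.2.2⟩

theorem W_symm (D : Base) (p : ℕ) {i j : ℕ} (h : i ≠ j) : D.W p i j = D.W p j i := by
  unfold W
  simp only [if_neg h, if_neg h.symm]
  rw [Finset.sum_comm]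
  refine Finset.sum_congr rfl fun b _ => Finset.sum_congr rfl fun a _ => ?_
  by_cases h1 : D.T i a = true ∧ D.T j b = true
  · rw [if_pos h1, if_pos ⟨h1.2, h1.1⟩, kap_symm]
  · rw [if_neg h1, if_neg (fun h2 => h1 ⟨h2.2, h2.1⟩)]

end Base

/-! ### Fast evaluation -/

/-- fast comparison of integers -/
def ltb : ℤ → ℤ → Bool
  | Int.ofNat m, Int.ofNat n => Nat.blt m n
  | Int.ofNat _, Int.negSucc _ => false
  | Int.negSucc _, Int.ofNat _ => true
  | Int.negSucc m, Int.negSucc n => Nat.blt n m

lemma ltb_iff (x y : ℤ) : ltb x y = true ↔ x < y := by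
  rcases x with m | m <;> rcases y with n | n <;> unfold ltb <;> simp [Nat.blt_eq] <;> omega

/-- a piece with ends `x`, `y` on the side `s` -/
def mkP (s : Bool) (x y : ℤ) : Bool × ℤ × ℤ := bif ltb x y then (s, x, y) else (s, y, x)

/-- do two pieces (side, lower end, upper end) cross? -/
def crossb (u v : Bool × ℤ × ℤ) : Bool :=
  (u.1 == v.1) && ((ltb u.2.1 v.2.1 && ltb v.2.1 u.2.2 && ltb u.2.2 v.2.2) ||
    (ltb v.2.1 u.2.1 && ltb u.2.1 v.2.2 && ltb v.2.2 u.2.2))

lemma interZ_iff (a b c d : ℤ) : InterZ a b c d ↔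
    (min a b < min c d ∧ min c d < max a b ∧ max a b < max c d) ∨
    (min c d < min a b ∧ min a b < max c d ∧ max c d < max a b) := by
  have h1 : ∀ a b c d : ℤ, min a b < min c d ↔ (a < c ∨ b < c) ∧ (a < d ∨ b < d) := by
    intro a b c d; rw [lt_min_iff, min_lt_iff, min_lt_iff]
  have h2 : ∀ a b c d : ℤ, min c d < max a b ↔ (c < a ∨ c < b) ∨ (d < a ∨ d < b) := by
    intro a b c d; rw [min_lt_iff, lt_max_iff, lt_max_iff]
  have h3 : ∀ a b c d : ℤ, max a b < max c d ↔ (a < c ∨ a < d) ∧ (b < c ∨ b < d) := by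
    intro a b c d; rw [max_lt_iff, lt_max_iff, lt_max_iff]
  unfold InterZ IG
  rw [h1, h2, h3, h1, h2, h3]

lemma crossb_mkP (s t : Bool) (a b c d : ℤ) :
    crossb (mkP s a b) (mkP t c d) = true ↔ s = t ∧ InterZ a b c d := by
  have e1 : mkP s a b = (s, min a b, max a b) := by
    unfold mkP
    by_cases h : a < b
    · rw [(ltb_iff a b).2 h, min_eq_left h.le, max_eq_right h.le]; rfl
    · have : ltb a b = false := by
        rw [← Bool.not_eq_true, ltb_iff]; exact h
      rw [this, min_eq_right (not_lt.1 h), max_eq_left (not_lt.1 h)]; rfl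
  have e2 : mkP t c d = (t, min c d, max c d) := by
    unfold mkP
    by_cases h : c < d
    · rw [(ltb_iff c d).2 h, min_eq_left h.le, max_eq_right h.le]; rfl
    · have : ltb c d = false := by
        rw [← Bool.not_eq_true, ltb_iff]; exact h
      rw [this, min_eq_right (not_lt.1 h), max_eq_left (not_lt.1 h)]; rfl
  rw [e1, e2, interZ_iff]
  unfold crossb
  simp only [Bool.and_eq_true, Bool.or_eq_true, ltb_iff, beq_iff_eq, and_assoc]

/-- number of crossings of a piece with the pieces of a list -/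
def cnt1 (u : Bool × ℤ × ℤ) (L : List (Bool × ℤ × ℤ)) : ℕ :=
  L.foldr (fun v n => bif crossb u v then n + 1 else n) 0

/-- number of crossings between the pieces of two lists -/
def cntL (L L' : List (Bool × ℤ × ℤ)) : ℕ := L.foldr (fun u n => cnt1 u L' + n) 0

/-- number of crossings between the different members of a list of lists -/
def triL : List (List (Bool × ℤ × ℤ)) → ℕ
  | [] => 0
  | x :: R => R.foldr (fun y n => cntL x y + n) 0 + triL R

lemma foldr_add {α : Type*} (f : α → ℕ) (L : List α) :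
    L.foldr (fun y n => f y + n) 0 = (L.map f).sum := by
  induction L with
  | nil => rfl
  | cons x L ih => rw [List.foldr_cons, ih, List.map_cons, List.sum_cons]

lemma cnt1_eq (u : Bool × ℤ × ℤ) (L : List (Bool × ℤ × ℤ)) :
    cnt1 u L = (L.map (fun v => if crossb u v = true then 1 else 0)).sum := by
  unfold cnt1
  induction L with
  | nil => rfl
  | cons x L ih =>
    rw [List.foldr_cons, ih, List.map_cons, List.sum_cons]
    cases crossb u x <;> simp [add_comm]

lemma cntL_eq (L L' : List (Bool × ℤ × ℤ)) :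
    cntL L L' = (L.map (fun u => (L'.map (fun v => if crossb u v = true then 1 else 0)).sum)).sum := by
  unfold cntL
  rw [foldr_add]
  simp only [cnt1_eq]

lemma triL_append (R : List (List (Bool × ℤ × ℤ))) (y : List (Bool × ℤ × ℤ)) :
    triL (R ++ [y]) = triL R + (R.map (fun x => cntL x y)).sum := by
  induction R with
  | nil => simp [triL]
  | cons x R ih =>
    rw [List.cons_append, triL, triL, ih, foldr_add, foldr_add, List.map_append, List.sum_append,
      List.map_cons, List.sum_cons]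
    simp only [List.map_cons, List.map_nil, List.sum_cons, List.sum_nil]
    omega

lemma map_range_sum (f : ℕ → ℕ) (N : ℕ) : ((List.range N).map f).sum = ∑ i ∈ Finset.range N, f i := by
  induction N with
  | zero => rfl
  | succ N ih => rw [List.range_succ, List.map_append, List.sum_append, ih, Finset.sum_range_succ]; simp

lemma triL_range (g : ℕ → List (Bool × ℤ × ℤ)) (N : ℕ) : triL ((List.range N).map g) =
    ∑ j ∈ Finset.range N, ∑ i ∈ Finset.range j, cntL (g i) (g j) := by
  induction N with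
  | zero => rfl
  | succ N ih =>
    rw [List.range_succ, List.map_append, List.map_cons, List.map_nil, triL_append, ih,
      Finset.sum_range_succ, List.map_map, ← map_range_sum (fun i => cntL (g i) (g N)) N]
    rfl

lemma flatMap_sum (h : Bool × ℤ × ℤ → ℕ) (g : ℕ → List (Bool × ℤ × ℤ)) (p : ℕ) :
    (((List.range p).flatMap g).map h).sum = ∑ a ∈ Finset.range p, ((g a).map h).sum := by
  induction p with
  | zero => rfl
  | succ p ih =>
    rw [List.range_succ, List.flatMap_append, List.map_append, List.sum_append, ih,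
      Finset.sum_range_succ]
    simp

lemma map_finset_sum {ι : Type*} (s : Finset ι) (F : Bool × ℤ × ℤ → ι → ℕ)
    (L : List (Bool × ℤ × ℤ)) :
    (L.map (fun u => ∑ b ∈ s, F u b)).sum = ∑ b ∈ s, (L.map (fun u => F u b)).sum := by
  induction L with
  | nil => simp
  | cons x L ih => simp only [List.map_cons, List.sum_cons, ih, Finset.sum_add_distrib]

namespace Base

/-- the pieces of a spoke -/
def pieces1 (D : Base) (i a : ℕ) : List (Bool × ℤ × ℤ) :=
  bif D.T i a then
    (bif D.nb i a then [mkP (D.up i a) (D.C i) (D.B i a), mkP (!(D.up i a)) (D.B i a) (D.P a)]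
     else [mkP (D.up i a) (D.C i) (D.P a)])
  else []

/-- the pieces of the spokes of a hub -/
def pieces (D : Base) (p i : ℕ) : List (Bool × ℤ × ℤ) := (List.range p).flatMap (D.pieces1 i)

/-- the pieces of all hubs -/
def rows (D : Base) (p N : ℕ) : List (List (Bool × ℤ × ℤ)) := (List.range N).map (D.pieces p)

lemma interZ_four (a b c d : ℤ) : InterZ (4 * a) (4 * b) (4 * c) (4 * d) ↔ InterZ a b c d := by
  have h : ∀ x y : ℤ, 4 * x < 4 * y ↔ x < y := by intro x y; omega
  unfold InterZ
  simp only [h]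

lemma kap_eq_pieces (D : Base) {i a j b : ℕ} (h1 : D.T i a = true) (h2 : D.T j b = true) :
    D.kap i a 0 j b 0 = cntL (D.pieces1 i a) (D.pieces1 j b) := by
  have hps : ∀ i a k, D.ps 4 0 i a k = 4 * D.zb i a k := by
    intro i a k; unfold ps; ring
  have e00 : ∀ i a, D.zb i a 0 = D.C i := by intro i a; simp [zb]
  have e1t : ∀ i a, D.nb i a = true → D.zb i a 1 = D.B i a := by intro i a h; simp [zb, h]
  have e2t : ∀ i a, D.zb i a 2 = D.P a := by intro i a; simp [zb]
  have e1f : ∀ i a, D.nb i a = false → D.zb i a 1 = D.P a := by intro i a h; simp [zb, h]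
  have s0 : ∀ i a, D.sd i a 0 = D.up i a := by intro i a; simp [sd]
  have s1 : ∀ i a, D.sd i a 1 = !(D.up i a) := by intro i a; simp [sd]
  rw [cntL_eq]
  unfold kap pieces1
  rw [Finset.card_filter, Finset.sum_product]
  simp only [hps, interZ_four, h1, h2, cond_true]
  cases hi : D.nb i a <;> cases hj : D.nb j b
  all_goals simp [-Finset.sum_boole, num, hi, hj, crossb_mkP, e00, e1f, e1t, e2t, s0, s1,
    Finset.sum_range_succ, -Bool.not_eq_not]

lemma pieces1_of_not (D : Base) {i a : ℕ} (h : ¬ D.T i a = true) : D.pieces1 i a = [] := by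
  have : D.T i a = false := by simpa using h
  unfold pieces1; rw [this]; rfl

theorem W_eq (D : Base) (p : ℕ) {i j : ℕ} (h : i ≠ j) :
    D.W p i j = cntL (D.pieces p i) (D.pieces p j) := by
  rw [cntL_eq]
  unfold W pieces
  simp only [if_neg h]
  rw [flatMap_sum]
  refine Finset.sum_congr rfl fun a _ => ?_
  simp only [flatMap_sum]
  rw [map_finset_sum]
  refine Finset.sum_congr rfl fun b _ => ?_
  rw [← cntL_eq]
  by_cases h1 : D.T i a = true
  · by_cases h2 : D.T j b = true
    · rw [if_pos ⟨h1, h2⟩, kap_eq_pieces D h1 h2]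
    · rw [if_neg (fun h3 => h2 h3.2), pieces1_of_not D h2]
      rw [cntL_eq]
      simp
  · rw [if_neg (fun h3 => h1 h3.1), pieces1_of_not D h1]
    rfl

/-- The sum of the crossing numbers over the pairs of different hubs. -/
theorem tri_eq1 (D : Base) (p N : ℕ) :
    ∑ j ∈ Finset.range N, ∑ i ∈ Finset.range j, D.W p i j = triL (D.rows p N) := by
  unfold rows
  rw [triL_range]
  refine Finset.sum_congr rfl fun j _ => Finset.sum_congr rfl fun i hi => ?_
  exact D.W_eq p (Finset.mem_range.1 hi).ne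

theorem tri_eq (D₁ D₂ : Base) (p N : ℕ) :
    ∑ j ∈ Finset.range N, ∑ i ∈ Finset.range j, (D₁.W p i j + D₂.W p i j) =
      triL (D₁.rows p N) + triL (D₂.rows p N) := by
  rw [← tri_eq1, ← tri_eq1, ← Finset.sum_add_distrib]
  exact Finset.sum_congr rfl fun j _ => Finset.sum_add_distrib

/-- version with the rows given explicitly -/
theorem tri_eq_of {D₁ D₂ : Base} {p N : ℕ} {R₁ R₂ : List (List (Bool × ℤ × ℤ))}
    (h₁ : D₁.rows p N = R₁) (h₂ : D₂.rows p N = R₂) :
    ∑ j ∈ Finset.range N, ∑ i ∈ Finset.range j, (D₁.W p i j + D₂.W p i j) =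
      triL R₁ + triL R₂ := by
  rw [tri_eq, h₁, h₂]

end Base

/-! ### Evaluation with natural numbers -/

/-- `1` if the pieces with ends `l < h` and `l' < h'` cross, otherwise `0` -/
def xx (l h l' h' : ℕ) : ℕ :=
  Nat.sub 1 (Nat.sub 1 (Nat.add (Nat.mul (Nat.sub l' l) (Nat.mul (Nat.sub h l') (Nat.sub h' h)))
    (Nat.mul (Nat.sub l l') (Nat.mul (Nat.sub h' l) (Nat.sub h h')))))

lemma xx_eq (l h l' h' : ℕ) : xx l h l' h' =
    if (l < l' ∧ l' < h ∧ h < h') ∨ (l' < l ∧ l < h' ∧ h' < h) then 1 else 0 := by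
  change 1 - (1 - ((l' - l) * ((h - l') * (h' - h)) + (l - l') * ((h' - l) * (h - h')))) = _
  by_cases h1 : l < l' ∧ l' < h ∧ h < h'
  · rw [if_pos (Or.inl h1)]
    have e : 0 < (l' - l) * ((h - l') * (h' - h)) :=
      Nat.mul_pos (by omega) (Nat.mul_pos (by omega) (by omega))
    omega
  · have e1 : (l' - l) * ((h - l') * (h' - h)) = 0 := by
      rw [Nat.mul_eq_zero, Nat.mul_eq_zero]; omega
    by_cases h2 : l' < l ∧ l < h' ∧ h' < h
    · rw [if_pos (Or.inr h2)]
      have e : 0 < (l - l') * ((h' - l) * (h - h')) :=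
        Nat.mul_pos (by omega) (Nat.mul_pos (by omega) (by omega))
      omega
    · have e2 : (l - l') * ((h' - l) * (h - h')) = 0 := by
        rw [Nat.mul_eq_zero, Nat.mul_eq_zero]; omega
      rw [if_neg (by tauto), e1, e2]

/-- number of crossings of a piece with the pieces of a list -/
noncomputable def cx1 (l h : ℕ) (L : List (ℕ × ℕ)) : ℕ :=
  @List.rec (ℕ × ℕ) (fun _ => ℕ) 0 (fun v _ ih => Nat.add (xx l h v.1 v.2) ih) L

/-- number of crossings between the pieces of two lists -/
noncomputable def cxL (L' L : List (ℕ × ℕ)) : ℕ :=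
  @List.rec (ℕ × ℕ) (fun _ => ℕ) 0 (fun v _ ih => Nat.add (cx1 v.1 v.2 L') ih) L

/-- number of crossings of a list with the members of a list of lists -/
noncomputable def cxR (L : List (ℕ × ℕ)) (R : List (List (ℕ × ℕ))) : ℕ :=
  @List.rec (List (ℕ × ℕ)) (fun _ => ℕ) 0 (fun y _ ih => Nat.add (cxL y L) ih) R

/-- number of crossings between the different members of a list of lists -/
noncomputable def cxT (R : List (List (ℕ × ℕ))) : ℕ :=
  @List.rec (List (ℕ × ℕ)) (fun _ => ℕ) 0 (fun x R ih => Nat.add (cxR x R) ih) R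

/-- the pieces on one side -/
def sel (s : Bool) (L : List (Bool × ℕ × ℕ)) : List (ℕ × ℕ) :=
  L.filterMap (fun u => if u.1 = s then some u.2 else none)

/-- number of crossings between the different members of a list of lists of pieces -/
noncomputable def triN (R : List (List (Bool × ℕ × ℕ))) : ℕ :=
  Nat.add (cxT (R.map (sel true))) (cxT (R.map (sel false)))

/-- integers instead of natural numbers -/
def toZ (u : Bool × ℕ × ℕ) : Bool × ℤ × ℤ := (u.1, (u.2.1 : ℤ), (u.2.2 : ℤ))

lemma crossb_toZ (u v : Bool × ℕ × ℕ) : (if crossb (toZ u) (toZ v) = true then 1 else 0 : ℕ) =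
    if u.1 = v.1 then xx u.2.1 u.2.2 v.2.1 v.2.2 else 0 := by
  rw [xx_eq]
  unfold crossb toZ
  simp only [Bool.and_eq_true, Bool.or_eq_true, ltb_iff, beq_iff_eq, and_assoc, Nat.cast_lt]
  by_cases h : u.1 = v.1
  · rw [if_pos h]
    simp only [h, true_and]
  · rw [if_neg h]
    simp only [h, false_and, if_false]

lemma cx1_nil (l h : ℕ) : cx1 l h [] = 0 := rfl
lemma cx1_cons (l h : ℕ) (v : ℕ × ℕ) (L : List (ℕ × ℕ)) :
    cx1 l h (v :: L) = xx l h v.1 v.2 + cx1 l h L := rfl
lemma cxL_nil (L' : List (ℕ × ℕ)) : cxL L' [] = 0 := rfl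
lemma cxL_cons (L' : List (ℕ × ℕ)) (v : ℕ × ℕ) (L : List (ℕ × ℕ)) :
    cxL L' (v :: L) = cx1 v.1 v.2 L' + cxL L' L := rfl
lemma cxR_cons (L y : List (ℕ × ℕ)) (R : List (List (ℕ × ℕ))) :
    cxR L (y :: R) = cxL y L + cxR L R := rfl
lemma cxT_cons (x : List (ℕ × ℕ)) (R : List (List (ℕ × ℕ))) :
    cxT (x :: R) = cxR x R + cxT R := rfl

lemma sel_cons (s : Bool) (u : Bool × ℕ × ℕ) (L : List (Bool × ℕ × ℕ)) :
    sel s (u :: L) = if u.1 = s then u.2 :: sel s L else sel s L := by
  unfold sel
  rw [List.filterMap_cons]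
  by_cases h : u.1 = s
  · rw [if_pos h, if_pos h]
  · rw [if_neg h, if_neg h]

lemma cnt1_toZ (u : Bool × ℕ × ℕ) (L : List (Bool × ℕ × ℕ)) :
    cnt1 (toZ u) (L.map toZ) = cx1 u.2.1 u.2.2 (sel u.1 L) := by
  rw [cnt1_eq]
  induction L with
  | nil => rfl
  | cons v L ih =>
    rw [List.map_cons, List.map_cons, List.sum_cons, ih, crossb_toZ, sel_cons]
    by_cases h : v.1 = u.1
    · rw [if_pos h, if_pos h.symm, cx1_cons]
    · rw [if_neg h, if_neg (fun h' => h h'.symm), Nat.zero_add]

lemma cntL_toZ (L L' : List (Bool × ℕ × ℕ)) :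
    cntL (L.map toZ) (L'.map toZ) =
      cxL (sel true L') (sel true L) + cxL (sel false L') (sel false L) := by
  induction L with
  | nil => rfl
  | cons u L ih =>
    have e : cntL ((u :: L).map toZ) (L'.map toZ) =
        cnt1 (toZ u) (L'.map toZ) + cntL (L.map toZ) (L'.map toZ) := rfl
    rw [e, ih, cnt1_toZ, sel_cons, sel_cons]
    rcases u with ⟨s, l, h⟩
    cases s
    · rw [if_neg (by simp), if_pos rfl, cxL_cons]
      dsimp only
      omega
    · rw [if_pos rfl, if_neg (by simp), cxL_cons]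
      dsimp only
      omega

lemma triL_toZ (R : List (List (Bool × ℕ × ℕ))) : triL (R.map (List.map toZ)) = triN R := by
  induction R with
  | nil => rfl
  | cons x R ih =>
    have e : triN (x :: R) = (cxR (sel true x) (R.map (sel true)) + cxT (R.map (sel true))) +
      (cxR (sel false x) (R.map (sel false)) + cxT (R.map (sel false))) := rfl
    have e2 : triN R = cxT (R.map (sel true)) + cxT (R.map (sel false)) := rfl
    have e3 : ((R.map (List.map toZ)).foldr (fun y n => cntL (x.map toZ) y + n) 0) =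
        cxR (sel true x) (R.map (sel true)) + cxR (sel false x) (R.map (sel false)) := by
      clear ih e e2
      induction R with
      | nil => rfl
      | cons y R ih =>
        rw [List.map_cons, List.foldr_cons, ih, cntL_toZ, List.map_cons, List.map_cons, cxR_cons,
          cxR_cons]
        omega
    rw [List.map_cons, triL, ih, e3, e, e2]
    omega

namespace Base

/-- version with the rows given explicitly as natural numbers; evaluate with `decide +kernel` -/
theorem tri_eq_nat {D₁ D₂ : Base} {p N : ℕ} (R₁ R₂ : List (List (Bool × ℕ × ℕ)))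
    (h₁ : D₁.rows p N = R₁.map (List.map toZ)) (h₂ : D₂.rows p N = R₂.map (List.map toZ)) :
    ∑ j ∈ Finset.range N, ∑ i ∈ Finset.range j, (D₁.W p i j + D₂.W p i j) =
      Nat.add (triN R₁) (triN R₂) := by
  rw [tri_eq, h₁, h₂, triL_toZ, triL_toZ]
  rfl

end Base

end Pool.Agent.Lib.MP_266831_co.Upper
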