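import Pool.Agent.Lib.MP_266831_co.UpperData
import Pool.Agent.Lib.MP_266831_co.UpperCount
import Pool.Agent.Lib.MP_266831_co.Final

/-!
# `p = 7`: all `q`
-/

namespace Pool.Agent.Lib.MP_266831_co

open Finset Upper

namespace Upper.Data

/-- D7c: positions and sides (p = 7), types ordered so that initial segments have few crossings -/
def D7c : Base where
  P a := ([22, 18, 13, 7, 27, 25, 4] : List ℤ).getD a 0
  C i := ([6, 17, 9, 19, 1, 24, 15, 11, 2, 23, 5, 8, 16, 12, 28, 26, 14, 3, 10, 21] : List ℤ).getD i 0
  T i a := (([[false, false, true, true, true, false, true],
     [true, true, true, false, false, false, true],
     [false, false, true, true, true, true, false],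
     [true, true, true, false, false, true, false],
     [true, false, false, false, true, false, true],
     [true, false, false, false, true, true, false],
     [false, true, true, true, false, false, true],
     [false, true, true, true, false, true, false],
     [true, true, false, false, true, false, true],
     [true, true, false, false, true, true, false],
     [false, false, false, true, true, false, true],
     [false, false, false, true, true, true, false],
     [false, true, true, false, false, false, true],
     [false, true, true, false, false, true, false],
     [true, false, false, true, true, false, true],
     [true, false, false, true, true, true, false],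
     [false, false, true, true, false, false, true],
     [true, true, false, false, false, false, true],
     [false, false, true, true, false, true, false],
     [true, true, false, false, false, true, false]] : List (List Bool)).getD i []).getD a false
  up i a := (([[false, false, false, true, true, false, false],
     [false, true, true, false, false, false, false],
     [false, false, false, false, true, true, false],
     [false, false, true, false, false, true, false],
     [false, false, false, false, false, false, true],
     [false, false, false, false, false, true, false],
     [false, true, true, false, false, false, false],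
     [false, true, false, false, false, true, false],
     [false, false, false, false, true, false, true],
     [false, true, false, false, false, true, false],
     [false, false, false, true, true, false, false],
     [false, false, false, false, true, true, false],
     [false, true, true, false, false, false, false],
     [false, true, false, false, false, true, false],
     [false, false, false, true, false, false, true],
     [false, false, false, true, false, true, false],
     [false, false, true, false, false, false, false],
     [false, false, false, false, false, false, true],
     [false, false, false, false, false, true, false],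
     [true, false, false, false, false, true, false]] : List (List Bool)).getD i []).getD a false
  nb i a := (i == 8 && a == 4) || (i == 9 && a == 1)
  B i _ := if i == 9 then 20 else if i == 8 then 0 else 0

/-- D7d: positions and sides (p = 7), types ordered so that initial segments have few crossings -/
def D7d : Base where
  P a := ([22, 18, 13, 7, 27, 25, 4] : List ℤ).getD a 0
  C i := ([21, 8, 3, 5, 11, 15, 24, 1, 10, 14, 19, 17, 26, 28, 12, 16, 23, 9, 2, 6] : List ℤ).getD i 0
  T i a := (([[true, true, false, false, false, true, false],
     [false, false, false, true, true, true, false],
     [true, true, false, false, false, false, true],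
     [false, false, false, true, true, false, true],
     [false, true, true, true, false, true, false],
     [false, true, true, true, false, false, true],
     [true, false, false, false, true, true, false],
     [true, false, false, false, true, false, true],
     [false, false, true, true, false, true, false],
     [false, false, true, true, false, false, true],
     [true, true, true, false, false, true, false],
     [true, true, true, false, false, false, true],
     [true, false, false, true, true, true, false],
     [true, false, false, true, true, false, true],
     [false, true, true, false, false, true, false],
     [false, true, true, false, false, false, true],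
     [true, true, false, false, true, true, false],
     [false, false, true, true, true, true, false],
     [true, true, false, false, true, false, true],
     [false, false, true, true, true, false, true]] : List (List Bool)).getD i []).getD a false
  up i a := (([[true, false, false, false, false, true, false],
     [false, false, false, false, true, true, false],
     [false, false, false, false, false, false, true],
     [false, false, false, true, true, false, false],
     [false, true, false, false, false, true, false],
     [false, true, true, false, false, false, false],
     [false, false, false, false, false, true, false],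
     [false, false, false, false, false, false, true],
     [false, false, false, false, false, true, false],
     [false, false, true, false, false, false, false],
     [false, false, true, false, false, true, false],
     [false, true, true, false, false, false, false],
     [false, false, false, true, false, true, false],
     [false, false, false, true, false, false, true],
     [false, true, false, false, false, true, false],
     [false, true, true, false, false, false, false],
     [false, true, false, false, false, true, false],
     [false, false, false, false, true, true, false],
     [false, false, false, false, true, false, true],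
     [false, false, false, true, true, false, false]] : List (List Bool)).getD i []).getD a false
  nb i a := (i == 16 && a == 1) || (i == 18 && a == 4)
  B i _ := if i == 18 then 0 else if i == 16 then 20 else 0

theorem valid7c : D7c.Valid 7 20 :=
  ⟨by decide +kernel, by decide +kernel, by decide +kernel⟩

theorem valid7d : D7d.Valid 7 20 :=
  ⟨by decide +kernel, by decide +kernel, by decide +kernel⟩

theorem compl7cd : ∀ i < 20, ∀ a < 7, D7d.T i a = !(D7c.T i a) := by decide +kernel

end Upper.Data

open Upper.Data

/-- the crossing table for `p = 7` -/
def V7 (i j : ℕ) : ℕ := D7c.W 7 i j + D7d.W 7 i j

/-- number of crossings between the first `r` types -/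
def e7 (r : ℕ) : ℕ :=
  [0, 0, 0, 0, 0, 0, 0, 2, 4, 7, 10, 13, 16, 20, 24, 30, 36, 42, 48, 54, 60].getD r 0

theorem V7_col : ∀ j < 20, ∑ i ∈ range 20, V7 i j = 9 := by decide +kernel

theorem V7_pre : ∀ r < 21, ∑ j ∈ range r, ∑ i ∈ range j, V7 i j = e7 r := by decide +kernel

theorem upper7_all (m r : ℕ) (hr : r ≤ 20) :
    crTwo (completeBipartiteGraph (Fin 7) (Fin (20 * m + r))) ≤
      ((180 * m.choose 2 + 60 * m + 9 * r * m + e7 r : ℕ) : ℕ∞) := by
  refine (crTwo_le_base valid7c valid7d (by norm_num) compl7cd (20 * m + r)).trans (le_of_eq ?_)
  congr 1
  have h := sum_blow 20 V7 m r hr
  have h1 : ∀ r ≤ 20, ∑ j ∈ range r, ∑ i ∈ range 20, V7 i j = 9 * r := by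
    intro r hr
    rw [sum_congr rfl (fun j hj => V7_col j ((mem_range.1 hj).trans_le hr)), sum_const, card_range,
      smul_eq_mul, mul_comm]
  have h60 : e7 20 = 60 := rfl
  rw [h1 20 le_rfl, h1 r hr, V7_pre 20 (by norm_num), V7_pre r (by omega), h60] at h
  rw [show 180 * m.choose 2 + 60 * m + 9 * r * m + e7 r =
    m.choose 2 * (9 * 20) + m * 60 + m * (9 * r) + e7 r by ring, ← h]
  rfl

lemma two_choose_sq (n : ℕ) : 2 * n.choose 2 + n = n * n := by
  induction n with
  | zero => rfl
  | succ n ih =>
    have : (n + 1).choose 2 = n.choose 2 + n := by
      rw [Nat.choose_succ_succ' n 1, Nat.choose_one_right, add_comm]
    rw [this]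
    nlinarith

/-- `p = 7`: the lower bound is attained unless `q % 20` is `7` or `13`, where at most one more crossing is
needed. -/
theorem upper7_le (q k s : ℕ) (h : 3 * q = 20 * k + s) (hs : s < 20) :
    crTwo (completeBipartiteGraph (Fin 7) (Fin q)) ≤
      ((20 * k.choose 2 + s * k + (if q % 20 = 7 ∨ q % 20 = 13 then 1 else 0) : ℕ) : ℕ∞) := by
  obtain ⟨m, r, hr, rfl⟩ : ∃ m r, r < 20 ∧ q = 20 * m + r :=
    ⟨q / 20, q % 20, Nat.mod_lt _ (by norm_num), (Nat.div_add_mod q 20).symm⟩
  refine (upper7_all m r hr.le).trans (Nat.cast_le.2 (le_of_eq ?_))
  have hx := two_choose_sq m
  have hy := two_choose_sq k
  have hmod : (20 * m + r) % 20 = r := by omega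
  rw [hmod]
  have key : ∀ c e δ s' : ℕ, k = 3 * m + c → s = s' → e7 r = e →
      (180 * m.choose 2 + 60 * m + 9 * r * m + e + 10 * (3 * m + c) =
        180 * m.choose 2 + 90 * m + 60 * c * m + 10 * c * c + s' * (3 * m + c) + δ) →
      180 * m.choose 2 + 60 * m + 9 * r * m + e7 r = 20 * k.choose 2 + s * k + δ := by
    intro c e δ s' hk hs' he hh
    subst hk hs'
    rw [he]
    nlinarith
  interval_cases r
  · exact key 0 0 0 0 (by omega) (by omega) rfl (by ring)
  · exact key 0 0 0 3 (by omega) (by omega) rfl (by ring)
  · exact key 0 0 0 6 (by omega) (by omega) rfl (by ring)
  · exact key 0 0 0 9 (by omega) (by omega) rfl (by ring)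
  · exact key 0 0 0 12 (by omega) (by omega) rfl (by ring)
  · exact key 0 0 0 15 (by omega) (by omega) rfl (by ring)
  · exact key 0 0 0 18 (by omega) (by omega) rfl (by ring)
  · exact key 1 2 1 1 (by omega) (by omega) rfl (by ring)
  · exact key 1 4 0 4 (by omega) (by omega) rfl (by ring)
  · exact key 1 7 0 7 (by omega) (by omega) rfl (by ring)
  · exact key 1 10 0 10 (by omega) (by omega) rfl (by ring)
  · exact key 1 13 0 13 (by omega) (by omega) rfl (by ring)
  · exact key 1 16 0 16 (by omega) (by omega) rfl (by ring)
  · exact key 1 20 1 19 (by omega) (by omega) rfl (by ring)
  · exact key 2 24 0 2 (by omega) (by omega) rfl (by ring)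
  · exact key 2 30 0 5 (by omega) (by omega) rfl (by ring)
  · exact key 2 36 0 8 (by omega) (by omega) rfl (by ring)
  · exact key 2 42 0 11 (by omega) (by omega) rfl (by ring)
  · exact key 2 48 0 14 (by omega) (by omega) rfl (by ring)
  · exact key 2 54 0 17 (by omega) (by omega) rfl (by ring)

/-- `p = 7`: exact value for all `q` with `q % 20` different from `7` and `13`. -/
theorem exact7 (q k s : ℕ) (h : 3 * q = 20 * k + s) (hs : s < 20) (h7 : q % 20 ≠ 7)
    (h13 : q % 20 ≠ 13) :
    crTwo (completeBipartiteGraph (Fin 7) (Fin q)) = ((20 * k.choose 2 + s * k : ℕ) : ℕ∞) := by
  refine le_antisymm ?_ ?_
  · have := upper7_le q k s h hs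
    rwa [if_neg (by tauto), add_zero] at this
  · exact crTwo_lower (p := 7) (by norm_num) k s (by omega)

end Pool.Agent.Lib.MP_266831_co
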