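import Pool.Agent.Lib.MP_266831_co.UpperTwo

/-!
# Blow-up of the poles as well as of the hubs (layouts with bends)
-/

namespace Pool.Agent.Lib.MP_266831_co.Upper

open Pool.Agent.Lib.MP_266831_co Finset

/-- comparison at two scales, signed perturbations -/
lemma cmpS {M X Y u v u' v' : ℤ} (hu0 : -(2 * M) < u) (hu : u < 2 * M) (hv0 : -(2 * M) < v)
    (hv : v < 2 * M) (hu0' : -1 ≤ u') (hu' : u' ≤ 1) (hv0' : -1 ≤ v') (hv' : v' ≤ 1) (h : X ≠ Y) :
    (4 * (M * X) + u < 4 * (M * Y) + v) ↔ (4 * X + u' < 4 * Y + v') := by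
  rcases lt_or_gt_of_ne h with h | h
  · have h1 : M * X + M ≤ M * Y := by nlinarith
    constructor
    · intro _; omega
    · intro _; omega
  · have h1 : M * Y + M ≤ M * X := by nlinarith
    constructor
    · intro _; omega
    · intro _; omega

lemma four_bound (n m S S' R R' : ℕ) : 4 * (m ^ 2 * (n ^ 2 * S + n.choose 2 * R) +
    m.choose 2 * (n ^ 2 * S' + n.choose 2 * R')) ≤ (4 * S + 2 * R + 2 * S' + R') * n ^ 2 * m ^ 2 := by
  have hch : ∀ k : ℕ, 2 * k.choose 2 ≤ k ^ 2 := by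
    intro k
    have h3 : k.choose 2 * 2 = k * (k - 1) := by
      rw [Nat.choose_two_right]
      exact Nat.div_mul_cancel (Nat.even_mul_pred_self k).two_dvd
    have h4 : k * (k - 1) ≤ k * k := Nat.mul_le_mul_left _ (Nat.sub_le _ _)
    nlinarith
  have hn := hch n
  have hm := hch m
  have g1 : 2 * n.choose 2 * (2 * m ^ 2 * R) ≤ n ^ 2 * (2 * m ^ 2 * R) := Nat.mul_le_mul_right _ hn
  have g2 : 2 * m.choose 2 * (2 * n ^ 2 * S') ≤ m ^ 2 * (2 * n ^ 2 * S') :=
    Nat.mul_le_mul_right _ hm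
  have g3 : (2 * m.choose 2) * (2 * n.choose 2) * R' ≤ m ^ 2 * n ^ 2 * R' :=
    Nat.mul_le_mul_right _ (Nat.mul_le_mul hm hn)
  nlinarith

namespace Base

/-- `n` copies of each pole, with the bends -/
def pbB (D : Base) (p0 n : ℕ) : Base where
  P x := (2 * (n : ℤ) + 2) * D.P (x % p0) + ((x / p0 : ℕ) : ℤ)
  C i := (2 * (n : ℤ) + 2) * D.C i
  T i x := D.T i (x % p0)
  up i x := D.up i (x % p0)
  nb i x := D.nb i (x % p0)
  B i x := (2 * (n : ℤ) + 2) * D.B i (x % p0) - ((x / p0 : ℕ) : ℤ)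

/-- the number of common poles at which the spokes arrive on the same side -/
def YB (D : Base) (p0 i j : ℕ) : ℕ :=
  ∑ a ∈ range p0, if D.T i a = true ∧ D.T j a = true ∧
    xor (D.up i a) (D.nb i a) = xor (D.up j a) (D.nb j a) then 1 else 0

/-- direction of the perturbation of the copies of the poles -/
def sp (D : Base) (i a k : ℕ) : ℤ :=
  if k = 0 then 0 else if k = 1 ∧ D.nb i a = true then -1 else 1

/-- the `k`-th piece and the `l`-th piece cross -/
def pc (D : Base) (i a : ℕ) (c : ℤ) (k j b : ℕ) (c' : ℤ) (l : ℕ) : Prop :=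
  D.sd i a k = D.sd j b l ∧
    InterZ (D.ps 4 c i a k) (D.ps 4 c i a (k + 1)) (D.ps 4 c' j b l) (D.ps 4 c' j b (l + 1))

instance (D : Base) (i a : ℕ) (c : ℤ) (k j b : ℕ) (c' : ℤ) (l : ℕ) :
    Decidable (D.pc i a c k j b c' l) := by
  unfold pc; infer_instance

lemma kap_sum (D : Base) (i a : ℕ) (c : ℤ) (j b : ℕ) (c' : ℤ) :
    D.kap i a c j b c' = ∑ x ∈ range (D.num i a + 1) ×ˢ range (D.num j b + 1),
      if D.pc i a c x.1 j b c' x.2 then 1 else 0 := by
  rw [← card_filter]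
  rfl

lemma sp_cases (D : Base) (i a k : ℕ) : D.sp i a k = 0 ∨ D.sp i a k = 1 ∨ D.sp i a k = -1 := by
  unfold sp; split_ifs <;> simp

/-- coincidences of base positions -/
lemma zb_eqB {D : Base} {p N : ℕ} (hV : D.Valid p N) {i j a b k l : ℕ} (hi : i < N) (hj : j < N)
    (ha : a < p) (hb : b < p) (hk : k ≤ D.num i a + 1) (hl : l ≤ D.num j b + 1)
    (h : D.zb i a k = D.zb j b l) :
    (k = 0 ∧ l = 0 ∧ i = j) ∨ (a = b ∧ k = D.num i a + 1 ∧ l = D.num j b + 1) ∨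
      (i = j ∧ a = b ∧ k = 1 ∧ l = 1 ∧ D.nb i a = true) := by
  obtain ⟨⟨v1, v2, v3⟩, v4, -⟩ := hV
  rcases axis_cases hk with ⟨k1, k2, k3⟩ | ⟨k1, k2, k3⟩ | ⟨k1, k0, k2, k3⟩ <;>
  rcases axis_cases hl with ⟨l1, l2, l3⟩ | ⟨l1, l2, l3⟩ | ⟨l1, l0, l2, l3⟩ <;>
  rw [k2, l2] at h
  · exact Or.inl ⟨k1, l1, v2 i hi j hj h⟩
  · exact absurd h.symm (v3 b hb i hi)
  · exact absurd h.symm ((v4 j hj b hb l0).2.1 i hi)
  · exact absurd h (v3 a ha j hj)
  · exact Or.inr (Or.inl ⟨v1 a ha b hb h, k1, l1⟩)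
  · exact absurd h.symm ((v4 j hj b hb l0).1 a ha)
  · exact absurd h ((v4 i hi a ha k0).2.1 j hj)
  · exact absurd h ((v4 i hi a ha k0).1 b hb)
  · obtain ⟨h1, h2⟩ := (v4 i hi a ha k0).2.2 j hj b hb l0 h
    exact Or.inr (Or.inr ⟨h1, h2, k1, l1, k0⟩)

section

variable {D : Base} {p0 n N : ℕ}

lemma pbB_nb {a : ℕ} (ha : a < p0) (i s : ℕ) :
    (D.pbB p0 n).nb i (p0 * s + a) = D.nb i a := by
  simp only [pbB, Nat.mul_add_mod, Nat.mod_eq_of_lt ha]

lemma pbB_up {a : ℕ} (ha : a < p0) (i s : ℕ) :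
    (D.pbB p0 n).up i (p0 * s + a) = D.up i a := by
  simp only [pbB, Nat.mul_add_mod, Nat.mod_eq_of_lt ha]

lemma pbB_T {a : ℕ} (ha : a < p0) (i s : ℕ) :
    (D.pbB p0 n).T i (p0 * s + a) = D.T i a := by
  simp only [pbB, Nat.mul_add_mod, Nat.mod_eq_of_lt ha]

lemma pbB_num {a : ℕ} (ha : a < p0) (i s : ℕ) :
    (D.pbB p0 n).num i (p0 * s + a) = D.num i a := by
  unfold num
  rw [pbB_nb ha]

lemma pbB_sd {a : ℕ} (ha : a < p0) (i s k : ℕ) :
    (D.pbB p0 n).sd i (p0 * s + a) k = D.sd i a k := by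
  unfold sd
  rw [pbB_up ha]

lemma pbB_ps {a : ℕ} (ha : a < p0) (c : ℤ) (i s k : ℕ) :
    (D.pbB p0 n).ps 4 c i (p0 * s + a) k =
      4 * ((2 * (n : ℤ) + 2) * D.zb i a k) + (4 * (D.sp i a k * s) + D.sg i a k * c) := by
  have hp : 0 < p0 := by omega
  have hdv : (p0 * s + a) / p0 = s := by
    rw [Nat.mul_add_div hp, Nat.div_eq_of_lt ha, add_zero]
  have hmd : (p0 * s + a) % p0 = a := by
    rw [Nat.mul_add_mod, Nat.mod_eq_of_lt ha]
  unfold ps zb sg sp
  rw [pbB_nb ha]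
  simp only [pbB, hdv, hmd]
  split_ifs <;> ring

/-- the perturbation is small -/
lemma pert_bd {a : ℕ} (i k : ℕ) {s : ℕ} (hs : s < n) {c : ℤ} (hc0 : 0 ≤ c) (hc1 : c ≤ 1) :
    -(2 * (2 * (n : ℤ) + 2)) < 4 * (D.sp i a k * s) + D.sg i a k * c ∧
      4 * (D.sp i a k * s) + D.sg i a k * c < 2 * (2 * (n : ℤ) + 2) := by
  rcases sp_cases D i a k with h | h | h <;> rcases sg_cases (D := D) i a k with h' | h' | h' <;>
    rw [h, h'] <;> constructor <;> omega

lemma sgc_bd {a : ℕ} (i k : ℕ) {c : ℤ} (hc0 : 0 ≤ c) (hc1 : c ≤ 1) :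
    -1 ≤ D.sg i a k * c ∧ D.sg i a k * c ≤ 1 := by
  rcases sg_cases (D := D) i a k with h' | h' | h' <;> rw [h'] <;> constructor <;> omega

/-- comparison of axis points in the blow-up and in the base -/
lemma cmp_pts (hV : D.Valid p0 N) {i j a b k l s t : ℕ} {c c' : ℤ} (hi : i < N) (hj : j < N)
    (ha : a < p0) (hb : b < p0) (hk : k ≤ D.num i a + 1) (hl : l ≤ D.num j b + 1) (hs : s < n)
    (ht : t < n) (hc0 : 0 ≤ c) (hc1 : c ≤ 1) (hc0' : 0 ≤ c') (hc1' : c' ≤ 1)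
    (h : s = t ∨ a ≠ b ∨ (i ≠ j ∧ ¬ (k = D.num i a + 1 ∧ l = D.num j b + 1))) :
    ((D.pbB p0 n).ps 4 c i (p0 * s + a) k < (D.pbB p0 n).ps 4 c' j (p0 * t + b) l ↔
      D.ps 4 c i a k < D.ps 4 c' j b l) := by
  rw [pbB_ps ha, pbB_ps hb]
  have e1 : ∀ (c : ℤ) i a k, D.ps 4 c i a k = 4 * D.zb i a k + D.sg i a k * c := fun _ _ _ _ => rfl
  rw [e1, e1]
  by_cases hz : D.zb i a k = D.zb j b l
  · have key : D.sp i a k * (s : ℤ) = D.sp j b l * (t : ℤ) ∧ D.sg i a k = D.sg j b l := by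
      rcases zb_eqB hV hi hj ha hb hk hl hz with ⟨h1, h2, h3⟩ | ⟨h1, h2, h3⟩ | ⟨h1, h2, h3, h4, h5⟩
      · subst h1 h2
        simp [sp, sg]
      · have hst : s = t := by
          rcases h with h | h | h
          · exact h
          · exact absurd h1 h
          · exact absurd ⟨h2, h3⟩ h.2
        have f1 : ∀ i a, D.sp i a (D.num i a + 1) = 1 ∧ D.sg i a (D.num i a + 1) = 0 := by
          intro i a
          unfold sp sg num
          by_cases hn : D.nb i a = true <;> simp [hn]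
        rw [h2, h3, (f1 i a).1, (f1 i a).2, (f1 j b).1, (f1 j b).2, hst]
        exact ⟨rfl, rfl⟩
      · have hst : s = t := by
          rcases h with h | h | h
          · exact h
          · exact absurd h2 h
          · exact absurd h1 h.1
        subst h1 h2 h3 h4 hst
        exact ⟨rfl, rfl⟩
    rw [hz, key.1, key.2]
    constructor
    · intro h'; linarith
    · intro h'; linarith
  · obtain ⟨x1, x2⟩ := pert_bd (D := D) (a := a) i k hs hc0 hc1
    obtain ⟨y1, y2⟩ := pert_bd (D := D) (a := b) j l ht hc0' hc1'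
    obtain ⟨x3, x4⟩ := sgc_bd (D := D) (a := a) i k hc0 hc1
    obtain ⟨y3, y4⟩ := sgc_bd (D := D) (a := b) j l hc0' hc1'
    exact cmpS x1 x2 y1 y2 x3 x4 y3 y4 hz

/-- crossing of pieces in the blow-up and in the base -/
lemma pc_iff (hV : D.Valid p0 N) {i j a b k l s t : ℕ} {c c' : ℤ} (hi : i < N) (hj : j < N)
    (ha : a < p0) (hb : b < p0) (hk : k ≤ D.num i a) (hl : l ≤ D.num j b) (hs : s < n)
    (ht : t < n) (hc0 : 0 ≤ c) (hc1 : c ≤ 1) (hc0' : 0 ≤ c') (hc1' : c' ≤ 1)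
    (h : s = t ∨ a ≠ b ∨ (i ≠ j ∧ ¬ (k = D.num i a ∧ l = D.num j b))) :
    ((D.pbB p0 n).pc i (p0 * s + a) c k j (p0 * t + b) c' l ↔ D.pc i a c k j b c' l) := by
  unfold pc
  rw [pbB_sd ha, pbB_sd hb]
  refine and_congr Iff.rfl ?_
  have g : ∀ k' l', k' ≤ D.num i a + 1 → l' ≤ D.num j b + 1 →
      (k' = D.num i a + 1 ∧ l' = D.num j b + 1 → k = D.num i a ∧ l = D.num j b) →
      s = t ∨ a ≠ b ∨ (i ≠ j ∧ ¬ (k' = D.num i a + 1 ∧ l' = D.num j b + 1)) := by
    intro k' l' _ _ h3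
    rcases h with h | h | h
    · exact Or.inl h
    · exact Or.inr (Or.inl h)
    · exact Or.inr (Or.inr ⟨h.1, fun h4 => h.2 (h3 h4)⟩)
  have g' : ∀ k' l', k' ≤ D.num i a + 1 → l' ≤ D.num j b + 1 →
      (k' = D.num i a + 1 ∧ l' = D.num j b + 1 → k = D.num i a ∧ l = D.num j b) →
      t = s ∨ b ≠ a ∨ (j ≠ i ∧ ¬ (l' = D.num j b + 1 ∧ k' = D.num i a + 1)) := by
    intro k' l' h1 h2 h3
    rcases g k' l' h1 h2 h3 with h | h | h
    · exact Or.inl h.symm
    · exact Or.inr (Or.inl h.symm)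
    · exact Or.inr (Or.inr ⟨h.1.symm, fun h4 => h.2 ⟨h4.2, h4.1⟩⟩)
  have lt1 : ∀ k' l' (h1 : k' ≤ D.num i a + 1) (h2 : l' ≤ D.num j b + 1)
      (h3 : k' = D.num i a + 1 ∧ l' = D.num j b + 1 → k = D.num i a ∧ l = D.num j b),
      ((D.pbB p0 n).ps 4 c i (p0 * s + a) k' < (D.pbB p0 n).ps 4 c' j (p0 * t + b) l' ↔
        D.ps 4 c i a k' < D.ps 4 c' j b l') := fun k' l' h1 h2 h3 =>
    cmp_pts hV hi hj ha hb h1 h2 hs ht hc0 hc1 hc0' hc1' (g k' l' h1 h2 h3)
  have lt2 : ∀ k' l' (h1 : k' ≤ D.num i a + 1) (h2 : l' ≤ D.num j b + 1)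
      (h3 : k' = D.num i a + 1 ∧ l' = D.num j b + 1 → k = D.num i a ∧ l = D.num j b),
      ((D.pbB p0 n).ps 4 c' j (p0 * t + b) l' < (D.pbB p0 n).ps 4 c i (p0 * s + a) k' ↔
        D.ps 4 c' j b l' < D.ps 4 c i a k') := fun k' l' h1 h2 h3 =>
    cmp_pts hV hj hi hb ha h2 h1 ht hs hc0' hc1' hc0 hc1 (g' k' l' h1 h2 h3)
  unfold InterZ
  rw [lt1 k l (by omega) (by omega) (by omega), lt1 k (l + 1) (by omega) (by omega) (by omega),
    lt1 (k + 1) l (by omega) (by omega) (by omega),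
    lt1 (k + 1) (l + 1) (by omega) (by omega) (by omega),
    lt2 k l (by omega) (by omega) (by omega), lt2 k (l + 1) (by omega) (by omega) (by omega),
    lt2 (k + 1) l (by omega) (by omega) (by omega),
    lt2 (k + 1) (l + 1) (by omega) (by omega) (by omega)]

/-- different base poles, or the same copy: as in the base -/
lemma kapB_eq (hV : D.Valid p0 N) {i j a b s t : ℕ} {c c' : ℤ} (hi : i < N) (hj : j < N)
    (ha : a < p0) (hb : b < p0) (hs : s < n) (ht : t < n) (hc0 : 0 ≤ c) (hc1 : c ≤ 1)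
    (hc0' : 0 ≤ c') (hc1' : c' ≤ 1) (h : s = t ∨ a ≠ b) :
    (D.pbB p0 n).kap i (p0 * s + a) c j (p0 * t + b) c' = D.kap i a c j b c' := by
  rw [kap_sum, kap_sum, pbB_num ha, pbB_num hb]
  refine sum_congr rfl fun x hx => ?_
  rw [mem_product, mem_range, mem_range] at hx
  refine if_congr (pc_iff hV hi hj ha hb (by omega) (by omega) hs ht hc0 hc1 hc0' hc1' ?_) rfl rfl
  rcases h with h | h
  · exact Or.inl h
  · exact Or.inr (Or.inl h)

/-- different hubs, the same base pole -/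
lemma kapB_ne (hV : D.Valid p0 N) {i j a s t : ℕ} (hi : i < N) (hj : j < N) (hij : i ≠ j)
    (ha : a < p0) (hs : s < n) (ht : t < n) :
    (D.pbB p0 n).kap i (p0 * s + a) 0 j (p0 * t + a) 0 ≤ D.kap i a 0 j a 0 +
      if (D.pbB p0 n).pc i (p0 * s + a) 0 (D.num i a) j (p0 * t + a) 0 (D.num j a) then 1 else 0 := by
  rw [kap_sum, kap_sum, pbB_num ha, pbB_num ha]
  have hmem : (D.num i a, D.num j a) ∈ range (D.num i a + 1) ×ˢ range (D.num j a + 1) := by
    rw [mem_product, mem_range, mem_range]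
    exact ⟨Nat.lt_succ_self _, Nat.lt_succ_self _⟩
  rw [← sum_erase_add _ _ hmem]
  refine Nat.add_le_add ?_ le_rfl
  refine le_trans (le_of_eq ?_) (sum_le_sum_of_subset (erase_subset (D.num i a, D.num j a) _))
  refine sum_congr rfl fun x hx => ?_
  rw [mem_erase, mem_product, mem_range, mem_range] at hx
  refine if_congr (pc_iff hV hi hj ha ha (by omega) (by omega) hs ht le_rfl zero_le_one le_rfl
    zero_le_one ?_) rfl rfl
  refine Or.inr (Or.inr ⟨hij, fun h => hx.1 ?_⟩)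
  exact Prod.ext h.1 h.2

lemma sd_last (D : Base) (i a : ℕ) : D.sd i a (D.num i a) = xor (D.up i a) (D.nb i a) := by
  unfold sd num
  by_cases h : D.nb i a = true
  · rw [if_pos h, h]; rfl
  · rw [if_neg h]
    have h' : D.nb i a = false := by simpa using h
    rw [h']; rfl

lemma pbB_ps_last {a : ℕ} (ha : a < p0) (i s : ℕ) (c : ℤ) :
    (D.pbB p0 n).ps 4 c i (p0 * s + a) (D.num i a + 1) =
      4 * ((2 * (n : ℤ) + 2) * D.P a) + 4 * s := by
  rw [pbB_ps ha]
  unfold zb sg sp num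
  by_cases h : D.nb i a = true <;> simp [h]

/-- last pieces at the same base pole -/
lemma last_geom {M X Y P : ℤ} (n : ℕ) (hM : M = 2 * (n : ℤ) + 2) (hX : X ≠ P) (hY : Y ≠ P)
    (hXY : X ≠ Y) (σ τ : ℤ) (hσ : σ = 0 ∨ σ = -1) (hτ : τ = 0 ∨ τ = -1) :
    (∀ s < n, ∀ t < n, InterZ (4 * (M * X) + 4 * (σ * (s : ℤ))) (4 * (M * P) + 4 * s)
      (4 * (M * Y) + 4 * (τ * (t : ℤ))) (4 * (M * P) + 4 * t) → s < t) ∨
    (∀ s < n, ∀ t < n, InterZ (4 * (M * X) + 4 * (σ * (s : ℤ))) (4 * (M * P) + 4 * s)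
      (4 * (M * Y) + 4 * (τ * (t : ℤ))) (4 * (M * P) + 4 * t) → t < s) := by
  have hσ' : ∀ s : ℕ, s < n → -(n : ℤ) < σ * s ∧ σ * (s : ℤ) ≤ 0 := by
    intro s hs
    rcases hσ with rfl | rfl <;> constructor <;> omega
  have hτ' : ∀ s : ℕ, s < n → -(n : ℤ) < τ * s ∧ τ * (s : ℤ) ≤ 0 := by
    intro s hs
    rcases hτ with rfl | rfl <;> constructor <;> omega
  have hMpos : 0 < M := by omega
  rcases lt_or_gt_of_ne hX with h2 | h2 <;> rcases lt_or_gt_of_ne hY with h3 | h3 <;>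
    rcases lt_or_gt_of_ne hXY with h4 | h4
  · left
    have g2 : M * X + M ≤ M * P := by nlinarith
    have g3 : M * Y + M ≤ M * P := by nlinarith
    have g4 : M * X + M ≤ M * Y := by nlinarith
    intro s hs t ht
    have := hσ' s hs
    have := hτ' t ht
    unfold InterZ IG
    omega
  · right
    have g2 : M * X + M ≤ M * P := by nlinarith
    have g3 : M * Y + M ≤ M * P := by nlinarith
    have g4 : M * Y + M ≤ M * X := by nlinarith
    intro s hs t ht
    have := hσ' s hs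
    have := hτ' t ht
    unfold InterZ IG
    omega
  · right
    have g2 : M * X + M ≤ M * P := by nlinarith
    have g3 : M * P + M ≤ M * Y := by nlinarith
    intro s hs t ht
    have := hσ' s hs
    have := hτ' t ht
    unfold InterZ IG
    omega
  · exfalso; omega
  · exfalso; omega
  · left
    have g2 : M * P + M ≤ M * X := by nlinarith
    have g3 : M * Y + M ≤ M * P := by nlinarith
    intro s hs t ht
    have := hσ' s hs
    have := hτ' t ht
    unfold InterZ IG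
    omega
  · left
    have g2 : M * P + M ≤ M * X := by nlinarith
    have g3 : M * P + M ≤ M * Y := by nlinarith
    have g4 : M * X + M ≤ M * Y := by nlinarith
    intro s hs t ht
    have := hσ' s hs
    have := hτ' t ht
    unfold InterZ IG
    omega
  · right
    have g2 : M * P + M ≤ M * X := by nlinarith
    have g3 : M * P + M ≤ M * Y := by nlinarith
    have g4 : M * Y + M ≤ M * X := by nlinarith
    intro s hs t ht
    have := hσ' s hs
    have := hτ' t ht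
    unfold InterZ IG
    omega

lemma lastB (hV : D.Valid p0 N) {i j a : ℕ} (hi : i < N) (hj : j < N) (hij : i ≠ j)
    (ha : a < p0) :
    (∀ s < n, ∀ t < n, (D.pbB p0 n).pc i (p0 * s + a) 0 (D.num i a) j (p0 * t + a) 0 (D.num j a) →
      s < t) ∨
    (∀ s < n, ∀ t < n, (D.pbB p0 n).pc i (p0 * s + a) 0 (D.num i a) j (p0 * t + a) 0 (D.num j a) →
      t < s) := by
  have hzl : ∀ i, D.zb i a (D.num i a + 1) = D.P a := by
    intro i
    unfold zb num
    by_cases h : D.nb i a = true <;> simp [h]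
  have hX : ∀ i < N, D.zb i a (D.num i a) ≠ D.P a := by
    intro i hi h
    rw [← hzl i] at h
    rcases zb_eqB hV hi hi ha ha (by omega) le_rfl h with ⟨h1, h2, -⟩ | ⟨-, h2, -⟩ |
      ⟨-, -, h2, h3, -⟩ <;> omega
  have hXY : D.zb i a (D.num i a) ≠ D.zb j a (D.num j a) := by
    intro h
    rcases zb_eqB hV hi hj ha ha (by omega) (by omega) h with ⟨-, -, h1⟩ | ⟨-, h2, -⟩ | ⟨h1, -⟩
    · exact hij h1
    · omega
    · exact hij h1
  have hsp : ∀ i, D.sp i a (D.num i a) = 0 ∨ D.sp i a (D.num i a) = -1 := by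
    intro i
    unfold sp num
    by_cases h : D.nb i a = true <;> simp [h]
  have key := last_geom (M := 2 * (n : ℤ) + 2) n rfl (hX i hi) (hX j hj) hXY
    (D.sp i a (D.num i a)) (D.sp j a (D.num j a)) (hsp i) (hsp j)
  have e1 : ∀ s t, (D.pbB p0 n).pc i (p0 * s + a) 0 (D.num i a) j (p0 * t + a) 0 (D.num j a) →
      InterZ (4 * ((2 * (n : ℤ) + 2) * D.zb i a (D.num i a)) + 4 * (D.sp i a (D.num i a) * (s : ℤ)))
      (4 * ((2 * (n : ℤ) + 2) * D.P a) + 4 * s)
      (4 * ((2 * (n : ℤ) + 2) * D.zb j a (D.num j a)) + 4 * (D.sp j a (D.num j a) * (t : ℤ)))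
      (4 * ((2 * (n : ℤ) + 2) * D.P a) + 4 * t) := by
    rintro s t ⟨-, h⟩
    rw [pbB_ps_last ha, pbB_ps_last ha, pbB_ps ha, pbB_ps ha] at h
    simpa only [mul_zero, add_zero] using h
  rcases key with h | h
  · exact Or.inl fun s hs t ht h' => h s hs t ht (e1 s t h')
  · exact Or.inr fun s hs t ht h' => h s hs t ht (e1 s t h')

/-- positions of a spoke without bend -/
lemma pos0 {a : ℕ} (ha : a < p0) {i : ℕ} (s : ℕ) (c : ℤ) (h : D.nb i a = false) :
    (D.pbB p0 n).ps 4 c i (p0 * s + a) 0 = 4 * ((2 * (n : ℤ) + 2) * D.C i) + c ∧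
    (D.pbB p0 n).ps 4 c i (p0 * s + a) 1 = 4 * ((2 * (n : ℤ) + 2) * D.P a) + 4 * s := by
  rw [pbB_ps ha, pbB_ps ha]
  unfold zb sg sp
  constructor <;> simp [h]

/-- positions of a spoke with a bend -/
lemma pos1 {a : ℕ} (ha : a < p0) {i : ℕ} (s : ℕ) (c : ℤ) (h : D.nb i a = true) :
    (D.pbB p0 n).ps 4 c i (p0 * s + a) 0 = 4 * ((2 * (n : ℤ) + 2) * D.C i) + c ∧
    (D.pbB p0 n).ps 4 c i (p0 * s + a) 1 = 4 * ((2 * (n : ℤ) + 2) * D.B i a) + (-(4 * s) - c) ∧
    (D.pbB p0 n).ps 4 c i (p0 * s + a) 2 = 4 * ((2 * (n : ℤ) + 2) * D.P a) + 4 * s := by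
  rw [pbB_ps ha, pbB_ps ha, pbB_ps ha]
  unfold zb sg sp
  refine ⟨?_, ?_, ?_⟩ <;> simp [h] <;> ring

/-- two copies of the same spoke: no bend -/
lemma kapB_diag0 {i a s t : ℕ} (ha : a < p0) (c c' : ℤ) (h : D.nb i a = false) :
    (D.pbB p0 n).kap i (p0 * s + a) c i (p0 * t + a) c' =
      if InterZ (4 * ((2 * (n : ℤ) + 2) * D.C i) + c) (4 * ((2 * (n : ℤ) + 2) * D.P a) + 4 * s)
        (4 * ((2 * (n : ℤ) + 2) * D.C i) + c') (4 * ((2 * (n : ℤ) + 2) * D.P a) + 4 * t)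
      then 1 else 0 := by
  have hnum : D.num i a = 0 := by unfold num; simp [h]
  rw [kap_sum, pbB_num ha, pbB_num ha, hnum, sum_product]
  simp only [zero_add, sum_range_one]
  refine if_congr ?_ rfl rfl
  unfold pc
  rw [pbB_sd ha, pbB_sd ha, zero_add, (pos0 ha s c h).1, (pos0 ha s c h).2, (pos0 ha t c' h).1,
    (pos0 ha t c' h).2]
  simp only [true_and]

/-- two copies of the same spoke: with a bend -/
lemma kapB_diag1 {i a s t : ℕ} (ha : a < p0) (c c' : ℤ) (h : D.nb i a = true) :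
    (D.pbB p0 n).kap i (p0 * s + a) c i (p0 * t + a) c' =
      (if InterZ (4 * ((2 * (n : ℤ) + 2) * D.C i) + c)
        (4 * ((2 * (n : ℤ) + 2) * D.B i a) + (-(4 * s) - c))
        (4 * ((2 * (n : ℤ) + 2) * D.C i) + c')
        (4 * ((2 * (n : ℤ) + 2) * D.B i a) + (-(4 * t) - c')) then 1 else 0) +
      (if InterZ (4 * ((2 * (n : ℤ) + 2) * D.B i a) + (-(4 * s) - c))
        (4 * ((2 * (n : ℤ) + 2) * D.P a) + 4 * s)
        (4 * ((2 * (n : ℤ) + 2) * D.B i a) + (-(4 * t) - c'))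
        (4 * ((2 * (n : ℤ) + 2) * D.P a) + 4 * t) then 1 else 0) := by
  have hnum : D.num i a = 1 := by unfold num; simp [h]
  rw [kap_sum, pbB_num ha, pbB_num ha, hnum, sum_product]
  have hsd0 : D.sd i a 0 = D.up i a := by simp [sd]
  have hsd1 : D.sd i a 1 = !(D.up i a) := by simp [sd]
  have f1 : ¬ (D.up i a = !(D.up i a)) := by cases D.up i a <;> simp
  have f2 : ¬ ((!(D.up i a)) = D.up i a) := by cases D.up i a <;> simp
  have q00 : (D.pbB p0 n).pc i (p0 * s + a) c 0 i (p0 * t + a) c' 0 ↔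
      InterZ (4 * ((2 * (n : ℤ) + 2) * D.C i) + c)
        (4 * ((2 * (n : ℤ) + 2) * D.B i a) + (-(4 * s) - c))
        (4 * ((2 * (n : ℤ) + 2) * D.C i) + c')
        (4 * ((2 * (n : ℤ) + 2) * D.B i a) + (-(4 * t) - c')) := by
    unfold pc
    rw [pbB_sd ha, pbB_sd ha, zero_add, (pos1 ha s c h).1, (pos1 ha s c h).2.1, (pos1 ha t c' h).1,
      (pos1 ha t c' h).2.1]
    simp only [true_and]
  have q11 : (D.pbB p0 n).pc i (p0 * s + a) c 1 i (p0 * t + a) c' 1 ↔
      InterZ (4 * ((2 * (n : ℤ) + 2) * D.B i a) + (-(4 * s) - c))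
        (4 * ((2 * (n : ℤ) + 2) * D.P a) + 4 * s)
        (4 * ((2 * (n : ℤ) + 2) * D.B i a) + (-(4 * t) - c'))
        (4 * ((2 * (n : ℤ) + 2) * D.P a) + 4 * t) := by
    unfold pc
    rw [pbB_sd ha, pbB_sd ha, show (1 + 1 : ℕ) = 2 from rfl, (pos1 ha s c h).2.1,
      (pos1 ha s c h).2.2, (pos1 ha t c' h).2.1, (pos1 ha t c' h).2.2]
    simp only [true_and]
  have q01 : ¬ (D.pbB p0 n).pc i (p0 * s + a) c 0 i (p0 * t + a) c' 1 := by
    unfold pc
    rw [pbB_sd ha, pbB_sd ha, hsd0, hsd1]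
    exact fun h => f1 h.1
  have q10 : ¬ (D.pbB p0 n).pc i (p0 * s + a) c 1 i (p0 * t + a) c' 0 := by
    unfold pc
    rw [pbB_sd ha, pbB_sd ha, hsd0, hsd1]
    exact fun h => f2 h.1
  rw [sum_range_succ, sum_range_one, sum_range_succ, sum_range_one, sum_range_succ, sum_range_one]
  simp only [if_neg q01, if_neg q10, add_zero, zero_add]
  rw [if_congr q00 rfl rfl, if_congr q11 rfl rfl]

/-- the second pieces of two copies of a spoke are nested -/
lemma second_nested {M B P : ℤ} (n s t : ℕ) (hM : M = 2 * (n : ℤ) + 2) (hBP : B ≠ P) (hs : s < n)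
    (ht : t < n) {c c' : ℤ} (hc0 : 0 ≤ c) (hc1 : c ≤ 1) (hc0' : 0 ≤ c') (hc1' : c' ≤ 1) :
    ¬ InterZ (4 * (M * B) + (-(4 * (s : ℤ)) - c)) (4 * (M * P) + 4 * s)
      (4 * (M * B) + (-(4 * (t : ℤ)) - c')) (4 * (M * P) + 4 * t) := by
  unfold InterZ IG
  rcases lt_or_gt_of_ne hBP with h | h
  · have g : M * B + M ≤ M * P := by nlinarith
    omega
  · have g : M * P + M ≤ M * B := by nlinarith
    omega

/-- copies of the same spoke at two poles, one hub: no crossing -/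
lemma kapB_X (hV : D.Valid p0 N) {i a s t : ℕ} (hi : i < N) (ha : a < p0) (hs : s < n)
    (ht : t < n) : (D.pbB p0 n).kap i (p0 * s + a) 0 i (p0 * t + a) 0 = 0 := by
  cases h : D.nb i a
  · rw [kapB_diag0 ha 0 0 h, if_neg (interZ_left _ _ _)]
  · have hBP : D.B i a ≠ D.P a := (hV.vB i hi a ha h).1 a ha
    rw [kapB_diag1 ha 0 0 h, if_neg (interZ_left _ _ _), if_neg (second_nested n s t rfl hBP hs ht
      le_rfl zero_le_one le_rfl zero_le_one)]

/-- copies of the same spoke: copies of hub and pole -/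
lemma kapB_diag (hV : D.Valid p0 N) {i a : ℕ} (hi : i < N) (ha : a < p0) :
    (∀ s < n, ∀ t < n, (D.pbB p0 n).kap i (p0 * s + a) 0 i (p0 * t + a) 1 ≤
      if s < t then 1 else 0) ∨
    (∀ s < n, ∀ t < n, (D.pbB p0 n).kap i (p0 * s + a) 0 i (p0 * t + a) 1 ≤
      if t < s then 1 else 0) := by
  have le_ite : ∀ (p q : Prop) [Decidable p] [Decidable q], (p → q) →
      (if p then 1 else 0 : ℕ) ≤ if q then 1 else 0 := by
    intro p q _ _ hpq
    by_cases hp : p
    · rw [if_pos hp, if_pos (hpq hp)]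
    · rw [if_neg hp]; exact Nat.zero_le _
  cases h : D.nb i a
  · left
    intro s hs t ht
    rw [kapB_diag0 ha 0 1 h]
    apply le_ite
    have hCP : D.C i ≠ D.P a := fun h => hV.vP.2.2 a ha i hi h.symm
    generalize hM : (2 * (n : ℤ) + 2) = M
    unfold InterZ IG
    rcases lt_or_gt_of_ne hCP with h | h
    · have g : M * D.C i + M ≤ M * D.P a := by nlinarith
      omega
    · have g : M * D.P a + M ≤ M * D.C i := by nlinarith
      omega
  · right
    intro s hs t ht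
    have hBP : D.B i a ≠ D.P a := (hV.vB i hi a ha h).1 a ha
    have hCB : D.B i a ≠ D.C i := (hV.vB i hi a ha h).2.1 i hi
    rw [kapB_diag1 ha 0 1 h, if_neg (second_nested n s t rfl hBP hs ht le_rfl zero_le_one
      zero_le_one le_rfl), add_zero]
    apply le_ite
    generalize hM : (2 * (n : ℤ) + 2) = M
    unfold InterZ IG
    rcases lt_or_gt_of_ne hCB with h | h
    · have g : M * D.B i a + M ≤ M * D.C i := by nlinarith
      omega
    · have g : M * D.C i + M ≤ M * D.B i a := by nlinarith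
      omega

/-- writing an index as copy and base pole -/
lemma split_index (hp : 0 < p0) {x : ℕ} (hx : x < p0 * n) :
    ∃ s a, a < p0 ∧ s < n ∧ x = p0 * s + a :=
  ⟨x / p0, x % p0, Nat.mod_lt x hp, Nat.div_lt_of_lt_mul hx, (Nat.div_add_mod x p0).symm⟩

theorem pbB_valid (hV : D.Valid p0 N) (hp : 0 < p0) (n : ℕ) : (D.pbB p0 n).Valid (p0 * n) N := by
  obtain ⟨⟨v1, v2, v3⟩, v4, v5⟩ := id hV
  have hdiv : ∀ a < p0 * n, 2 * ((a / p0 : ℕ) : ℤ) < 2 * (n : ℤ) + 2 := by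
    intro a ha
    have : a / p0 < n := Nat.div_lt_of_lt_mul ha
    omega
  refine ⟨⟨?_, ?_, ?_⟩, ?_, ?_⟩
  · intro a ha b hb h
    have h1 : (2 * (n : ℤ) + 2) * D.P (a % p0) + ((a / p0 : ℕ) : ℤ) =
      (2 * (n : ℤ) + 2) * D.P (b % p0) + ((b / p0 : ℕ) : ℤ) := h
    have h2 : D.P (a % p0) = D.P (b % p0) :=
      eq_of_pos_eq (M := 2 * (n : ℤ) + 2) (s := ((a / p0 : ℕ) : ℤ)) (t := ((b / p0 : ℕ) : ℤ))
        (σ := 1) (τ := 1) (by positivity) (hdiv a ha) (by positivity) (hdiv b hb) (by simp)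
        (by simp) (by linarith)
    have h3 := v1 _ (Nat.mod_lt a hp) _ (Nat.mod_lt b hp) h2
    rw [h2] at h1
    have h4 : a / p0 = b / p0 := by exact_mod_cast add_left_cancel h1
    rw [← Nat.div_add_mod a p0, ← Nat.div_add_mod b p0, h3, h4]
  · intro i hi j hj h
    have h1 : (2 * (n : ℤ) + 2) * D.C i = (2 * (n : ℤ) + 2) * D.C j := h
    exact v2 i hi j hj (mul_left_cancel₀ (by positivity) h1)
  · intro a ha i hi h
    have h1 : (2 * (n : ℤ) + 2) * D.P (a % p0) + ((a / p0 : ℕ) : ℤ) =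
      (2 * (n : ℤ) + 2) * D.C i := h
    have h2 : D.P (a % p0) = D.C i :=
      eq_of_pos_eq (M := 2 * (n : ℤ) + 2) (s := ((a / p0 : ℕ) : ℤ)) (t := 0)
        (σ := 1) (τ := 0) (by positivity) (hdiv a ha) le_rfl (by positivity) (by simp)
        (by simp) (by linarith)
    exact v3 _ (Nat.mod_lt a hp) i hi h2
  · intro i hi a ha hn
    have hn' : D.nb i (a % p0) = true := hn
    obtain ⟨w1, w2, w3⟩ := v4 i hi _ (Nat.mod_lt a hp) hn'
    refine ⟨?_, ?_, ?_⟩
    · intro b hb h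
      have h1 : (2 * (n : ℤ) + 2) * D.B i (a % p0) - ((a / p0 : ℕ) : ℤ) =
        (2 * (n : ℤ) + 2) * D.P (b % p0) + ((b / p0 : ℕ) : ℤ) := h
      exact w1 _ (Nat.mod_lt b hp)
        (eq_of_pos_eq (M := 2 * (n : ℤ) + 2) (s := ((a / p0 : ℕ) : ℤ)) (t := ((b / p0 : ℕ) : ℤ))
          (σ := -1) (τ := 1) (by positivity) (hdiv a ha) (by positivity) (hdiv b hb) (by simp)
          (by simp) (by linarith))
    · intro j hj h
      have h1 : (2 * (n : ℤ) + 2) * D.B i (a % p0) - ((a / p0 : ℕ) : ℤ) =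
        (2 * (n : ℤ) + 2) * D.C j := h
      exact w2 j hj
        (eq_of_pos_eq (M := 2 * (n : ℤ) + 2) (s := ((a / p0 : ℕ) : ℤ)) (t := 0)
          (σ := -1) (τ := 0) (by positivity) (hdiv a ha) le_rfl (by positivity) (by simp)
          (by simp) (by linarith))
    · intro j hj b hb hnb h
      have h1 : (2 * (n : ℤ) + 2) * D.B i (a % p0) - ((a / p0 : ℕ) : ℤ) =
        (2 * (n : ℤ) + 2) * D.B j (b % p0) - ((b / p0 : ℕ) : ℤ) := h
      have hnb' : D.nb j (b % p0) = true := hnb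
      have h2 : D.B i (a % p0) = D.B j (b % p0) :=
        eq_of_pos_eq (M := 2 * (n : ℤ) + 2) (s := ((a / p0 : ℕ) : ℤ)) (t := ((b / p0 : ℕ) : ℤ))
          (σ := -1) (τ := -1) (by positivity) (hdiv a ha) (by positivity) (hdiv b hb) (by simp)
          (by simp) (by linarith)
      obtain ⟨h3, h4⟩ := w3 j hj _ (Nat.mod_lt b hp) hnb' h2
      rw [h2] at h1
      have h5 : ((a / p0 : ℕ) : ℤ) = ((b / p0 : ℕ) : ℤ) := by linarith
      have h6 : a / p0 = b / p0 := by exact_mod_cast h5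
      exact ⟨h3, by rw [← Nat.div_add_mod a p0, ← Nat.div_add_mod b p0, h4, h6]⟩
  · intro i hi x hx hTx y hy hTy
    obtain ⟨s, a, ha, hs, rfl⟩ := split_index hp hx
    obtain ⟨t, b, hb, ht, rfl⟩ := split_index hp hy
    rw [pbB_T ha] at hTx
    rw [pbB_T hb] at hTy
    by_cases h : s = t ∨ a ≠ b
    · rw [kapB_eq hV hi hi ha hb hs ht le_rfl zero_le_one le_rfl zero_le_one h]
      exact v5 i hi a ha hTx b hb hTy
    · push Not at h
      rw [← h.2]
      exact kapB_X hV hi ha hs ht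

/-- the weights of the blow-up -/
theorem pbB_W_le (hV : D.Valid p0 N) (n : ℕ) {i j : ℕ} (hi : i < N) (hj : j < N) :
    (D.pbB p0 n).W (p0 * n) i j ≤ n ^ 2 * D.W p0 i j + n.choose 2 * D.YB p0 i j := by
  set c' : ℤ := if i = j then 1 else 0 with hc'
  have hc0 : 0 ≤ c' := by rw [hc']; split_ifs <;> norm_num
  have hc1 : c' ≤ 1 := by rw [hc']; split_ifs <;> norm_num
  set G : ℕ → ℕ → ℕ → ℕ → ℕ := fun s a t b =>
    if D.T i a = true ∧ D.T j b = true then
      (D.pbB p0 n).kap i (p0 * s + a) 0 j (p0 * t + b) c' else 0 with hG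
  have e1 : (D.pbB p0 n).W (p0 * n) i j =
      ∑ a ∈ range p0, ∑ b ∈ range p0, ∑ s ∈ range n, ∑ t ∈ range n, G s a t b := by
    unfold W
    rw [sum_split]
    have e2 : ∀ s ∈ range n, ∀ a ∈ range p0,
        (∑ y ∈ range (p0 * n), if (D.pbB p0 n).T i (p0 * s + a) = true ∧ (D.pbB p0 n).T j y = true
          then (D.pbB p0 n).kap i (p0 * s + a) 0 j y (if i = j then 1 else 0) else 0) =
        ∑ b ∈ range p0, ∑ t ∈ range n, G s a t b := by
      intro s _ a ha
      rw [sum_split, sum_comm]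
      refine sum_congr rfl fun b hb' => sum_congr rfl fun t _ => ?_
      rw [mem_range] at ha hb'
      rw [pbB_T ha, pbB_T hb']
    rw [sum_congr rfl (fun s hs => sum_congr rfl (fun a ha => e2 s hs a ha)), sum_comm]
    refine sum_congr rfl fun a _ => ?_
    rw [sum_comm]
  rw [e1]
  have hlt := sum_lt n
  have hgt := sum_gt n
  have key : ∀ a ∈ range p0, ∀ b ∈ range p0, ∑ s ∈ range n, ∑ t ∈ range n, G s a t b ≤
      n ^ 2 * (if D.T i a = true ∧ D.T j b = true then D.kap i a 0 j b c' else 0) +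
      n.choose 2 * (if a = b then
        (if D.T i a = true ∧ D.T j a = true ∧
          xor (D.up i a) (D.nb i a) = xor (D.up j a) (D.nb j a) then 1 else 0) else 0) := by
    intro a ha b hb'
    rw [mem_range] at ha hb'
    by_cases hTab : D.T i a = true ∧ D.T j b = true
    swap
    · have h1 : ∀ s t, G s a t b = 0 := by
        intro s t
        simp only [hG]
        rw [if_neg hTab]
      simp only [h1, sum_const_zero]
      exact Nat.zero_le _
    have hGe : ∀ s t, G s a t b = (D.pbB p0 n).kap i (p0 * s + a) 0 j (p0 * t + b) c' := by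
      intro s t
      simp only [hG]
      rw [if_pos hTab]
    simp only [hGe]
    rw [if_pos hTab]
    by_cases hab : a = b
    · subst hab
      rw [if_pos rfl]
      by_cases hij : i = j
      · subst hij
        have hc1' : c' = 1 := by rw [hc', if_pos rfl]
        rw [hc1', if_pos ⟨hTab.1, hTab.2, rfl⟩, mul_one]
        refine le_trans ?_ (Nat.le_add_left _ _)
        rcases kapB_diag (n := n) hV hi ha with h | h
        · rw [← hlt]
          exact sum_le_sum fun s hs => sum_le_sum fun t ht =>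
            h s (mem_range.1 hs) t (mem_range.1 ht)
        · rw [← hgt]
          exact sum_le_sum fun s hs => sum_le_sum fun t ht =>
            h s (mem_range.1 hs) t (mem_range.1 ht)
      · have hc1' : c' = 0 := by rw [hc', if_neg hij]
        rw [hc1']
        have h1 : ∑ s ∈ range n, ∑ t ∈ range n,
            (D.pbB p0 n).kap i (p0 * s + a) 0 j (p0 * t + a) 0 ≤
            ∑ s ∈ range n, ∑ t ∈ range n, (D.kap i a 0 j a 0 +
            if (D.pbB p0 n).pc i (p0 * s + a) 0 (D.num i a) j (p0 * t + a) 0 (D.num j a)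
              then 1 else 0) :=
          sum_le_sum fun s hs => sum_le_sum fun t ht =>
            kapB_ne hV hi hj hij ha (mem_range.1 hs) (mem_range.1 ht)
        refine h1.trans ?_
        simp only [sum_add_distrib, sum_const, card_range, smul_eq_mul]
        refine Nat.add_le_add (le_of_eq (by ring)) ?_
        by_cases hsd : xor (D.up i a) (D.nb i a) = xor (D.up j a) (D.nb j a)
        · rw [if_pos ⟨hTab.1, hTab.2, hsd⟩, mul_one]
          have le_ite : ∀ (p q : Prop) [Decidable p] [Decidable q], (p → q) →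
              (if p then 1 else 0 : ℕ) ≤ if q then 1 else 0 := by
            intro p q _ _ hpq
            by_cases hp : p
            · rw [if_pos hp, if_pos (hpq hp)]
            · rw [if_neg hp]; exact Nat.zero_le _
          rcases lastB (n := n) hV hi hj hij ha with h | h
          · rw [← hlt]
            exact sum_le_sum fun s hs => sum_le_sum fun t ht =>
              le_ite _ _ (h s (mem_range.1 hs) t (mem_range.1 ht))
          · rw [← hgt]
            exact sum_le_sum fun s hs => sum_le_sum fun t ht =>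
              le_ite _ _ (h s (mem_range.1 hs) t (mem_range.1 ht))
        · have h2 : ∀ s t, ¬ (D.pbB p0 n).pc i (p0 * s + a) 0 (D.num i a) j (p0 * t + a) 0
              (D.num j a) := by
            rintro s t ⟨h3, -⟩
            rw [pbB_sd ha, pbB_sd ha, sd_last, sd_last] at h3
            exact hsd h3
          simp only [h2, if_false, sum_const_zero]
          exact Nat.zero_le _
    · rw [if_neg hab, mul_zero, add_zero]
      have h1 : ∀ s ∈ range n, ∀ t ∈ range n,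
          (D.pbB p0 n).kap i (p0 * s + a) 0 j (p0 * t + b) c' = D.kap i a 0 j b c' := by
        intro s hs t ht
        exact kapB_eq hV hi hj ha hb' (mem_range.1 hs) (mem_range.1 ht) le_rfl zero_le_one hc0 hc1
          (Or.inr hab)
      rw [sum_congr rfl (fun s hs => sum_congr rfl (fun t ht => h1 s hs t ht))]
      simp only [sum_const, card_range, smul_eq_mul]
      exact le_of_eq (by ring)
  refine (sum_le_sum fun a ha => sum_le_sum fun b hb' => key a ha b hb').trans (le_of_eq ?_)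
  simp only [sum_add_distrib, ← mul_sum]
  unfold W YB
  rw [hc']
  congr 2
  refine sum_congr rfl fun a ha => ?_
  rw [sum_ite_eq, if_pos ha]

end

end Base

/-- blow-up of the poles and of the hubs of two complementary layouts -/
theorem crTwo_le_twoB {p0 N : ℕ} {D₁ D₂ : Base} (h₁ : D₁.Valid p0 N) (h₂ : D₂.Valid p0 N)
    (hN : 0 < N) (hp : 0 < p0)
    (hT : ∀ i < N, ∀ a < p0, D₂.T i a = !(D₁.T i a))
    (hVs : ∀ i < N, ∀ j < N, D₁.W p0 i j + D₂.W p0 i j = D₁.W p0 j i + D₂.W p0 j i)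
    (hUs : ∀ i < N, ∀ j < N, D₁.YB p0 i j + D₂.YB p0 i j = D₁.YB p0 j i + D₂.YB p0 j i)
    {S S' R R' : ℕ}
    (hV : ∑ j ∈ range N, ∑ i ∈ range j, (D₁.W p0 i j + D₂.W p0 i j) = S)
    (hVd : ∑ i ∈ range N, (D₁.W p0 i i + D₂.W p0 i i) = S')
    (hU : ∑ j ∈ range N, ∑ i ∈ range j, (D₁.YB p0 i j + D₂.YB p0 i j) = R)
    (hUd : ∑ i ∈ range N, (D₁.YB p0 i i + D₂.YB p0 i i) = R') (n m : ℕ) :
    crTwo (completeBipartiteGraph (Fin (p0 * n)) (Fin (N * m))) ≤
      ((m ^ 2 * (n ^ 2 * S + n.choose 2 * R) + m.choose 2 * (n ^ 2 * S' + n.choose 2 * R') : ℕ) :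
        ℕ∞) := by
  have hT' : ∀ i < N, ∀ a < p0 * n, (D₂.pbB p0 n).T i a = !((D₁.pbB p0 n).T i a) := by
    intro i hi a _
    exact hT i hi _ (Nat.mod_lt a hp)
  refine (crTwo_le_base (Base.pbB_valid h₁ hp n) (Base.pbB_valid h₂ hp n) hN hT' (N * m)).trans ?_
  set V : ℕ → ℕ → ℕ := fun i j => D₁.W p0 i j + D₂.W p0 i j with hVdef
  set U : ℕ → ℕ → ℕ := fun i j => D₁.YB p0 i j + D₂.YB p0 i j with hUdef
  have hF : ∀ i < N, ∀ j < N, (D₁.pbB p0 n).W (p0 * n) i j + (D₂.pbB p0 n).W (p0 * n) i j ≤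
      n ^ 2 * V i j + n.choose 2 * U i j := by
    intro i hi j hj
    have g1 := Base.pbB_W_le h₁ n hi hj
    have g2 := Base.pbB_W_le h₂ n hi hj
    calc _ ≤ (n ^ 2 * D₁.W p0 i j + n.choose 2 * D₁.YB p0 i j) +
          (n ^ 2 * D₂.W p0 i j + n.choose 2 * D₂.YB p0 i j) := Nat.add_le_add g1 g2
      _ = _ := by simp only [hVdef, hUdef]; ring
  have h := sum_blow_symm N (fun i j => n ^ 2 * V i j + n.choose 2 * U i j) (by
    intro i hi j hj
    simp only [hVdef, hUdef]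
    rw [hVs i hi j hj, hUs i hi j hj]) m
  have e1 : ∑ x ∈ (range (N * m) ×ˢ range (N * m)).filter (fun x => x.1 < x.2),
      ((D₁.pbB p0 n).W (p0 * n) (x.1 % N) (x.2 % N) +
        (D₂.pbB p0 n).W (p0 * n) (x.1 % N) (x.2 % N)) ≤
      ∑ x ∈ (range (N * m) ×ˢ range (N * m)).filter (fun x => x.1 < x.2),
        (fun i j => n ^ 2 * V i j + n.choose 2 * U i j) (x.1 % N) (x.2 % N) :=
    sum_le_sum (fun x _ => hF _ (Nat.mod_lt _ hN) _ (Nat.mod_lt _ hN))
  rw [h, sum_lin2 N (n ^ 2) (n.choose 2) V U,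
    sum_lin1 N (n ^ 2) (n.choose 2) (fun i => V i i) (fun i => U i i)] at e1
  have f1 : ∑ j ∈ range N, ∑ i ∈ range j, V i j = S := hV
  have f2 : ∑ i ∈ range N, V i i = S' := hVd
  have f3 : ∑ j ∈ range N, ∑ i ∈ range j, U i j = R := hU
  have f4 : ∑ i ∈ range N, U i i = R' := hUd
  rw [f1, f2, f3, f4] at e1
  exact_mod_cast e1

/-- The bound for all sizes. -/
theorem crTwo_le_allB {p0 N : ℕ} {D₁ D₂ : Base} (h₁ : D₁.Valid p0 N) (h₂ : D₂.Valid p0 N)
    (hN : 0 < N) (hp : 0 < p0)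
    (hT : ∀ i < N, ∀ a < p0, D₂.T i a = !(D₁.T i a))
    (hVs : ∀ i < N, ∀ j < N, D₁.W p0 i j + D₂.W p0 i j = D₁.W p0 j i + D₂.W p0 j i)
    (hUs : ∀ i < N, ∀ j < N, D₁.YB p0 i j + D₂.YB p0 i j = D₁.YB p0 j i + D₂.YB p0 j i)
    {S S' R R' : ℕ}
    (hV : ∑ j ∈ range N, ∑ i ∈ range j, (D₁.W p0 i j + D₂.W p0 i j) = S)
    (hVd : ∑ i ∈ range N, (D₁.W p0 i i + D₂.W p0 i i) = S')
    (hU : ∑ j ∈ range N, ∑ i ∈ range j, (D₁.YB p0 i j + D₂.YB p0 i j) = R)
    (hUd : ∑ i ∈ range N, (D₁.YB p0 i i + D₂.YB p0 i i) = R')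
    {p q n m : ℕ} (hpn : p ≤ p0 * n) (hqm : q ≤ N * m) :
    4 * crTwo (completeBipartiteGraph (Fin p) (Fin q)) ≤
      (((4 * S + 2 * R + 2 * S' + R') * n ^ 2 * m ^ 2 : ℕ) : ℕ∞) := by
  have h := (crTwo_mono hpn hqm).trans
    (crTwo_le_twoB h₁ h₂ hN hp hT hVs hUs hV hVd hU hUd n m)
  have h5 : 4 * (m ^ 2 * (n ^ 2 * S + n.choose 2 * R) +
      m.choose 2 * (n ^ 2 * S' + n.choose 2 * R')) ≤ (4 * S + 2 * R + 2 * S' + R') * n ^ 2 * m ^ 2 :=
    four_bound n m S S' R R'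
  calc 4 * crTwo (completeBipartiteGraph (Fin p) (Fin q))
      ≤ 4 * ((m ^ 2 * (n ^ 2 * S + n.choose 2 * R) + m.choose 2 * (n ^ 2 * S' + n.choose 2 * R') :
          ℕ) : ℕ∞) := by gcongr
    _ = ((4 * (m ^ 2 * (n ^ 2 * S + n.choose 2 * R) +
      m.choose 2 * (n ^ 2 * S' + n.choose 2 * R')) : ℕ) : ℕ∞) := by push_cast; ring
    _ ≤ _ := by exact_mod_cast h5

end Pool.Agent.Lib.MP_266831_co.Upper
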