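import Pool.Agent.Lib.MP_266831_co.UpperData16
import Pool.Agent.Lib.MP_266831_co.UpperTwoB

/-!
# An upper bound for the biplanar crossing number of all `K_{p,q}`
-/

namespace Pool.Agent.Lib.MP_266831_co

open Finset Upper Upper.Data

theorem YB_symm (D : Base) (p i j : ℕ) : D.YB p i j = D.YB p j i := by
  unfold Base.YB
  refine sum_congr rfl fun a _ => ?_
  refine if_congr ?_ rfl rfl
  constructor
  · rintro ⟨h1, h2, h3⟩
    exact ⟨h2, h1, h3.symm⟩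
  · rintro ⟨h1, h2, h3⟩
    exact ⟨h2, h1, h3.symm⟩

theorem U16 : ∑ j ∈ range 16, ∑ i ∈ range j, (D16a.YB 16 i j + D16b.YB 16 i j) = 384 := by
  decide +kernel

theorem U16d : ∑ i ∈ range 16, (D16a.YB 16 i i + D16b.YB 16 i i) = 256 := by decide +kernel

theorem V16_symm : ∀ i < 16, ∀ j < 16,
    D16a.W 16 i j + D16b.W 16 i j = D16a.W 16 j i + D16b.W 16 j i := by
  intro i _ j _
  by_cases hij : i = j
  · rw [hij]
  · rw [D16a.W_symm 16 hij, D16b.W_symm 16 hij]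

theorem U16_symm : ∀ i < 16, ∀ j < 16,
    D16a.YB 16 i j + D16b.YB 16 i j = D16a.YB 16 j i + D16b.YB 16 j i := by
  intro i _ j _
  rw [YB_symm D16a, YB_symm D16b]

/-- the blow-up of the layout of `K_{16,16}` -/
theorem upper16_fine {p q n m : ℕ} (hpn : p ≤ 16 * n) (hqm : q ≤ 16 * m) :
    crTwo (completeBipartiteGraph (Fin p) (Fin q)) ≤
      ((m ^ 2 * (n ^ 2 * 368 + n.choose 2 * 384) +
        m.choose 2 * (n ^ 2 * 389 + n.choose 2 * 256) : ℕ) : ℕ∞) :=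
  (crTwo_mono hpn hqm).trans (crTwo_le_twoB valid16a valid16b (by norm_num) (by norm_num) compl16
    V16_symm U16_symm tri16 diag16 U16 U16d n m)

theorem upper16 {p q n m : ℕ} (hpn : p ≤ 16 * n) (hqm : q ≤ 16 * m) :
    4 * crTwo (completeBipartiteGraph (Fin p) (Fin q)) ≤ ((3274 * n ^ 2 * m ^ 2 : ℕ) : ℕ∞) :=
  crTwo_le_allB valid16a valid16b (by norm_num) (by norm_num) compl16
    V16_symm U16_symm tri16 diag16 U16 U16d hpn hqm

/-- For all `p` and `q`: `80 cr_2(K_{p,q}) ≤ (p+16)^2 (q+16)^2`. -/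
theorem upper_gen (p q : ℕ) :
    80 * crTwo (completeBipartiteGraph (Fin p) (Fin q)) ≤
      (((p + 16) ^ 2 * (q + 16) ^ 2 : ℕ) : ℕ∞) := by
  have key : ∀ p : ℕ, p ≤ 16 * (p / 16 + 1) ∧ 16 * (p / 16 + 1) ≤ p + 16 := by
    intro p
    omega
  obtain ⟨h1, h2⟩ := key p
  obtain ⟨h3, h4⟩ := key q
  set n := p / 16 + 1
  set m := q / 16 + 1
  have h := upper16 h1 h3
  have e1 : (80 : ℕ∞) * crTwo (completeBipartiteGraph (Fin p) (Fin q)) =
      20 * (4 * crTwo (completeBipartiteGraph (Fin p) (Fin q))) := by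
    rw [← mul_assoc]; norm_num
  rw [e1]
  have h5 : 20 * (3274 * n ^ 2 * m ^ 2) ≤ (p + 16) ^ 2 * (q + 16) ^ 2 := by
    have h6 : (16 * n) ^ 2 * (16 * m) ^ 2 ≤ (p + 16) ^ 2 * (q + 16) ^ 2 :=
      Nat.mul_le_mul (Nat.pow_le_pow_left h2 2) (Nat.pow_le_pow_left h4 2)
    have h7 : 20 * (3274 * n ^ 2 * m ^ 2) = 65480 * (n ^ 2 * m ^ 2) := by ring
    have h8 : (16 * n) ^ 2 * (16 * m) ^ 2 = 65536 * (n ^ 2 * m ^ 2) := by ring
    rw [h7]
    rw [h8] at h6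
    exact (Nat.mul_le_mul_right _ (by norm_num)).trans h6
  calc (20 : ℕ∞) * (4 * crTwo (completeBipartiteGraph (Fin p) (Fin q)))
      ≤ 20 * ((3274 * n ^ 2 * m ^ 2 : ℕ) : ℕ∞) := by gcongr
    _ = ((20 * (3274 * n ^ 2 * m ^ 2) : ℕ) : ℕ∞) := by push_cast; ring
    _ ≤ _ := by exact_mod_cast h5

end Pool.Agent.Lib.MP_266831_co
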