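import Pool.Agent.Lib.MP_266831_co.UpperData9
import Pool.Agent.Lib.MP_266831_co.UpperData10
import Pool.Agent.Lib.MP_266831_co.UpperData11
import Pool.Agent.Lib.MP_266831_co.UpperData12
import Pool.Agent.Lib.MP_266831_co.UpperFast
import Pool.Agent.Lib.MP_266831_co.UpperCount
import Pool.Agent.Lib.MP_266831_co.Limits

/-!
# Upper bounds for `p = 9, 10, 11, 12`
-/

namespace Pool.Agent.Lib.MP_266831_co

open Finset Upper Upper.Data

/-- blow-up of two complementary layouts: only the sums over pairs `i < j` and over the diagonal matter -/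
theorem upper_of_data {p N A B : ℕ} {D₁ D₂ : Base} (h₁ : D₁.Valid p N) (h₂ : D₂.Valid p N)
    (hN : 0 < N) (hT : ∀ i < N, ∀ a < p, D₂.T i a = !(D₁.T i a))
    (hB : ∑ j ∈ range N, ∑ i ∈ range j, (D₁.W p i j + D₂.W p i j) = B)
    (hA : ∑ i ∈ range N, (D₁.W p i i + D₂.W p i i) = A) (m : ℕ) :
    crTwo (completeBipartiteGraph (Fin p) (Fin (N * m))) ≤
      ((A * m.choose 2 + B * m ^ 2 : ℕ) : ℕ∞) := by
  refine (crTwo_le_base h₁ h₂ hN hT (N * m)).trans (le_of_eq ?_)
  congr 1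
  have h := sum_blow_symm N (fun i j => D₁.W p i j + D₂.W p i j) (by
    intro i _ j _
    by_cases hij : i = j
    · rw [hij]
    · show D₁.W p i j + D₂.W p i j = D₁.W p j i + D₂.W p j i
      rw [D₁.W_symm p hij, D₂.W_symm p hij]) m
  have e1 : ∑ j ∈ range N, ∑ i ∈ range j, (fun i j => D₁.W p i j + D₂.W p i j) i j = B := hB
  have e2 : ∑ i ∈ range N, (fun i j => D₁.W p i j + D₂.W p i j) i i = A := hA
  rw [e1, e2] at h
  rw [show A * m.choose 2 + B * m ^ 2 = m ^ 2 * B + m.choose 2 * A by ring, ← h]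

theorem upper9 (m : ℕ) : crTwo (completeBipartiteGraph (Fin 9) (Fin (28 * m))) ≤
    ((169 * m.choose 2 + 292 * m ^ 2 : ℕ) : ℕ∞) :=
  upper_of_data valid9a valid9b (by norm_num) compl9 tri9 diag9 m

theorem upper10 (m : ℕ) : crTwo (completeBipartiteGraph (Fin 10) (Fin (40 * m))) ≤
    ((320 * m.choose 2 + 880 * m ^ 2 : ℕ) : ℕ∞) :=
  upper_of_data valid10a valid10b (by norm_num) compl10 tri10 diag10 m

theorem upper11 (m : ℕ) : crTwo (completeBipartiteGraph (Fin 11) (Fin (24 * m))) ≤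
    ((246 * m.choose 2 + 372 * m ^ 2 : ℕ) : ℕ∞) :=
  upper_of_data valid11a valid11b (by norm_num) compl11 tri11 diag11 m

theorem upper12 (m : ℕ) : crTwo (completeBipartiteGraph (Fin 12) (Fin (16 * m))) ≤
    ((196 * m.choose 2 + 176 * m ^ 2 : ℕ) : ℕ∞) :=
  upper_of_data valid12a valid12b (by norm_num) compl12 tri12 diag12 m

/-- from multiples of `N` to all `q` -/
theorem upper_all {p N A B C D : ℕ} (hN : 0 < N)
    (h : ∀ m : ℕ, crTwo (completeBipartiteGraph (Fin p) (Fin (N * m))) ≤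
      ((A * m.choose 2 + B * m ^ 2 : ℕ) : ℕ∞)) (hC : D * (A + 2 * B) = 2 * (C * N ^ 2)) (q : ℕ) :
    D * crTwo (completeBipartiteGraph (Fin p) (Fin q)) ≤ ((C * (q + N) ^ 2 : ℕ) : ℕ∞) := by
  set m := q / N + 1 with hm
  have hq : q ≤ N * m := by
    have h1 := Nat.div_add_mod q N
    have h2 := Nat.mod_lt q hN
    rw [hm, mul_add, mul_one]
    omega
  have hq' : N * m ≤ q + N := by
    have h1 := Nat.div_mul_le_self q N
    rw [hm, mul_add, mul_one, mul_comm]
    omega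
  have h1 := (crTwo_mono_q p hq).trans (h m)
  have h2 : 2 * m.choose 2 ≤ m ^ 2 := by
    have h3 : m.choose 2 * 2 = m * (m - 1) := by
      rw [Nat.choose_two_right]
      exact Nat.div_mul_cancel (Nat.even_mul_pred_self m).two_dvd
    have h4 : m * (m - 1) ≤ m * m := Nat.mul_le_mul_left _ (Nat.sub_le _ _)
    nlinarith
  have h5 : D * (A * m.choose 2 + B * m ^ 2) ≤ C * (q + N) ^ 2 := by
    have h6 : 2 * (A * m.choose 2 + B * m ^ 2) ≤ (A + 2 * B) * m ^ 2 := by
      have := Nat.mul_le_mul_left A h2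
      nlinarith
    have h7 : 2 * (D * (A * m.choose 2 + B * m ^ 2)) ≤ 2 * (C * (N * m) ^ 2) := by
      calc 2 * (D * (A * m.choose 2 + B * m ^ 2)) = D * (2 * (A * m.choose 2 + B * m ^ 2)) := by ring
        _ ≤ D * ((A + 2 * B) * m ^ 2) := Nat.mul_le_mul_left _ h6
        _ = (D * (A + 2 * B)) * m ^ 2 := by ring
        _ = 2 * (C * (N * m) ^ 2) := by rw [hC]; ring
    have h8 : C * (N * m) ^ 2 ≤ C * (q + N) ^ 2 :=
      Nat.mul_le_mul_left _ (Nat.pow_le_pow_left hq' 2)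
    omega
  calc (D : ℕ∞) * crTwo (completeBipartiteGraph (Fin p) (Fin q))
      ≤ D * ((A * m.choose 2 + B * m ^ 2 : ℕ) : ℕ∞) := by gcongr
    _ = ((D * (A * m.choose 2 + B * m ^ 2) : ℕ) : ℕ∞) := by push_cast; ring
    _ ≤ _ := by exact_mod_cast h5

end Pool.Agent.Lib.MP_266831_co
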