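import Pool.Agent.Lib.MP_266831_co.Defs

/-!
# Tents: explicit polygonal drawings from axis layouts (upper bounds for MP_266831_co)
-/

namespace Pool.Agent.Lib.MP_266831_co.Upper

open Pool.Agent.Lib.MP_266831_co

/-- Two tents over `[a,b]` and `[c,d]` meeting above interior points: the intervals interleave. -/
lemma tent_meet {a b c d x : ℝ} (hax : a < x) (hxb : x < b) (hcx : c < x) (hxd : x < d)
    (h : (b - a) * min (x - a) (b - x) = (d - c) * min (x - c) (d - x)) (hne : ¬ (a = c ∧ b = d)) :
    (a < c ∧ c < b ∧ b < d) ∨ (c < a ∧ a < d ∧ d < b) := by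
  have key : ∀ {a b c d : ℝ}, a < x → x < b → c < x → x < d → a ≤ c → d ≤ b → ¬ (a = c ∧ b = d) →
      (d - c) * min (x - c) (d - x) < (b - a) * min (x - a) (b - x) := by
    intro a b c d h1 h2 h3 h4 h5 h6 h7
    have hL : d - c < b - a := by
      rcases lt_or_eq_of_le h5 with h | h
      · linarith
      · rcases lt_or_eq_of_le h6 with h' | h'
        · linarith
        · exact absurd ⟨h, h'.symm⟩ h7
    have hm : min (x - c) (d - x) ≤ min (x - a) (b - x) :=
      min_le_min (by linarith) (by linarith)
    have hp : 0 < min (x - c) (d - x) := lt_min (by linarith) (by linarith)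
    have hL' : 0 < b - a := by linarith
    calc (d - c) * min (x - c) (d - x) < (b - a) * min (x - c) (d - x) := by
          exact mul_lt_mul_of_pos_right hL hp
      _ ≤ (b - a) * min (x - a) (b - x) := mul_le_mul_of_nonneg_left hm hL'.le
  rcases lt_trichotomy a c with hac | hac | hac
  · rcases lt_or_ge b d with hbd | hbd
    · exact Or.inl ⟨hac, by linarith, hbd⟩
    · have := key hax hxb hcx hxd hac.le hbd hne
      linarith
  · rcases lt_or_ge b d with hbd | hbd
    · have := key hcx hxd hax hxb hac.symm.le hbd.le (fun hh => hne ⟨hh.1.symm, hh.2.symm⟩)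
      linarith
    · have := key hax hxb hcx hxd hac.le hbd hne
      linarith
  · rcases lt_or_ge d b with hbd | hbd
    · exact Or.inr ⟨hac, by linarith, hbd⟩
    · have := key hcx hxd hax hxb hac.le hbd (fun hh => hne ⟨hh.1.symm, hh.2.symm⟩)
      linarith

lemma tent_unique_aux {a b c d x y : ℝ} (hac : a < c) (hcb : c < b) (hbd : b < d)
    (hcx : c < x) (hxb : x < b) (hyb : y < b)
    (hx : (b - a) * min (x - a) (b - x) = (d - c) * min (x - c) (d - x))
    (hy : (b - a) * min (y - a) (b - y) = (d - c) * min (y - c) (d - y)) : ¬ x < y := by
  intro hxy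
  have hL1 : 0 < b - a := by linarith
  have hL2 : 0 < d - c := by linarith
  rcases le_total (x - a) (b - x) with h1 | h1
  · -- x in the increasing part of the first tent, hence also of the second
    have h2 : x - c ≤ d - x := by linarith
    rw [min_eq_left h1, min_eq_left h2] at hx
    have hLL : b - a < d - c := by
      by_contra hcon
      push Not at hcon
      nlinarith
    rcases le_total (y - a) (b - y) with h3 | h3
    · have h4 : y - c ≤ d - y := by linarith
      rw [min_eq_left h3, min_eq_left h4] at hy
      nlinarith
    · rcases le_total (y - c) (d - y) with h4 | h4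
      · rw [min_eq_right h3, min_eq_left h4] at hy
        nlinarith
      · rw [min_eq_right h3, min_eq_right h4] at hy
        nlinarith
  · rcases le_total (x - c) (d - x) with h2 | h2
    · rw [min_eq_right h1, min_eq_left h2] at hx
      have h3 : b - y ≤ y - a := by linarith
      rcases le_total (y - c) (d - y) with h4 | h4
      · rw [min_eq_right h3, min_eq_left h4] at hy
        nlinarith
      · rw [min_eq_right h3, min_eq_right h4] at hy
        have hLL : d - c < b - a := by
          by_contra hcon
          push Not at hcon
          nlinarith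
        -- middle point of the second tent
        have e1 : (b - a) * (b - (c + d) / 2) ≤ (d - c) * ((c + d) / 2 - c) := by nlinarith
        nlinarith
    · have h3 : b - y ≤ y - a := by linarith
      have h4 : d - y ≤ y - c := by linarith
      rw [min_eq_right h1, min_eq_right h2] at hx
      rw [min_eq_right h3, min_eq_right h4] at hy
      have : (b - a) * (y - x) = (d - c) * (y - x) := by linarith
      have h5 : b - a = d - c := mul_right_cancel₀ (by linarith : y - x ≠ 0) this
      rw [h5] at hx
      have := mul_left_cancel₀ hL2.ne' hx
      linarith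

/-- Interleaving tents meet in at most one point. -/
lemma tent_unique {a b c d x y : ℝ} (hac : a < c) (hcb : c < b) (hbd : b < d)
    (hcx : c < x) (hxb : x < b) (hcy : c < y) (hyb : y < b)
    (hx : (b - a) * min (x - a) (b - x) = (d - c) * min (x - c) (d - x))
    (hy : (b - a) * min (y - a) (b - y) = (d - c) * min (y - c) (d - y)) : x = y := by
  rcases lt_trichotomy x y with h | h | h
  · exact absurd h (tent_unique_aux hac hcb hbd hcx hxb hyb hx hy)
  · exact h
  · exact absurd h (tent_unique_aux hac hcb hbd hcy hyb hxb hy hx)

end Pool.Agent.Lib.MP_266831_co.Upper
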