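import Pool.Agent.Lib.MP_266831_co.UpperBlow
import Pool.Agent.Lib.MP_266831_co.UpperCount
import Pool.Agent.Lib.MP_266831_co.UpperMono

/-!
# Blow-up of the poles as well as of the hubs (layouts without bends)
-/

namespace Pool.Agent.Lib.MP_266831_co.Upper

open Pool.Agent.Lib.MP_266831_co Finset

/-- two segments with a common end do not interleave -/
lemma interZ_left (c x y : ℤ) : ¬ InterZ c x c y := by
  unfold InterZ IG; omega

lemma interZ_right (c d x : ℤ) : ¬ InterZ c x d x := by
  unfold InterZ IG; omega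

/-- comparison at two scales -/
lemma cmpM {M X Y u v u' v' : ℤ} (hu0 : 0 ≤ u) (hu : u < 4 * M) (hv0 : 0 ≤ v) (hv : v < 4 * M)
    (hu0' : 0 ≤ u') (hu' : u' < 4) (hv0' : 0 ≤ v') (hv' : v' < 4) (h : X ≠ Y) :
    (4 * (M * X) + u < 4 * (M * Y) + v) ↔ (4 * X + u' < 4 * Y + v') := by
  rcases lt_or_gt_of_ne h with h | h
  · have h1 : M * X + M ≤ M * Y := by nlinarith
    constructor
    · intro _; omega
    · intro _; omega
  · have h1 : M * Y + M ≤ M * X := by nlinarith
    constructor
    · intro _; omega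
    · intro _; omega

lemma sum_split (p : ℕ) (f : ℕ → ℕ) (n : ℕ) :
    ∑ x ∈ range (p * n), f x = ∑ s ∈ range n, ∑ a ∈ range p, f (p * s + a) := by
  induction n with
  | zero => simp
  | succ n ih => rw [Nat.mul_succ, sum_range_add, ih, sum_range_succ]

lemma sum_lt (n : ℕ) : ∑ s ∈ range n, ∑ t ∈ range n, (if s < t then 1 else 0) = n.choose 2 := by
  have h := sum_pairs_eq (fun _ _ => 1) n
  rw [sum_filter, sum_product] at h
  simp only at h
  rw [h, Nat.choose_two_right, ← sum_range_id]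
  refine sum_congr rfl fun b _ => ?_
  simp

lemma sum_gt (n : ℕ) : ∑ s ∈ range n, ∑ t ∈ range n, (if t < s then 1 else 0) = n.choose 2 := by
  rw [sum_comm, sum_lt]

namespace Base

/-- `n` copies of each pole -/
def pb (D : Base) (p0 n : ℕ) : Base where
  P x := (2 * (n : ℤ) + 2) * D.P (x % p0) + ((x / p0 : ℕ) : ℤ)
  C i := (2 * (n : ℤ) + 2) * D.C i
  T i x := D.T i (x % p0)
  up i x := D.up i (x % p0)
  nb _ _ := false
  B _ _ := 0

/-- the number of common poles reached on the same side -/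
def Y (D : Base) (p0 i j : ℕ) : ℕ :=
  ∑ a ∈ range p0, if D.T i a = true ∧ D.T j a = true ∧ D.up i a = D.up j a then 1 else 0

lemma kap_eq {D : Base} (h : ∀ i a, D.nb i a = false) (i a : ℕ) (c : ℤ) (j b : ℕ) (c' : ℤ) :
    D.kap i a c j b c' = if D.up i a = D.up j b ∧
      InterZ (4 * D.C i + c) (4 * D.P a) (4 * D.C j + c') (4 * D.P b) then 1 else 0 := by
  have h1 : ∀ i a, D.num i a = 0 := by
    intro i a; unfold num; simp [h i a]
  unfold kap
  rw [h1, h1]
  have h2 : (range (0 + 1) ×ˢ range (0 + 1) : Finset (ℕ × ℕ)) = {(0, 0)} := by decide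
  rw [h2, filter_singleton]
  have h3 : ∀ i a c, D.ps 4 c i a (0 + 1) = 4 * D.P a := by
    intro i a c
    have := ps_last (D := D) 4 c i a
    rwa [h1] at this
  simp only [ps_zero, h3]
  have h4 : ∀ i a, D.sd i a 0 = D.up i a := by
    intro i a; simp [sd]
  simp only [h4]
  split_ifs <;> simp

lemma pb_nb (D : Base) (p0 n : ℕ) : ∀ i a, (D.pb p0 n).nb i a = false := fun _ _ => rfl

theorem pb_valid {D : Base} {p0 N : ℕ} (hV : D.Valid p0 N) (hp : 0 < p0) (n : ℕ) :
    (D.pb p0 n).Valid (p0 * n) N := by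
  obtain ⟨⟨v1, v2, v3⟩, -, -⟩ := hV
  have hdiv : ∀ a < p0 * n, 2 * ((a / p0 : ℕ) : ℤ) < 2 * (n : ℤ) + 2 := by
    intro a ha
    have : a / p0 < n := Nat.div_lt_of_lt_mul ha
    omega
  refine ⟨⟨?_, ?_, ?_⟩, ?_, ?_⟩
  · intro a ha b hb h
    have h1 : (2 * (n : ℤ) + 2) * D.P (a % p0) + ((a / p0 : ℕ) : ℤ) =
      (2 * (n : ℤ) + 2) * D.P (b % p0) + ((b / p0 : ℕ) : ℤ) := h
    have h2 : D.P (a % p0) = D.P (b % p0) :=
      eq_of_pos_eq (M := 2 * (n : ℤ) + 2) (s := ((a / p0 : ℕ) : ℤ)) (t := ((b / p0 : ℕ) : ℤ))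
        (σ := 1) (τ := 1) (by positivity) (hdiv a ha) (by positivity) (hdiv b hb) (by simp)
        (by simp) (by linarith)
    have h3 := v1 _ (Nat.mod_lt a hp) _ (Nat.mod_lt b hp) h2
    rw [h2] at h1
    have h4 : a / p0 = b / p0 := by exact_mod_cast add_left_cancel h1
    rw [← Nat.div_add_mod a p0, ← Nat.div_add_mod b p0, h3, h4]
  · intro i hi j hj h
    have h1 : (2 * (n : ℤ) + 2) * D.C i = (2 * (n : ℤ) + 2) * D.C j := h
    exact v2 i hi j hj (mul_left_cancel₀ (by positivity) h1)
  · intro a ha i hi h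
    have h1 : (2 * (n : ℤ) + 2) * D.P (a % p0) + ((a / p0 : ℕ) : ℤ) =
      (2 * (n : ℤ) + 2) * D.C i := h
    have h2 : D.P (a % p0) = D.C i :=
      eq_of_pos_eq (M := 2 * (n : ℤ) + 2) (s := ((a / p0 : ℕ) : ℤ)) (t := 0)
        (σ := 1) (τ := 0) (by positivity) (hdiv a ha) le_rfl (by positivity) (by simp)
        (by simp) (by linarith)
    exact v3 _ (Nat.mod_lt a hp) i hi h2
  · intro i _ a _ h
    exact absurd h (by simp [pb])
  · intro i hi a ha _ b hb _
    rw [kap_eq (pb_nb D p0 n), if_neg]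
    rintro ⟨-, h⟩
    exact interZ_left _ _ _ h

/-- the weights of the blow-up -/
theorem pb_W {D : Base} {p0 N : ℕ} (hV : D.Valid p0 N) (hp : 0 < p0) (hb : ∀ i a, D.nb i a = false)
    (n : ℕ) {i j : ℕ} (hi : i < N) (hj : j < N) :
    (D.pb p0 n).W (p0 * n) i j = n ^ 2 * D.W p0 i j + n.choose 2 * D.Y p0 i j := by
  obtain ⟨⟨v1, v2, v3⟩, -, -⟩ := hV
  set c' : ℤ := if i = j then 1 else 0 with hc'
  set M : ℤ := 2 * (n : ℤ) + 2 with hM
  -- the terms
  set G : ℕ → ℕ → ℕ → ℕ → ℕ := fun s a t b =>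
    if D.T i a = true ∧ D.T j b = true then
      (if D.up i a = D.up j b ∧ InterZ (4 * (M * D.C i) + 0) (4 * (M * D.P a + s))
        (4 * (M * D.C j) + c') (4 * (M * D.P b + t)) then 1 else 0) else 0 with hG
  have hmod : ∀ s a, a < p0 → (p0 * s + a) % p0 = a := by
    intro s a ha
    rw [Nat.mul_add_mod, Nat.mod_eq_of_lt ha]
  have hdv : ∀ s a, a < p0 → (p0 * s + a) / p0 = s := by
    intro s a ha
    rw [Nat.mul_add_div hp, Nat.div_eq_of_lt ha, add_zero]
  have e1 : (D.pb p0 n).W (p0 * n) i j =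
      ∑ a ∈ range p0, ∑ b ∈ range p0, ∑ s ∈ range n, ∑ t ∈ range n, G s a t b := by
    unfold W
    rw [sum_split]
    have e2 : ∀ s ∈ range n, ∀ a ∈ range p0,
        (∑ y ∈ range (p0 * n), if (D.pb p0 n).T i (p0 * s + a) = true ∧ (D.pb p0 n).T j y = true
          then (D.pb p0 n).kap i (p0 * s + a) 0 j y (if i = j then 1 else 0) else 0) =
        ∑ b ∈ range p0, ∑ t ∈ range n, G s a t b := by
      intro s _ a ha
      rw [sum_split, sum_comm]
      refine sum_congr rfl fun b hb' => sum_congr rfl fun t _ => ?_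
      rw [kap_eq (pb_nb D p0 n)]
      rw [mem_range] at ha hb'
      simp only [pb, hmod s a ha, hmod t b hb', hdv s a ha, hdv t b hb', hG, ← hM, ← hc']
    rw [sum_congr rfl (fun s hs => sum_congr rfl (fun a ha => e2 s hs a ha)), sum_comm]
    refine sum_congr rfl fun a _ => ?_
    rw [sum_comm]
  rw [e1]
  have key : ∀ a ∈ range p0, ∀ b ∈ range p0, ∑ s ∈ range n, ∑ t ∈ range n, G s a t b =
      n ^ 2 * (if D.T i a = true ∧ D.T j b = true then D.kap i a 0 j b c' else 0) +
      n.choose 2 * (if a = b then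
        (if D.T i a = true ∧ D.T j a = true ∧ D.up i a = D.up j a then 1 else 0) else 0) := by
    intro a ha b hb'
    rw [mem_range] at ha hb'
    have hMpos : 0 < M := by rw [hM]; positivity
    have hc0 : 0 ≤ c' := by rw [hc']; split_ifs <;> norm_num
    have hc1 : c' ≤ 1 := by rw [hc']; split_ifs <;> norm_num
    by_cases hTab : D.T i a = true ∧ D.T j b = true
    swap
    · have h1 : ∀ s t, G s a t b = 0 := by
        intro s t
        simp only [hG]
        rw [if_neg hTab]
      simp only [h1, sum_const_zero]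
      rw [if_neg hTab]
      by_cases hab : a = b
      · subst hab
        rw [if_pos rfl, if_neg]
        · simp
        · rintro ⟨h2, h3, -⟩
          exact hTab ⟨h2, h3⟩
      · rw [if_neg hab]; simp
    rw [if_pos hTab, kap_eq hb]
    by_cases hab : a = b
    · subst hab
      rw [if_pos rfl]
      by_cases hup : D.up i a = D.up j a
      swap
      · have h1 : ∀ s t, G s a t a = 0 := by
          intro s t
          simp only [hG]
          rw [if_pos hTab, if_neg]
          exact fun h => hup h.1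
        simp only [h1, sum_const_zero]
        rw [if_neg (fun h => hup h.1), if_neg (fun h => hup h.2.2)]
        simp
      rw [if_neg (fun h => interZ_right _ _ _ h.2), if_pos ⟨hTab.1, hTab.2, hup⟩]
      simp only [mul_zero, mul_one, zero_add]
      have hGe : ∀ s t, G s a t a = if InterZ (4 * (M * D.C i) + 0) (4 * (M * D.P a + s))
        (4 * (M * D.C j) + c') (4 * (M * D.P a + t)) then 1 else 0 := by
        intro s t
        simp only [hG]
        rw [if_pos hTab]
        simp only [hup, true_and]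
      have hCiP : D.C i ≠ D.P a := fun h => v3 a ha i hi h.symm
      have hCjP : D.C j ≠ D.P a := fun h => v3 a ha j hj h.symm
      -- the two possibilities
      have hcase : (∀ s < n, ∀ t < n, (InterZ (4 * (M * D.C i) + 0) (4 * (M * D.P a + s))
          (4 * (M * D.C j) + c') (4 * (M * D.P a + t)) ↔ s < t)) ∨
          (∀ s < n, ∀ t < n, (InterZ (4 * (M * D.C i) + 0) (4 * (M * D.P a + s))
          (4 * (M * D.C j) + c') (4 * (M * D.P a + t)) ↔ t < s)) := by
        have hij : (i = j ∧ c' = 1) ∨ (D.C i ≠ D.C j ∧ c' = 0) := by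
          by_cases h : i = j
          · left; exact ⟨h, by rw [hc', if_pos h]⟩
          · right; exact ⟨fun h' => h (v2 i hi j hj h'), by rw [hc', if_neg h]⟩
        rcases hij with ⟨rfl, h1⟩ | ⟨hne, h1⟩
        · left
          intro s hs t ht
          rw [h1]
          unfold InterZ IG
          rcases lt_or_gt_of_ne hCiP with h | h
          · have h2 : M * D.C i + M ≤ M * D.P a := by nlinarith
            omega
          · have h2 : M * D.P a + M ≤ M * D.C i := by nlinarith
            omega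
        · rw [h1]
          unfold InterZ IG
          rcases lt_or_gt_of_ne hCiP with h2 | h2 <;> rcases lt_or_gt_of_ne hCjP with h3 | h3 <;>
            rcases lt_or_gt_of_ne hne with h4 | h4
          · left
            have g2 : M * D.C i + M ≤ M * D.P a := by nlinarith
            have g3 : M * D.C j + M ≤ M * D.P a := by nlinarith
            have g4 : M * D.C i + M ≤ M * D.C j := by nlinarith
            intro s hs t ht
            omega
          · right
            have g2 : M * D.C i + M ≤ M * D.P a := by nlinarith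
            have g3 : M * D.C j + M ≤ M * D.P a := by nlinarith
            have g4 : M * D.C j + M ≤ M * D.C i := by nlinarith
            intro s hs t ht
            omega
          · right
            have g2 : M * D.C i + M ≤ M * D.P a := by nlinarith
            have g3 : M * D.P a + M ≤ M * D.C j := by nlinarith
            intro s hs t ht
            omega
          · exfalso; omega
          · exfalso; omega
          · left
            have g2 : M * D.P a + M ≤ M * D.C i := by nlinarith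
            have g3 : M * D.C j + M ≤ M * D.P a := by nlinarith
            intro s hs t ht
            omega
          · left
            have g2 : M * D.P a + M ≤ M * D.C i := by nlinarith
            have g3 : M * D.P a + M ≤ M * D.C j := by nlinarith
            have g4 : M * D.C i + M ≤ M * D.C j := by nlinarith
            intro s hs t ht
            omega
          · right
            have g2 : M * D.P a + M ≤ M * D.C i := by nlinarith
            have g3 : M * D.P a + M ≤ M * D.C j := by nlinarith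
            have g4 : M * D.C j + M ≤ M * D.C i := by nlinarith
            intro s hs t ht
            omega
      rcases hcase with hcase | hcase
      · rw [← sum_lt n]
        refine sum_congr rfl fun s hs => sum_congr rfl fun t ht => ?_
        rw [hGe]
        exact if_congr (hcase s (mem_range.1 hs) t (mem_range.1 ht)) rfl rfl
      · rw [← sum_gt n]
        refine sum_congr rfl fun s hs => sum_congr rfl fun t ht => ?_
        rw [hGe]
        exact if_congr (hcase s (mem_range.1 hs) t (mem_range.1 ht)) rfl rfl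
    · rw [if_neg hab, mul_zero, add_zero]
      have hP : D.P a ≠ D.P b := fun h => hab (v1 a ha b hb' h)
      have hGe : ∀ s ∈ range n, ∀ t ∈ range n, G s a t b = if D.up i a = D.up j b ∧
          InterZ (4 * D.C i + 0) (4 * D.P a) (4 * D.C j + c') (4 * D.P b) then 1 else 0 := by
        intro s hs t ht
        rw [mem_range] at hs ht
        simp only [hG]
        rw [if_pos hTab]
        refine if_congr (and_congr Iff.rfl ?_) rfl rfl
        unfold InterZ
        have x1 : ∀ (X Y u v u' v' : ℤ), X ≠ Y → 0 ≤ u → u < 4 * M → 0 ≤ v → v < 4 * M →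
            0 ≤ u' → u' < 4 → 0 ≤ v' → v' < 4 →
            ((4 * (M * X) + u < 4 * (M * Y) + v) = (4 * X + u' < 4 * Y + v')) := by
          intro X Y u v u' v' h h1 h2 h3 h4 h5 h6 h7 h8
          exact propext (cmpM h1 h2 h3 h4 h5 h6 h7 h8 h)
        have y1 : ∀ (X : ℤ) (s : ℕ), 4 * (M * X + s) = 4 * (M * X) + 4 * (s : ℤ) := by
          intro X s; ring
        have z1 : ∀ X : ℤ, 4 * X = 4 * X + 0 := fun X => (add_zero _).symm
        rw [y1, y1]
        have c1 : ((4 * (M * D.C i) + 0 < 4 * (M * D.C j) + c') = (4 * D.C i + 0 < 4 * D.C j + c')) := by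
          by_cases h : i = j
          · subst h
            simp
          · have h0 : c' = 0 := by rw [hc', if_neg h]
            rw [h0]
            exact x1 _ _ _ _ _ _ (fun h' => h (v2 i hi j hj h')) (by omega) (by omega) (by omega)
              (by omega) (by omega) (by omega) (by omega) (by omega)
        have c2 : ((4 * (M * D.C j) + c' < 4 * (M * D.C i) + 0) = (4 * D.C j + c' < 4 * D.C i + 0)) := by
          by_cases h : i = j
          · subst h
            simp
          · have h0 : c' = 0 := by rw [hc', if_neg h]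
            rw [h0]
            exact x1 _ _ _ _ _ _ (fun h' => h (v2 i hi j hj h'.symm)) (by omega) (by omega)
              (by omega) (by omega) (by omega) (by omega) (by omega) (by omega)
        rw [c1, c2]
        rw [x1 (D.C i) (D.P b) 0 (4 * t) 0 0 (fun h => v3 b hb' i hi h.symm) (by omega) (by omega)
          (by omega) (by omega) (by omega) (by omega) (by omega) (by omega)]
        rw [x1 (D.P a) (D.C j) (4 * s) c' 0 c' (v3 a ha j hj) (by omega) (by omega)
          (by omega) (by omega) (by omega) (by omega) (by omega) (by omega)]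
        rw [x1 (D.P a) (D.P b) (4 * s) (4 * t) 0 0 hP (by omega) (by omega)
          (by omega) (by omega) (by omega) (by omega) (by omega) (by omega)]
        rw [x1 (D.C j) (D.P a) c' (4 * s) c' 0 (fun h => v3 a ha j hj h.symm) (by omega) (by omega)
          (by omega) (by omega) (by omega) (by omega) (by omega) (by omega)]
        rw [x1 (D.P b) (D.C i) (4 * t) 0 0 0 (v3 b hb' i hi) (by omega) (by omega)
          (by omega) (by omega) (by omega) (by omega) (by omega) (by omega)]
        rw [x1 (D.P b) (D.P a) (4 * t) (4 * s) 0 0 hP.symm (by omega) (by omega)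
          (by omega) (by omega) (by omega) (by omega) (by omega) (by omega)]
        simp only [add_zero]
      rw [sum_congr rfl (fun s hs => sum_congr rfl (fun t ht => hGe s hs t ht))]
      simp only [sum_const, card_range, smul_eq_mul]
      ring
  rw [sum_congr rfl (fun a ha => sum_congr rfl (fun b hb' => key a ha b hb'))]
  simp only [sum_add_distrib, ← mul_sum]
  unfold W Y
  rw [hc']
  congr 2
  refine sum_congr rfl fun a ha => ?_
  rw [sum_ite_eq, if_pos ha]

end Base

lemma sum_lin2 (N a b : ℕ) (V U : ℕ → ℕ → ℕ) :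
    ∑ j ∈ range N, ∑ i ∈ range j, (a * V i j + b * U i j) =
      a * ∑ j ∈ range N, ∑ i ∈ range j, V i j + b * ∑ j ∈ range N, ∑ i ∈ range j, U i j := by
  simp only [mul_sum, sum_add_distrib]

lemma sum_lin1 (N a b : ℕ) (V U : ℕ → ℕ) :
    ∑ i ∈ range N, (a * V i + b * U i) = a * ∑ i ∈ range N, V i + b * ∑ i ∈ range N, U i := by
  simp only [mul_sum, sum_add_distrib]

theorem crTwo_mono {p p' q q' : ℕ} (hp : p ≤ p') (hq : q ≤ q') :
    crTwo (completeBipartiteGraph (Fin p) (Fin q)) ≤
      crTwo (completeBipartiteGraph (Fin p') (Fin q')) := by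
  refine crTwo_le_of_hom (Sum.map (Fin.castLE hp) (Fin.castLE hq)) ?_ ?_
  · exact Function.Injective.sumMap (Fin.castLE_injective hp) (Fin.castLE_injective hq)
  · rintro (a | a) (b | b) hab
    · simp [completeBipartiteGraph] at hab
    · simp [completeBipartiteGraph]
    · simp [completeBipartiteGraph]
    · simp [completeBipartiteGraph] at hab

/-- blow-up of the poles and of the hubs of two complementary bendless layouts -/
theorem crTwo_le_two {p0 N : ℕ} {D₁ D₂ : Base} (h₁ : D₁.Valid p0 N) (h₂ : D₂.Valid p0 N)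
    (hN : 0 < N) (hp : 0 < p0) (hb₁ : ∀ i a, D₁.nb i a = false) (hb₂ : ∀ i a, D₂.nb i a = false)
    (hT : ∀ i < N, ∀ a < p0, D₂.T i a = !(D₁.T i a))
    (hVs : ∀ i < N, ∀ j < N, D₁.W p0 i j + D₂.W p0 i j = D₁.W p0 j i + D₂.W p0 j i)
    (hUs : ∀ i < N, ∀ j < N, D₁.Y p0 i j + D₂.Y p0 i j = D₁.Y p0 j i + D₂.Y p0 j i)
    {S S' R R' : ℕ}
    (hV : ∑ j ∈ range N, ∑ i ∈ range j, (D₁.W p0 i j + D₂.W p0 i j) = S)
    (hVd : ∑ i ∈ range N, (D₁.W p0 i i + D₂.W p0 i i) = S')
    (hU : ∑ j ∈ range N, ∑ i ∈ range j, (D₁.Y p0 i j + D₂.Y p0 i j) = R)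
    (hUd : ∑ i ∈ range N, (D₁.Y p0 i i + D₂.Y p0 i i) = R') (n m : ℕ) :
    crTwo (completeBipartiteGraph (Fin (p0 * n)) (Fin (N * m))) ≤
      ((m ^ 2 * (n ^ 2 * S + n.choose 2 * R) + m.choose 2 * (n ^ 2 * S' + n.choose 2 * R') : ℕ) :
        ℕ∞) := by
  have hT' : ∀ i < N, ∀ a < p0 * n, (D₂.pb p0 n).T i a = !((D₁.pb p0 n).T i a) := by
    intro i hi a _
    exact hT i hi _ (Nat.mod_lt a hp)
  refine (crTwo_le_base (Base.pb_valid h₁ hp n) (Base.pb_valid h₂ hp n) hN hT' (N * m)).trans
    (le_of_eq ?_)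
  congr 1
  set V : ℕ → ℕ → ℕ := fun i j => D₁.W p0 i j + D₂.W p0 i j with hVdef
  set U : ℕ → ℕ → ℕ := fun i j => D₁.Y p0 i j + D₂.Y p0 i j with hUdef
  have hF : ∀ i < N, ∀ j < N, (D₁.pb p0 n).W (p0 * n) i j + (D₂.pb p0 n).W (p0 * n) i j =
      n ^ 2 * V i j + n.choose 2 * U i j := by
    intro i hi j hj
    rw [Base.pb_W h₁ hp hb₁ n hi hj, Base.pb_W h₂ hp hb₂ n hi hj]
    ring
  have h := sum_blow_symm N (fun i j => n ^ 2 * V i j + n.choose 2 * U i j) (by
    intro i hi j hj
    simp only [hVdef, hUdef]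
    rw [hVs i hi j hj, hUs i hi j hj]) m
  have e1 : ∑ x ∈ (range (N * m) ×ˢ range (N * m)).filter (fun x => x.1 < x.2),
      ((D₁.pb p0 n).W (p0 * n) (x.1 % N) (x.2 % N) + (D₂.pb p0 n).W (p0 * n) (x.1 % N) (x.2 % N)) =
      ∑ x ∈ (range (N * m) ×ˢ range (N * m)).filter (fun x => x.1 < x.2),
        (fun i j => n ^ 2 * V i j + n.choose 2 * U i j) (x.1 % N) (x.2 % N) :=
    sum_congr rfl (fun x _ => hF _ (Nat.mod_lt _ hN) _ (Nat.mod_lt _ hN))
  rw [e1, h, sum_lin2 N (n ^ 2) (n.choose 2) V U,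
    sum_lin1 N (n ^ 2) (n.choose 2) (fun i => V i i) (fun i => U i i)]
  have f1 : ∑ j ∈ range N, ∑ i ∈ range j, V i j = S := hV
  have f2 : ∑ i ∈ range N, V i i = S' := hVd
  have f3 : ∑ j ∈ range N, ∑ i ∈ range j, U i j = R := hU
  have f4 : ∑ i ∈ range N, U i i = R' := hUd
  rw [f1, f2, f3, f4]

/-- The bound for all sizes. -/
theorem crTwo_le_all {p0 N : ℕ} {D₁ D₂ : Base} (h₁ : D₁.Valid p0 N) (h₂ : D₂.Valid p0 N)
    (hN : 0 < N) (hp : 0 < p0) (hb₁ : ∀ i a, D₁.nb i a = false) (hb₂ : ∀ i a, D₂.nb i a = false)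
    (hT : ∀ i < N, ∀ a < p0, D₂.T i a = !(D₁.T i a))
    (hVs : ∀ i < N, ∀ j < N, D₁.W p0 i j + D₂.W p0 i j = D₁.W p0 j i + D₂.W p0 j i)
    (hUs : ∀ i < N, ∀ j < N, D₁.Y p0 i j + D₂.Y p0 i j = D₁.Y p0 j i + D₂.Y p0 j i)
    {S S' R R' : ℕ}
    (hV : ∑ j ∈ range N, ∑ i ∈ range j, (D₁.W p0 i j + D₂.W p0 i j) = S)
    (hVd : ∑ i ∈ range N, (D₁.W p0 i i + D₂.W p0 i i) = S')
    (hU : ∑ j ∈ range N, ∑ i ∈ range j, (D₁.Y p0 i j + D₂.Y p0 i j) = R)
    (hUd : ∑ i ∈ range N, (D₁.Y p0 i i + D₂.Y p0 i i) = R')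
    {p q n m : ℕ} (hpn : p ≤ p0 * n) (hqm : q ≤ N * m) :
    4 * crTwo (completeBipartiteGraph (Fin p) (Fin q)) ≤
      (((4 * S + 2 * R + 2 * S' + R') * n ^ 2 * m ^ 2 : ℕ) : ℕ∞) := by
  have h := (crTwo_mono hpn hqm).trans
    (crTwo_le_two h₁ h₂ hN hp hb₁ hb₂ hT hVs hUs hV hVd hU hUd n m)
  have hch : ∀ k : ℕ, 2 * k.choose 2 ≤ k ^ 2 := by
    intro k
    have h3 : k.choose 2 * 2 = k * (k - 1) := by
      rw [Nat.choose_two_right]
      exact Nat.div_mul_cancel (Nat.even_mul_pred_self k).two_dvd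
    have h4 : k * (k - 1) ≤ k * k := Nat.mul_le_mul_left _ (Nat.sub_le _ _)
    nlinarith
  have h5 : 4 * (m ^ 2 * (n ^ 2 * S + n.choose 2 * R) +
      m.choose 2 * (n ^ 2 * S' + n.choose 2 * R')) ≤ (4 * S + 2 * R + 2 * S' + R') * n ^ 2 * m ^ 2 := by
    have hn := hch n
    have hm := hch m
    have g1 : 2 * n.choose 2 * (2 * m ^ 2 * R) ≤ n ^ 2 * (2 * m ^ 2 * R) := Nat.mul_le_mul_right _ hn
    have g2 : 2 * m.choose 2 * (2 * n ^ 2 * S') ≤ m ^ 2 * (2 * n ^ 2 * S') :=
      Nat.mul_le_mul_right _ hm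
    have g3 : (2 * m.choose 2) * (2 * n.choose 2) * R' ≤ m ^ 2 * n ^ 2 * R' :=
      Nat.mul_le_mul_right _ (Nat.mul_le_mul hm hn)
    nlinarith
  calc 4 * crTwo (completeBipartiteGraph (Fin p) (Fin q))
      ≤ 4 * ((m ^ 2 * (n ^ 2 * S + n.choose 2 * R) + m.choose 2 * (n ^ 2 * S' + n.choose 2 * R') :
          ℕ) : ℕ∞) := by gcongr
    _ = ((4 * (m ^ 2 * (n ^ 2 * S + n.choose 2 * R) +
      m.choose 2 * (n ^ 2 * S' + n.choose 2 * R')) : ℕ) : ℕ∞) := by push_cast; ring
    _ ≤ _ := by exact_mod_cast h5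

end Pool.Agent.Lib.MP_266831_co.Upper
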